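import Pool.Agent.Work.MP_80f671_an.Jets

/-!
The defining function vanishes to infinite order along the formal leaf.
-/

namespace Pool.Agent.Work.MP_80f671_an

open Finset MvPolynomial

section conj

variable {n : ℕ} {R ι : Type*} [CommRing R] [Algebra ℂ R]

/-- Conjugation on the jet algebra. -/
noncomputable def jconj (σ : R →+* R) :
    MvPolynomial (Gen n R ι) ℂ →+* MvPolynomial (Gen n R ι) ℂ :=
  eval₂Hom (C.comp (starRingEnd ℂ)) (fun g => match g with
    | Gen.fn f => X (Gen.fn (σ f))
    | Gen.z l α => X (Gen.w l α)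
    | Gen.w l α => X (Gen.z l α))

variable (σ : R →+* R)

@[simp] lemma jconj_C (a : ℂ) : jconj (n := n) (ι := ι) σ (C a) = C ((starRingEnd ℂ) a) := by
  simp [jconj]

@[simp] lemma jconj_fn (f : R) :
    jconj (n := n) (ι := ι) σ (X (Gen.fn f)) = X (Gen.fn (σ f)) := by
  simp [jconj]

@[simp] lemma jconj_z (l : Fin n) (α : Multiset ι) :
    jconj σ (X (Gen.z l α)) = X (Gen.w l α) := by
  simp [jconj]

@[simp] lemma jconj_w (l : Fin n) (α : Multiset ι) :
    jconj σ (X (Gen.w l α)) = X (Gen.z l α) := by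
  simp [jconj]

variable (D Db : Fin n → Derivation ℂ R R)

lemma jconj_jA (h : ∀ a f, σ (D a f) = Db a (σ f)) (i : ι) (u : MvPolynomial (Gen n R ι) ℂ) :
    jconj σ (jA D i u) = jB Db i (jconj σ u) := by
  induction u using MvPolynomial.induction_on with
  | C a =>
    have h1 : jA D i (C a) = 0 := by
      rw [← algebraMap_eq]
      exact Derivation.map_algebraMap _ _
    have h2 : jB (ι := ι) Db i (C ((starRingEnd ℂ) a)) = 0 := by
      rw [← algebraMap_eq]
      exact Derivation.map_algebraMap _ _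
    rw [h1, map_zero, jconj_C, h2]
  | add p q hp hq => rw [map_add, map_add, hp, hq, map_add, map_add]
  | mul_X p g hp =>
    rw [Derivation.leibniz, map_add, smul_eq_mul, smul_eq_mul, map_mul, map_mul, hp, map_mul,
      Derivation.leibniz, smul_eq_mul, smul_eq_mul]
    congr 2
    cases g with
    | fn f =>
      rw [jA_fn, jconj_fn, jB_fn, map_sum]
      refine sum_congr rfl fun a _ => ?_
      rw [map_mul, jconj_fn, jconj_z, h]
    | z l α => rw [jA_z, jconj_z, jconj_z, jB_w]
    | w l α => rw [jA_w, jconj_w, jB_z, map_zero]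

lemma jconj_jB (h : ∀ a f, σ (Db a f) = D a (σ f)) (i : ι) (u : MvPolynomial (Gen n R ι) ℂ) :
    jconj σ (jB Db i u) = jA D i (jconj σ u) := by
  induction u using MvPolynomial.induction_on with
  | C a =>
    have h1 : jB Db i (C a) = 0 := by
      rw [← algebraMap_eq]
      exact Derivation.map_algebraMap _ _
    have h2 : jA (ι := ι) D i (C ((starRingEnd ℂ) a)) = 0 := by
      rw [← algebraMap_eq]
      exact Derivation.map_algebraMap _ _
    rw [h1, map_zero, jconj_C, h2]
  | add p q hp hq => rw [map_add, map_add, hp, hq, map_add, map_add]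
  | mul_X p g hp =>
    rw [Derivation.leibniz, map_add, smul_eq_mul, smul_eq_mul, map_mul, map_mul, hp, map_mul,
      Derivation.leibniz, smul_eq_mul, smul_eq_mul]
    congr 2
    cases g with
    | fn f =>
      rw [jB_fn, jconj_fn, jA_fn, map_sum]
      refine sum_congr rfl fun a _ => ?_
      rw [map_mul, jconj_fn, jconj_w, h]
    | z l α => rw [jB_z, jconj_z, jA_w, map_zero]
    | w l α => rw [jB_w, jconj_w, jconj_w, jA_z]

lemma jconj_jD (h : ∀ a f, σ (D a f) = Db a (σ f)) (h' : ∀ a f, σ (Db a f) = D a (σ f))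
    (d : ι ⊕ ι) (u : MvPolynomial (Gen n R ι) ℂ) :
    jconj σ (jD D Db d u) = jD D Db d.swap (jconj σ u) := by
  rcases d with i | i
  · exact jconj_jA σ D Db h i u
  · exact jconj_jB σ D Db h' i u

lemma jconj_jw (h : ∀ a f, σ (D a f) = Db a (σ f)) (h' : ∀ a f, σ (Db a f) = D a (σ f))
    (w : List (ι ⊕ ι)) : ∀ (u : MvPolynomial (Gen n R ι) ℂ),
    jconj σ (jw D Db w u) = jw D Db (w.map Sum.swap) (jconj σ u) := by
  induction w with
  | nil => intro u; rfl
  | cons d w ih =>
    intro u
    rw [jw_cons, ih, jconj_jD σ D Db h h', List.map_cons, jw_cons]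

end conj

namespace KSet

variable {n : ℕ} {R K : Type*} [CommRing R] [Algebra ℂ R] [Field K] [Algebra ℂ K]
  (S : KSet n R K)

/-- Evaluation of the jet algebra in `K` along formal Taylor coefficients. -/
noncomputable def ev {ι : Type*} (Z : Fin n → Multiset ι → K) :
    MvPolynomial (Gen n R ι) ℂ →ₐ[ℂ] K :=
  jev S.π Z (fun l α => S.c (Z l α))

/-- The positivity property. -/
def Pos : Prop :=
  ∀ (ι : Type) [Fintype ι] [DecidableEq ι] (Z : Fin n → Multiset ι → K),
    (∀ l, Z l 0 = S.π (S.z l)) → ∀ (v : ι → K) (ξ : ι → ℂ) (J : ℕ), Odd J →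
    (∀ j < J, ∑ a, ∑ b, v a * S.c (v b) *
      S.ev Z ((jXi S.D S.Db ξ)^[j] (jA S.D a (jB S.Db b (X (Gen.fn S.r))))) = 0) →
    (∀ j ≤ J, ∑ a, v a * S.ev Z ((jXi S.D S.Db ξ)^[j] (jA S.D a (X (Gen.fn S.r)))) = 0) →
    (∀ j ≤ J, S.ev Z ((jXi S.D S.Db ξ)^[j] (X (Gen.fn S.r))) = 0) →
    ∑ a, ∑ b, v a * S.c (v b) *
      S.ev Z ((jXi S.D S.Db ξ)^[J] (jA S.D a (jB S.Db b (X (Gen.fn S.r))))) = 0

section words

variable {ι : Type} [Fintype ι] [DecidableEq ι] (Z : Fin n → Multiset ι → K)

/-- The functional used for polarisation. -/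
noncomputable def wfun {κ : Type} [Fintype κ] (cf : κ → K) :
    (κ → MvPolynomial (Gen n R ι) ℂ) →ₗ[ℂ] K where
  toFun := fun x => ∑ k, cf k * S.ev Z (x k)
  map_add' := fun x y => by
    rw [← sum_add_distrib]
    exact sum_congr rfl fun k _ => by rw [Pi.add_apply, map_add, mul_add]
  map_smul' := fun t x => by
    rw [RingHom.id_apply, smul_sum]
    exact sum_congr rfl fun k _ => by
      rw [Pi.smul_apply, map_smul, Algebra.smul_def, Algebra.smul_def]
      ring

/-- The operators used for polarisation. -/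
noncomputable def wop (κ : Type) (d : ι ⊕ ι) :
    (κ → MvPolynomial (Gen n R ι) ℂ) →ₗ[ℂ] (κ → MvPolynomial (Gen n R ι) ℂ) :=
  LinearMap.compLeft (jD S.D S.Db d).toLinearMap κ

omit [Fintype ι] [DecidableEq ι] in
lemma wop_apply (κ : Type) (d : ι ⊕ ι) (x : κ → MvPolynomial (Gen n R ι) ℂ) (k : κ) :
    S.wop κ d x k = jD S.D S.Db d (x k) := rfl

omit [Fintype ι] [DecidableEq ι] in
lemma wop_foldl (κ : Type) (w : List (ι ⊕ ι)) : ∀ (x : κ → MvPolynomial (Gen n R ι) ℂ) (k : κ),
    (w.foldl (fun u d => S.wop κ d u) x) k = jw S.D S.Db w (x k) := by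
  induction w with
  | nil => intro x k; rfl
  | cons d w ih => intro x k; rw [List.foldl_cons, ih, jw_cons, wop_apply]

omit [DecidableEq ι] in
lemma wop_realDir (κ : Type) (ξ : ι → ℂ) (x : κ → MvPolynomial (Gen n R ι) ℂ) (k : κ) :
    realDir (S.wop κ) ξ x k = jXi S.D S.Db ξ (x k) := by
  rw [jXi_apply]
  unfold realDir
  rw [LinearMap.sum_apply, Finset.sum_apply]
  rfl

omit [DecidableEq ι] in
lemma wop_realDir_pow (κ : Type) (ξ : ι → ℂ) (j : ℕ) :
    ∀ (x : κ → MvPolynomial (Gen n R ι) ℂ) (k : κ),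
    (realDir (S.wop κ) ξ ^ j) x k = (jXi S.D S.Db ξ)^[j] (x k) := by
  induction j with
  | zero => intro x k; rfl
  | succ j ih =>
    intro x k
    rw [pow_succ]
    change (realDir (S.wop κ) ξ ^ j) (realDir (S.wop κ) ξ x) k = _
    rw [ih, wop_realDir, Function.iterate_succ_apply]

omit [DecidableEq ι] in
lemma words_to_pow {κ : Type} [Fintype κ] (cf : κ → K) (x : κ → MvPolynomial (Gen n R ι) ℂ)
    (j : ℕ) (h : ∀ w : List (ι ⊕ ι), w.length = j →
      ∑ k, cf k * S.ev Z (jw S.D S.Db w (x k)) = 0) (ξ : ι → ℂ) :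
    ∑ k, cf k * S.ev Z ((jXi S.D S.Db ξ)^[j] (x k)) = 0 := by
  have := realDir_pow_zero (A := S.wop κ) (S.wfun Z cf) j x (by
    intro w hw
    rw [← h w hw]
    change ∑ k, cf k * S.ev Z _ = _
    refine sum_congr rfl fun k _ => ?_
    rw [wop_foldl]) ξ
  rw [← this]
  change _ = ∑ k, cf k * S.ev Z _
  refine sum_congr rfl fun k _ => ?_
  rw [wop_realDir_pow]

omit [DecidableEq ι] in
lemma pow_to_words {κ : Type} [Fintype κ] (cf : κ → K) (x : κ → MvPolynomial (Gen n R ι) ℂ)
    (j : ℕ) (h : ∀ ξ : ι → ℂ, ∑ k, cf k * S.ev Z ((jXi S.D S.Db ξ)^[j] (x k)) = 0)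
    (w : List (ι ⊕ ι)) (hw : w.length = j) :
    ∑ k, cf k * S.ev Z (jw S.D S.Db w (x k)) = 0 := by
  have hA : ∀ d e x, S.wop (ι := ι) κ d (S.wop κ e x) = S.wop κ e (S.wop κ d x) := by
    intro d e x
    funext k
    simp only [wop_apply]
    exact jD_comm S.D S.Db S.DD S.DbDb S.DDb d e (x k)
  have := polarization hA (S.wfun Z cf) j x (by
    intro ξ
    rw [← h ξ]
    change ∑ k, cf k * S.ev Z _ = _
    refine sum_congr rfl fun k _ => ?_
    rw [wop_realDir_pow]) w hw
  rw [← this]
  change _ = ∑ k, cf k * S.ev Z _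
  refine sum_congr rfl fun k _ => ?_
  rw [wop_foldl]

/-- The positivity property for words. -/
theorem pos_words (hP : S.Pos) (hZ0 : ∀ l, Z l 0 = S.π (S.z l)) (v : ι → K) (J : ℕ) (hJ : Odd J)
    (h1 : ∀ w : List (ι ⊕ ι), w.length < J → ∑ a, ∑ b, v a * S.c (v b) *
      S.ev Z (jw S.D S.Db w (jA S.D a (jB S.Db b (X (Gen.fn S.r))))) = 0)
    (h2 : ∀ w : List (ι ⊕ ι), w.length ≤ J →
      ∑ a, v a * S.ev Z (jw S.D S.Db w (jA S.D a (X (Gen.fn S.r)))) = 0)
    (h3 : ∀ w : List (ι ⊕ ι), w.length ≤ J → S.ev Z (jw S.D S.Db w (X (Gen.fn S.r))) = 0)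
    (w : List (ι ⊕ ι)) (hw : w.length = J) :
    ∑ a, ∑ b, v a * S.c (v b) *
      S.ev Z (jw S.D S.Db w (jA S.D a (jB S.Db b (X (Gen.fn S.r))))) = 0 := by
  have hpair : ∀ F : ι → ι → K, ∑ a, ∑ b, F a b = ∑ k : ι × ι, F k.1 k.2 := by
    intro F
    rw [Fintype.sum_prod_type]
  have h1' : ∀ j < J, ∀ ξ : ι → ℂ, ∑ a, ∑ b, v a * S.c (v b) *
      S.ev Z ((jXi S.D S.Db ξ)^[j] (jA S.D a (jB S.Db b (X (Gen.fn S.r))))) = 0 := by
    intro j hj ξ
    rw [hpair]
    refine S.words_to_pow Z (κ := ι × ι) (fun k => v k.1 * S.c (v k.2))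
      (fun k => jA S.D k.1 (jB S.Db k.2 (X (Gen.fn S.r)))) j ?_ ξ
    intro w hw
    rw [← hpair (fun a b => v a * S.c (v b) *
      S.ev Z (jw S.D S.Db w (jA S.D a (jB S.Db b (X (Gen.fn S.r))))))]
    exact h1 w (by omega)
  have h2' : ∀ j ≤ J, ∀ ξ : ι → ℂ,
      ∑ a, v a * S.ev Z ((jXi S.D S.Db ξ)^[j] (jA S.D a (X (Gen.fn S.r)))) = 0 := by
    intro j hj ξ
    exact S.words_to_pow Z (κ := ι) v (fun k => jA S.D k (X (Gen.fn S.r))) j
      (fun w hw => h2 w (by omega)) ξ
  have h3' : ∀ j ≤ J, ∀ ξ : ι → ℂ, S.ev Z ((jXi S.D S.Db ξ)^[j] (X (Gen.fn S.r))) = 0 := by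
    intro j hj ξ
    have := S.words_to_pow Z (κ := Unit) (fun _ => 1) (fun _ => (X (Gen.fn S.r))) j
      (fun w hw => by simpa using h3 w (by omega)) ξ
    simpa using this
  rw [hpair]
  refine S.pow_to_words Z (κ := ι × ι) (fun k => v k.1 * S.c (v k.2))
      (fun k => jA S.D k.1 (jB S.Db k.2 (X (Gen.fn S.r)))) J ?_ w hw
  intro ξ
  rw [← hpair (fun a b => v a * S.c (v b) *
      S.ev Z ((jXi S.D S.Db ξ)^[J] (jA S.D a (jB S.Db b (X (Gen.fn S.r))))))]
  exact hP ι Z hZ0 v ξ J hJ (fun j hj => h1' j hj ξ) (fun j hj => h2' j hj ξ)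
    (fun j hj => h3' j hj ξ)

end words

lemma c_algebraMap (t : ℂ) : S.c (algebraMap ℂ K t) = algebraMap ℂ K ((starRingEnd ℂ) t) := by
  rw [Algebra.algebraMap_eq_smul_one, S.csmul, map_one, Algebra.algebraMap_eq_smul_one]

lemma c_ev {ι : Type*} (Z : Fin n → Multiset ι → K) (u : MvPolynomial (Gen n R ι) ℂ) :
    S.c (S.ev Z u) = S.ev Z (jconj S.σ u) := by
  have h : (S.c.comp (S.ev Z : MvPolynomial (Gen n R ι) ℂ →+* K))
      = (S.ev Z : MvPolynomial (Gen n R ι) ℂ →+* K).comp (jconj S.σ) := by
    apply MvPolynomial.ringHom_ext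
    · intro t
      simp only [RingHom.comp_apply, RingHom.coe_coe, jconj_C]
      rw [← algebraMap_eq, AlgHom.commutes, AlgHom.commutes, S.c_algebraMap]
    · intro g
      simp only [RingHom.comp_apply, RingHom.coe_coe]
      cases g with
      | fn f => rw [jconj_fn, ev, jev_fn, jev_fn, S.cπ]
      | z l α => rw [jconj_z, ev, jev_z, jev_w]
      | w l α => rw [jconj_w, ev, jev_z, jev_w, S.cc]
  exact congrArg (fun φ : MvPolynomial (Gen n R ι) ℂ →+* K => φ u) h

lemma c_ev_jw {ι : Type*} (Z : Fin n → Multiset ι → K) (w : List (ι ⊕ ι)) :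
    S.c (S.ev Z (jw S.D S.Db w (X (Gen.fn S.r))))
      = S.ev Z (jw S.D S.Db (w.map Sum.swap) (X (Gen.fn S.r))) := by
  rw [S.c_ev, jconj_jw S.σ S.D S.Db S.σD S.σDb, jconj_fn, S.σr]

section leaf

variable {L : Derivation ℂ K K} {ι : Type} [Fintype ι] [DecidableEq ι]
  (F : Leaf S (lieGen L (S.cD L)) ι)

/-- Transport: vector fields of the Lie algebra act on evaluated jets by the formal derivations. -/
theorem transport (hG : lieGen L (S.cD L) ≤ S.VF) {Y : Derivation ℂ K K}
    (hY : Y ∈ lieGen L (S.cD L)) (u : MvPolynomial (Gen n R ι) ℂ) :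
    Y (S.ev F.Z u) = (∑ i, S.hc Y (F.e i) * S.ev F.Z (jA S.D i u))
      + ∑ i, S.ac Y (F.e i) * S.ev F.Z (jB S.Db i u) := by
  induction u using MvPolynomial.induction_on with
  | C a =>
    have h1 : ∀ i : ι, jA S.D i (C a) = 0 := fun i => by
      rw [← algebraMap_eq]
      exact Derivation.map_algebraMap _ _
    have h2 : ∀ i : ι, jB S.Db i (C a) = 0 := fun i => by
      rw [← algebraMap_eq]
      exact Derivation.map_algebraMap _ _
    have h3 : Y (S.ev F.Z (C a)) = 0 := by
      rw [← algebraMap_eq, AlgHom.commutes]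
      exact Derivation.map_algebraMap _ _
    simp [h1, h2, h3]
  | add p q hp hq =>
    rw [map_add, map_add, hp, hq]
    simp only [map_add, mul_add, sum_add_distrib]
    ring
  | mul_X p g hp =>
    have hgen : Y (S.ev F.Z (X g)) = (∑ i, S.hc Y (F.e i) * S.ev F.Z (jA S.D i (X g)))
      + ∑ i, S.ac Y (F.e i) * S.ev F.Z (jB S.Db i (X g)) := by
      have hcY := S.cD_lieGen hY
      have hcomp : ∀ Y ∈ lieGen L (S.cD L), ∀ a, S.hc Y a
          = ∑ i, S.hc Y (F.e i) * F.Z a {i} := by
        intro Y hY a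
        have := F.Z1 Y hY a 0
        rw [F.Z0] at this
        exact this
      have hcompb : ∀ a, S.ac Y a = ∑ i, S.ac Y (F.e i) * S.c (F.Z a {i}) := by
        intro a
        have := congrArg S.c (hcomp _ hcY a)
        rw [S.hc_cD, S.cc, map_sum] at this
        rw [this]
        refine sum_congr rfl fun i _ => ?_
        rw [map_mul, S.hc_cD, S.cc]
      cases g with
      | fn f =>
        have e1 : S.ev F.Z (X (Gen.fn f)) = S.π f := by rw [ev, jev_fn]
        rw [e1, S.VF_apply (hG hY), sum_add_distrib]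
        congr 1
        · have : ∀ i, S.hc Y (F.e i) * S.ev F.Z (jA S.D i (X (Gen.fn f)))
              = ∑ a, (S.hc Y (F.e i) * F.Z a {i}) * S.π (S.D a f) := by
            intro i
            rw [jA_fn, map_sum, mul_sum]
            refine sum_congr rfl fun a _ => ?_
            rw [map_mul, ev, jev_fn, jev_z]
            ring
          rw [sum_congr rfl fun i _ => this i, sum_comm]
          refine sum_congr rfl fun a _ => ?_
          rw [← sum_mul, ← hcomp Y hY a]
        · have : ∀ i, S.ac Y (F.e i) * S.ev F.Z (jB S.Db i (X (Gen.fn f)))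
              = ∑ a, (S.ac Y (F.e i) * S.c (F.Z a {i})) * S.π (S.Db a f) := by
            intro i
            rw [jB_fn, map_sum, mul_sum]
            refine sum_congr rfl fun a _ => ?_
            rw [map_mul, ev, jev_fn, jev_w]
            ring
          rw [sum_congr rfl fun i _ => this i, sum_comm]
          refine sum_congr rfl fun a _ => ?_
          rw [← sum_mul, ← hcompb a]
      | z l α =>
        have e1 : ∀ α, S.ev F.Z (X (Gen.z l α)) = F.Z l α := fun α => by rw [ev, jev_z]
        simp only [jA_z, jB_z, e1, map_zero, mul_zero, sum_const_zero, add_zero]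
        exact F.Z1 Y hY l α
      | w l α =>
        have e1 : ∀ α, S.ev F.Z (X (Gen.w l α)) = S.c (F.Z l α) := fun α => by rw [ev, jev_w]
        simp only [jA_w, jB_w, e1, map_zero, mul_zero, sum_const_zero, zero_add]
        have := congrArg S.c (F.Z1 _ hcY l α)
        rw [cD_apply, S.cc, map_sum] at this
        rw [this]
        refine sum_congr rfl fun i _ => ?_
        rw [map_mul, S.hc_cD, S.cc]
    rw [map_mul, Derivation.leibniz, hp, hgen]
    have e1 : ∀ i, S.hc Y (F.e i) * S.ev F.Z (jA S.D i (p * X g))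
        = S.ev F.Z p * (S.hc Y (F.e i) * S.ev F.Z (jA S.D i (X g)))
          + S.ev F.Z (X g) * (S.hc Y (F.e i) * S.ev F.Z (jA S.D i p)) := by
      intro i
      rw [Derivation.leibniz, smul_eq_mul, smul_eq_mul, map_add, map_mul, map_mul]
      ring
    have e2 : ∀ i, S.ac Y (F.e i) * S.ev F.Z (jB S.Db i (p * X g))
        = S.ev F.Z p * (S.ac Y (F.e i) * S.ev F.Z (jB S.Db i (X g)))
          + S.ev F.Z (X g) * (S.ac Y (F.e i) * S.ev F.Z (jB S.Db i p)) := by
      intro i
      rw [Derivation.leibniz, smul_eq_mul, smul_eq_mul, map_add, map_mul, map_mul]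
      ring
    rw [sum_congr rfl fun i _ => e1 i, sum_congr rfl fun i _ => e2 i, sum_add_distrib,
      sum_add_distrib, ← mul_sum, ← mul_sum, ← mul_sum, ← mul_sum, smul_eq_mul, smul_eq_mul]
    ring

/-- Sesquilinear polarisation. -/
lemma sesq_zero {ι : Type} [Fintype ι] [DecidableEq ι] (E : ι → ι → K)
    (h : ∀ ν : ι → ℂ, ∑ a, ∑ b, algebraMap ℂ K (ν a) * algebraMap ℂ K ((starRingEnd ℂ) (ν b)) *
      E a b = 0) (a b : ι) : E a b = 0 := by
  haveI : CharZero K := charZero_of_injective_algebraMap (algebraMap ℂ K).injective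
  set T : (ι → ℂ) → (ι → ℂ) → K := fun ν μ => ∑ a, ∑ b, algebraMap ℂ K (ν a) *
    algebraMap ℂ K ((starRingEnd ℂ) (μ b)) * E a b with hT
  have hadd1 : ∀ ν ν' μ, T (ν + ν') μ = T ν μ + T ν' μ := by
    intro ν ν' μ
    simp only [hT, Pi.add_apply, map_add, add_mul, sum_add_distrib]
  have hadd2 : ∀ ν μ μ', T ν (μ + μ') = T ν μ + T ν μ' := by
    intro ν μ μ'
    simp only [hT, Pi.add_apply, map_add, add_mul, mul_add, sum_add_distrib]
  have hs1 : ∀ (t : ℂ) ν μ, T (t • ν) μ = algebraMap ℂ K t * T ν μ := by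
    intro t ν μ
    simp only [hT, mul_sum, Pi.smul_apply, smul_eq_mul, map_mul]
    exact sum_congr rfl fun _ _ => sum_congr rfl fun _ _ => by ring
  have hs2 : ∀ (t : ℂ) ν μ, T ν (t • μ) = algebraMap ℂ K ((starRingEnd ℂ) t) * T ν μ := by
    intro t ν μ
    simp only [hT, mul_sum, Pi.smul_apply, smul_eq_mul, map_mul]
    exact sum_congr rfl fun _ _ => sum_congr rfl fun _ _ => by ring
  have hsingle : T (Pi.single a 1) (Pi.single b 1) = E a b := by
    simp only [hT]
    rw [sum_eq_single a, sum_eq_single b]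
    · simp
    · intro c _ hc
      simp [Pi.single_eq_of_ne hc]
    · simp
    · intro c _ hc
      simp [Pi.single_eq_of_ne hc]
    · simp
  have h0 : ∀ ν, T ν ν = 0 := h
  have h1 := h0 (Pi.single a 1 + Pi.single b 1)
  have h2 := h0 (Pi.single a 1 + Complex.I • Pi.single b 1)
  rw [hadd1, hadd2, hadd2, h0, h0] at h1
  rw [hadd1, hadd2, hadd2, h0, h0, hs1, hs2, Complex.conj_I, map_neg] at h2
  have hI : (algebraMap ℂ K Complex.I) ≠ 0 := by
    rw [map_ne_zero]
    exact Complex.I_ne_zero
  have h3 : algebraMap ℂ K Complex.I * (T (Pi.single b 1) (Pi.single a 1)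
      - T (Pi.single a 1) (Pi.single b 1)) = 0 := by linear_combination h2
  have h4 := (mul_eq_zero.1 h3).resolve_left hI
  rw [← hsingle]
  have h5 : (2 : K) * T (Pi.single a 1) (Pi.single b 1) = 0 := by
    linear_combination h1 - h4
  exact (mul_eq_zero.1 h5).resolve_left two_ne_zero

/-- The main induction, in terms of the array of jets of `r`. -/
theorem all_vanish_aux (e : ι → Fin n) (Xv : ι → Derivation ℂ K K)
    (hX : ∀ i, Xv i ∈ lieGen L (S.cD L))
    (hXe : ∀ i j, S.hc (Xv i) (e j) = if i = j then 1 else 0)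
    (U : List (ι ⊕ ι) → K) (hU0 : U [] = 0) (hU1 : ∀ i, U [Sum.inl i] = 0)
    (hperm : ∀ {w w' : List (ι ⊕ ι)}, w.Perm w' → U w = U w')
    (hc : ∀ w, S.c (U w) = U (w.map Sum.swap))
    (htr : ∀ {Y : Derivation ℂ K K}, Y ∈ lieGen L (S.cD L) → ∀ w : List (ι ⊕ ι),
      Y (U w) = (∑ i, S.hc Y (e i) * U (Sum.inl i :: w))
        + ∑ i, S.ac Y (e i) * U (Sum.inr i :: w))
    (hpos : ∀ (v : ι → K) (J : ℕ), Odd J →
      (∀ w : List (ι ⊕ ι), w.length < J → ∑ a, ∑ b, v a * S.c (v b) *
        U (Sum.inr b :: Sum.inl a :: w) = 0) →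
      (∀ w : List (ι ⊕ ι), w.length ≤ J → ∑ a, v a * U (Sum.inl a :: w) = 0) →
      (∀ w : List (ι ⊕ ι), w.length ≤ J → U w = 0) →
      ∀ w : List (ι ⊕ ι), w.length = J → ∑ a, ∑ b, v a * S.c (v b) *
        U (Sum.inr b :: Sum.inl a :: w) = 0)
    (hL0 : ∀ a, S.ac L a = 0) (w : List (ι ⊕ ι)) : U w = 0 := by
  classical
  haveI : CharZero K := charZero_of_injective_algebraMap (algebraMap ℂ K).injective
  -- the induction on the length
  suffices H : ∀ k, ∀ w : List (ι ⊕ ι), w.length = k → U w = 0 from H _ w rfl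
  intro k
  induction k using Nat.strong_induction_on with
  | _ k ih =>
  have ih' : ∀ w : List (ι ⊕ ι), w.length < k → U w = 0 := fun w hw => ih _ hw w rfl
  have hconj : (∀ i (w : List (ι ⊕ ι)), w.length + 1 = k → U (Sum.inl i :: w) = 0) →
      ∀ w : List (ι ⊕ ι), w.length = k → 1 ≤ k → U w = 0 := by
    intro h w hw hk
    cases w with
    | nil => simp at hw; omega
    | cons d w =>
      rcases d with i | i
      · exact h i w (by simpa using hw)
      · have h1 := h i (w.map Sum.swap) (by simpa using hw)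
        have h2 := hc (Sum.inr i :: w)
        rw [List.map_cons, Sum.swap_inr, h1] at h2
        have h5 := congrArg S.c h2
        rwa [S.cc, map_zero] at h5
  rcases Nat.eq_zero_or_pos k with rfl | hkpos
  · intro w hw
    rw [List.length_eq_zero_iff] at hw
    subst hw
    exact hU0
  rcases Nat.even_or_odd k with hkeven | hkodd
  · -- even case
    have hA0 : ∀ {Y : Derivation ℂ K K}, Y ∈ lieGen L (S.cD L) → ∀ w : List (ι ⊕ ι),
        w.length + 1 = k →
        (∑ i, S.hc Y (e i) * U (Sum.inl i :: w))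
        + ∑ i, S.ac Y (e i) * U (Sum.inr i :: w) = 0 := by
      intro Y hY w hw
      have h1 := htr hY w
      rw [ih' w (by omega), map_zero] at h1
      exact h1.symm
    let Dm : Submodule K (Derivation ℂ K K) :=
      { carrier := {Y | Y ∈ lieGen L (S.cD L) ∧ ∀ w : List (ι ⊕ ι), w.length + 1 = k →
          ∑ i, S.ac Y (e i) * U (Sum.inr i :: w) = 0}
        add_mem' := by
          rintro X Y ⟨hX, hX'⟩ ⟨hY, hY'⟩
          refine ⟨Submodule.add_mem _ hX hY, fun w hw => ?_⟩
          have : ∀ i, S.ac (X + Y) (e i) = S.ac X (e i) + S.ac Y (e i) := fun i => rfl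
          simp only [this, add_mul, sum_add_distrib, hX' w hw, hY' w hw, add_zero]
        zero_mem' := by
          refine ⟨Submodule.zero_mem _, fun w hw => ?_⟩
          have : ∀ i, S.ac (0 : Derivation ℂ K K) (e i) = 0 := fun i => rfl
          simp only [this, zero_mul, sum_const_zero]
        smul_mem' := by
          rintro t X ⟨hX, hX'⟩
          refine ⟨Submodule.smul_mem _ t hX, fun w hw => ?_⟩
          have : ∀ i, S.ac (t • X) (e i) = t * S.ac X (e i) := fun i => rfl
          simp only [this, mul_assoc]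
          rw [← mul_sum, hX' w hw, mul_zero] }
    have hLW : L ∈ lieGen L (S.cD L) := left_mem_lieGen
    have hLbW : S.cD L ∈ lieGen L (S.cD L) := right_mem_lieGen
    have hDmL : L ∈ Dm := by
      refine ⟨hLW, fun w hw => ?_⟩
      simp [hL0]
    have hhcLb : ∀ a, S.hc (S.cD L) a = 0 := fun a => by rw [S.hc_cD, hL0, map_zero]
    have hDmLb : S.cD L ∈ Dm := by
      refine ⟨hLbW, fun w hw => ?_⟩
      have := hA0 hLbW w hw
      simpa [hhcLb] using this
    have hhol : ∀ {Y : Derivation ℂ K K}, Y ∈ Dm → ∀ w : List (ι ⊕ ι), w.length + 1 = k →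
        ∑ i, S.hc Y (e i) * U (Sum.inl i :: w) = 0 := by
      intro Y hY w hw
      have := hA0 hY.1 w hw
      rwa [hY.2 w hw, add_zero] at this
    have hDmc : ∀ {Y : Derivation ℂ K K}, Y ∈ Dm → S.cD Y ∈ Dm := by
      intro Y hY
      refine ⟨S.cD_lieGen hY.1, fun w hw => ?_⟩
      have h1 := hhol hY (w.map Sum.swap) (by simpa using hw)
      have h2 := congrArg S.c h1
      rw [map_sum, map_zero] at h2
      rw [← h2]
      refine sum_congr rfl fun i _ => ?_
      rw [map_mul, S.ac_cD, hc, List.map_cons, List.map_map, Sum.swap_inl]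
      congr 3
      simp
    -- the key second order identity
    have hkey : ∀ {Y : Derivation ℂ K K}, Y ∈ Dm → ∀ w : List (ι ⊕ ι), w.length + 1 = k →
        ∑ i, ∑ j, S.hc L (e i) * S.ac Y (e j) * U (Sum.inr j :: Sum.inl i :: w) = 0 := by
      intro Y hY w hw
      have hJodd : Odd (k - 1) := by
        rcases hkeven with ⟨m, hm⟩
        exact ⟨m - 1, by omega⟩
      -- the vectors
      have hv : ∀ ε : ℂ, ∑ a, ∑ b,
          (S.hc L (e a) + algebraMap ℂ K ε * S.c (S.ac Y (e a))) *
          S.c (S.hc L (e b) + algebraMap ℂ K ε * S.c (S.ac Y (e b))) *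
          U (Sum.inr b :: Sum.inl a :: w) = 0 := by
        intro ε
        refine hpos
          (fun a => S.hc L (e a) + algebraMap ℂ K ε * S.c (S.ac Y (e a))) (k - 1) hJodd
          ?_ ?_ ?_ w (by omega)
        · intro w' hw'
          have hin : ∀ a, ∑ b, S.c (S.hc L (e b) + algebraMap ℂ K ε * S.c (S.ac Y (e b))) *
              U (Sum.inr b :: Sum.inl a :: w') = 0 := by
            intro a
            rcases Nat.lt_or_ge (w'.length + 2) k with hlt | hge
            · apply sum_eq_zero
              intro b _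
              rw [ih' _ (by simpa using hlt), mul_zero]
            · have hlen : (Sum.inl a :: w').length + 1 = k := by
                simp only [List.length_cons]
                omega
              have e1 := hDmLb.2 (Sum.inl a :: w') hlen
              have e2 := hY.2 (Sum.inl a :: w') hlen
              calc _ = (∑ b, S.ac (S.cD L) (e b) * U (Sum.inr b :: Sum.inl a :: w'))
                    + algebraMap ℂ K ((starRingEnd ℂ) ε) * ∑ b, S.ac Y (e b) *
                      U (Sum.inr b :: Sum.inl a :: w') := by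
                    rw [mul_sum, ← sum_add_distrib]
                    refine sum_congr rfl fun b _ => ?_
                    rw [map_add, map_mul, S.c_algebraMap, S.cc, S.ac_cD]
                    ring
                _ = 0 := by rw [e1, e2, mul_zero, add_zero]
          apply sum_eq_zero
          intro a _
          simp only [mul_assoc]
          rw [← mul_sum, hin, mul_zero]
        · intro w' hw'
          rcases Nat.lt_or_ge (w'.length + 1) k with hlt | hge
          · apply sum_eq_zero
            intro a _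
            rw [ih' _ (by simpa using hlt), mul_zero]
          · have hlen : w'.length + 1 = k := by omega
            have e1 := hhol hDmL w' hlen
            have e2 := hhol (hDmc hY) w' hlen
            calc _ = (∑ a, S.hc L (e a) * U (Sum.inl a :: w'))
                  + algebraMap ℂ K ε * ∑ a, S.hc (S.cD Y) (e a) * U (Sum.inl a :: w') := by
                  rw [mul_sum, ← sum_add_distrib]
                  refine sum_congr rfl fun a _ => ?_
                  rw [S.hc_cD]
                  ring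
              _ = 0 := by rw [e1, e2, mul_zero, add_zero]
        · intro w' hw'
          exact ih' w' (by omega)
      -- extract the coefficient of conj ε
      set A0 : K := ∑ a, ∑ b, S.hc L (e a) * S.c (S.hc L (e b)) *
        U (Sum.inr b :: Sum.inl a :: w) with hA0'
      set B0 : K := ∑ a, ∑ b, S.c (S.ac Y (e a)) * S.c (S.hc L (e b)) *
        U (Sum.inr b :: Sum.inl a :: w) with hB0'
      set C0 : K := ∑ a, ∑ b, S.hc L (e a) * S.ac Y (e b) *
        U (Sum.inr b :: Sum.inl a :: w) with hC0'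
      set D0 : K := ∑ a, ∑ b, S.c (S.ac Y (e a)) * S.ac Y (e b) *
        U (Sum.inr b :: Sum.inl a :: w) with hD0'
      have hexp : ∀ ε : ℂ, A0 + algebraMap ℂ K ε * B0
          + algebraMap ℂ K ((starRingEnd ℂ) ε) * C0
          + algebraMap ℂ K ε * algebraMap ℂ K ((starRingEnd ℂ) ε) * D0 = 0 := by
        intro ε
        rw [← hv ε, hA0', hB0', hC0', hD0', mul_sum, mul_sum, mul_sum, ← sum_add_distrib,
          ← sum_add_distrib, ← sum_add_distrib]
        refine sum_congr rfl fun a _ => ?_
        rw [mul_sum, mul_sum, mul_sum, ← sum_add_distrib, ← sum_add_distrib, ← sum_add_distrib]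
        refine sum_congr rfl fun b _ => ?_
        rw [map_add, map_mul, S.c_algebraMap, S.cc]
        ring
      have x0 := hexp 0
      have x1 := hexp 1
      have x2 := hexp (-1)
      have x3 := hexp Complex.I
      simp only [map_zero, map_one, map_neg, Complex.conj_I] at x0 x1 x2 x3
      have hI : algebraMap ℂ K Complex.I * algebraMap ℂ K Complex.I = -1 := by
        rw [← map_mul, Complex.I_mul_I, map_neg, map_one]
      have y0 : A0 = 0 := by linear_combination x0
      have y1 : (2 : K) * D0 = 0 := by linear_combination x1 + x2 - 2 * y0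
      have y1' : D0 = 0 := (mul_eq_zero.1 y1).resolve_left two_ne_zero
      have y2 : B0 + C0 = 0 := by linear_combination x1 - y0 - y1'
      have y3 : algebraMap ℂ K Complex.I * (B0 - C0) = 0 := by
        linear_combination x3 - y0 + hI * D0 - y1'
      have hI0 : (algebraMap ℂ K Complex.I) ≠ 0 := by
        rw [map_ne_zero]
        exact Complex.I_ne_zero
      have y4 := (mul_eq_zero.1 y3).resolve_left hI0
      have y5 : (2 : K) * C0 = 0 := by linear_combination y2 - y4
      exact (mul_eq_zero.1 y5).resolve_left two_ne_zero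
    -- closure under the brackets
    have hclL : ∀ {Y : Derivation ℂ K K}, Y ∈ Dm → ⁅L, Y⁆ ∈ Dm := by
      intro Y hY
      refine ⟨ad_left_mem hY.1, fun w hw => ?_⟩
      have h1 := congrArg L (hY.2 w hw)
      rw [map_sum, map_zero] at h1
      simp only [Derivation.leibniz, smul_eq_mul, sum_add_distrib] at h1
      have h2 : ∑ i, S.ac Y (e i) * L (U (Sum.inr i :: w)) = 0 := by
        have h4 : ∀ i, L (U (Sum.inr i :: w))
            = ∑ j, S.hc L (e j) * U (Sum.inr i :: Sum.inl j :: w) := by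
          intro i
          rw [htr hLW]
          simp only [hL0, zero_mul, sum_const_zero, add_zero]
          refine sum_congr rfl fun j _ => ?_
          rw [hperm (List.Perm.swap _ _ _)]
        rw [← hkey hY w hw, sum_comm]
        refine sum_congr rfl fun i _ => ?_
        rw [h4, mul_sum]
        refine sum_congr rfl fun j _ => ?_
        ring
      rw [h2, zero_add] at h1
      rw [← h1]
      refine sum_congr rfl fun i _ => ?_
      have h5 : S.ac ⁅L, Y⁆ (e i) = L (S.ac Y (e i)) := by
        have : S.ac ⁅L, Y⁆ (e i) = L (S.ac Y (e i)) - Y (S.ac L (e i)) := by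
          simp only [ac, Derivation.commutator_apply]
        rw [this, hL0, map_zero, sub_zero]
      rw [h5, mul_comm]
    have hWD : lieGen L (S.cD L) ≤ Dm := by
      refine lieGen_le hDmL hDmLb fun Y hY => ⟨hclL hY, ?_⟩
      have h1 := hDmc (hclL (hDmc hY))
      rw [S.cD_lie, S.cD_cD] at h1
      exact h1
    intro w hw
    refine hconj ?_ w hw hkpos
    intro i w hw
    have h1 := hhol (hWD (hX i)) w hw
    rw [sum_eq_single i] at h1
    · rw [hXe, if_pos rfl, one_mul] at h1
      exact h1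
    · intro j _ hj
      rw [hXe, if_neg (Ne.symm hj), zero_mul]
    · simp
  · -- odd case
    rcases eq_or_ne k 1 with rfl | hk1
    · intro w hw
      refine hconj ?_ w hw le_rfl
      intro i w hw
      have hw0 : w = [] := by
        rw [← List.length_eq_zero_iff]
        omega
      subst hw0
      exact hU1 i
    · have hk3 : 3 ≤ k := by
        rcases hkodd with ⟨m, hm⟩
        omega
      -- mixed words
      have hmixed : ∀ i j (w : List (ι ⊕ ι)), w.length + 2 = k →
          U (Sum.inr j :: Sum.inl i :: w) = 0 := by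
        intro i j w hw
        have hJodd : Odd (k - 2) := by
          rcases hkodd with ⟨m, hm⟩
          exact ⟨m - 1, by omega⟩
        refine sesq_zero (fun i j => U (Sum.inr j :: Sum.inl i :: w)) ?_ i j
        intro ν
        have h1 := hpos (fun a => algebraMap ℂ K (ν a)) (k - 2) hJodd
          (by
            intro w' hw'
            refine sum_eq_zero fun a _ => sum_eq_zero fun b _ => ?_
            rw [ih' _ (by simp only [List.length_cons]; omega), mul_zero])
          (by
            intro w' hw'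
            refine sum_eq_zero fun a _ => ?_
            rw [ih' _ (by simp only [List.length_cons]; omega), mul_zero])
          (by
            intro w' hw'
            exact ih' _ (by omega)) w (by omega)
        simp only [S.c_algebraMap] at h1
        exact h1
      intro w hw
      refine hconj ?_ w hw hkpos
      intro i w hw
      -- if `w` contains an antiholomorphic direction we are done
      by_cases hr : ∃ j, Sum.inr j ∈ w
      · obtain ⟨j, hj⟩ := hr
        obtain ⟨s, t, rfl⟩ := List.append_of_mem hj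
        have hp : (Sum.inl i :: (s ++ Sum.inr j :: t)).Perm
            (Sum.inr j :: Sum.inl i :: (s ++ t)) := by
          refine (List.Perm.cons _ List.perm_middle).trans ?_
          exact List.Perm.swap _ _ _
        rw [hperm hp]
        apply hmixed
        simp only [List.length_append, List.length_cons] at hw ⊢
        omega
      · -- transport
        have h1 := htr (hX i) w
        rw [ih' w (by omega), map_zero] at h1
        have h2 : ∑ j, S.ac (Xv i) (e j) * U (Sum.inr j :: w) = 0 := by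
          apply sum_eq_zero
          intro j _
          obtain ⟨d, w', rfl⟩ : ∃ d w', w = d :: w' := by
            cases w with
            | nil => simp at hw; omega
            | cons d w' => exact ⟨d, w', rfl⟩
          rcases d with i' | i'
          · rw [hmixed i' j w' (by simp only [List.length_cons] at hw; omega), mul_zero]
          · exact absurd ⟨i', by simp⟩ hr
        rw [h2, add_zero, sum_eq_single i] at h1
        · rw [hXe, if_pos rfl, one_mul] at h1
          exact h1.symm
        · intro j _ hj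
          rw [hXe, if_neg (Ne.symm hj), zero_mul]
        · simp

/-- All jets of `r` along the leaf vanish. -/
theorem all_vanish (h3 : S.Third) (hP : S.Pos) (hLG : L ∈ S.G) (hL0 : ∀ a, S.ac L a = 0)
    (w : List (ι ⊕ ι)) : S.ev F.Z (jw S.D S.Db w (X (Gen.fn S.r))) = 0 := by
  have hle : lieGen L (S.cD L) ≤ S.G :=
    lieGen_le hLG (S.cD_G hLG) (fun X hX => ⟨S.G_lie h3 hLG hX, S.G_lie h3 (S.cD_G hLG) hX⟩)
  have hVF : lieGen L (S.cD L) ≤ S.VF := fun X hX => (hle hX).1
  have hperm : ∀ {w w' : List (ι ⊕ ι)}, w.Perm w' → ∀ u : MvPolynomial (Gen n R ι) ℂ,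
      jw S.D S.Db w u = jw S.D S.Db w' u := fun h u => jw_perm S.D S.Db S.DD S.DbDb S.DDb h u
  have happA : ∀ i (w : List (ι ⊕ ι)) (u : MvPolynomial (Gen n R ι) ℂ),
      jA S.D i (jw S.D S.Db w u) = jw S.D S.Db (Sum.inl i :: w) u := by
    intro i w u
    have h1 : jw S.D S.Db (w ++ [Sum.inl i]) u = jA S.D i (jw S.D S.Db w u) := by
      rw [jw_append, jw_cons, jw_nil, jD_inl]
    rw [← h1]
    exact hperm (List.perm_append_singleton _ _) u
  have happB : ∀ i (w : List (ι ⊕ ι)) (u : MvPolynomial (Gen n R ι) ℂ),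
      jB S.Db i (jw S.D S.Db w u) = jw S.D S.Db (Sum.inr i :: w) u := by
    intro i w u
    have h1 : jw S.D S.Db (w ++ [Sum.inr i]) u = jB S.Db i (jw S.D S.Db w u) := by
      rw [jw_append, jw_cons, jw_nil, jD_inr]
    rw [← h1]
    exact hperm (List.perm_append_singleton _ _) u
  refine S.all_vanish_aux F.e F.X F.X_mem F.X_e
    (fun w => S.ev F.Z (jw S.D S.Db w (X (Gen.fn S.r)))) ?_ ?_ ?_ ?_ ?_ ?_ hL0 w
  · change S.ev F.Z (jw S.D S.Db [] (X (Gen.fn S.r))) = 0
    rw [jw_nil, ev, jev_fn, S.πr]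
  · intro i
    change S.ev F.Z (jw S.D S.Db [Sum.inl i] (X (Gen.fn S.r))) = 0
    rw [jw_cons, jw_nil, jD_inl, jA_fn, map_sum]
    have hN := (hle (F.X_mem i)).2.1.1
    rw [← hN]
    refine sum_congr rfl fun a _ => ?_
    rw [map_mul, ev, jev_fn, jev_z]
    congr 1
    have := F.Z1 _ (F.X_mem i) a 0
    rw [F.Z0] at this
    have h4 : S.hc (F.X i) a = ∑ j, S.hc (F.X i) (F.e j) * F.Z a (j ::ₘ 0) := this
    rw [h4, sum_eq_single i]
    · rw [F.X_e, if_pos rfl, one_mul]
      rfl
    · intro j _ hj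
      rw [F.X_e, if_neg (Ne.symm hj), zero_mul]
    · simp
  · intro w w' h
    change S.ev F.Z (jw S.D S.Db w (X (Gen.fn S.r))) = S.ev F.Z (jw S.D S.Db w' (X (Gen.fn S.r)))
    rw [hperm h]
  · intro w
    exact S.c_ev_jw F.Z w
  · intro Y hY w
    have := S.transport F hVF hY (jw S.D S.Db w (X (Gen.fn S.r)))
    simp only [happA, happB] at this
    exact this
  · intro v J hJ h1 h2 h3 w hw
    have e1 : ∀ a b (w : List (ι ⊕ ι)), jw S.D S.Db (Sum.inr b :: Sum.inl a :: w)
        (X (Gen.fn S.r)) = jw S.D S.Db w (jA S.D a (jB S.Db b (X (Gen.fn S.r)))) := by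
      intro a b w
      rw [jw_cons, jw_cons, jD_inr, jD_inl]
    have e2 : ∀ a (w : List (ι ⊕ ι)), jw S.D S.Db (Sum.inl a :: w)
        (X (Gen.fn S.r)) = jw S.D S.Db w (jA S.D a (X (Gen.fn S.r))) := by
      intro a w
      rw [jw_cons, jD_inl]
    simp only [e1, e2] at h1 h2 h3 ⊢
    exact S.pos_words F.Z hP F.Z0 v J hJ h1 h2 h3 w hw

end leaf

end KSet

end Pool.Agent.Work.MP_80f671_an
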