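import Pool.Agent.Work.MP_80f671_an.Tangential
import Pool.Agent.Work.MP_80f671_an.Vanish

/-!
The third order identity for Levi-null vectors.
-/

namespace Pool.Agent.Work.MP_80f671_an

open Filter Topology ContDiff Osm

variable {n : ℕ} {x₀ : Fin n → ℂ}

/-- The algebraic setting is the one given by smooth functions modulo `P`. -/
structure Compat {K : Type*} [Field K] [Algebra ℂ K] (S : KSet n (Osm n) K)
    (P : Ideal (Osm n)) (r : (Fin n → ℂ) → ℝ) (hr : ContDiff ℝ ∞ r) : Prop where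
  eD : S.D = Osm.D
  eDb : S.Db = Osm.Dbar
  ez : S.z = Osm.zc
  eσ : S.σ = Osm.conj
  er : S.r = rC r hr
  ker : ∀ f, S.π f = 0 ↔ f ∈ P

/-- The lower bound for the Levi form. -/
def LeviLow (r : (Fin n → ℂ) → ℝ) (hr : ContDiff ℝ ∞ r) (x₀ : Fin n → ℂ) : Prop :=
  ∃ C : ℝ, 0 ≤ C ∧ ∀ᶠ y in 𝓝 x₀, ∀ v : Fin n → ℂ,
    -(C * (|r y| * ‖v‖ ^ 2 + ‖dr r hr y v‖ * ‖v‖))
      ≤ (qf (fun a b => (leviM r hr a b) y) v v).re

section common

variable {K : Type*} [Field K] [Algebra ℂ K] (S : KSet n (Osm n) K)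

/-- Common denominators. -/
lemma common_den {κ : Type*} [Fintype κ] [DecidableEq κ] (k : κ → K) :
    ∃ s : Osm n, S.π s ≠ 0 ∧ ∃ α : κ → Osm n, ∀ i, S.π (α i) = S.π s * k i := by
  choose num den hden hnd using fun i => S.frac (k i)
  refine ⟨∏ i, den i, ?_, fun i => num i * ∏ j ∈ Finset.univ.erase i, den j, fun i => ?_⟩
  · rw [map_prod]
    exact Finset.prod_ne_zero_iff.2 fun i _ => hden i
  · rw [map_mul, ← hnd i, ← Finset.mul_prod_erase Finset.univ den (Finset.mem_univ i), map_mul]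
    ring

end common

lemma leviM_conj (r : (Fin n → ℂ) → ℝ) (hr : ContDiff ℝ ∞ r) (a b : Fin n) :
    conj (leviM r hr a b) = leviM r hr b a := by
  unfold leviM
  rw [conj_D, conj_Dbar, conj_rC, D_Dbar]

section third

variable {K : Type*} [Field K] [Algebra ℂ K] {S : KSet n (Osm n) K} {P : Ideal (Osm n)}
  {r : (Fin n → ℂ) → ℝ} {hr : ContDiff ℝ ∞ r}

lemma Compat.one_notMem (hc : Compat S P r hr) : (1 : Osm n) ∉ P := by
  intro h
  have := (hc.ker 1).2 h
  rw [map_one] at this
  exact one_ne_zero this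

lemma Compat.π_ne_zero (hc : Compat S P r hr) (hP : LClosed x₀ P) {f : Osm n} (hf : f x₀ ≠ 0) :
    S.π f ≠ 0 := by
  intro h
  have h1 := le_maxIdeal hP hc.one_notMem ((hc.ker f).1 h)
  rw [RingHom.mem_ker, evalAt_apply] at h1
  exact hf h1

/-- Exact tangential lifts. -/
lemma Compat.exact_lift (hc : Compat S P r hr) (hP : LClosed x₀ P) {i₀ : Fin n}
    (hi₀ : (D i₀ (rC r hr)) x₀ ≠ 0) (a : Fin n → K)
    (ha : ∑ i, S.π (S.D i S.r) * a i = 0) :
    ∃ t : Osm n, S.π t ≠ 0 ∧ ∃ α : Fin n → Osm n,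
      ∑ i, D i (rC r hr) * α i = 0 ∧ ∀ i, S.π (α i) = S.π t * a i := by
  obtain ⟨s, hs, β, hβ⟩ := common_den S a
  have hne : S.π (D i₀ (rC r hr)) ≠ 0 := hc.π_ne_zero hP hi₀
  refine ⟨D i₀ (rC r hr) * s, by rw [map_mul]; exact mul_ne_zero hne hs,
    fun i => if i = i₀ then - ∑ j ∈ Finset.univ.erase i₀, D j (rC r hr) * β j
      else D i₀ (rC r hr) * β i, ?_, fun i => ?_⟩
  · rw [← Finset.add_sum_erase Finset.univ _ (Finset.mem_univ i₀)]
    beta_reduce
    rw [if_pos rfl]
    have : ∑ x ∈ Finset.univ.erase i₀, D x (rC r hr) * (if x = i₀ then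
        - ∑ j ∈ Finset.univ.erase i₀, D j (rC r hr) * β j else D i₀ (rC r hr) * β x)
        = D i₀ (rC r hr) * ∑ j ∈ Finset.univ.erase i₀, D j (rC r hr) * β j := by
      rw [Finset.mul_sum]
      refine Finset.sum_congr rfl fun j hj => ?_
      rw [if_neg (Finset.ne_of_mem_erase hj)]
      ring
    rw [this]
    ring
  · beta_reduce
    split_ifs with h
    · subst h
      rw [map_neg, map_sum, map_mul]
      have h1 : ∑ j ∈ Finset.univ.erase i, S.π (D j (rC r hr) * β j)
          = S.π s * ∑ j ∈ Finset.univ.erase i, S.π (D j (rC r hr)) * a j := by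
        rw [Finset.mul_sum]
        refine Finset.sum_congr rfl fun j _ => ?_
        rw [map_mul, hβ]
        ring
      rw [hc.eD, hc.er, ← Finset.add_sum_erase Finset.univ _ (Finset.mem_univ i)] at ha
      rw [h1]
      linear_combination (-(S.π s)) * ha
    · rw [map_mul, map_mul, hβ]
      ring

/-- The diagonal case of the third order identity. -/
lemma Compat.third_diag (hc : Compat S P r hr) (hP : LClosed x₀ P) {i₀ : Fin n}
    (hi₀ : (D i₀ (rC r hr)) x₀ ≠ 0) (hlow : LeviLow r hr x₀) (hrP : rC r hr ∈ P)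
    (a w : Fin n → K) (μ : K)
    (ha : ∑ i, S.π (S.D i S.r) * a i = 0)
    (hμ : ∀ j, ∑ i, S.π (S.D i (S.Db j S.r)) * a i = μ * S.π (S.Db j S.r))
    (hw : ∑ k, S.π (S.Db k S.r) * w k = 0) :
    ∑ i, ∑ j, ∑ k, S.π (S.Db k (S.D i (S.Db j S.r))) * a i * S.c (a j) * w k
      = μ * ∑ j, ∑ k, S.π (S.Db k (S.Db j S.r)) * S.c (a j) * w k := by
  haveI : CharZero K := charZero_of_injective_algebraMap (algebraMap ℂ K).injective
  have hcinj : ∀ k : K, S.c k = 0 → k = 0 := fun k hk => (map_eq_zero S.c).1 hk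
  obtain ⟨t, ht, α, hα0, hα⟩ := hc.exact_lift hP hi₀ a ha
  have hw' : ∑ k, S.π (S.D k S.r) * S.c (w k) = 0 := by
    have h1 := congrArg S.c hw
    rw [map_sum, map_zero] at h1
    rw [← h1]
    refine Finset.sum_congr rfl fun k _ => ?_
    rw [map_mul, S.cπ, S.σDb, S.σr]
  obtain ⟨t', ht', β, hβ0, hβ⟩ := hc.exact_lift hP hi₀ (fun k => S.c (w k)) hw'
  have hD := hc.eD
  have hDb := hc.eDb
  have hσ := hc.eσ
  have hr' := hc.er
  -- the function F
  set ρ := rC r hr with hρ
  set F : Osm n := ∑ i, ∑ j, leviM r hr i j * α i * conj (α j) with hF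
  have hFc : conj F = F := by
    rw [hF, map_sum]
    simp only [map_sum, map_mul, leviM_conj, conj_conj]
    rw [Finset.sum_comm]
    exact Finset.sum_congr rfl fun i _ => Finset.sum_congr rfl fun j _ => by ring
  have hπα : ∀ j, S.π (conj (α j)) = S.c (S.π t) * S.c (a j) := by
    intro j
    rw [← map_mul, ← hα, S.cπ, hσ]
  have hΛ : ∀ i j, S.π (leviM r hr i j) = S.π (S.D i (S.Db j S.r)) := by
    intro i j
    rw [hD, hDb, hr']
    rfl
  have hFP : F ∈ P := by
    rw [← hc.ker, hF, map_sum]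
    have h1 : ∀ i, S.π (∑ j, leviM r hr i j * α i * conj (α j))
        = ∑ j, S.π (S.D i (S.Db j S.r)) * a i * (S.π t * S.c (S.π t) * S.c (a j)) := by
      intro i
      rw [map_sum]
      refine Finset.sum_congr rfl fun j _ => ?_
      rw [map_mul, map_mul, hπα, hα, hΛ]
      ring
    rw [Finset.sum_congr rfl fun i _ => h1 i, Finset.sum_comm]
    have h2 : ∀ j, ∑ i, S.π (S.D i (S.Db j S.r)) * a i * (S.π t * S.c (S.π t) * S.c (a j))
        = (S.π t * S.c (S.π t) * μ) * (S.π (S.Db j S.r) * S.c (a j)) := by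
      intro j
      rw [← Finset.sum_mul, hμ]
      ring
    rw [Finset.sum_congr rfl fun j _ => h2 j, ← Finset.mul_sum]
    have h3 : ∑ j, S.π (S.Db j S.r) * S.c (a j) = 0 := by
      have h4 := congrArg S.c ha
      rw [map_sum, map_zero] at h4
      rw [← h4]
      refine Finset.sum_congr rfl fun k _ => ?_
      rw [map_mul, S.cπ, S.σD, S.σr]
    rw [h3, mul_zero]
  obtain ⟨C, hC, hlow⟩ := hlow
  obtain ⟨H, hH, δ, hδ, hHb⟩ := local_lip_family α x₀
  have hFlow : ∀ᶠ y in 𝓝 x₀, -(C * H ^ 2 * |r y|) ≤ (F y).re := by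
    filter_upwards [hlow, Metric.ball_mem_nhds x₀ hδ] with y hy hyb
    have h1 := hy (fun a => (α a) y)
    have h2 : dr r hr y (fun a => (α a) y) = 0 := by
      have := congrArg (fun G : Osm n => G y) hα0
      rw [coe_sum] at this
      exact this
    have h3 : qf (fun a b => (leviM r hr a b) y) (fun a => (α a) y) (fun a => (α a) y) = F y := by
      rw [hF, coe_sum]
      unfold qf
      refine Finset.sum_congr rfl fun i _ => ?_
      rw [coe_sum]
      rfl
    rw [h2, h3, norm_zero, zero_mul, add_zero] at h1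
    have h4 : ‖(fun a => (α a) y : Fin n → ℂ)‖ ≤ H := by
      rw [pi_norm_le_iff_of_nonneg hH]
      exact fun a => (hHb a y hyb y hyb).2
    have h5 : C * (|r y| * ‖(fun a => (α a) y : Fin n → ℂ)‖ ^ 2) ≤ C * H ^ 2 * |r y| := by
      calc _ ≤ C * (|r y| * H ^ 2) := by gcongr
        _ = _ := by ring
    linarith
  -- the derivative
  have hrdir : ∀ γ : ℂ, rdir (fun k => γ • β k) F ∈ P := by
    intro γ
    refine rdir_mem hP r hr hrP F hFP hFc (C * H ^ 2) (by positivity) hFlow _ ?_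
    have e1 : rdir (fun k => γ • β k) (rC r hr)
        = γ • (∑ k, D k ρ * β k) + (starRingEnd ℂ) γ • conj (∑ k, D k ρ * β k) := by
      unfold rdir
      rw [map_sum, Finset.smul_sum, Finset.smul_sum, ← Finset.sum_add_distrib]
      refine Finset.sum_congr rfl fun k _ => ?_
      rw [conj_smul, map_mul, conj_D, conj_rC, ← hρ, smul_mul_assoc, smul_mul_assoc,
        mul_comm (β k), mul_comm (conj (β k))]
    rw [e1, hβ0, map_zero, smul_zero, smul_zero, add_zero]
  set A : Osm n := ∑ k, β k * D k F with hA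
  set B : Osm n := ∑ k, conj (β k) * Dbar k F with hB
  have hrd : ∀ γ : ℂ, rdir (fun k => γ • β k) F = γ • A + (starRingEnd ℂ) γ • B := by
    intro γ
    unfold rdir
    rw [hA, hB, Finset.smul_sum, Finset.smul_sum, ← Finset.sum_add_distrib]
    refine Finset.sum_congr rfl fun k _ => ?_
    rw [conj_smul, smul_mul_assoc, smul_mul_assoc]
  have hB0 : S.π B = 0 := by
    have h1 := (hc.ker _).2 (hrdir 1)
    have h2 := (hc.ker _).2 (hrdir Complex.I)
    rw [hrd, map_add, map_smul, map_smul, map_one, one_smul, one_smul] at h1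
    rw [hrd, map_add, map_smul, map_smul, Complex.conj_I] at h2
    have h3 : Complex.I • (S.π A - S.π B) = 0 := by
      rw [smul_sub, sub_eq_add_neg, ← neg_smul]
      exact h2
    have h4 : S.π A - S.π B = 0 := (smul_eq_zero.1 h3).resolve_left Complex.I_ne_zero
    have h5 : (2 : K) * S.π B = 0 := by linear_combination h1 - h4
    exact (mul_eq_zero.1 h5).resolve_left two_ne_zero
  -- expand
  have hbw : ∀ k, S.π (conj (β k)) = S.c (S.π t') * w k := by
    intro k
    have : S.π (conj (β k)) = S.c (S.π (β k)) := by rw [S.cπ, hσ]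
    rw [this, hβ, map_mul, S.cc]
  set T := S.π t with hT
  set T' := S.c (S.π t') with hT'
  have hT'0 : T' ≠ 0 := fun h => ht' (hcinj _ h)
  have hcT0 : S.c T ≠ 0 := fun h => ht (hcinj _ h)
  -- the relations coming from exactness
  have hrel1 : ∀ k, ∑ i, S.π (S.D i S.r) * S.π (Dbar k (α i)) = -(T * μ * S.π (S.Db k S.r)) := by
    intro k
    have h1 := congrArg (fun G : Osm n => S.π (Dbar k G)) hα0
    simp only [map_sum, map_zero, Derivation.leibniz, smul_eq_mul, map_add, map_mul] at h1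
    rw [Finset.sum_add_distrib] at h1
    have h2 : ∑ i, S.π (α i) * S.π (Dbar k (D i ρ)) = T * μ * S.π (S.Db k S.r) := by
      calc _ = T * ∑ i, S.π (S.D i (S.Db k S.r)) * a i := by
            rw [Finset.mul_sum]
            refine Finset.sum_congr rfl fun i _ => ?_
            rw [hα, hD, hDb, hr', D_Dbar]
            ring
        _ = _ := by rw [hμ]; ring
    rw [h2, hr'] at h1
    rw [hD, hr']
    linear_combination h1
  have hrel2 : ∀ k, ∑ j, S.π (S.Db j S.r) * S.π (Dbar k (conj (α j)))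
      = -∑ j, S.π (S.Db k (S.Db j S.r)) * (S.c T * S.c (a j)) := by
    intro k
    have h0 : ∑ j, Dbar j ρ * conj (α j) = 0 := by
      have := congrArg conj hα0
      rw [map_sum, map_zero] at this
      rw [← this]
      refine Finset.sum_congr rfl fun j _ => ?_
      rw [map_mul, conj_D, hρ, conj_rC]
    have h1 := congrArg (fun G : Osm n => S.π (Dbar k G)) h0
    simp only [map_sum, map_zero, Derivation.leibniz, smul_eq_mul, map_add, map_mul] at h1
    rw [Finset.sum_add_distrib] at h1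
    have h2 : ∑ j, S.π (conj (α j)) * S.π (Dbar k (Dbar j ρ))
        = ∑ j, S.π (S.Db k (S.Db j S.r)) * (S.c T * S.c (a j)) := by
      refine Finset.sum_congr rfl fun j _ => ?_
      rw [hπα, hDb, hr']
      ring
    rw [h2] at h1
    rw [hDb, hr'] at h1 ⊢
    linear_combination h1
  have hμc : ∀ i, ∑ j, S.π (S.D i (S.Db j S.r)) * S.c (a j) = S.c μ * S.π (S.D i S.r) := by
    intro i
    have h1 := congrArg S.c (hμ i)
    rw [map_sum, map_mul, S.cπ, S.σDb, S.σr] at h1
    rw [← h1]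
    refine Finset.sum_congr rfl fun j _ => ?_
    rw [map_mul, S.cπ, S.σD, S.σDb, S.σr, S.DDb]
  have hexp : ∀ k, S.π (Dbar k F)
      = (∑ i, ∑ j, S.π (S.Db k (S.D i (S.Db j S.r))) * a i * S.c (a j)) * (T * S.c T)
        - (S.c T * S.c μ * T * μ) * S.π (S.Db k S.r)
        - T * μ * S.c T * ∑ j, S.π (S.Db k (S.Db j S.r)) * S.c (a j) := by
    intro k
    have h1 : S.π (Dbar k F) = (∑ i, ∑ j, (S.π (S.Db k (S.D i (S.Db j S.r))) * a i * S.c (a j))
          * (T * S.c T))
        + (∑ i, ∑ j, (S.π (S.D i (S.Db j S.r)) * S.c (a j)) * (S.c T * S.π (Dbar k (α i))))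
        + ∑ j, ∑ i, (S.π (S.D i (S.Db j S.r)) * a i) * (T * S.π (Dbar k (conj (α j)))) := by
      rw [Finset.sum_comm (f := fun j i => (S.π (S.D i (S.Db j S.r)) * a i)
        * (T * S.π (Dbar k (conj (α j)))))]
      rw [hF]
      simp only [map_sum, Derivation.leibniz, smul_eq_mul, map_add, map_mul]
      rw [← Finset.sum_add_distrib, ← Finset.sum_add_distrib]
      refine Finset.sum_congr rfl fun i _ => ?_
      rw [← Finset.sum_add_distrib, ← Finset.sum_add_distrib]
      refine Finset.sum_congr rfl fun j _ => ?_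
      have e1 : S.π (Dbar k (leviM r hr i j)) = S.π (S.Db k (S.D i (S.Db j S.r))) := by
        rw [hD, hDb, hr']
        rfl
      rw [e1, hπα, hα, hΛ]
      ring
    rw [h1]
    have h2 : ∑ i, ∑ j, (S.π (S.D i (S.Db j S.r)) * S.c (a j)) * (S.c T * S.π (Dbar k (α i)))
        = -(S.c T * S.c μ * T * μ) * S.π (S.Db k S.r) := by
      calc _ = (S.c T * S.c μ) * ∑ i, S.π (S.D i S.r) * S.π (Dbar k (α i)) := by
            rw [Finset.mul_sum]
            refine Finset.sum_congr rfl fun i _ => ?_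
            rw [← Finset.sum_mul, hμc]
            ring
        _ = _ := by rw [hrel1]; ring
    have h3 : ∑ j, ∑ i, (S.π (S.D i (S.Db j S.r)) * a i) * (T * S.π (Dbar k (conj (α j))))
        = -(T * μ * S.c T * ∑ j, S.π (S.Db k (S.Db j S.r)) * S.c (a j)) := by
      calc _ = (T * μ) * ∑ j, S.π (S.Db j S.r) * S.π (Dbar k (conj (α j))) := by
            rw [Finset.mul_sum]
            refine Finset.sum_congr rfl fun j _ => ?_
            rw [← Finset.sum_mul, hμ]
            ring
        _ = _ := by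
            rw [hrel2, mul_neg, Finset.mul_sum, Finset.mul_sum]
            congr 1
            exact Finset.sum_congr rfl fun j _ => by ring
    rw [h2, h3]
    have h4 : (∑ i, ∑ j, (S.π (S.Db k (S.D i (S.Db j S.r))) * a i * S.c (a j)) * (T * S.c T))
        = (∑ i, ∑ j, S.π (S.Db k (S.D i (S.Db j S.r))) * a i * S.c (a j)) * (T * S.c T) := by
      rw [Finset.sum_mul]
      exact Finset.sum_congr rfl fun i _ => by rw [Finset.sum_mul]
    rw [h4]
    ring
  have htot : S.π B = (T * S.c T * T') * ((∑ i, ∑ j, ∑ k,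
      S.π (S.Db k (S.D i (S.Db j S.r))) * a i * S.c (a j) * w k)
      - μ * ∑ j, ∑ k, S.π (S.Db k (S.Db j S.r)) * S.c (a j) * w k) := by
    have h1 : S.π B = ∑ k, T' * w k * ((∑ i, ∑ j, S.π (S.Db k (S.D i (S.Db j S.r))) * a i
        * S.c (a j)) * (T * S.c T) - (S.c T * S.c μ * T * μ) * S.π (S.Db k S.r)
        - T * μ * S.c T * ∑ j, S.π (S.Db k (S.Db j S.r)) * S.c (a j)) := by
      rw [hB, map_sum]
      refine Finset.sum_congr rfl fun k _ => ?_
      rw [map_mul, hbw, hexp]
    have h2 : ∀ k, T' * w k * ((∑ i, ∑ j, S.π (S.Db k (S.D i (S.Db j S.r))) * a i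
        * S.c (a j)) * (T * S.c T) - (S.c T * S.c μ * T * μ) * S.π (S.Db k S.r)
        - T * μ * S.c T * ∑ j, S.π (S.Db k (S.Db j S.r)) * S.c (a j))
        = (T * S.c T * T') * ((∑ i, ∑ j, S.π (S.Db k (S.D i (S.Db j S.r))) * a i
          * S.c (a j)) * w k)
          - (T' * S.c T * S.c μ * T * μ) * (S.π (S.Db k S.r) * w k)
          - (T * S.c T * T' * μ) * ((∑ j, S.π (S.Db k (S.Db j S.r)) * S.c (a j)) * w k) := by
      intro k
      ring
    rw [h1, Finset.sum_congr rfl fun k _ => h2 k, Finset.sum_sub_distrib, Finset.sum_sub_distrib,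
      ← Finset.mul_sum, ← Finset.mul_sum, ← Finset.mul_sum, hw]
    have h3 : ∑ k, (∑ i, ∑ j, S.π (S.Db k (S.D i (S.Db j S.r))) * a i * S.c (a j)) * w k
        = ∑ i, ∑ j, ∑ k, S.π (S.Db k (S.D i (S.Db j S.r))) * a i * S.c (a j) * w k := by
      simp only [Finset.sum_mul]
      rw [Finset.sum_comm]
      exact Finset.sum_congr rfl fun i _ => Finset.sum_comm
    have h4 : ∑ k, (∑ j, S.π (S.Db k (S.Db j S.r)) * S.c (a j)) * w k
        = ∑ j, ∑ k, S.π (S.Db k (S.Db j S.r)) * S.c (a j) * w k := by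
      simp only [Finset.sum_mul]
      rw [Finset.sum_comm]
    rw [h3, h4]
    ring
  rw [hB0] at htot
  have hne : T * S.c T * T' ≠ 0 := mul_ne_zero (mul_ne_zero ht hcT0) hT'0
  have := (mul_eq_zero.1 htot.symm).resolve_left hne
  linear_combination this

/-- The third order identity. -/
theorem Compat.third (hc : Compat S P r hr) (hP : LClosed x₀ P) {i₀ : Fin n}
    (hi₀ : (D i₀ (rC r hr)) x₀ ≠ 0) (hlow : LeviLow r hr x₀) (hrP : rC r hr ∈ P) : S.Third := by
  haveI : CharZero K := charZero_of_injective_algebraMap (algebraMap ℂ K).injective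
  intro a b w μ ha hμ hb hw
  obtain ⟨hb1, ν, hν⟩ := hb
  -- the sesquilinear expression
  set X : (Fin n → K) → K → (Fin n → K) → K := fun a μ b =>
    (∑ i, ∑ j, ∑ k, S.π (S.Db k (S.D i (S.Db j S.r))) * a i * S.c (b j) * w k)
      - μ * ∑ j, ∑ k, S.π (S.Db k (S.Db j S.r)) * S.c (b j) * w k with hX
  have hdiag : ∀ (a : Fin n → K) (μ : K), ∑ i, S.π (S.D i S.r) * a i = 0 →
      (∀ j, ∑ i, S.π (S.D i (S.Db j S.r)) * a i = μ * S.π (S.Db j S.r)) → X a μ a = 0 := by
    intro a μ ha hμ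
    rw [hX]
    simp only
    rw [hc.third_diag hP hi₀ hlow hrP a w μ ha hμ hw, sub_self]
  have hexp : ∀ t : ℂ, X (fun i => a i + algebraMap ℂ K t * b i) (μ + algebraMap ℂ K t * ν)
      (fun i => a i + algebraMap ℂ K t * b i)
      = X a μ a + algebraMap ℂ K ((starRingEnd ℂ) t) * X a μ b + algebraMap ℂ K t * X b ν a
        + algebraMap ℂ K t * algebraMap ℂ K ((starRingEnd ℂ) t) * X b ν b := by
    intro t
    have e1 : ∀ (a b a' b' : Fin n → K),
        (∑ i, ∑ j, ∑ k, S.π (S.Db k (S.D i (S.Db j S.r))) * (a i + algebraMap ℂ K t * b i)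
          * S.c (a' j + algebraMap ℂ K t * b' j) * w k)
        = (∑ i, ∑ j, ∑ k, S.π (S.Db k (S.D i (S.Db j S.r))) * a i * S.c (a' j) * w k)
          + algebraMap ℂ K ((starRingEnd ℂ) t) * (∑ i, ∑ j, ∑ k,
              S.π (S.Db k (S.D i (S.Db j S.r))) * a i * S.c (b' j) * w k)
          + algebraMap ℂ K t * (∑ i, ∑ j, ∑ k,
              S.π (S.Db k (S.D i (S.Db j S.r))) * b i * S.c (a' j) * w k)
          + algebraMap ℂ K t * algebraMap ℂ K ((starRingEnd ℂ) t) * (∑ i, ∑ j, ∑ k,
              S.π (S.Db k (S.D i (S.Db j S.r))) * b i * S.c (b' j) * w k) := by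
      intro a b a' b'
      simp only [Finset.mul_sum, ← Finset.sum_add_distrib]
      refine Finset.sum_congr rfl fun i _ => Finset.sum_congr rfl fun j _ =>
        Finset.sum_congr rfl fun k _ => ?_
      rw [map_add, map_mul, S.c_algebraMap]
      ring
    have e2 : ∀ (a' b' : Fin n → K),
        (∑ j, ∑ k, S.π (S.Db k (S.Db j S.r)) * S.c (a' j + algebraMap ℂ K t * b' j) * w k)
        = (∑ j, ∑ k, S.π (S.Db k (S.Db j S.r)) * S.c (a' j) * w k)
          + algebraMap ℂ K ((starRingEnd ℂ) t) *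
            (∑ j, ∑ k, S.π (S.Db k (S.Db j S.r)) * S.c (b' j) * w k) := by
      intro a' b'
      simp only [Finset.mul_sum, ← Finset.sum_add_distrib]
      refine Finset.sum_congr rfl fun j _ => Finset.sum_congr rfl fun k _ => ?_
      rw [map_add, map_mul, S.c_algebraMap]
      ring
    rw [hX]
    simp only
    rw [e1 a b a b, e2 a b]
    ring
  have hval : ∀ t : ℂ, X (fun i => a i + algebraMap ℂ K t * b i) (μ + algebraMap ℂ K t * ν)
      (fun i => a i + algebraMap ℂ K t * b i) = 0 := by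
    intro t
    apply hdiag
    · calc _ = (∑ i, S.π (S.D i S.r) * a i)
          + algebraMap ℂ K t * ∑ i, S.π (S.D i S.r) * b i := by
            rw [Finset.mul_sum, ← Finset.sum_add_distrib]
            exact Finset.sum_congr rfl fun i _ => by ring
        _ = 0 := by rw [ha, hb1]; ring
    · intro j
      calc _ = (∑ i, S.π (S.D i (S.Db j S.r)) * a i)
          + algebraMap ℂ K t * ∑ i, S.π (S.D i (S.Db j S.r)) * b i := by
            rw [Finset.mul_sum, ← Finset.sum_add_distrib]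
            exact Finset.sum_congr rfl fun i _ => by ring
        _ = _ := by rw [hμ, hν]; ring
  have x0 := hdiag a μ ha hμ
  have x1 := hdiag b ν hb1 hν
  have x2 := hexp 1
  have x3 := hexp Complex.I
  rw [hval, x0, x1] at x2 x3
  simp only [map_one, Complex.conj_I, map_neg] at x2 x3
  have hI : (algebraMap ℂ K Complex.I) ≠ 0 := by
    rw [map_ne_zero]
    exact Complex.I_ne_zero
  have y1 : algebraMap ℂ K Complex.I * (X b ν a - X a μ b) = 0 := by linear_combination -x3
  have y2 := (mul_eq_zero.1 y1).resolve_left hI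
  have y3 : (2 : K) * X a μ b = 0 := by linear_combination -x2 - y2
  have y4 := (mul_eq_zero.1 y3).resolve_left two_ne_zero
  rw [hX] at y4
  simp only at y4
  exact sub_eq_zero.1 y4

end third

end Pool.Agent.Work.MP_80f671_an
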