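import Pool.Agent.Work.MP_80f671_an.Weights
import Pool.Agent.Work.MP_80f671_an.Third

/-!
Jets along smooth families of polynomial curves.
-/

namespace Pool.Agent.Work.MP_80f671_an

open Filter Topology ContDiff Osm MvPolynomial

variable {n : ℕ} {x₀ : Fin n → ℂ}

/-! ### A one variable Taylor estimate -/

lemma hasDerivAt_taylor (E : ℕ → ℂ) (N : ℕ) (τ : ℝ) :
    HasDerivAt (fun τ : ℝ => ∑ j ∈ Finset.range (N + 1), ((τ : ℂ) ^ j / (j.factorial : ℂ)) * E j)
      (∑ j ∈ Finset.range N, ((τ : ℂ) ^ j / (j.factorial : ℂ)) * E (j + 1)) τ := by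
  have h0 : HasDerivAt (fun τ : ℝ => (τ : ℂ)) 1 τ := Complex.ofRealCLM.hasDerivAt
  have h1 : ∀ j : ℕ, HasDerivAt (fun τ : ℝ => ((τ : ℂ) ^ j / (j.factorial : ℂ)) * E j)
      (((j : ℂ) * (τ : ℂ) ^ (j - 1) * 1 / (j.factorial : ℂ)) * E j) τ := by
    intro j
    exact ((h0.pow j).div_const _).mul_const _
  have h2 := HasDerivAt.fun_sum (u := Finset.range (N + 1)) (fun j _ => h1 j)
  refine h2.congr_deriv ?_
  rw [Finset.sum_range_succ']
  simp only [Nat.cast_zero, zero_mul, zero_div, add_zero]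
  refine Finset.sum_congr rfl fun j _ => ?_
  rw [Nat.factorial_succ, Nat.add_sub_cancel]
  push_cast
  have hj : ((j : ℂ) + 1) ≠ 0 := by exact_mod_cast Nat.succ_ne_zero j
  have hf : ((j.factorial : ℕ) : ℂ) ≠ 0 := by exact_mod_cast Nat.factorial_ne_zero j
  field_simp

/-- Taylor estimate for a chain of derivatives. -/
lemma taylor_chain (f : ℕ → ℝ → ℂ) (hf : ∀ j τ, HasDerivAt (f j) (f (j + 1) τ) τ) {T C : ℝ}
    (m : ℕ) : ∀ k, (∀ τ, |τ| ≤ T → ‖f (k + m + 1) τ‖ ≤ C) → ∀ τ, |τ| ≤ T →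
      ‖f k τ - ∑ j ∈ Finset.range (m + 1), ((τ : ℂ) ^ j / (j.factorial : ℂ)) * f (k + j) 0‖
        ≤ C * |τ| ^ (m + 1) := by
  induction m with
  | zero =>
    intro k hC τ hτ
    have hseg : ∀ t ∈ Set.Icc (-|τ|) |τ|, |t| ≤ T := fun t ht => (abs_le.2 ht).trans hτ
    have := (convex_Icc (-|τ|) |τ|).norm_image_sub_le_of_norm_hasDerivWithin_le (f := f k)
      (f' := fun t => f (k + 1) t) (C := C) (fun t _ => (hf k t).hasDerivWithinAt)
      (fun t ht => hC t (hseg t ht)) (x := 0) (y := τ)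
      ⟨by simp, abs_nonneg _⟩ ⟨neg_abs_le τ, le_abs_self τ⟩
    simpa using this
  | succ m ih =>
    intro k hC τ hτ
    have hseg : ∀ t ∈ Set.Icc (-|τ|) |τ|, |t| ≤ T := fun t ht => (abs_le.2 ht).trans hτ
    set g : ℝ → ℂ := fun t => f k t
      - ∑ j ∈ Finset.range (m + 1 + 1), ((t : ℂ) ^ j / (j.factorial : ℂ)) * f (k + j) 0 with hg
    set g' : ℝ → ℂ := fun t => f (k + 1) t
      - ∑ j ∈ Finset.range (m + 1), ((t : ℂ) ^ j / (j.factorial : ℂ)) * f (k + 1 + j) 0 with hg'
    have hder : ∀ t, HasDerivAt g (g' t) t := by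
      intro t
      have h1 := hasDerivAt_taylor (fun j => f (k + j) 0) (m + 1) t
      have h2 := (hf k t).sub h1
      refine HasDerivAt.congr_deriv (show HasDerivAt g _ t from h2) ?_
      rw [hg']
      simp only
      congr 1
      refine Finset.sum_congr rfl fun j _ => ?_
      rw [show k + 1 + j = k + (j + 1) by ring]
    have hbound : ∀ t ∈ Set.Icc (-|τ|) |τ|, ‖g' t‖ ≤ C * |τ| ^ (m + 1) := by
      intro t ht
      have h1 := ih (k + 1) (fun s hs => by
        have := hC s hs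
        rwa [show k + (m + 1) + 1 = k + 1 + m + 1 by ring] at this) t (hseg t ht)
      have hC0 : 0 ≤ C := (norm_nonneg _).trans (hC 0 (by
        rw [abs_zero]; exact (abs_nonneg τ).trans hτ))
      refine h1.trans ?_
      have : |t| ≤ |τ| := abs_le.2 ht
      gcongr
    have := (convex_Icc (-|τ|) |τ|).norm_image_sub_le_of_norm_hasDerivWithin_le (f := g)
      (f' := g') (C := C * |τ| ^ (m + 1)) (fun t _ => (hder t).hasDerivWithinAt)
      hbound (x := 0) (y := τ)
      ⟨by simp, abs_nonneg _⟩ ⟨neg_abs_le τ, le_abs_self τ⟩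
    have hg0 : g 0 = 0 := by
      rw [hg]
      simp only
      rw [Finset.sum_eq_single 0]
      · simp
      · intro j _ hj
        simp [hj]
      · simp
    rw [hg0, sub_zero, sub_zero] at this
    calc _ ≤ _ := this
      _ = C * |τ| ^ (m + 1 + 1) := by rw [Real.norm_eq_abs]; ring

/-! ### The evaluation -/

section curve

variable {ι : Type} [Fintype ι]

/-- Evaluation of jets in smooth functions. -/
noncomputable def evR (ζ : Fin n → Multiset ι → Osm n) :
    MvPolynomial (Gen n (Osm n) ι) ℂ →ₐ[ℂ] Osm n :=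
  jev id ζ (fun l α => conj (ζ l α))

omit [Fintype ι] in
@[simp] lemma evR_fn (ζ : Fin n → Multiset ι → Osm n) (f : Osm n) :
    evR ζ (X (Gen.fn f)) = f := by rw [evR, jev_fn]; rfl

omit [Fintype ι] in
@[simp] lemma evR_z (ζ : Fin n → Multiset ι → Osm n) (l : Fin n) (α : Multiset ι) :
    evR ζ (X (Gen.z l α)) = ζ l α := by rw [evR, jev_z]

omit [Fintype ι] in
@[simp] lemma evR_w (ζ : Fin n → Multiset ι → Osm n) (l : Fin n) (α : Multiset ι) :
    evR ζ (X (Gen.w l α)) = conj (ζ l α) := by rw [evR, jev_w]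

omit [Fintype ι] in
lemma conj_evR (ζ : Fin n → Multiset ι → Osm n) (u : MvPolynomial (Gen n (Osm n) ι) ℂ) :
    conj (evR ζ u) = evR ζ (jconj conj u) := by
  have h : (conj.comp (evR ζ : MvPolynomial (Gen n (Osm n) ι) ℂ →+* Osm n))
      = (evR ζ : MvPolynomial (Gen n (Osm n) ι) ℂ →+* Osm n).comp (jconj conj) := by
    apply MvPolynomial.ringHom_ext
    · intro t
      simp only [RingHom.comp_apply, RingHom.coe_coe, jconj_C]
      rw [← algebraMap_eq, AlgHom.commutes, AlgHom.commutes, Algebra.algebraMap_eq_smul_one,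
        conj_smul, map_one, Algebra.algebraMap_eq_smul_one]
    · intro g
      simp only [RingHom.comp_apply, RingHom.coe_coe]
      cases g with
      | fn f => rw [jconj_fn, evR_fn, evR_fn]
      | z l α => rw [jconj_z, evR_z, evR_w]
      | w l α => rw [jconj_w, evR_w, evR_z, conj_conj]
  exact congrArg (fun φ : MvPolynomial (Gen n (Osm n) ι) ℂ →+* Osm n => φ u) h

/-- Taylor polynomials of the components of the leaf jets. -/
noncomputable def zt (ζ : Fin n → Multiset ι → Osm n) (ξ : ι → ℂ) (N : ℕ) (l : Fin n)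
    (α : Multiset ι) : (Fin n → ℂ) × ℝ → ℂ := fun p =>
  ∑ j ∈ Finset.range (N + 1), ((p.2 : ℂ) ^ j / (j.factorial : ℂ)) *
    (evR ζ ((jXi D Dbar ξ)^[j] (X (Gen.z l α)))) p.1

/-- The polynomial curve through `y`. -/
noncomputable def cw (ζ : Fin n → Multiset ι → Osm n) (ξ : ι → ℂ) (N : ℕ) :
    (Fin n → ℂ) × ℝ → (Fin n → ℂ) := fun p l => zt ζ ξ N l 0 p

/-- Evaluation of jets along the curves. -/
noncomputable def Phi (ζ : Fin n → Multiset ι → Osm n) (ξ : ι → ℂ) (N : ℕ) :
    MvPolynomial (Gen n (Osm n) ι) ℂ →ₐ[ℂ] ((Fin n → ℂ) × ℝ → ℂ) :=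
  jev (fun f p => f (cw ζ ξ N p)) (zt ζ ξ N) (fun l α p => (starRingEnd ℂ) (zt ζ ξ N l α p))

variable (ζ : Fin n → Multiset ι → Osm n) (ξ : ι → ℂ) (N : ℕ)

@[simp] lemma Phi_fn (f : Osm n) (p : (Fin n → ℂ) × ℝ) :
    Phi ζ ξ N (X (Gen.fn f)) p = f (cw ζ ξ N p) := by rw [Phi, jev_fn]

@[simp] lemma Phi_z (l : Fin n) (α : Multiset ι) :
    Phi ζ ξ N (X (Gen.z l α)) = zt ζ ξ N l α := by rw [Phi, jev_z]

@[simp] lemma Phi_w (l : Fin n) (α : Multiset ι) (p : (Fin n → ℂ) × ℝ) :
    Phi ζ ξ N (X (Gen.w l α)) p = (starRingEnd ℂ) (zt ζ ξ N l α p) := by rw [Phi, jev_w]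

variable {ζ N}

lemma evR_iter_z_zero (hζ : ∀ l α, N < Multiset.card α → ζ l α = 0) (l : Fin n) (j : ℕ) :
    ∀ α : Multiset ι, N < Multiset.card α + j →
      evR ζ ((jXi D Dbar ξ)^[j] (X (Gen.z l α))) = 0 := by
  induction j with
  | zero =>
    intro α h
    rw [Function.iterate_zero, id, evR_z]
    exact hζ l α (by simpa using h)
  | succ j ih =>
    intro α h
    rw [Function.iterate_succ_apply, jXi_apply]
    simp only [jA_z, jB_z, smul_zero, add_zero]
    rw [jXi_iter_sum, map_sum]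
    refine Finset.sum_eq_zero fun i _ => ?_
    rw [jXi_iter_smul, map_smul, ih (i ::ₘ α) (by rw [Multiset.card_cons]; omega), smul_zero]

/-- Derivative of the Taylor polynomials. -/
lemma zt_deriv (hζ : ∀ l α, N < Multiset.card α → ζ l α = 0) (l : Fin n) (α : Multiset ι)
    (y : Fin n → ℂ) (τ : ℝ) :
    HasDerivAt (fun τ : ℝ => zt ζ ξ N l α (y, τ))
      (Phi ζ ξ N (jXi D Dbar ξ (X (Gen.z l α))) (y, τ)) τ := by
  have h1 := hasDerivAt_taylor
    (fun j => (evR ζ ((jXi D Dbar ξ)^[j] (X (Gen.z l α)))) y) N τ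
  refine h1.congr_deriv ?_
  have h2 : Phi ζ ξ N (jXi D Dbar ξ (X (Gen.z l α))) (y, τ)
      = ∑ j ∈ Finset.range (N + 1), ((τ : ℂ) ^ j / (j.factorial : ℂ)) *
        (evR ζ ((jXi D Dbar ξ)^[j + 1] (X (Gen.z l α)))) y := by
    rw [jXi_apply]
    simp only [jA_z, jB_z, smul_zero, add_zero]
    rw [map_sum]
    simp only [map_smul, Phi_z]
    rw [Finset.sum_apply]
    simp only [Pi.smul_apply, smul_eq_mul, zt, Finset.mul_sum]
    rw [Finset.sum_comm]
    refine Finset.sum_congr rfl fun j _ => ?_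
    rw [Function.iterate_succ_apply, jXi_apply]
    simp only [jA_z, jB_z, smul_zero, add_zero]
    rw [jXi_iter_sum, map_sum, coe_sum, Finset.mul_sum]
    refine Finset.sum_congr rfl fun i _ => ?_
    rw [jXi_iter_smul, map_smul, coe_smul]
    ring
  rw [h2, Finset.sum_range_succ, evR_iter_z_zero ξ hζ l (N + 1) α (by omega)]
  simp

/-- Derivative of an evaluated jet along the curve. -/
lemma Phi_deriv (hζ : ∀ l α, N < Multiset.card α → ζ l α = 0)
    (u : MvPolynomial (Gen n (Osm n) ι) ℂ) (y : Fin n → ℂ) (τ : ℝ) :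
    HasDerivAt (fun τ : ℝ => Phi ζ ξ N u (y, τ)) (Phi ζ ξ N (jXi D Dbar ξ u) (y, τ)) τ := by
  induction u using MvPolynomial.induction_on with
  | C a =>
    have h1 : jXi D Dbar ξ (C a : MvPolynomial (Gen n (Osm n) ι) ℂ) = 0 := by
      rw [← algebraMap_eq]
      exact Derivation.map_algebraMap _ _
    rw [h1, map_zero]
    have h2 : (fun τ : ℝ => Phi ζ ξ N (C a) (y, τ)) = fun _ => a := by
      funext t
      rw [← algebraMap_eq, AlgHom.commutes]
      rfl
    rw [h2]
    exact hasDerivAt_const _ _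
  | add p q hp hq =>
    have := hp.add hq
    refine (this.congr_of_eventuallyEq (Eventually.of_forall fun t => ?_)).congr_deriv ?_
    · simp only [map_add, Pi.add_apply]
    · simp only [map_add, Pi.add_apply]
  | mul_X p g hp =>
    have hg : HasDerivAt (fun τ : ℝ => Phi ζ ξ N (X g) (y, τ))
        (Phi ζ ξ N (jXi D Dbar ξ (X g)) (y, τ)) τ := by
      cases g with
      | z l α =>
        have := zt_deriv ξ hζ l α y τ
        simpa only [Phi_z] using this
      | w l α =>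
        have h1 := zt_deriv ξ hζ l α y τ
        have h2 := (Complex.conjCLE.toContinuousLinearMap.hasFDerivAt
          (x := zt ζ ξ N l α (y, τ))).comp_hasDerivAt τ h1
        refine (h2.congr_of_eventuallyEq (Eventually.of_forall fun t => ?_)).congr_deriv ?_
        · simp only [Phi_w]
          rfl
        · change (starRingEnd ℂ) (Phi ζ ξ N (jXi D Dbar ξ (X (Gen.z l α))) (y, τ)) = _
          rw [jXi_apply, jXi_apply, map_sum, map_sum, Finset.sum_apply, Finset.sum_apply, map_sum]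
          refine Finset.sum_congr rfl fun i _ => ?_
          simp only [jA_z, jB_z, jA_w, jB_w, smul_zero, add_zero, zero_add, map_smul, Phi_z,
            Pi.smul_apply, Phi_w, smul_eq_mul, map_mul]
      | fn f =>
        have hW : HasDerivAt (fun τ : ℝ => cw ζ ξ N (y, τ))
            (fun l => Phi ζ ξ N (jXi D Dbar ξ (X (Gen.z l 0))) (y, τ)) τ :=
          hasDerivAt_pi.2 fun l => zt_deriv ξ hζ l 0 y τ
        have h2 := (Osm.differentiable f (cw ζ ξ N (y, τ))).hasFDerivAt.comp_hasDerivAt τ hW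
        refine (h2.congr_of_eventuallyEq (Eventually.of_forall fun t => ?_)).congr_deriv ?_
        · simp only [Phi_fn]
          rfl
        · rw [Osm.fderiv_eq]
          rw [jXi_apply, map_sum, Finset.sum_apply]
          have e1 : ∀ l, Phi ζ ξ N (jXi D Dbar ξ (X (Gen.z l 0))) (y, τ)
              = ∑ i, ξ i * zt ζ ξ N l {i} (y, τ) := by
            intro l
            rw [jXi_apply, map_sum, Finset.sum_apply]
            refine Finset.sum_congr rfl fun i _ => ?_
            simp only [jA_z, jB_z, smul_zero, add_zero, map_smul, Phi_z, Pi.smul_apply,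
              smul_eq_mul, Multiset.cons_zero]
          have e2 : ∀ i, Phi ζ ξ N (ξ i • jA D i (X (Gen.fn f))
                + (starRingEnd ℂ) (ξ i) • jB Dbar i (X (Gen.fn f))) (y, τ)
              = ∑ l, (ξ i * zt ζ ξ N l {i} (y, τ) * (D l f) (cw ζ ξ N (y, τ))
                + (starRingEnd ℂ) (ξ i * zt ζ ξ N l {i} (y, τ)) *
                  (Dbar l f) (cw ζ ξ N (y, τ))) := by
            intro i
            rw [jA_fn, jB_fn, map_add, map_smul, map_smul, map_sum, map_sum, Pi.add_apply,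
              Pi.smul_apply, Pi.smul_apply, Finset.sum_apply, Finset.sum_apply, smul_eq_mul,
              smul_eq_mul, Finset.mul_sum, Finset.mul_sum, ← Finset.sum_add_distrib]
            refine Finset.sum_congr rfl fun l _ => ?_
            simp only [map_mul, Pi.mul_apply, Phi_fn, Phi_z, Phi_w]
            ring
          rw [Finset.sum_congr rfl fun i _ => e2 i, Finset.sum_comm]
          refine Finset.sum_congr rfl fun l _ => ?_
          rw [e1, map_sum, Finset.sum_mul, Finset.sum_mul, ← Finset.sum_add_distrib, D_apply,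
            Dbar_apply]
    have := hp.mul hg
    refine (this.congr_of_eventuallyEq (Eventually.of_forall fun t => ?_)).congr_deriv ?_
    · simp only [map_mul, Pi.mul_apply]
    · rw [Derivation.leibniz, smul_eq_mul, smul_eq_mul, map_add, map_mul, map_mul, Pi.add_apply,
        Pi.mul_apply, Pi.mul_apply]
      ring

lemma zt_zero (l : Fin n) (α : Multiset ι) (y : Fin n → ℂ) :
    zt ζ ξ N l α (y, 0) = (ζ l α) y := by
  rw [zt, Finset.sum_eq_single 0]
  · simp
  · intro j _ hj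
    simp [hj]
  · simp

lemma cw_zero (hζ0 : ∀ l, ζ l 0 = zc l) (y : Fin n → ℂ) : cw ζ ξ N (y, 0) = y := by
  funext l
  rw [cw, zt_zero, hζ0, zc_apply]

/-- At `τ = 0` the evaluation along the curve is the evaluation in smooth functions. -/
lemma Phi_zero (hζ0 : ∀ l, ζ l 0 = zc l) (u : MvPolynomial (Gen n (Osm n) ι) ℂ)
    (y : Fin n → ℂ) : Phi ζ ξ N u (y, 0) = (evR ζ u) y := by
  have h : ((Pi.evalAlgHom ℂ (fun _ : (Fin n → ℂ) × ℝ => ℂ) (y, 0)).comp (Phi ζ ξ N))
      = (evalAt y).comp (evR ζ) := by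
    apply MvPolynomial.algHom_ext
    intro g
    cases g with
    | fn f =>
      change Phi ζ ξ N (X (Gen.fn f)) (y, 0) = (evR ζ (X (Gen.fn f))) y
      rw [Phi_fn, cw_zero ξ hζ0, evR_fn]
    | z l α =>
      change Phi ζ ξ N (X (Gen.z l α)) (y, 0) = (evR ζ (X (Gen.z l α))) y
      rw [Phi_z, evR_z, zt_zero]
    | w l α =>
      change Phi ζ ξ N (X (Gen.w l α)) (y, 0) = (evR ζ (X (Gen.w l α))) y
      rw [Phi_w, evR_w, zt_zero, conj_apply]
  exact congrArg (fun φ : MvPolynomial (Gen n (Osm n) ι) ℂ →ₐ[ℂ] ℂ => φ u) h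

lemma zt_cont (l : Fin n) (α : Multiset ι) : Continuous (zt ζ ξ N l α) := by
  unfold zt
  refine continuous_finsetSum _ fun j _ => ?_
  refine Continuous.mul ?_ ((Osm.continuous _).comp continuous_fst)
  exact ((Complex.continuous_ofReal.comp continuous_snd).pow j).div_const _

lemma cw_cont : Continuous (cw ζ ξ N) := continuous_pi fun l => zt_cont ξ l 0

lemma Phi_cont (u : MvPolynomial (Gen n (Osm n) ι) ℂ) : Continuous (Phi ζ ξ N u) := by
  induction u using MvPolynomial.induction_on with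
  | C a =>
    have h2 : (Phi ζ ξ N (C a)) = fun _ => a := by
      funext t
      rw [← algebraMap_eq, AlgHom.commutes]
      rfl
    rw [h2]
    exact continuous_const
  | add p q hp hq => rw [map_add]; exact hp.add hq
  | mul_X p g hp =>
    rw [map_mul]
    refine hp.mul ?_
    cases g with
    | fn f =>
      have : Phi ζ ξ N (X (Gen.fn f)) = fun p => f (cw ζ ξ N p) := by
        funext p; rw [Phi_fn]
      rw [this]
      exact (Osm.continuous f).comp (cw_cont ξ)
    | z l α => rw [Phi_z]; exact zt_cont ξ l α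
    | w l α =>
      have : Phi ζ ξ N (X (Gen.w l α)) = fun p => (starRingEnd ℂ) (zt ζ ξ N l α p) := by
        funext p; rw [Phi_w]
      rw [this]
      exact Complex.continuous_conj.comp (zt_cont ξ l α)

/-- A continuous function is bounded on a product neighbourhood. -/
lemma prod_bound {F : (Fin n → ℂ) × ℝ → ℂ} (hF : Continuous F) (x₀ : Fin n → ℂ) :
    ∃ C : ℝ, 0 ≤ C ∧ ∃ δ > 0, ∀ y ∈ Metric.ball x₀ δ, ∀ τ : ℝ, |τ| ≤ δ → ‖F (y, τ)‖ ≤ C := by
  have h : ∀ᶠ p in 𝓝 (x₀, (0 : ℝ)), ‖F p‖ < ‖F (x₀, 0)‖ + 1 :=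
    hF.norm.continuousAt.eventually (gt_mem_nhds (by linarith))
  obtain ⟨δ, hδ, hball⟩ := Metric.mem_nhds_iff.1 h
  refine ⟨‖F (x₀, 0)‖ + 1, by positivity, δ / 2, by positivity, fun y hy τ hτ => ?_⟩
  have hmem : (y, τ) ∈ Metric.ball (x₀, (0 : ℝ)) δ := by
    rw [Metric.mem_ball, Prod.dist_eq, max_lt_iff]
    rw [Metric.mem_ball] at hy
    refine ⟨by linarith, ?_⟩
    rw [Real.dist_eq, sub_zero]
    linarith
  exact (hball hmem).le

/-- Taylor expansion of evaluated jets, uniform near `x₀`. -/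
theorem Phi_taylor (hζ : ∀ l α, N < Multiset.card α → ζ l α = 0) (hζ0 : ∀ l, ζ l 0 = zc l)
    (u : MvPolynomial (Gen n (Osm n) ι) ℂ) (m : ℕ) (x₀ : Fin n → ℂ) :
    ∃ C : ℝ, 0 ≤ C ∧ ∃ δ > 0, ∀ y ∈ Metric.ball x₀ δ, ∀ τ : ℝ, |τ| ≤ δ →
      ‖Phi ζ ξ N u (y, τ) - ∑ j ∈ Finset.range (m + 1), ((τ : ℂ) ^ j / (j.factorial : ℂ)) *
        (evR ζ ((jXi D Dbar ξ)^[j] u)) y‖ ≤ C * |τ| ^ (m + 1) := by
  obtain ⟨C, hC, δ, hδ, hb⟩ := prod_bound (Phi_cont (ζ := ζ) (N := N) ξ
    ((jXi D Dbar ξ)^[m + 1] u)) x₀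
  refine ⟨C, hC, δ, hδ, fun y hy τ hτ => ?_⟩
  have key := taylor_chain (fun j τ => Phi ζ ξ N ((jXi D Dbar ξ)^[j] u) (y, τ))
    (fun j τ => by
      have := Phi_deriv ξ hζ ((jXi D Dbar ξ)^[j] u) y τ
      rw [Function.iterate_succ_apply']
      exact this) (T := δ) (C := C) m 0 (fun τ hτ => by
        rw [zero_add]
        exact hb y hy τ hτ) τ hτ
  refine le_trans (le_of_eq ?_) key
  congr 2
  refine Finset.sum_congr rfl fun j _ => ?_
  rw [zero_add, Phi_zero ξ hζ0]

end curve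

end Pool.Agent.Work.MP_80f671_an
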