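import Mathlib

/-!
# Curve lemma: a formal arc inside an ideal of infinite colength
-/

set_option autoImplicit false

open PowerSeries

namespace Pool.Agent.Work.MP_80f671_an

namespace CurveLemma

/-! ### Digit expansions -/

section Digits

variable {V : Type*} [CommRing V] [IsDomain V] [Algebra ℂ V]

/-- The data for digit expansions. -/
structure Dig (V : Type*) [CommRing V] [Algebra ℂ V] where
  /-- the uniformizer -/
  ϖ : V
  nonunit : ¬ IsUnit ϖ
  ne_zero : ϖ ≠ 0
  /-- the constant term -/
  c : V → ℂ
  /-- the quotient -/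
  q : V → V
  eq : ∀ v, v = algebraMap ℂ V (c v) + ϖ * q v

variable (D : Dig V)

include D in
omit [IsDomain V] in
lemma Dig.const_unique {a b : ℂ} {v w : V}
    (h : algebraMap ℂ V a + D.ϖ * v = algebraMap ℂ V b + D.ϖ * w) : a = b := by
  by_contra hab
  apply D.nonunit
  have h1 : D.ϖ * (w - v) = algebraMap ℂ V (a - b) := by
    rw [map_sub]
    linear_combination -h
  have h2 : IsUnit (algebraMap ℂ V (a - b)) :=
    (IsUnit.mk0 _ (sub_ne_zero.2 hab)).map (algebraMap ℂ V)
  rw [← h1] at h2
  exact isUnit_of_mul_isUnit_left h2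

lemma Dig.unique {a : ℂ} {v w : V} (h : v = algebraMap ℂ V a + D.ϖ * w) :
    D.c v = a ∧ D.q v = w := by
  have h1 : algebraMap ℂ V (D.c v) + D.ϖ * D.q v = algebraMap ℂ V a + D.ϖ * w := by
    rw [← D.eq, h]
  have h2 := D.const_unique h1
  refine ⟨h2, ?_⟩
  rw [h2, add_right_inj] at h1
  exact mul_left_cancel₀ D.ne_zero h1

/-- The expansion. -/
noncomputable def Dig.exp (v : V) : PowerSeries ℂ := PowerSeries.mk fun n => D.c (D.q^[n] v)

omit [IsDomain V] in
lemma Dig.coeff_zero (v : V) : coeff 0 (D.exp v) = D.c v := by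
  simp [Dig.exp]

omit [IsDomain V] in
lemma Dig.coeff_succ (n : ℕ) (v : V) : coeff (n + 1) (D.exp v) = coeff n (D.exp (D.q v)) := by
  simp [Dig.exp]

omit [IsDomain V] in
lemma Dig.exp_eq (v : V) : D.exp v = C (D.c v) + X * D.exp (D.q v) := by
  ext n
  cases n with
  | zero => rw [D.coeff_zero, map_add, coeff_zero_C, coeff_zero_X_mul, add_zero]
  | succ n =>
    rw [D.coeff_succ, map_add, coeff_succ_X_mul, coeff_C, if_neg (Nat.succ_ne_zero n), zero_add]

lemma Dig.exp_add (v w : V) : D.exp (v + w) = D.exp v + D.exp w := by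
  ext n
  induction n generalizing v w with
  | zero =>
    have h := D.unique (v := v + w) (a := D.c v + D.c w) (w := D.q v + D.q w) (by
      conv_lhs => rw [D.eq v, D.eq w]
      rw [map_add]
      ring)
    rw [map_add, D.coeff_zero, D.coeff_zero, D.coeff_zero, h.1]
  | succ n ih =>
    have h := D.unique (v := v + w) (a := D.c v + D.c w) (w := D.q v + D.q w) (by
      conv_lhs => rw [D.eq v, D.eq w]
      rw [map_add]
      ring)
    rw [map_add, D.coeff_succ, D.coeff_succ, D.coeff_succ, h.2, ih, map_add]

lemma Dig.exp_smul (a : ℂ) (v : V) : D.exp (algebraMap ℂ V a * v) = C a * D.exp v := by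
  ext n
  induction n generalizing v with
  | zero =>
    have h := D.unique (v := algebraMap ℂ V a * v) (a := a * D.c v)
      (w := algebraMap ℂ V a * D.q v) (by
      conv_lhs => rw [D.eq v]
      rw [map_mul]
      ring)
    rw [coeff_C_mul, D.coeff_zero, D.coeff_zero, h.1]
  | succ n ih =>
    have h := D.unique (v := algebraMap ℂ V a * v) (a := a * D.c v)
      (w := algebraMap ℂ V a * D.q v) (by
      conv_lhs => rw [D.eq v]
      rw [map_mul]
      ring)
    rw [coeff_C_mul, D.coeff_succ, D.coeff_succ, h.2, ih, coeff_C_mul]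

lemma Dig.exp_mul (v w : V) : D.exp (v * w) = D.exp v * D.exp w := by
  have h : ∀ v w, D.c (v * w) = D.c v * D.c w ∧
      D.q (v * w) = algebraMap ℂ V (D.c v) * D.q w + D.q v * w := by
    intro v w
    apply D.unique
    conv_lhs => rw [D.eq v]
    rw [map_mul]
    have h2 := D.eq w
    linear_combination (algebraMap ℂ V (D.c v)) * h2
  ext n
  induction n generalizing v w with
  | zero =>
    rw [D.coeff_zero, (h v w).1, D.exp_eq v, D.exp_eq w]
    simp
  | succ n ih =>
    rw [D.coeff_succ, (h v w).2, D.exp_add, D.exp_smul, map_add, ih]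
    conv_rhs => rw [D.exp_eq v, D.exp_eq w]
    have e : (C (D.c v) + X * D.exp (D.q v)) * (C (D.c w) + X * D.exp (D.q w)) =
      C (D.c v * D.c w) + X * (C (D.c v) * D.exp (D.q w) + D.exp (D.q v) *
        (C (D.c w) + X * D.exp (D.q w))) := by
      rw [map_mul]
      ring
    rw [e, ← D.exp_eq w, map_add, coeff_succ_X_mul, coeff_C, if_neg (Nat.succ_ne_zero n),
      zero_add, map_add]

lemma Dig.exp_one : D.exp 1 = 1 := by
  have h := D.unique (v := 1) (a := 1) (w := 0) (by simp)
  rw [D.exp_eq, h.1, h.2]
  have h0 : D.exp 0 = 0 := by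
    have := D.exp_add 0 0
    rw [add_zero] at this
    exact left_eq_add.1 this
  rw [h0]
  simp

lemma Dig.exp_algebraMap (a : ℂ) : D.exp (algebraMap ℂ V a) = algebraMap ℂ (PowerSeries ℂ) a := by
  have := D.exp_smul a 1
  rw [mul_one, D.exp_one, mul_one] at this
  rw [this]
  rfl

/-- The expansion as an algebra homomorphism. -/
noncomputable def Dig.hom : V →ₐ[ℂ] PowerSeries ℂ where
  toFun := D.exp
  map_one' := D.exp_one
  map_mul' := D.exp_mul
  map_zero' := by
    have := D.exp_algebraMap 0
    rwa [map_zero, map_zero] at this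
  map_add' := D.exp_add
  commutes' := D.exp_algebraMap

/-- The expansion is injective if the powers of the uniformizer meet in zero. -/
lemma Dig.exp_injective (hsep : ∀ v, (∀ n, D.ϖ ^ n ∣ v) → v = 0) :
    Function.Injective D.hom := by
  rw [injective_iff_map_eq_zero]
  intro v hv
  apply hsep
  have hv' : D.exp v = 0 := hv
  have key : ∀ n, ∀ v, D.exp v = 0 → D.ϖ ^ n ∣ v := by
    intro n
    induction n with
    | zero => intro v _; simp
    | succ n ih =>
      intro v hv
      have h0 : D.c v = 0 := by rw [← D.coeff_zero, hv, map_zero]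
      have h1 : D.exp (D.q v) = 0 := by
        ext m
        rw [← D.coeff_succ, hv, map_zero, map_zero]
      obtain ⟨w, hw⟩ := ih _ h1
      refine ⟨w, ?_⟩
      rw [D.eq v, h0, map_zero, zero_add, hw]
      ring
  exact fun n => key n v hv'

end Digits

/-! ### Dedekind domains over `ℂ⟦X⟧` -/

lemma exists_hom_dedekind (B : Type) [CommRing B] [IsDedekindDomain B]
    [Algebra ℂ B] [Algebra (PowerSeries ℂ) B] [IsScalarTower ℂ (PowerSeries ℂ) B]
    [Algebra.IsIntegral (PowerSeries ℂ) B] [FaithfulSMul (PowerSeries ℂ) B] :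
    ∃ ψ : B →ₐ[ℂ] PowerSeries ℂ, Function.Injective ψ := by
  have hinj : Function.Injective (algebraMap (PowerSeries ℂ) B) :=
    FaithfulSMul.algebraMap_injective _ _
  have hmax : (IsLocalRing.maximalIdeal (PowerSeries ℂ)).IsMaximal := inferInstance
  obtain ⟨Q, hQmax, hQ⟩ := Ideal.exists_ideal_over_maximal_of_isIntegral (S := B)
    (IsLocalRing.maximalIdeal (PowerSeries ℂ)) (by
      rw [(RingHom.injective_iff_ker_eq_bot _).1 hinj]
      exact bot_le)
  have hXQ : algebraMap (PowerSeries ℂ) B X ∈ Q := by
    have h1 : (X : PowerSeries ℂ) ∈ Q.comap (algebraMap (PowerSeries ℂ) B) := by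
      rw [hQ, PowerSeries.maximalIdeal_eq_span_X]
      exact Ideal.mem_span_singleton_self X
    exact h1
  have hQbot : Q ≠ ⊥ := by
    rintro rfl
    rw [Ideal.mem_bot, map_eq_zero_iff _ hinj] at hXQ
    exact X_ne_zero hXQ
  have hprime : Q.IsPrime := hQmax.isPrime
  -- the residue field is `ℂ`
  have hres : ∀ b : B, ∃ c : ℂ, b - algebraMap ℂ B c ∈ Q := by
    have hcomp : (Ideal.Quotient.mk Q).comp (algebraMap (PowerSeries ℂ) B) =
        ((Ideal.Quotient.mk Q).comp (algebraMap ℂ B)).comp
          (constantCoeff (R := ℂ)) := by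
      ext r
      simp only [RingHom.comp_apply]
      rw [Ideal.Quotient.eq, IsScalarTower.algebraMap_apply ℂ (PowerSeries ℂ) B, ← map_sub]
      have h2 : X ∣ r - algebraMap ℂ (PowerSeries ℂ) (constantCoeff r) := by
        rw [X_dvd_iff]
        simp
      obtain ⟨r', hr'⟩ := h2
      rw [hr', map_mul]
      exact Q.mul_mem_right _ hXQ
    have hfield : Field (B ⧸ Q) := Ideal.Quotient.field Q
    let i : ℂ →+* B ⧸ Q := (Ideal.Quotient.mk Q).comp (algebraMap ℂ B)
    have hsurj : Function.Surjective i := by
      let _ : Algebra ℂ (B ⧸ Q) := i.toAlgebra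
      have hI : Algebra.IsIntegral ℂ (B ⧸ Q) := by
        constructor
        intro x
        obtain ⟨b, rfl⟩ := Ideal.Quotient.mk_surjective x
        obtain ⟨P, hP, hPb⟩ := Algebra.IsIntegral.isIntegral (R := PowerSeries ℂ) b
        refine ⟨P.map (constantCoeff (R := ℂ)), hP.map _, ?_⟩
        rw [Polynomial.eval₂_map]
        have h3 : (algebraMap ℂ (B ⧸ Q)).comp (constantCoeff (R := ℂ)) =
            (Ideal.Quotient.mk Q).comp (algebraMap (PowerSeries ℂ) B) := hcomp.symm
        rw [h3, ← Polynomial.hom_eval₂, hPb, map_zero]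
      exact IsAlgClosed.algebraMap_bijective_of_isIntegral.2
    intro b
    obtain ⟨c, hc⟩ := hsurj (Ideal.Quotient.mk Q b)
    refine ⟨c, ?_⟩
    rw [← Ideal.Quotient.eq]
    exact hc.symm
  -- the discrete valuation ring
  let V := Localization.AtPrime Q
  have hV : IsDiscreteValuationRing V :=
    IsLocalization.AtPrime.isDiscreteValuationRing_of_dedekind_domain B hQbot V
  obtain ⟨ϖ, hϖ⟩ := IsDiscreteValuationRing.exists_irreducible V
  have hmaxV : IsLocalRing.maximalIdeal V = Ideal.span {ϖ} := hϖ.maximalIdeal_eq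
  have hresV : ∀ v : V, ∃ c : ℂ, ∃ w : V, v = algebraMap ℂ V c + ϖ * w := by
    intro v
    obtain ⟨⟨b, s⟩, hv⟩ := IsLocalization.mk'_surjective Q.primeCompl v
    obtain ⟨cb, hcb⟩ := hres b
    obtain ⟨cs, hcs⟩ := hres s
    have hcs0 : cs ≠ 0 := by
      rintro rfl
      rw [map_zero, sub_zero] at hcs
      exact s.2 hcs
    have hmem : ∀ b : B, b ∈ Q → algebraMap B V b ∈ IsLocalRing.maximalIdeal V := by
      intro b hb
      exact (IsLocalization.AtPrime.to_map_mem_maximal_iff V Q b).2 hb
    have hs : algebraMap B V s ≠ 0 := by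
      intro h0
      have h1 := (IsLocalization.AtPrime.isUnit_to_map_iff V Q (s : B)).2 s.2
      rw [h0] at h1
      exact not_isUnit_zero h1
    have hsu : IsUnit (algebraMap B V s) := (IsLocalization.AtPrime.isUnit_to_map_iff V Q (s : B)).2 s.2
    have hvs : v * algebraMap B V s = algebraMap B V b := by
      rw [← hv]
      exact IsLocalization.mk'_spec V b s
    -- `v - cb / cs ∈ maximal ideal`
    have h2 : v - algebraMap ℂ V (cb / cs) ∈ IsLocalRing.maximalIdeal V := by
      have h3 : algebraMap B V s * (v - algebraMap ℂ V (cb / cs)) ∈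
          IsLocalRing.maximalIdeal V := by
        have e : algebraMap B V s * (v - algebraMap ℂ V (cb / cs)) =
            algebraMap B V (b - algebraMap ℂ B cb) -
              algebraMap ℂ V (cb / cs) * algebraMap B V (s - algebraMap ℂ B cs) := by
          rw [map_sub, map_sub, ← IsScalarTower.algebraMap_apply, ← IsScalarTower.algebraMap_apply,
            ← hvs, mul_sub, mul_sub, ← map_mul (algebraMap ℂ V) (cb / cs) cs,
            div_mul_cancel₀ _ hcs0]
          ring
        rw [e]
        exact Ideal.sub_mem _ (hmem _ hcb) (Ideal.mul_mem_left _ _ (hmem _ hcs))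
      obtain ⟨u, hu⟩ := hsu
      rw [← hu] at h3
      have h4 := Ideal.mul_mem_left (IsLocalRing.maximalIdeal V) (↑u⁻¹ : V) h3
      rwa [← mul_assoc, Units.inv_mul, one_mul] at h4
    rw [hmaxV, Ideal.mem_span_singleton] at h2
    obtain ⟨w, hw⟩ := h2
    exact ⟨cb / cs, w, by rw [← hw]; ring⟩
  choose c q hcq using hresV
  let D : Dig V := ⟨ϖ, hϖ.not_isUnit, hϖ.ne_zero, c, q, hcq⟩
  have hsep : ∀ v : V, (∀ n, D.ϖ ^ n ∣ v) → v = 0 := by
    intro v hv
    have h1 := Ideal.iInf_pow_eq_bot_of_isLocalRing (IsLocalRing.maximalIdeal V)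
      (Ideal.IsPrime.ne_top inferInstance)
    rw [← Ideal.mem_bot, ← h1, Ideal.mem_iInf]
    intro n
    rw [hmaxV, Ideal.span_singleton_pow, Ideal.mem_span_singleton]
    exact hv n
  have hBV : Function.Injective (algebraMap B V) :=
    IsLocalization.injective V Q.primeCompl_le_nonZeroDivisors
  refine ⟨D.hom.comp (IsScalarTower.toAlgHom ℂ B V), ?_⟩
  exact (D.exp_injective hsep).comp hBV

/-! ### Finite extensions of `ℂ⟦X⟧` -/

lemma exists_hom_of_finite (A : Type) [CommRing A] [IsDomain A] [Algebra ℂ A]
    [Algebra (PowerSeries ℂ) A] [IsScalarTower ℂ (PowerSeries ℂ) A]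
    [hfin : Module.Finite (PowerSeries ℂ) A] [FaithfulSMul (PowerSeries ℂ) A] :
    ∃ ψ : A →ₐ[ℂ] PowerSeries ℂ, Function.Injective ψ := by
  let L := FractionRing A
  have hAL : Function.Injective (algebraMap A L) := IsFractionRing.injective A L
  have hRA : Function.Injective (algebraMap (PowerSeries ℂ) A) :=
    FaithfulSMul.algebraMap_injective _ _
  have hRL : Function.Injective (algebraMap (PowerSeries ℂ) L) := by
    rw [IsScalarTower.algebraMap_eq (PowerSeries ℂ) A L]
    exact hAL.comp hRA
  have hf : FaithfulSMul (PowerSeries ℂ) L := (faithfulSMul_iff_algebraMap_injective _ _).2 hRL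
  let K := FractionRing (PowerSeries ℂ)
  let _ : Algebra K L := FractionRing.liftAlgebra (PowerSeries ℂ) L
  have hT : IsScalarTower (PowerSeries ℂ) K L :=
    FractionRing.isScalarTower_liftAlgebra (PowerSeries ℂ) L
  have hint : Algebra.IsIntegral (PowerSeries ℂ) A := Algebra.IsIntegral.of_finite _ _
  have hintL : ∀ a : A, IsIntegral (PowerSeries ℂ) (algebraMap A L a) :=
    fun a => (hint.isIntegral a).map (IsScalarTower.toAlgHom (PowerSeries ℂ) A L)
  -- finite dimensional
  have hfd : FiniteDimensional K L := by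
    obtain ⟨T, hTspan⟩ := hfin.fg_top
    let S : Set L := (algebraMap A L) '' (T : Set A)
    have hS : S.Finite := T.finite_toSet.image _
    have hSi : ∀ x ∈ S, IsIntegral K x := by
      rintro _ ⟨a, -, rfl⟩
      exact (hintL a).tower_top
    have hfd2 : FiniteDimensional K (IntermediateField.adjoin K S) := by
      have := hS.to_subtype
      exact IntermediateField.finiteDimensional_adjoin hSi
    have hmem : ∀ a : A, algebraMap A L a ∈ IntermediateField.adjoin K S := by
      intro a
      have ha : a ∈ Submodule.span (PowerSeries ℂ) (T : Set A) := by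
        rw [hTspan]; trivial
      induction ha using Submodule.span_induction with
      | mem x hx => exact IntermediateField.subset_adjoin K S ⟨x, hx, rfl⟩
      | zero => rw [map_zero]; exact zero_mem _
      | add x y _ _ hx hy => rw [map_add]; exact add_mem hx hy
      | smul r x _ hx =>
        rw [Algebra.smul_def, map_mul]
        apply mul_mem _ hx
        rw [← IsScalarTower.algebraMap_apply, IsScalarTower.algebraMap_apply (PowerSeries ℂ) K L]
        exact IntermediateField.algebraMap_mem _ _
    have htop : IntermediateField.adjoin K S = ⊤ := by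
      rw [eq_top_iff]
      intro x _
      obtain ⟨a, b, _, rfl⟩ := IsFractionRing.div_surjective (A := A) x
      exact div_mem (hmem a) (hmem b)
    rw [htop] at hfd2
    exact IntermediateField.topEquiv.toLinearEquiv.finiteDimensional
  have hchar : CharZero K := charZero_of_injective_ringHom
    (f := (algebraMap (PowerSeries ℂ) K).comp (algebraMap ℂ (PowerSeries ℂ)))
    (RingHom.injective _)
  have hsep : Algebra.IsSeparable K L := inferInstance
  have hDed : IsDedekindDomain (integralClosure (PowerSeries ℂ) L) :=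
    integralClosure.isDedekindDomain (PowerSeries ℂ) K L
  let B := integralClosure (PowerSeries ℂ) L
  let _ : Algebra ℂ B := ((algebraMap (PowerSeries ℂ) B).comp (algebraMap ℂ (PowerSeries ℂ))).toAlgebra
  have hT2 : IsScalarTower ℂ (PowerSeries ℂ) B := IsScalarTower.of_algebraMap_eq (fun _ => rfl)
  have hintB : Algebra.IsIntegral (PowerSeries ℂ) B := integralClosure.AlgebraIsIntegral
  have hfB : FaithfulSMul (PowerSeries ℂ) B := by
    rw [faithfulSMul_iff_algebraMap_injective]
    intro x y hxy
    exact hRL (congrArg Subtype.val hxy)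
  obtain ⟨ψ, hψ⟩ := exists_hom_dedekind B
  let j : A →ₐ[PowerSeries ℂ] B :=
    AlgHom.codRestrict (IsScalarTower.toAlgHom (PowerSeries ℂ) A L) B hintL
  have hj : Function.Injective j := by
    intro x y hxy
    exact hAL (congrArg Subtype.val hxy)
  refine ⟨{ (ψ : B →+* PowerSeries ℂ).comp (j : A →+* B) with
    commutes' := fun c => ?_ }, hψ.comp hj⟩
  change ψ (j (algebraMap ℂ A c)) = _
  rw [IsScalarTower.algebraMap_apply ℂ (PowerSeries ℂ) A, j.commutes,
    ← IsScalarTower.algebraMap_apply ℂ (PowerSeries ℂ) B, ψ.commutes]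

/-! ### Colength and the maximal ideal of a local ring -/

/-- In a Noetherian local ring with residue field `ℂ`, powers of the maximal ideal have finite
colength. -/
lemma finite_quot_pow (S : Type) [CommRing S] [IsNoetherianRing S] [Algebra ℂ S] (m : Ideal S)
    (hres : ∀ s : S, ∃ c : ℂ, s - algebraMap ℂ S c ∈ m) (k : ℕ) :
    Module.Finite ℂ (S ⧸ m ^ k) := by
  classical
  induction k with
  | zero =>
    have : Subsingleton (S ⧸ m ^ 0) := by
      rw [pow_zero, Ideal.one_eq_top]
      exact Ideal.Quotient.subsingleton_iff.2 rfl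
    infer_instance
  | succ k ih =>
    let f : (S ⧸ m ^ (k + 1)) →ₗ[ℂ] (S ⧸ m ^ k) :=
      (Ideal.Quotient.factorₐ ℂ (Ideal.pow_le_pow_right (Nat.le_succ k))).toLinearMap
    -- the kernel is finite dimensional
    obtain ⟨T, hT⟩ := (isNoetherianRing_iff_ideal_fg S).1 inferInstance (m ^ k)
    have hker : (LinearMap.ker f).FG := by
      refine ⟨T.image (Ideal.Quotient.mk (m ^ (k + 1))), ?_⟩
      apply le_antisymm
      · rw [Submodule.span_le]
        intro x hx
        rw [Finset.coe_image] at hx
        obtain ⟨t, ht, rfl⟩ := hx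
        have h1 : t ∈ m ^ k := by
          rw [← hT]
          exact Ideal.subset_span ht
        change Ideal.Quotient.factor (Ideal.pow_le_pow_right (Nat.le_succ k))
          (Ideal.Quotient.mk _ t) = 0
        rw [Ideal.Quotient.factor_mk]
        exact Ideal.Quotient.eq_zero_iff_mem.2 h1
      · intro x hx
        obtain ⟨s, rfl⟩ := Ideal.Quotient.mk_surjective x
        have h1 : Ideal.Quotient.factor (Ideal.pow_le_pow_right (Nat.le_succ k))
          (Ideal.Quotient.mk (m ^ (k + 1)) s) = 0 := hx
        rw [Ideal.Quotient.factor_mk, Ideal.Quotient.eq_zero_iff_mem, ← hT] at h1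
        clear hx
        have key : ∀ s ∈ Ideal.span (T : Set S), Ideal.Quotient.mk (m ^ (k + 1)) s ∈
            Submodule.span ℂ ((T.image (Ideal.Quotient.mk (m ^ (k + 1))) :
              Finset (S ⧸ m ^ (k + 1))) : Set (S ⧸ m ^ (k + 1))) := by
          intro s hs
          induction hs using Submodule.span_induction with
          | mem x hx =>
            apply Submodule.subset_span
            rw [Finset.coe_image]
            exact ⟨x, hx, rfl⟩
          | zero => rw [map_zero]; exact zero_mem _
          | add x y _ _ hx hy => rw [map_add]; exact add_mem hx hy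
          | smul r x hx' hx =>
            obtain ⟨c, hc⟩ := hres r
            have h2 : Ideal.Quotient.mk (m ^ (k + 1)) (r • x) =
                c • Ideal.Quotient.mk (m ^ (k + 1)) x := by
              have h3 : c • Ideal.Quotient.mk (m ^ (k + 1)) x =
                  Ideal.Quotient.mk (m ^ (k + 1)) (c • x) := rfl
              rw [h3, Ideal.Quotient.eq, smul_eq_mul, Algebra.smul_def, ← sub_mul, pow_succ']
              apply Ideal.mul_mem_mul hc
              rw [← hT]
              exact hx'
            rw [h2]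
            exact Submodule.smul_mem _ _ hx
        exact key s h1
    have hk : Module.Finite ℂ (LinearMap.ker f) := Module.Finite.iff_fg.2 hker
    have hr : Module.Finite ℂ (LinearMap.range f) := inferInstance
    have hq : Module.Finite ℂ ((S ⧸ m ^ (k + 1)) ⧸ LinearMap.ker f) :=
      Module.Finite.equiv f.quotKerEquivRange.symm
    exact Module.Finite.of_submodule_quotient (LinearMap.ker f)

/-! ### Finiteness over `ℂ⟦X⟧` -/

lemma finite_of_quot (A : Type) [CommRing A] [IsDomain A] [IsNoetherianRing A] [Algebra ℂ A]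
    [Algebra (PowerSeries ℂ) A] [IsScalarTower ℂ (PowerSeries ℂ) A]
    (hunit : ¬ IsUnit (algebraMap (PowerSeries ℂ) A X))
    (hfin : Module.Finite ℂ (A ⧸ Ideal.span {algebraMap (PowerSeries ℂ) A X})) :
    Module.Finite (PowerSeries ℂ) A := by
  set f : A := algebraMap (PowerSeries ℂ) A X with hf
  obtain ⟨n, t, ht⟩ := Module.Finite.exists_fin (R := ℂ) (M := A ⧸ Ideal.span {f})
  choose a ha using fun j => Ideal.Quotient.mk_surjective (t j)
  have hdig : ∀ s : A, ∃ c : Fin n → ℂ, ∃ s' : A, s = ∑ j, algebraMap ℂ A (c j) * a j + f * s' := by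
    intro s
    have h1 : Ideal.Quotient.mk (Ideal.span {f}) s ∈ Submodule.span ℂ (Set.range t) := by
      rw [ht]; trivial
    rw [Submodule.mem_span_range_iff_exists_fun] at h1
    obtain ⟨c, hc⟩ := h1
    have h2 : Ideal.Quotient.mk (Ideal.span {f}) s =
        Ideal.Quotient.mk (Ideal.span {f}) (∑ j, algebraMap ℂ A (c j) * a j) := by
      rw [← hc, map_sum]
      refine Finset.sum_congr rfl fun j _ => ?_
      rw [map_mul, ha, Algebra.smul_def]
      rfl
    rw [Ideal.Quotient.eq, Ideal.mem_span_singleton] at h2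
    obtain ⟨s', hs'⟩ := h2
    exact ⟨c, s', by linear_combination hs'⟩
  choose c q hcq using hdig
  let r : A → Fin n → PowerSeries ℂ := fun s j => PowerSeries.mk fun i => c (q^[i] s) j
  have hr : ∀ s j, r s j = algebraMap ℂ (PowerSeries ℂ) (c s j) + X * r (q s) j := by
    intro s j
    ext i
    cases i with
    | zero => simp [r]
    | succ i =>
      rw [map_add, coeff_succ_X_mul]
      have : algebraMap ℂ (PowerSeries ℂ) (c s j) = C (c s j) := rfl
      rw [this, coeff_C, if_neg (Nat.succ_ne_zero i), zero_add]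
      simp [r]
  let E : A → A := fun s => s - ∑ j, algebraMap (PowerSeries ℂ) A (r s j) * a j
  have hE : ∀ s, E s = f * E (q s) := by
    intro s
    change s - ∑ j, algebraMap (PowerSeries ℂ) A (r s j) * a j =
      f * (q s - ∑ j, algebraMap (PowerSeries ℂ) A (r (q s) j) * a j)
    have h1 : ∀ j, algebraMap (PowerSeries ℂ) A (r s j) * a j = algebraMap ℂ A (c s j) * a j +
        f * (algebraMap (PowerSeries ℂ) A (r (q s) j) * a j) := by
      intro j
      rw [hr s j, map_add, map_mul, ← IsScalarTower.algebraMap_apply]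
      ring
    rw [Finset.sum_congr rfl (fun j _ => h1 j), Finset.sum_add_distrib, ← Finset.mul_sum]
    have h2 := hcq s
    linear_combination h2
  have hE2 : ∀ N s, E s ∈ Ideal.span {f} ^ N := by
    intro N
    induction N with
    | zero => intro s; simp
    | succ N ih =>
      intro s
      rw [hE s, pow_succ']
      exact Ideal.mul_mem_mul (Ideal.mem_span_singleton_self f) (ih (q s))
  have hE0 : ∀ s, E s = 0 := by
    intro s
    have h1 := Ideal.iInf_pow_eq_bot_of_isDomain (Ideal.span {f}) (by
      rw [Ne, Ideal.span_singleton_eq_top]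
      exact hunit)
    rw [← Ideal.mem_bot, ← h1, Ideal.mem_iInf]
    exact fun N => hE2 N s
  rw [Module.finite_def, Submodule.fg_def]
  refine ⟨Set.range a, Set.finite_range a, ?_⟩
  rw [eq_top_iff]
  intro s _
  rw [Submodule.mem_span_range_iff_exists_fun]
  refine ⟨r s, ?_⟩
  have h1 := hE0 s
  have h2 : s = ∑ j, algebraMap (PowerSeries ℂ) A (r s j) * a j := sub_eq_zero.1 h1
  conv_rhs => rw [h2]
  refine Finset.sum_congr rfl fun j _ => ?_
  rw [Algebra.smul_def]

lemma faithful_of (A : Type) [CommRing A] [IsDomain A] [Algebra ℂ A]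
    [Algebra (PowerSeries ℂ) A] (h0 : algebraMap (PowerSeries ℂ) A X ≠ 0) :
    FaithfulSMul (PowerSeries ℂ) A := by
  rw [faithfulSMul_iff_algebraMap_injective, injective_iff_map_eq_zero]
  intro r hr
  by_contra hr0
  obtain ⟨k, u, hu⟩ := IsDiscreteValuationRing.eq_unit_mul_pow_irreducible hr0
    (PowerSeries.X_prime (R := ℂ)).irreducible
  rw [hu, map_mul, map_pow] at hr
  rcases mul_eq_zero.1 hr with h | h
  · have h1 : IsUnit (algebraMap (PowerSeries ℂ) A u) := u.isUnit.map _
    rw [h] at h1
    exact not_isUnit_zero h1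
  · have hk : k ≠ 0 := by
      rintro rfl
      rw [pow_zero] at h
      exact one_ne_zero h
    exact h0 ((pow_eq_zero_iff hk).1 h)

end CurveLemma

end Pool.Agent.Work.MP_80f671_an
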