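import Pool.Agent.Work.MP_80f671_an.CurveBase

/-!
# Curve lemma: a formal arc inside an ideal of infinite colength (main statement)
-/

set_option autoImplicit false

namespace Pool.Agent.Work.MP_80f671_an

namespace CurveLemma

open MvPowerSeries in
lemma mem_span_X {n : ℕ} (f : MvPowerSeries (Fin n) ℂ) (hf : constantCoeff f = 0) :
    f ∈ Ideal.span (Set.range (X : Fin n → MvPowerSeries (Fin n) ℂ)) := by
  classical
  let g : Fin n → MvPowerSeries (Fin n) ℂ := fun i d =>
    if ∀ j < i, d j = 0 then coeff (d + Finsupp.single i 1) f else 0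
  have hg : f = ∑ i, X i * g i := by
    ext d
    rw [map_sum]
    have h1 : ∀ i, coeff d (X i * g i) =
        if d i ≠ 0 ∧ ∀ j < i, d j = 0 then coeff d f else 0 := by
      intro i
      rw [X, coeff_monomial_mul]
      by_cases hdi : d i ≠ 0
      · have h2 : Finsupp.single i 1 ≤ d := by
          rw [Finsupp.single_le_iff]
          exact Nat.one_le_iff_ne_zero.2 hdi
        rw [if_pos h2, one_mul]
        change (if ∀ j < i, (d - Finsupp.single i 1 : Fin n →₀ ℕ) j = 0 then
          coeff (d - Finsupp.single i 1 + Finsupp.single i 1) f else 0) = _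
        rw [tsub_add_cancel_of_le h2]
        apply if_congr _ rfl rfl
        constructor
        · intro h
          refine ⟨hdi, fun j hj => ?_⟩
          have := h j hj
          rwa [Finsupp.coe_tsub, Pi.sub_apply, Finsupp.single_eq_of_ne (Fin.ne_of_lt hj),
            Nat.sub_zero] at this
        · rintro ⟨-, h⟩ j hj
          rw [Finsupp.coe_tsub, Pi.sub_apply, h j hj, Nat.zero_sub]
      · have h2 : ¬ Finsupp.single i 1 ≤ d := by
          rw [Finsupp.single_le_iff]
          omega
        rw [if_neg h2, if_neg (fun h => hdi h.1)]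
    rw [Finset.sum_congr rfl (fun i _ => h1 i)]
    by_cases hd : d = 0
    · subst hd
      simp only [Finsupp.coe_zero, Pi.zero_apply, ne_eq, not_true_eq_false, false_and, if_false,
        Finset.sum_const_zero]
      rw [coeff_zero_eq_constantCoeff_apply, hf]
    · have hex : ∃ i, d i ≠ 0 := by
        by_contra hcon
        push Not at hcon
        exact hd (Finsupp.ext hcon)
      obtain ⟨i, hi, hmin⟩ := WellFounded.has_min (wellFounded_lt (α := Fin n)) {i | d i ≠ 0} hex
      rw [Finset.sum_eq_single i]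
      · rw [if_pos]
        refine ⟨hi, fun j hj => ?_⟩
        by_contra hcon
        exact hmin j hcon hj
      · intro j _ hji
        rw [if_neg]
        rintro ⟨h1, h2⟩
        rcases lt_or_gt_of_ne hji with h | h
        · exact hmin j h1 h
        · exact hi (h2 i h)
      · intro h
        exact absurd (Finset.mem_univ i) h
  rw [hg]
  exact Ideal.sum_mem _ fun i _ => Ideal.mul_mem_right _ _ (Ideal.subset_span ⟨i, rfl⟩)

end CurveLemma

open CurveLemma in
open MvPowerSeries in
theorem curve_lemma {n : ℕ} (b : Ideal (MvPowerSeries (Fin n) ℂ))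
    (hb : ¬ Module.Finite ℂ (MvPowerSeries (Fin n) ℂ ⧸ b)) :
    ∃ ψ : MvPowerSeries (Fin n) ℂ →ₐ[ℂ] PowerSeries ℂ,
      (∀ f ∈ b, ψ f = 0) ∧ ∃ i, ψ (MvPowerSeries.X i) ≠ 0 := by
  classical
  set m : Ideal (MvPowerSeries (Fin n) ℂ) :=
    RingHom.ker (MvPowerSeries.constantCoeff (σ := Fin n) (R := ℂ)) with hm
  have hunit : ∀ f, f ∉ m → IsUnit f := by
    intro f hf
    rw [MvPowerSeries.isUnit_iff_constantCoeff]
    rw [hm, RingHom.mem_ker] at hf
    exact IsUnit.mk0 _ hf
  have hle : ∀ I : Ideal (MvPowerSeries (Fin n) ℂ), I ≠ ⊤ → I ≤ m := by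
    intro I hI f hf
    by_contra hfm
    exact hI (Ideal.eq_top_of_isUnit_mem I hf (hunit f hfm))
  have hres : ∀ s : MvPowerSeries (Fin n) ℂ, ∃ c : ℂ,
      s - algebraMap ℂ (MvPowerSeries (Fin n) ℂ) c ∈ m := by
    intro s
    refine ⟨constantCoeff s, ?_⟩
    rw [hm, RingHom.mem_ker, map_sub, MvPowerSeries.algebraMap_apply, constantCoeff_C,
      Algebra.algebraMap_self_apply, sub_self]
  have hmspan : m ≤ Ideal.span (Set.range (X : Fin n → MvPowerSeries (Fin n) ℂ)) :=
    fun f hf => mem_span_X f (by rwa [hm, RingHom.mem_ker] at hf)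
  have hmprime : m.IsPrime := RingHom.ker_isPrime _
  have hmfg : m.FG := (isNoetherianRing_iff_ideal_fg _).1 inferInstance m
  -- if the only primes over an ideal are `m`, the colength is finite
  have hcol : ∀ I : Ideal (MvPowerSeries (Fin n) ℂ), (∀ p : Ideal (MvPowerSeries (Fin n) ℂ),
      p.IsPrime → I ≤ p → p = m) → Module.Finite ℂ (MvPowerSeries (Fin n) ℂ ⧸ I) := by
    intro I hI
    have h1 : m ≤ I.radical := by
      rw [Ideal.radical_eq_sInf]
      refine le_sInf ?_
      rintro p ⟨hp1, hp2⟩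
      rw [hI p hp2 hp1]
    obtain ⟨k, hk⟩ := Ideal.exists_pow_le_of_le_radical_of_fg h1 hmfg
    have := finite_quot_pow _ m hres k
    exact Module.Finite.of_surjective
      (Ideal.Quotient.factorₐ ℂ hk).toLinearMap (Ideal.Quotient.factor_surjective hk)
  -- a maximal prime different from `m`
  let P : Set (Ideal (MvPowerSeries (Fin n) ℂ)) := {p | p.IsPrime ∧ b ≤ p ∧ p ≠ m}
  have hPne : P.Nonempty := by
    by_contra hcon
    rw [Set.not_nonempty_iff_eq_empty] at hcon
    apply hb
    apply hcol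
    intro p hp hbp
    by_contra hpm
    have : p ∈ P := ⟨hp, hbp, hpm⟩
    rw [hcon] at this
    exact this
  obtain ⟨p, ⟨hp, hbp, hpm⟩, hpmax⟩ := set_has_maximal_iff_noetherian.2
    (inferInstance : IsNoetherian (MvPowerSeries (Fin n) ℂ) (MvPowerSeries (Fin n) ℂ)) P hPne
  have hplem : p ≤ m := hle p hp.ne_top
  obtain ⟨f, hfm, hfp⟩ : ∃ f ∈ m, f ∉ p := by
    by_contra hcon
    push Not at hcon
    exact hpm (le_antisymm hplem hcon)
  have hfin : Module.Finite ℂ (MvPowerSeries (Fin n) ℂ ⧸ (p ⊔ Ideal.span {f})) := by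
    apply hcol
    intro p' hp' hle'
    by_contra hne
    have h1 : p' ∈ P := ⟨hp', (hbp.trans le_sup_left).trans hle', hne⟩
    apply hpmax p' h1
    refine lt_of_le_of_ne (le_sup_left.trans hle') ?_
    rintro rfl
    exact hfp (hle' (Ideal.mem_sup_right (Ideal.mem_span_singleton_self f)))
  -- the domain
  let A : Type := MvPowerSeries (Fin n) ℂ ⧸ p
  have hdom : IsDomain A := Ideal.Quotient.isDomain p
  have hfc : PowerSeries.HasSubst f := by
    apply PowerSeries.HasSubst.of_constantCoeff_zero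
    rwa [hm, RingHom.mem_ker] at hfm
  let φ : PowerSeries ℂ →ₐ[ℂ] MvPowerSeries (Fin n) ℂ := PowerSeries.substAlgHom hfc
  have hφX : φ PowerSeries.X = f := PowerSeries.substAlgHom_X hfc
  let φ' : PowerSeries ℂ →ₐ[ℂ] A := (Ideal.Quotient.mkₐ ℂ p).comp φ
  let _ : Algebra (PowerSeries ℂ) A := φ'.toRingHom.toAlgebra
  have hT : IsScalarTower ℂ (PowerSeries ℂ) A :=
    IsScalarTower.of_algebraMap_eq (fun c => (φ'.commutes c).symm)
  have hX : algebraMap (PowerSeries ℂ) A PowerSeries.X = Ideal.Quotient.mk p f := by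
    change Ideal.Quotient.mk p (φ PowerSeries.X) = _
    rw [hφX]
  have hnu : ¬ IsUnit (algebraMap (PowerSeries ℂ) A PowerSeries.X) := by
    rw [hX]
    intro hu
    obtain ⟨y, hy⟩ := hu.exists_right_inv
    obtain ⟨g, rfl⟩ := Ideal.Quotient.mk_surjective y
    rw [← map_mul, ← map_one (Ideal.Quotient.mk p), Ideal.Quotient.eq] at hy
    have h1 := hplem hy
    have h2 : (1 : MvPowerSeries (Fin n) ℂ) ∈ m := by
      have := Ideal.sub_mem m (Ideal.mul_mem_right g m hfm) h1
      rwa [sub_sub_cancel] at this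
    exact hmprime.ne_top ((Ideal.eq_top_iff_one m).2 h2)
  have hfin2 : Module.Finite ℂ (A ⧸ Ideal.span {algebraMap (PowerSeries ℂ) A PowerSeries.X}) := by
    let g : MvPowerSeries (Fin n) ℂ →ₐ[ℂ]
        (A ⧸ Ideal.span {algebraMap (PowerSeries ℂ) A PowerSeries.X}) :=
      (Ideal.Quotient.mkₐ ℂ _).comp (Ideal.Quotient.mkₐ ℂ p)
    have hg : ∀ x ∈ p ⊔ Ideal.span {f}, g x = 0 := by
      intro x hx
      obtain ⟨y, hy, z, hz, rfl⟩ := Submodule.mem_sup.1 hx
      rw [map_add]
      have h1 : g y = 0 := by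
        change Ideal.Quotient.mk _ (Ideal.Quotient.mk p y) = 0
        rw [Ideal.Quotient.eq_zero_iff_mem.2 hy, map_zero]
      have h2 : g z = 0 := by
        obtain ⟨w, rfl⟩ := Ideal.mem_span_singleton.1 hz
        change Ideal.Quotient.mk _ (Ideal.Quotient.mk p (f * w)) = 0
        rw [Ideal.Quotient.eq_zero_iff_mem, map_mul, ← hX]
        exact Ideal.mul_mem_right _ _ (Ideal.mem_span_singleton_self _)
      rw [h1, h2, add_zero]
    refine Module.Finite.of_surjective (Ideal.Quotient.liftₐ _ g hg).toLinearMap ?_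
    intro y
    obtain ⟨y', rfl⟩ := Ideal.Quotient.mk_surjective y
    obtain ⟨x, rfl⟩ := Ideal.Quotient.mk_surjective y'
    exact ⟨Ideal.Quotient.mk _ x, rfl⟩
  have hnoeth : IsNoetherianRing A := inferInstance
  have hfin3 : Module.Finite (PowerSeries ℂ) A := finite_of_quot A hnu hfin2
  have hfaith : FaithfulSMul (PowerSeries ℂ) A := faithful_of A (by
    rw [hX]
    intro h
    exact hfp (Ideal.Quotient.eq_zero_iff_mem.1 h))
  obtain ⟨ψ, hψ⟩ := exists_hom_of_finite A
  refine ⟨ψ.comp (Ideal.Quotient.mkₐ ℂ p), ?_, ?_⟩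
  · intro g hg
    change ψ (Ideal.Quotient.mk p g) = 0
    rw [Ideal.Quotient.eq_zero_iff_mem.2 (hbp hg), map_zero]
  · by_contra hcon
    push Not at hcon
    apply hpm
    apply le_antisymm hplem
    refine hmspan.trans ?_
    rw [Ideal.span_le]
    rintro _ ⟨i, rfl⟩
    have h1 : ψ (Ideal.Quotient.mk p (X i)) = 0 := hcon i
    have h2 : Ideal.Quotient.mk p (X i) = 0 := hψ (by rw [h1, map_zero])
    exact Ideal.Quotient.eq_zero_iff_mem.1 h2

end Pool.Agent.Work.MP_80f671_an
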