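import Mathlib

/-!
Definitions shared by the files of MP_80f671_an (Kohn's ideals and D'Angelo type).
-/

namespace Pool.Agent.Work.MP_80f671_an

/-- A covector on `ℂ^n` (over a coefficient ring `R`) with only a `dz` part. -/
def hol {R : Type*} [Zero R] {n : ℕ} (v : Fin n → R) : Fin n ⊕ Fin n → R :=
  Sum.elim v (fun _ => 0)

/-- A covector with only a `d z̄` part. -/
def antihol {R : Type*} [Zero R] {n : ℕ} (v : Fin n → R) : Fin n ⊕ Fin n → R :=
  Sum.elim (fun _ => 0) v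

/-- The form `g_1 ∧ ... ∧ g_j ∧ ρ ∧ ρ' ∧ (∑ Λ_{ab} dz_a ∧ d z̄_b)^(n-1-j)`, where the `g_i` and
`ρ` are of type `(1,0)` and `ρ'` is of type `(0,1)`. -/
noncomputable def kohnForm {R : Type*} [CommRing R] {n j : ℕ} (g : Fin j → Fin n → R)
    (ρ ρ' : Fin n → R) (Λ : Fin n → Fin n → R) : ExteriorAlgebra R (Fin n ⊕ Fin n → R) :=
  (List.ofFn fun i => ExteriorAlgebra.ι R (hol (g i))).prod *
    ExteriorAlgebra.ι R (hol ρ) * ExteriorAlgebra.ι R (antihol ρ') *
    (∑ a : Fin n, ∑ b : Fin n, Λ a b •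
      (ExteriorAlgebra.ι R (hol (Pi.single a 1)) *
        ExteriorAlgebra.ι R (antihol (Pi.single b 1)))) ^ (n - 1 - j)

/-- `pairing c g a b = ∑_{α, β} c_{αβ} [t^a] g^α conj([t^b] g^β)`; the sums run over the boxes
`α_i ≤ a`, `β_i ≤ b`, which contain every term that can be nonzero when all `g_i` have zero
constant coefficient. -/
noncomputable def pairing {n : ℕ} (c : (Fin n →₀ ℕ) → (Fin n →₀ ℕ) → ℂ)
    (g : Fin n → PowerSeries ℂ) (a b : ℕ) : ℂ :=
  ∑ α ∈ Finset.Iic (Finsupp.equivFunOnFinite.symm (fun _ : Fin n => a)),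
    ∑ β ∈ Finset.Iic (Finsupp.equivFunOnFinite.symm (fun _ : Fin n => b)),
      c α β * PowerSeries.coeff a (∏ i, g i ^ α i) *
        (starRingEnd ℂ) (PowerSeries.coeff b (∏ i, g i ^ β i))

end Pool.Agent.Work.MP_80f671_an
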