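import Mathlib

/-!
Derivations of the residue field which come from vector fields, and the Lie algebra of vector
fields with Levi-null parts.
-/

namespace Pool.Agent.Work.MP_80f671_an

open Finset

/-- Extension of a derivation `R → K` along a map `π : R → K` whose fractions exhaust `K`. -/
theorem exists_derivation_extension {R K : Type*} [CommRing R] [Algebra ℂ R] [Field K]
    [Algebra ℂ K] (π : R →ₐ[ℂ] K) (frac : ∀ k : K, ∃ a s : R, π s ≠ 0 ∧ k * π s = π a)
    (d : R →ₗ[ℂ] K) (hd : ∀ f g, d (f * g) = π f * d g + π g * d f)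
    (h0 : ∀ f, π f = 0 → d f = 0) :
    ∃ δ : Derivation ℂ K K, ∀ f, δ (π f) = d f := by
  choose num den hden hnd using frac
  -- the value is independent of the representation
  let F : K → K := fun k => (d (num k) - k * d (den k)) / π (den k)
  have hF : ∀ k a s, π s ≠ 0 → k * π s = π a → F k * π s = d a - k * d s := by
    intro k a s hs hk
    have h1 : d (num k * s - a * den k) = 0 := by
      apply h0
      rw [map_sub, map_mul, map_mul, ← hnd k, ← hk]
      ring
    rw [map_sub, hd, hd, ← hnd k, ← hk] at h1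
    have h2 := hden k
    change (d (num k) - k * d (den k)) / π (den k) * π s = _
    rw [div_mul_eq_mul_div, div_eq_iff h2]
    linear_combination h1
  have hd1 : d 1 = 0 := by
    have := hd 1 1
    simp only [mul_one, map_one, one_mul] at this
    have h2 : d 1 = d 1 + d 1 := this
    exact left_eq_add.1 h2
  have hFπ : ∀ f, F (π f) = d f := by
    intro f
    have := hF (π f) f 1 (by simp) (by simp)
    rw [map_one, mul_one, hd1, mul_zero, sub_zero] at this
    exact this
  have hadd : ∀ k l, F (k + l) = F k + F l := by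
    intro k l
    have hk := hnd k
    have hl := hnd l
    have hsk := hden k
    have hsl := hden l
    have h1 := hF (k + l) (num k * den l + num l * den k) (den k * den l)
      (by rw [map_mul]; exact mul_ne_zero hsk hsl)
      (by rw [map_mul, map_add, map_mul, map_mul, ← hk, ← hl]; ring)
    have h2 := hF k (num k) (den k) hsk hk
    have h3 := hF l (num l) (den l) hsl hl
    rw [map_mul, map_add, hd, hd, hd, ← hk, ← hl] at h1
    have hne : π (den k) * π (den l) ≠ 0 := mul_ne_zero hsk hsl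
    apply mul_right_cancel₀ hne
    rw [h1]
    linear_combination (-(π (den l))) * h2 - π (den k) * h3
  have hmul : ∀ k l, F (k * l) = k * F l + l * F k := by
    intro k l
    have hk := hnd k
    have hl := hnd l
    have hsk := hden k
    have hsl := hden l
    have h1 := hF (k * l) (num k * num l) (den k * den l)
      (by rw [map_mul]; exact mul_ne_zero hsk hsl)
      (by rw [map_mul, map_mul, ← hk, ← hl]; ring)
    have h2 := hF k (num k) (den k) hsk hk
    have h3 := hF l (num l) (den l) hsl hl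
    rw [map_mul, hd, hd, ← hk, ← hl] at h1
    have hne : π (den k) * π (den l) ≠ 0 := mul_ne_zero hsk hsl
    apply mul_right_cancel₀ hne
    rw [h1]
    linear_combination (-(l * π (den l))) * h2 - (k * π (den k)) * h3
  have hconst : ∀ c : ℂ, F (algebraMap ℂ K c) = 0 := by
    intro c
    have h1 : algebraMap ℂ K c = π (algebraMap ℂ R c) := by simp
    rw [h1, hFπ, Algebra.algebraMap_eq_smul_one, map_smul, hd1, smul_zero]
  refine ⟨Derivation.mk' { toFun := F, map_add' := hadd, map_smul' := ?_ } ?_, ?_⟩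
  · intro c k
    rw [Algebra.smul_def, hmul, hconst, mul_zero, add_zero, RingHom.id_apply, Algebra.smul_def]
  · intro k l
    change F (k * l) = k • F l + l • F k
    rw [hmul, smul_eq_mul, smul_eq_mul]
  · intro f
    exact hFπ f

/-- The algebraic setting: a ring with commuting derivations `∂_a`, `∂̄_a`, a conjugation, a map to
a field whose fractions exhaust the field, and a real element `r`. -/
structure KSet (n : ℕ) (R K : Type*) [CommRing R] [Algebra ℂ R] [Field K] [Algebra ℂ K] where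
  D : Fin n → Derivation ℂ R R
  Db : Fin n → Derivation ℂ R R
  DD : ∀ a b f, D a (D b f) = D b (D a f)
  DbDb : ∀ a b f, Db a (Db b f) = Db b (Db a f)
  DDb : ∀ a b f, D a (Db b f) = Db b (D a f)
  z : Fin n → R
  Dz : ∀ a b, D a (z b) = if a = b then 1 else 0
  Dbz : ∀ a b, Db a (z b) = 0
  σ : R →+* R
  σσ : ∀ f, σ (σ f) = f
  σD : ∀ a f, σ (D a f) = Db a (σ f)
  π : R →ₐ[ℂ] K
  c : K →+* K
  cc : ∀ k, c (c k) = k
  cπ : ∀ f, c (π f) = π (σ f)
  csmul : ∀ (t : ℂ) (k : K), c (t • k) = (starRingEnd ℂ) t • c k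
  frac : ∀ k : K, ∃ a s : R, π s ≠ 0 ∧ k * π s = π a
  r : R
  σr : σ r = r
  πr : π r = 0

namespace KSet

variable {n : ℕ} {R K : Type*} [CommRing R] [Algebra ℂ R] [Field K] [Algebra ℂ K]
  (S : KSet n R K)

lemma σDb (a : Fin n) (f : R) : S.σ (S.Db a f) = S.D a (S.σ f) := by
  have := S.σD a (S.σ f)
  rw [S.σσ] at this
  rw [← this, S.σσ]

lemma Dzb (a b : Fin n) : S.D a (S.σ (S.z b)) = 0 := by
  rw [← S.σDb, S.Dbz, map_zero]

lemma Dbzb (a b : Fin n) : S.Db a (S.σ (S.z b)) = if a = b then 1 else 0 := by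
  rw [← S.σD, S.Dz]
  split_ifs <;> simp

/-- Component of a derivation along `∂/∂z_a`. -/
def hc (δ : Derivation ℂ K K) (a : Fin n) : K := δ (S.π (S.z a))

/-- Component of a derivation along `∂/∂z̄_a`. -/
def ac (δ : Derivation ℂ K K) (a : Fin n) : K := δ (S.π (S.σ (S.z a)))

/-- Derivations of `K` of vector field type. -/
def VF : Submodule K (Derivation ℂ K K) where
  carrier := {δ | ∀ f, δ (S.π f) = ∑ a, (S.hc δ a * S.π (S.D a f) + S.ac δ a * S.π (S.Db a f))}
  add_mem' := by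
    intro δ ε hδ hε f
    rw [Derivation.add_apply, hδ f, hε f, ← sum_add_distrib]
    refine sum_congr rfl fun a _ => ?_
    simp only [hc, ac, Derivation.add_apply]
    ring
  zero_mem' := by
    intro f
    simp [hc, ac]
  smul_mem' := by
    intro k δ hδ f
    rw [Derivation.smul_apply, hδ f, smul_eq_mul, mul_sum]
    refine sum_congr rfl fun a _ => ?_
    simp only [hc, ac, Derivation.smul_apply, smul_eq_mul]
    ring

lemma VF_apply {δ : Derivation ℂ K K} (h : δ ∈ S.VF) (f : R) :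
    δ (S.π f) = ∑ a, (S.hc δ a * S.π (S.D a f) + S.ac δ a * S.π (S.Db a f)) := h f

/-- Existence of a derivation with given components. -/
theorem exists_VF (h k : Fin n → K)
    (hk : ∀ f, S.π f = 0 → ∑ a, (h a * S.π (S.D a f) + k a * S.π (S.Db a f)) = 0) :
    ∃ δ ∈ S.VF, (∀ a, S.hc δ a = h a) ∧ ∀ a, S.ac δ a = k a := by
  obtain ⟨δ, hδ⟩ := exists_derivation_extension S.π S.frac
    { toFun := fun f => ∑ a, (h a * S.π (S.D a f) + k a * S.π (S.Db a f))
      map_add' := by
        intro f g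
        rw [← sum_add_distrib]
        refine sum_congr rfl fun a _ => ?_
        simp only [map_add]
        ring
      map_smul' := by
        intro t f
        rw [RingHom.id_apply, smul_sum]
        refine sum_congr rfl fun a _ => ?_
        rw [Derivation.map_smul, Derivation.map_smul, map_smul, map_smul, Algebra.smul_def,
          Algebra.smul_def, Algebra.smul_def]
        ring }
    (by
      intro f g
      simp only [LinearMap.coe_mk, AddHom.coe_mk]
      rw [mul_sum, mul_sum, ← sum_add_distrib]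
      refine sum_congr rfl fun a _ => ?_
      simp only [Derivation.leibniz, map_add, map_mul, smul_eq_mul]
      ring) hk
  have hδ' : ∀ f, δ (S.π f) = ∑ a, (h a * S.π (S.D a f) + k a * S.π (S.Db a f)) := hδ
  have h1 : ∀ a, S.hc δ a = h a := by
    intro a
    rw [hc, hδ', sum_eq_single a]
    · simp [S.Dz, S.Dbz]
    · intro b _ hb
      simp [S.Dz, S.Dbz, hb]
    · simp
  have h2 : ∀ a, S.ac δ a = k a := by
    intro a
    rw [ac, hδ', sum_eq_single a]
    · simp [S.Dzb, S.Dbzb]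
    · intro b _ hb
      simp [S.Dzb, S.Dbzb, hb]
    · simp
  refine ⟨δ, ?_, h1, h2⟩
  intro f
  rw [hδ']
  refine sum_congr rfl fun a _ => ?_
  rw [h1, h2]

/-- Vector field type derivations are closed under the bracket. -/
theorem VF_lie {δ ε : Derivation ℂ K K} (hδ : δ ∈ S.VF) (hε : ε ∈ S.VF) : ⁅δ, ε⁆ ∈ S.VF := by
  intro f
  have e1 : ∀ {δ ε : Derivation ℂ K K}, δ ∈ S.VF → ε ∈ S.VF → δ (ε (S.π f))
      = (∑ a, (δ (S.hc ε a) * S.π (S.D a f) + δ (S.ac ε a) * S.π (S.Db a f)))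
        + ((∑ a, ∑ b, S.hc ε a * S.hc δ b * S.π (S.D b (S.D a f)))
        + (∑ a, ∑ b, S.hc ε a * S.ac δ b * S.π (S.Db b (S.D a f)))
        + (∑ a, ∑ b, S.ac ε a * S.hc δ b * S.π (S.D b (S.Db a f)))
        + (∑ a, ∑ b, S.ac ε a * S.ac δ b * S.π (S.Db b (S.Db a f)))) := by
    intro δ ε hδ hε
    rw [S.VF_apply hε, map_sum]
    simp only [← sum_add_distrib]
    refine sum_congr rfl fun a _ => ?_
    rw [map_add, Derivation.leibniz, Derivation.leibniz, S.VF_apply hδ, S.VF_apply hδ]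
    simp only [smul_eq_mul, mul_sum]
    have : ∀ b, (S.hc ε a * S.hc δ b * S.π (S.D b (S.D a f))
        + S.hc ε a * S.ac δ b * S.π (S.Db b (S.D a f))
        + S.ac ε a * S.hc δ b * S.π (S.D b (S.Db a f))
        + S.ac ε a * S.ac δ b * S.π (S.Db b (S.Db a f)))
        = S.hc ε a * (S.hc δ b * S.π (S.D b (S.D a f)) + S.ac δ b * S.π (S.Db b (S.D a f)))
        + S.ac ε a * (S.hc δ b * S.π (S.D b (S.Db a f)) + S.ac δ b * S.π (S.Db b (S.Db a f))) := by
      intro b
      ring
    rw [sum_congr rfl fun b _ => this b, sum_add_distrib]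
    ring
  rw [Derivation.commutator_apply, e1 hδ hε, e1 hε hδ]
  have s1 : (∑ a, ∑ b, S.hc ε a * S.hc δ b * S.π (S.D b (S.D a f)))
      = ∑ a, ∑ b, S.hc δ a * S.hc ε b * S.π (S.D b (S.D a f)) := by
    rw [sum_comm]
    refine sum_congr rfl fun a _ => sum_congr rfl fun b _ => ?_
    rw [S.DD a b]
    ring
  have s2 : (∑ a, ∑ b, S.hc ε a * S.ac δ b * S.π (S.Db b (S.D a f)))
      = ∑ a, ∑ b, S.ac δ a * S.hc ε b * S.π (S.D b (S.Db a f)) := by
    rw [sum_comm]
    refine sum_congr rfl fun a _ => sum_congr rfl fun b _ => ?_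
    rw [S.DDb b a]
    ring
  have s3 : (∑ a, ∑ b, S.ac ε a * S.hc δ b * S.π (S.D b (S.Db a f)))
      = ∑ a, ∑ b, S.hc δ a * S.ac ε b * S.π (S.Db b (S.D a f)) := by
    rw [sum_comm]
    refine sum_congr rfl fun a _ => sum_congr rfl fun b _ => ?_
    rw [S.DDb a b]
    ring
  have s4 : (∑ a, ∑ b, S.ac ε a * S.ac δ b * S.π (S.Db b (S.Db a f)))
      = ∑ a, ∑ b, S.ac δ a * S.ac ε b * S.π (S.Db b (S.Db a f)) := by
    rw [sum_comm]
    refine sum_congr rfl fun a _ => sum_congr rfl fun b _ => ?_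
    rw [S.DbDb a b]
    ring
  rw [s1, s2, s3, s4]
  have s5 : (∑ a, (S.hc ⁅δ, ε⁆ a * S.π (S.D a f) + S.ac ⁅δ, ε⁆ a * S.π (S.Db a f)))
      = (∑ a, (δ (S.hc ε a) * S.π (S.D a f) + δ (S.ac ε a) * S.π (S.Db a f)))
        - ∑ a, (ε (S.hc δ a) * S.π (S.D a f) + ε (S.ac δ a) * S.π (S.Db a f)) := by
    rw [← sum_sub_distrib]
    refine sum_congr rfl fun a _ => ?_
    simp only [hc, ac, Derivation.commutator_apply]
    ring
  rw [s5]
  ring

/-- Conjugate of a derivation. -/
def cD (δ : Derivation ℂ K K) : Derivation ℂ K K :=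
  Derivation.mk'
    { toFun := fun k => S.c (δ (S.c k))
      map_add' := fun k l => by simp
      map_smul' := fun t k => by
        rw [S.csmul, Derivation.map_smul, S.csmul, RingHom.id_apply]
        simp } (fun k l => by
        simp only [LinearMap.coe_mk, AddHom.coe_mk, map_mul, Derivation.leibniz, smul_eq_mul,
          map_add, S.cc])

@[simp] lemma cD_apply (δ : Derivation ℂ K K) (k : K) : S.cD δ k = S.c (δ (S.c k)) := rfl

lemma cD_cD (δ : Derivation ℂ K K) : S.cD (S.cD δ) = δ := by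
  ext k
  simp [S.cc]

lemma cD_lie (δ ε : Derivation ℂ K K) : S.cD ⁅δ, ε⁆ = ⁅S.cD δ, S.cD ε⁆ := by
  ext k
  simp [Derivation.commutator_apply, S.cc]

lemma cD_add (δ ε : Derivation ℂ K K) : S.cD (δ + ε) = S.cD δ + S.cD ε := by
  ext k
  simp

lemma cD_smul (k : K) (δ : Derivation ℂ K K) : S.cD (k • δ) = S.c k • S.cD δ := by
  ext l
  simp

lemma hc_cD (δ : Derivation ℂ K K) (a : Fin n) : S.hc (S.cD δ) a = S.c (S.ac δ a) := by
  simp only [hc, ac, cD_apply, S.cπ]

lemma ac_cD (δ : Derivation ℂ K K) (a : Fin n) : S.ac (S.cD δ) a = S.c (S.hc δ a) := by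
  simp only [hc, ac, cD_apply, S.cπ, S.σσ]

lemma cD_VF {δ : Derivation ℂ K K} (hδ : δ ∈ S.VF) : S.cD δ ∈ S.VF := by
  intro f
  rw [cD_apply, S.cπ, S.VF_apply hδ, map_sum]
  refine sum_congr rfl fun a _ => ?_
  rw [map_add, map_mul, map_mul, S.cπ, S.cπ, S.σD, S.σDb, S.σσ, hc_cD, ac_cD]
  ring

/-- Levi-null vectors. -/
def N : Submodule K (Fin n → K) where
  carrier := {a | ∑ i, S.π (S.D i S.r) * a i = 0 ∧
    ∃ μ, ∀ j, ∑ i, S.π (S.D i (S.Db j S.r)) * a i = μ * S.π (S.Db j S.r)}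
  add_mem' := by
    rintro a b ⟨ha, μ, hμ⟩ ⟨hb, ν, hν⟩
    refine ⟨?_, μ + ν, fun j => ?_⟩
    · simp only [Pi.add_apply, mul_add, sum_add_distrib, ha, hb, add_zero]
    · simp only [Pi.add_apply, mul_add, sum_add_distrib, hμ, hν, add_mul]
  zero_mem' := ⟨by simp, 0, fun j => by simp⟩
  smul_mem' := by
    rintro k a ⟨ha, μ, hμ⟩
    refine ⟨?_, k * μ, fun j => ?_⟩
    · have : ∑ i, S.π (S.D i S.r) * (k • a) i = k * ∑ i, S.π (S.D i S.r) * a i := by
        rw [mul_sum]
        exact sum_congr rfl fun i _ => by simp only [Pi.smul_apply, smul_eq_mul]; ring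
      rw [this, ha, mul_zero]
    · have : ∑ i, S.π (S.D i (S.Db j S.r)) * (k • a) i
          = k * ∑ i, S.π (S.D i (S.Db j S.r)) * a i := by
        rw [mul_sum]
        exact sum_congr rfl fun i _ => by simp only [Pi.smul_apply, smul_eq_mul]; ring
      rw [this, hμ, mul_assoc]

/-- The third order identity. -/
def Third : Prop :=
  ∀ (a b w : Fin n → K) (μ : K), ∑ i, S.π (S.D i S.r) * a i = 0 →
    (∀ j, ∑ i, S.π (S.D i (S.Db j S.r)) * a i = μ * S.π (S.Db j S.r)) → b ∈ S.N →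
    ∑ k, S.π (S.Db k S.r) * w k = 0 →
    ∑ i, ∑ j, ∑ k, S.π (S.Db k (S.D i (S.Db j S.r))) * a i * S.c (b j) * w k
      = μ * ∑ j, ∑ k, S.π (S.Db k (S.Db j S.r)) * S.c (b j) * w k

/-- Vector fields all of whose parts are Levi-null. -/
def G : Submodule K (Derivation ℂ K K) where
  carrier := {δ | δ ∈ S.VF ∧ S.hc δ ∈ S.N ∧ S.hc (S.cD δ) ∈ S.N}
  add_mem' := by
    rintro δ ε ⟨h1, h2, h3⟩ ⟨k1, k2, k3⟩
    refine ⟨S.VF.add_mem h1 k1, ?_, ?_⟩
    · exact S.N.add_mem h2 k2
    · have : S.hc (S.cD (δ + ε)) = S.hc (S.cD δ) + S.hc (S.cD ε) := by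
        funext a
        simp [hc]
      rw [this]
      exact S.N.add_mem h3 k3
  zero_mem' := by
    refine ⟨S.VF.zero_mem, ?_, ?_⟩
    · have : S.hc (0 : Derivation ℂ K K) = 0 := by funext a; simp [hc]
      rw [this]
      exact S.N.zero_mem
    · have : S.hc (S.cD (0 : Derivation ℂ K K)) = 0 := by funext a; simp [hc]
      rw [this]
      exact S.N.zero_mem
  smul_mem' := by
    rintro k δ ⟨h1, h2, h3⟩
    refine ⟨S.VF.smul_mem k h1, S.N.smul_mem k h2, ?_⟩
    have : S.hc (S.cD (k • δ)) = S.c k • S.hc (S.cD δ) := by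
      funext a
      simp [hc]
    rw [this]
    exact S.N.smul_mem _ h3

lemma mem_G {δ : Derivation ℂ K K} :
    δ ∈ S.G ↔ δ ∈ S.VF ∧ S.hc δ ∈ S.N ∧ S.hc (S.cD δ) ∈ S.N := Iff.rfl

lemma cD_G {δ : Derivation ℂ K K} (h : δ ∈ S.G) : S.cD δ ∈ S.G := by
  obtain ⟨h1, h2, h3⟩ := h
  refine ⟨S.cD_VF h1, h3, ?_⟩
  rw [S.cD_cD]
  exact h2

/-- A covector killing the kernel of another one is a multiple of it. -/
lemma exists_mul_of_ker {K : Type*} [Field K] {n : ℕ} (ρ u : Fin n → K)
    (h : ∀ w : Fin n → K, ∑ j, ρ j * w j = 0 → ∑ j, u j * w j = 0) :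
    ∃ μ, ∀ j, u j = μ * ρ j := by
  by_cases hρ : ∃ i, ρ i ≠ 0
  · obtain ⟨i, hi⟩ := hρ
    refine ⟨u i / ρ i, fun j => ?_⟩
    have := h (Pi.single j (ρ i) - Pi.single i (ρ j)) (by
      simp only [Pi.sub_apply, mul_sub, sum_sub_distrib]
      simp [Pi.single_apply]
      ring)
    simp only [Pi.sub_apply, mul_sub, sum_sub_distrib] at this
    simp only [Pi.single_apply, mul_ite, mul_zero, sum_ite_eq', mem_univ, if_true] at this
    rw [div_mul_eq_mul_div, eq_div_iff hi]
    linear_combination this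
  · push Not at hρ
    refine ⟨0, fun j => ?_⟩
    have := h (Pi.single j 1) (by simp [hρ])
    simpa [Pi.single_apply] using this

/-- Half of the bracket closure. -/
lemma hc_lie_mem (h3 : S.Third) {X Y : Derivation ℂ K K} (hX : X ∈ S.G) (hY : Y ∈ S.G) :
    S.hc ⁅X, Y⁆ ∈ S.N := by
  obtain ⟨hX1, ⟨hXa, μ, hμ⟩, hX3⟩ := hX
  obtain ⟨hY1, ⟨hYa, ν, hν⟩, hY3⟩ := hY
  have hXb : ∑ i, S.π (S.Db i S.r) * S.ac X i = 0 := by
    have := congrArg S.c hX3.1
    rw [map_sum, map_zero] at this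
    rw [← this]
    refine sum_congr rfl fun i _ => ?_
    rw [map_mul, S.cπ, S.σD, S.σr, S.hc_cD, S.cc]
  have hYb : ∑ i, S.π (S.Db i S.r) * S.ac Y i = 0 := by
    have := congrArg S.c hY3.1
    rw [map_sum, map_zero] at this
    rw [← this]
    refine sum_congr rfl fun i _ => ?_
    rw [map_mul, S.cπ, S.σD, S.σr, S.hc_cD, S.cc]
  have hbr : ∀ i, S.hc ⁅X, Y⁆ i = X (S.hc Y i) - Y (S.hc X i) := by
    intro i
    simp only [hc, Derivation.commutator_apply]
  -- tangency
  have tang : ∀ {X Y : Derivation ℂ K K} {ν : K}, X ∈ S.VF →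
      (∑ i, S.π (S.D i S.r) * S.hc Y i = 0) →
      (∀ j, ∑ i, S.π (S.D i (S.Db j S.r)) * S.hc Y i = ν * S.π (S.Db j S.r)) →
      (∑ i, S.π (S.Db i S.r) * S.ac X i = 0) →
      ∑ i, S.π (S.D i S.r) * X (S.hc Y i)
        = - ∑ i, ∑ k, S.π (S.D k (S.D i S.r)) * S.hc X k * S.hc Y i := by
    intro X Y ν hX1 hYa hν hXb
    have h1 := congrArg X hYa
    rw [map_sum, map_zero] at h1
    simp only [Derivation.leibniz, smul_eq_mul, sum_add_distrib] at h1
    have h2 : ∑ i, S.hc Y i * X (S.π (S.D i S.r))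
        = (∑ i, ∑ k, S.π (S.D k (S.D i S.r)) * S.hc X k * S.hc Y i)
          + ∑ k, (∑ i, S.π (S.D i (S.Db k S.r)) * S.hc Y i) * S.ac X k := by
      have : ∑ k, (∑ i, S.π (S.D i (S.Db k S.r)) * S.hc Y i) * S.ac X k
          = ∑ i, ∑ k, S.π (S.D i (S.Db k S.r)) * S.hc Y i * S.ac X k := by
        rw [sum_comm]
        exact sum_congr rfl fun k _ => by rw [sum_mul]
      rw [this, ← sum_add_distrib]
      refine sum_congr rfl fun i _ => ?_
      rw [S.VF_apply hX1, mul_sum, ← sum_add_distrib]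
      refine sum_congr rfl fun k _ => ?_
      rw [S.DDb i k]
      ring
    have h4 : ∑ k, (∑ i, S.π (S.D i (S.Db k S.r)) * S.hc Y i) * S.ac X k = 0 := by
      calc _ = ν * ∑ k, S.π (S.Db k S.r) * S.ac X k := by
            rw [mul_sum]
            refine sum_congr rfl fun k _ => ?_
            rw [hν]
            ring
        _ = 0 := by rw [hXb, mul_zero]
    rw [h2, h4, add_zero] at h1
    linear_combination h1
  refine ⟨?_, ?_⟩
  · have t1 := tang hX1 hYa hν hXb
    have t2 := tang hY1 hXa hμ hYb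
    have t3 : ∑ i, S.π (S.D i S.r) * S.hc ⁅X, Y⁆ i
        = ∑ i, S.π (S.D i S.r) * X (S.hc Y i) - ∑ i, S.π (S.D i S.r) * Y (S.hc X i) := by
      rw [← sum_sub_distrib]
      refine sum_congr rfl fun i _ => ?_
      rw [hbr]
      ring
    rw [t3, t1, t2]
    have t4 : ∑ i, ∑ k, S.π (S.D k (S.D i S.r)) * S.hc Y k * S.hc X i
        = ∑ i, ∑ k, S.π (S.D k (S.D i S.r)) * S.hc X k * S.hc Y i := by
      rw [sum_comm]
      refine sum_congr rfl fun i _ => sum_congr rfl fun k _ => ?_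
      rw [S.DD i k]
      ring
    rw [t4]
    ring
  · -- Levi-null
    have lev : ∀ {X Y : Derivation ℂ K K} {ν μ : K}, X ∈ S.VF →
        (∀ j, ∑ i, S.π (S.D i (S.Db j S.r)) * S.hc Y i = ν * S.π (S.Db j S.r)) →
        (∀ j, ∑ i, S.π (S.D i (S.Db j S.r)) * S.hc X i = μ * S.π (S.Db j S.r)) →
        ∀ j, ∑ i, S.π (S.D i (S.Db j S.r)) * X (S.hc Y i)
          = X ν * S.π (S.Db j S.r) + ν * (μ * S.π (S.Db j S.r)
            + ∑ k, S.π (S.Db k (S.Db j S.r)) * S.ac X k)
            - ((∑ i, ∑ k, S.π (S.D k (S.D i (S.Db j S.r))) * S.hc X k * S.hc Y i)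
              + ∑ i, ∑ k, S.π (S.Db k (S.D i (S.Db j S.r))) * S.ac X k * S.hc Y i) := by
      intro X Y ν μ hX1 hν hμ j
      have h1 := congrArg X (hν j)
      rw [map_sum] at h1
      simp only [Derivation.leibniz, smul_eq_mul, sum_add_distrib] at h1
      have h2 : ∑ i, S.hc Y i * X (S.π (S.D i (S.Db j S.r)))
          = (∑ i, ∑ k, S.π (S.D k (S.D i (S.Db j S.r))) * S.hc X k * S.hc Y i)
              + ∑ i, ∑ k, S.π (S.Db k (S.D i (S.Db j S.r))) * S.ac X k * S.hc Y i := by
        rw [← sum_add_distrib]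
        refine sum_congr rfl fun i _ => ?_
        rw [S.VF_apply hX1, mul_sum, ← sum_add_distrib]
        refine sum_congr rfl fun k _ => ?_
        ring
      have h4 : X (S.π (S.Db j S.r)) = μ * S.π (S.Db j S.r)
            + ∑ k, S.π (S.Db k (S.Db j S.r)) * S.ac X k := by
        rw [S.VF_apply hX1, sum_add_distrib, ← hμ j]
        congr 1
        · exact sum_congr rfl fun k _ => by ring
        · exact sum_congr rfl fun k _ => by ring
      rw [h2, h4] at h1
      linear_combination h1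
    have key : ∃ κ, ∀ j, (∑ i, S.π (S.D i (S.Db j S.r)) * S.hc ⁅X, Y⁆ i)
        - (X ν - Y μ) * S.π (S.Db j S.r) = κ * S.π (S.Db j S.r) := by
      apply exists_mul_of_ker
      intro w hw
      -- expand
      have hu : ∀ j, (∑ i, S.π (S.D i (S.Db j S.r)) * S.hc ⁅X, Y⁆ i)
          - (X ν - Y μ) * S.π (S.Db j S.r)
          = (ν * (∑ k, S.π (S.Db k (S.Db j S.r)) * S.ac X k)
              - ∑ i, ∑ k, S.π (S.Db k (S.D i (S.Db j S.r))) * S.ac X k * S.hc Y i)
            - (μ * (∑ k, S.π (S.Db k (S.Db j S.r)) * S.ac Y k)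
              - ∑ i, ∑ k, S.π (S.Db k (S.D i (S.Db j S.r))) * S.ac Y k * S.hc X i) := by
        intro j
        have l1 := lev hX1 hν hμ j
        have l2 := lev hY1 hμ hν j
        have l3 : ∑ i, S.π (S.D i (S.Db j S.r)) * S.hc ⁅X, Y⁆ i
            = ∑ i, S.π (S.D i (S.Db j S.r)) * X (S.hc Y i)
              - ∑ i, S.π (S.D i (S.Db j S.r)) * Y (S.hc X i) := by
          rw [← sum_sub_distrib]
          refine sum_congr rfl fun i _ => ?_
          rw [hbr]
          ring
        have l4 : ∑ i, ∑ k, S.π (S.D k (S.D i (S.Db j S.r))) * S.hc Y k * S.hc X i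
            = ∑ i, ∑ k, S.π (S.D k (S.D i (S.Db j S.r))) * S.hc X k * S.hc Y i := by
          rw [sum_comm]
          refine sum_congr rfl fun i _ => sum_congr rfl fun k _ => ?_
          rw [S.DD i k]
          ring
        rw [l3, l1, l2, l4]
        ring
      have third : ∀ {X Y : Derivation ℂ K K} {ν : K}, S.hc (S.cD X) ∈ S.N →
          (∑ i, S.π (S.D i S.r) * S.hc Y i = 0) →
          (∀ j, ∑ i, S.π (S.D i (S.Db j S.r)) * S.hc Y i = ν * S.π (S.Db j S.r)) →
          ∑ j, (ν * (∑ k, S.π (S.Db k (S.Db j S.r)) * S.ac X k)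
              - ∑ i, ∑ k, S.π (S.Db k (S.D i (S.Db j S.r))) * S.ac X k * S.hc Y i) * w j = 0 := by
        intro X Y ν hX3 hYa hν
        have h := h3 (S.hc Y) (S.hc (S.cD X)) w ν hYa hν hX3 hw
        simp only [S.hc_cD, S.cc] at h
        have e1 : ∑ j, (ν * (∑ k, S.π (S.Db k (S.Db j S.r)) * S.ac X k)
              - ∑ i, ∑ k, S.π (S.Db k (S.D i (S.Db j S.r))) * S.ac X k * S.hc Y i) * w j
            = ν * (∑ j, ∑ k, S.π (S.Db k (S.Db j S.r)) * S.ac X k * w j)
              - ∑ j, ∑ i, ∑ k, S.π (S.Db k (S.D i (S.Db j S.r))) * S.ac X k * S.hc Y i * w j := by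
          rw [mul_sum, ← sum_sub_distrib]
          refine sum_congr rfl fun j _ => ?_
          rw [sub_mul, mul_assoc, sum_mul, sum_mul]
          congr 1
          exact sum_congr rfl fun i _ => by rw [sum_mul]
        rw [e1]
        have e2 : (∑ j, ∑ k, S.π (S.Db k (S.Db j S.r)) * S.ac X k * w j)
            = ∑ j, ∑ k, S.π (S.Db k (S.Db j S.r)) * S.ac X j * w k := by
          rw [sum_comm]
          refine sum_congr rfl fun i _ => sum_congr rfl fun k _ => ?_
          rw [S.DbDb i k]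
        have e3 : (∑ j, ∑ i, ∑ k, S.π (S.Db k (S.D i (S.Db j S.r))) * S.ac X k * S.hc Y i * w j)
            = ∑ i, ∑ j, ∑ k, S.π (S.Db k (S.D i (S.Db j S.r))) * S.hc Y i * S.ac X j * w k := by
          rw [sum_comm]
          refine sum_congr rfl fun i _ => ?_
          rw [sum_comm]
          refine sum_congr rfl fun j _ => sum_congr rfl fun k _ => ?_
          have : S.Db j (S.D i (S.Db k S.r)) = S.Db k (S.D i (S.Db j S.r)) := by
            rw [S.DDb i k, S.DDb i j, S.DbDb j k]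
          rw [this]
          ring
        rw [e2, e3, h]
        ring
      have t1 := third hX3 hYa hν
      have t2 := third hY3 hXa hμ
      calc ∑ j, ((∑ i, S.π (S.D i (S.Db j S.r)) * S.hc ⁅X, Y⁆ i)
              - (X ν - Y μ) * S.π (S.Db j S.r)) * w j
          = ∑ j, ((ν * (∑ k, S.π (S.Db k (S.Db j S.r)) * S.ac X k)
              - ∑ i, ∑ k, S.π (S.Db k (S.D i (S.Db j S.r))) * S.ac X k * S.hc Y i) * w j
            - (μ * (∑ k, S.π (S.Db k (S.Db j S.r)) * S.ac Y k)
              - ∑ i, ∑ k, S.π (S.Db k (S.D i (S.Db j S.r))) * S.ac Y k * S.hc X i) * w j) := by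
            refine sum_congr rfl fun j _ => ?_
            rw [hu j]
            ring
        _ = 0 := by rw [sum_sub_distrib, t1, t2, sub_zero]
    obtain ⟨κ, hκ⟩ := key
    refine ⟨κ + (X ν - Y μ), fun j => ?_⟩
    linear_combination hκ j

/-- `G` is closed under the bracket. -/
theorem G_lie (h3 : S.Third) {X Y : Derivation ℂ K K} (hX : X ∈ S.G) (hY : Y ∈ S.G) :
    ⁅X, Y⁆ ∈ S.G := by
  refine ⟨S.VF_lie hX.1 hY.1, S.hc_lie_mem h3 hX hY, ?_⟩
  rw [S.cD_lie]
  exact S.hc_lie_mem h3 (S.cD_G hX) (S.cD_G hY)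

end KSet

end Pool.Agent.Work.MP_80f671_an
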