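import Mathlib
import Pool.Agent.Work.MP_80f671_an.Defs

/-!
Exterior algebra lemmas for MP_80f671_an: coordinate functionals natural in the ring, and the
null vector lemma.
-/

namespace Pool.Agent.Work.MP_80f671_an

open Module

/-- Coordinate functionals, natural in the ring. -/
noncomputable def coef (R : Type*) [CommRing R] (n : ℕ) (s : Finset (Fin n ⊕ Fin n)) :
    ExteriorAlgebra R (Fin n ⊕ Fin n → R) →ₗ[R] R :=
  letI : LinearOrder (Fin n ⊕ Fin n) :=
    LinearOrder.lift' (finSumFinEquiv (m := n) (n := n)) finSumFinEquiv.injective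
  (Pi.basisFun R (Fin n ⊕ Fin n)).ExteriorAlgebra.coord s

theorem eq_zero_of_coef {R : Type*} [CommRing R] {n : ℕ}
    (x : ExteriorAlgebra R (Fin n ⊕ Fin n → R)) (h : ∀ s, coef R n s x = 0) : x = 0 := by
  let _ : LinearOrder (Fin n ⊕ Fin n) :=
    LinearOrder.lift' (finSumFinEquiv (m := n) (n := n)) finSumFinEquiv.injective
  exact (Basis.forall_coord_eq_zero_iff (Pi.basisFun R (Fin n ⊕ Fin n)).ExteriorAlgebra).1 h

section Map

variable {R R' : Type*} [CommRing R] [CommRing R'] [Algebra R R'] {I : Type*}

/-- The base change map, as an `R`-algebra map. -/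
noncomputable def extMap (R R' : Type*) [CommRing R] [CommRing R'] [Algebra R R'] (I : Type*) :
    ExteriorAlgebra R (I → R) →ₐ[R] ExteriorAlgebra R' (I → R') :=
  ExteriorAlgebra.lift R
    ⟨((ExteriorAlgebra.ι R').restrictScalars R).comp
      ((Algebra.linearMap R R').compLeft I), fun m => by simp⟩

theorem extMap_ι (v : I → R) :
    extMap R R' I (ExteriorAlgebra.ι R v) =
      ExteriorAlgebra.ι R' (fun i => algebraMap R R' (v i)) := by
  rw [extMap, ExteriorAlgebra.lift_ι_apply]
  rfl

theorem extMap_smul (r : R) (x : ExteriorAlgebra R (I → R)) :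
    extMap R R' I (r • x) = algebraMap R R' r • extMap R R' I x := by
  rw [map_smul, algebraMap_smul]

theorem extMap_ιMulti {k : ℕ} (v : Fin k → I → R) :
    extMap R R' I (ExteriorAlgebra.ιMulti R k v) =
      ExteriorAlgebra.ιMulti R' k (fun j i => algebraMap R R' (v j i)) := by
  rw [ExteriorAlgebra.ιMulti_apply, ExteriorAlgebra.ιMulti_apply, map_list_prod, List.map_ofFn]
  congr 2
  funext j
  exact extMap_ι _

theorem extMap_basis [Fintype I] [LinearOrder I] (s : Finset I) :
    extMap R R' I ((Pi.basisFun R I).ExteriorAlgebra s) = (Pi.basisFun R' I).ExteriorAlgebra s := by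
  rw [ExteriorAlgebra.basis_apply, ExteriorAlgebra.basis_apply]
  refine (extMap_ιMulti _).trans ?_
  congr 1
  funext j i
  by_cases h : i = (Set.powersetCard.ofFinEmbEquiv.symm
    (Set.powersetCard.prodEquiv.symm s).2) j <;> simp [Pi.single_apply, h]

theorem extMap_coord [Fintype I] [LinearOrder I] (s : Finset I)
    (x : ExteriorAlgebra R (I → R)) :
    (Pi.basisFun R' I).ExteriorAlgebra.coord s (extMap R R' I x) =
      algebraMap R R' ((Pi.basisFun R I).ExteriorAlgebra.coord s x) := by
  have h := (Pi.basisFun R I).ExteriorAlgebra.sum_repr x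
  conv_lhs => rw [← h, map_sum]
  simp_rw [extMap_smul, extMap_basis]
  simp [Basis.coord_apply, Finsupp.single_apply, Algebra.algebraMap_eq_smul_one]

end Map

theorem coef_kohnForm_map {R R' : Type*} [CommRing R] [CommRing R'] (φ : R →+* R') {n j : ℕ}
    (g : Fin j → Fin n → R) (ρ ρ' : Fin n → R) (Λ : Fin n → Fin n → R)
    (s : Finset (Fin n ⊕ Fin n)) :
    coef R' n s (kohnForm (fun i a => φ (g i a)) (fun a => φ (ρ a)) (fun a => φ (ρ' a))
      (fun a b => φ (Λ a b))) = φ (coef R n s (kohnForm g ρ ρ' Λ)) := by
  let _ : Algebra R R' := φ.toAlgebra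
  let _ : LinearOrder (Fin n ⊕ Fin n) :=
    LinearOrder.lift' (finSumFinEquiv (m := n) (n := n)) finSumFinEquiv.injective
  have key := extMap_coord (R := R) (R' := R') s (kohnForm g ρ ρ' Λ)
  have hφ : ∀ r : R, algebraMap R R' r = φ r := fun r => rfl
  refine Eq.trans ?_ key
  show (Pi.basisFun R' (Fin n ⊕ Fin n)).ExteriorAlgebra.coord s _ = _
  congr 1
  have hhol : ∀ v : Fin n → R, (fun i => φ (hol v i)) = hol (fun i => φ (v i)) := by
    intro v
    funext i
    rcases i with i | i <;> simp [hol]
  have hant : ∀ v : Fin n → R, (fun i => φ (antihol v i)) = antihol (fun i => φ (v i)) := by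
    intro v
    funext i
    rcases i with i | i <;> simp [antihol]
  have hs : ∀ a : Fin n, (fun i => φ ((Pi.single a (1 : R) : Fin n → R) i)) = Pi.single a (1 : R') := by
    intro a
    funext i
    by_cases h : i = a <;> simp [h]
  have hlist : ∀ l : List (ExteriorAlgebra R (Fin n ⊕ Fin n → R)),
      extMap R R' (Fin n ⊕ Fin n) l.prod = (l.map (extMap R R' (Fin n ⊕ Fin n))).prod := fun l =>
    map_list_prod _ l
  unfold kohnForm
  rw [map_mul, map_mul, map_mul, hlist, List.map_ofFn, map_pow, map_sum]
  congr 1
  · congr 1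
    · congr 1
      · congr 2
        funext i
        simp only [Function.comp]
        rw [extMap_ι]
        simp only [hφ]
        rw [hhol]
      · rw [extMap_ι]
        simp only [hφ]
        rw [hhol]
    · rw [extMap_ι]
      simp only [hφ]
      rw [hant]
  · congr 1
    refine Finset.sum_congr rfl fun a _ => ?_
    rw [map_sum]
    refine Finset.sum_congr rfl fun b _ => ?_
    rw [extMap_smul, map_mul, extMap_ι, extMap_ι]
    simp only [hφ]
    rw [hhol, hant, hs, hs]

section Null

open ExteriorAlgebra

variable {K : Type*} [Field K] {M : Type*} [AddCommGroup M] [Module K M]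

theorem ιMulti_ne_zero {N : ℕ} (v : Fin N → M) (hv : LinearIndependent K v) :
    ExteriorAlgebra.ιMulti K N v ≠ 0 := by
  obtain ⟨φ, hφ⟩ : ∃ φ : M →ₗ[K] (Fin N → K), ∀ i, φ (v i) = Pi.single i 1 := by
    obtain ⟨φ, hφ⟩ := (Fintype.linearCombination K v).exists_leftInverse_of_injective
      (LinearMap.ker_eq_bot.2 (linearIndependent_iff_injective_fintypeLinearCombination.1 hv))
    refine ⟨φ, fun i => ?_⟩
    have := congrArg (fun f => f (Pi.single i (1 : K))) hφ
    simpa [Fintype.linearCombination_apply_single] using this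
  intro h0
  let D : M [⋀^Fin N]→ₗ[K] K := Matrix.detRowAlternating.compLinearMap φ
  let f : ∀ i, M [⋀^Fin i]→ₗ[K] K := Function.update (fun i => 0) N D
  have h1 := liftAlternating_apply_ιMulti f v
  rw [h0, map_zero] at h1
  have h2 : f N v = 1 := by
    simp only [f, Function.update_self, D, AlternatingMap.compLinearMap_apply]
    have : (fun i => φ (v i)) = (1 : Matrix (Fin N) (Fin N) K) := by
      funext i j
      rw [hφ, Matrix.one_apply, Pi.single_apply]
      simp only [eq_comm]
    have h3 : (Matrix.detRowAlternating : (Fin N → K) [⋀^Fin N]→ₗ[K] K) (fun i => φ (v i)) = 1 := by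
      rw [this]
      exact Matrix.det_one
    exact h3
  rw [h2] at h1
  exact zero_ne_one h1

theorem list_prod_ne_zero {J : Type*} (v : J → M) (hv : LinearIndependent K v) (l : List J)
    (hl : l.Nodup) : (l.map fun i => ι K (v i)).prod ≠ 0 := by
  have h : (l.map fun i => ι K (v i)) = List.ofFn (fun i : Fin l.length => ι K (v (l.get i))) := by
    apply List.ext_getElem
    · simp
    · intro i h1 h2
      simp
  rw [h, ← ιMulti_apply]
  exact ιMulti_ne_zero _ (hv.comp _ (List.nodup_iff_injective_get.1 hl))

theorem ι_swap (x y : M) : ι K x * ι K y = -(ι K y * ι K x) :=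
  eq_neg_of_add_eq_zero_left (ι_add_mul_swap x y)

theorem ι_mul_list_eq_zero {J : Type*} (v : J → M) (l : List J) (i : J) (hi : i ∈ l) :
    ι K (v i) * (l.map fun i => ι K (v i)).prod = 0 := by
  induction l with
  | nil => simp at hi
  | cons j l ih =>
    rw [List.map_cons, List.prod_cons, ← mul_assoc]
    rcases List.mem_cons.1 hi with rfl | hi
    · rw [ι_sq_zero, zero_mul]
    · rw [ι_swap, neg_mul, mul_assoc, ih hi, mul_zero, neg_zero]

theorem two_central (x y : M) (z : ExteriorAlgebra K M) :
    ι K x * ι K y * z = z * (ι K x * ι K y) := by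
  induction z using ExteriorAlgebra.induction with
  | algebraMap r => exact (Algebra.commutes r _).symm
  | ι w =>
    rw [mul_assoc, ι_swap y w, mul_neg, ← mul_assoc, ι_swap x w, neg_mul, neg_neg, mul_assoc]
  | mul a b ha hb => rw [← mul_assoc, ha, mul_assoc, hb, mul_assoc]
  | add a b ha hb => rw [mul_add, add_mul, ha, hb]

theorem add_pow_sq_zero {A : Type*} [CommRing A] (x y : A) (h : x * x = 0) (n : ℕ) :
    (x + y) ^ (n + 1) = y ^ (n + 1) + (n + 1 : ℕ) * (x * y ^ n) := by
  induction n with
  | zero => simp; ring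
  | succ n ih =>
    rw [pow_succ, ih]
    push_cast
    linear_combination ((n : A) + 1) * y ^ n * h

theorem sum_pow_sq_zero {A : Type*} [CommRing A] {J : Type*} (s : Finset J) (x : J → A)
    (h : ∀ i ∈ s, x i * x i = 0) :
    (∑ i ∈ s, x i) ^ s.card = (s.card.factorial : ℕ) * ∏ i ∈ s, x i ∧
      (∑ i ∈ s, x i) ^ (s.card + 1) = 0 := by
  classical
  induction s using Finset.induction_on with
  | empty => simp
  | insert a s ha ih =>
    obtain ⟨h1, h2⟩ := ih fun i hi => h i (Finset.mem_insert_of_mem hi)
    have ha2 := h a (Finset.mem_insert_self a s)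
    rw [Finset.sum_insert ha, Finset.prod_insert ha, Finset.card_insert_of_notMem ha]
    constructor
    · rw [add_pow_sq_zero _ _ ha2, h2, h1, Nat.factorial_succ]
      push_cast
      ring
    · rw [add_pow_sq_zero _ _ ha2, pow_succ (∑ i ∈ s, x i) (s.card + 1), h2]
      ring

/-- `ι ∘ hol` as a linear map. -/
noncomputable def hL (K : Type*) [CommRing K] (n : ℕ) :
    (Fin n → K) →ₗ[K] ExteriorAlgebra K (Fin n ⊕ Fin n → K) :=
  (ι K).comp
    ({ toFun := hol
       map_add' := fun x y => by funext i; rcases i with i | i <;> simp [hol]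
       map_smul' := fun r x => by funext i; rcases i with i | i <;> simp [hol] } :
       (Fin n → K) →ₗ[K] (Fin n ⊕ Fin n → K))

theorem hL_apply (K : Type*) [CommRing K] (n : ℕ) (v : Fin n → K) :
    hL K n v = ι K (hol v) := rfl

/-- `ι ∘ antihol` as a linear map. -/
noncomputable def aL (K : Type*) [CommRing K] (n : ℕ) :
    (Fin n → K) →ₗ[K] ExteriorAlgebra K (Fin n ⊕ Fin n → K) :=
  (ι K).comp
    ({ toFun := antihol
       map_add' := fun x y => by funext i; rcases i with i | i <;> simp [antihol]
       map_smul' := fun r x => by funext i; rcases i with i | i <;> simp [antihol] } :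
       (Fin n → K) →ₗ[K] (Fin n ⊕ Fin n → K))

theorem aL_apply (K : Type*) [CommRing K] (n : ℕ) (v : Fin n → K) :
    aL K n v = ι K (antihol v) := rfl

theorem form_eq {n : ℕ} {B : Type*} [Fintype B] (bB : Basis B K (Fin n → K))
    (Λ : Fin n → Fin n → K) :
    ∑ a, ∑ b, Λ a b • (ι K (hol (Pi.single a 1)) * ι K (antihol (Pi.single b 1))) =
      ∑ x : B, hL K n (bB x) * aL K n (fun b => ∑ a, Λ a b * bB.coord x (Pi.single a 1)) := by
  have h1 : ∀ a : Fin n, ι K (hol (Pi.single a (1 : K))) =
      ∑ x : B, bB.coord x (Pi.single a 1) • hL K n (bB x) := by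
    intro a
    have : (Pi.single a (1 : K) : Fin n → K) = ∑ x : B, bB.coord x (Pi.single a 1) • bB x :=
      (bB.sum_repr _).symm
    change hL K n (Pi.single a 1) = _
    conv_lhs => rw [this]
    rw [map_sum]
    simp only [map_smul]
  have h2 : ∀ c : Fin n → K, aL K n c = ∑ b, c b • ι K (antihol (Pi.single b (1 : K))) := by
    intro c
    have : c = ∑ b, c b • (Pi.single b (1 : K) : Fin n → K) := by
      funext i
      simp [Finset.sum_apply, Pi.single_apply]
    conv_lhs => rw [this]
    rw [map_sum]
    simp only [map_smul]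
    rfl
  simp_rw [h1, h2, Finset.sum_mul, Finset.mul_sum, Finset.smul_sum, smul_mul_assoc, mul_smul_comm,
    Finset.sum_smul, smul_smul]
  rw [Finset.sum_comm]
  refine Eq.trans (Finset.sum_congr rfl fun a _ => Finset.sum_comm) ?_
  exact Finset.sum_comm

end Null

open ExteriorAlgebra in
theorem exists_null_vector {K : Type*} [Field K] [CharZero K] {n : ℕ}
    (G : Set (Fin n → K)) (ρ ρ' : Fin n → K) (Λ : Fin n → Fin n → K)
    (hρ : ρ ∈ G) (hρ0 : ρ ≠ 0) (hρ' : ρ' ≠ 0)
    (H : ∀ j < n, ∀ g : Fin j → Fin n → K, (∀ i, g i ∈ G) → kohnForm g ρ ρ' Λ = 0) :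
    ∃ v : Fin n → K, v ≠ 0 ∧ (∀ g ∈ G, ∑ a, g a * v a = 0) ∧
      ∃ μ : K, ∀ b, ∑ a, Λ a b * v a = μ * ρ' b := by
  classical
  by_contra hcon
  have hcon' : ∀ v : Fin n → K, (∀ g ∈ G, ∑ a, g a * v a = 0) → ∀ μ : K,
      (∀ b, ∑ a, Λ a b * v a = μ * ρ' b) → v = 0 := by
    intro v hv μ hμ
    by_contra h0
    exact hcon ⟨v, h0, hv, μ, hμ⟩
  obtain ⟨b, hbG, hρb, hGb, hb⟩ := exists_linearIndepOn_id_extension
    (K := K) (s := {ρ}) (t := G) (LinearIndepOn.singleton hρ0) (Set.singleton_subset_iff.2 hρ)
  obtain ⟨B, -, hbB, hBtop, hB⟩ := exists_linearIndepOn_id_extension hb (Set.subset_univ b)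
  have hspan : ⊤ ≤ Submodule.span K (Set.range ((↑) : B → Fin n → K)) := by
    rw [Subtype.range_coe]
    intro x _
    exact hBtop (Set.mem_univ x)
  let bB : Basis B K (Fin n → K) := Basis.mk hB hspan
  have hbB' : ∀ x : B, bB x = x.1 := fun x => Basis.mk_apply _ _ _
  have : Fintype B := FiniteDimensional.fintypeBasisIndex bB
  have hcardB : Fintype.card B = n := by
    rw [← Module.finrank_eq_card_basis bB, Module.finrank_fin_fun]
  let ρB : B := ⟨ρ, hbB (hρb rfl)⟩
  let b1 : Finset B := Finset.univ.filter (fun x => x.1 ∈ b)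
  let b0 : Finset B := b1.erase ρB
  have hρB1 : ρB ∈ b1 := by simp [b1, ρB, hρb rfl]
  let C0 : Type _ := {x : B // x.1 ∉ b}
  let L0 : List B := b0.toList
  let g : Fin L0.length → Fin n → K := fun i => (L0.get i).1
  have hL0mem : ∀ x : B, x ∈ L0 ↔ x ≠ ρB ∧ x.1 ∈ b := by
    intro x
    simp [L0, b0, b1]
  have hcard : L0.length + 1 + Fintype.card C0 = n := by
    have h1 : L0.length = b0.card := by simp [L0]
    have h2 : b0.card + 1 = b1.card := Finset.card_erase_add_one hρB1
    have h3 : Fintype.card C0 = (Finset.univ.filter (fun x : B => ¬ x.1 ∈ b)).card :=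
      Fintype.card_subtype _
    have h4 := Finset.card_filter_add_card_filter_not (s := (Finset.univ : Finset B))
      (fun x => x.1 ∈ b)
    rw [Finset.card_univ, hcardB] at h4
    rw [h1, h2, h3]
    exact h4
  let c : B → Fin n → K := fun x b' => ∑ a, Λ a b' * bB.coord x (Pi.single a 1)
  let cO : Option C0 → Fin n → K := fun o => o.elim ρ' (fun x => c x.1)
  -- coordinates
  have hcoord : ∀ (x : B) (w : Fin n → K), bB.coord x w = ∑ a, w a * bB.coord x (Pi.single a 1) := by
    intro x w
    have hw : w = ∑ a, w a • (Pi.single a (1 : K) : Fin n → K) := by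
      funext i
      simp [Finset.sum_apply, Pi.single_apply]
    conv_lhs => rw [hw]
    rw [map_sum]
    simp only [map_smul, smul_eq_mul]
  have hcoord0 : ∀ (x : C0) (w : Fin n → K), w ∈ G → bB.coord x.1 w = 0 := by
    intro x w hw
    have h1 : Submodule.span K b ≤ LinearMap.ker (bB.coord x.1) := by
      rw [Submodule.span_le]
      intro y hy
      have h2 : y = bB ⟨y, hbB hy⟩ := by rw [hbB']
      have h3 : (⟨y, hbB hy⟩ : B) ≠ x.1 := by
        intro h
        exact x.2 (by rw [← h]; exact hy)
      change bB.coord x.1 y = 0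
      rw [h2, Basis.coord_apply, Basis.repr_self, Finsupp.single_apply, if_neg h3]
    exact h1 (hGb hw)
  have hcO : LinearIndependent K cO := by
    rw [Fintype.linearIndependent_iff]
    intro t ht
    rw [Fintype.sum_option] at ht
    let v : Fin n → K := fun a => ∑ x : C0, t (some x) * bB.coord x.1 (Pi.single a 1)
    have hsum : ∀ w : Fin n → K, ∑ a, w a * v a = ∑ x : C0, t (some x) * bB.coord x.1 w := by
      intro w
      simp_rw [v, Finset.mul_sum]
      rw [Finset.sum_comm]
      refine Finset.sum_congr rfl fun x _ => ?_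
      rw [hcoord x.1 w, Finset.mul_sum]
      refine Finset.sum_congr rfl fun a _ => ?_
      ring
    have hv0 : v = 0 := by
      refine hcon' v ?_ (-t none) ?_
      · intro w hw
        rw [hsum]
        exact Finset.sum_eq_zero fun x _ => by rw [hcoord0 x w hw, mul_zero]
      · intro b'
        have h1 := congrFun ht b'
        simp only [cO, Option.elim_none, Option.elim_some, Pi.add_apply, Pi.smul_apply,
          smul_eq_mul, Finset.sum_apply, Pi.zero_apply] at h1
        have h2 : ∑ a, Λ a b' * v a = ∑ x : C0, t (some x) * c x.1 b' := by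
          simp_rw [v, c, Finset.mul_sum]
          rw [Finset.sum_comm]
          refine Finset.sum_congr rfl fun x _ => ?_
          refine Finset.sum_congr rfl fun a _ => ?_
          ring
        rw [h2]
        linear_combination h1
    have ht0 : ∀ x : C0, t (some x) = 0 := by
      intro x
      have h1 := hsum (bB x.1)
      rw [hv0] at h1
      simp only [Pi.zero_apply, mul_zero, Finset.sum_const_zero, Basis.coord_apply,
        Basis.repr_self, Finsupp.single_apply] at h1
      rw [Finset.sum_eq_single x] at h1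
      · simpa using h1.symm
      · intro y _ hy
        rw [if_neg (fun h => hy (Subtype.ext h.symm)), mul_zero]
      · intro h
        exact absurd (Finset.mem_univ _) h
    intro o
    rcases o with _ | x
    · have h1 : t none • ρ' = 0 := by
        rw [← ht]
        simp only [ht0, zero_smul, Finset.sum_const_zero, add_zero]
        rfl
      exact (smul_eq_zero.1 h1).resolve_right hρ'
    · exact ht0 x
  let V : B ⊕ Option C0 → (Fin n ⊕ Fin n → K) :=
    Sum.elim (fun x => hol (bB x)) (fun o => antihol (cO o))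
  have hV : LinearIndependent K V := by
    rw [Fintype.linearIndependent_iff]
    intro t ht
    rw [Fintype.sum_sum_type] at ht
    have h1 : ∑ x : B, t (Sum.inl x) • bB x = 0 := by
      funext a
      have := congrFun ht (Sum.inl a)
      simpa [V, hol, antihol, Finset.sum_apply] using this
    have h2 : ∑ o : Option C0, t (Sum.inr o) • cO o = 0 := by
      funext a
      have := congrFun ht (Sum.inr a)
      simpa [V, hol, antihol, Finset.sum_apply] using this
    have h3 := Fintype.linearIndependent_iff.1 bB.linearIndependent _ h1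
    have h4 := Fintype.linearIndependent_iff.1 hcO _ h2
    intro i
    rcases i with i | i
    · exact h3 i
    · exact h4 i
  -- the form
  have hform := H L0.length (by omega) g (by
    intro i
    have : L0.get i ∈ L0 := List.get_mem _ _
    exact hbG ((hL0mem _).1 this).2)
  have hexp : n - 1 - L0.length = Fintype.card C0 := by omega
  let F : B → ExteriorAlgebra K (Fin n ⊕ Fin n → K) := fun x => hL K n (bB x) * aL K n (c x)
  have hFc : ∀ x z, F x * z = z * F x := fun x z => two_central _ _ z
  let P : ExteriorAlgebra K (Fin n ⊕ Fin n → K) := (L0.map fun x => ι K (hol (bB x))).prod *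
    ι K (hol ρ) * ι K (antihol ρ')
  have hk : P * (∑ x : B, F x) ^ (Fintype.card C0) = 0 := by
    rw [← hform]
    unfold kohnForm
    rw [form_eq bB, hexp]
    congr 1
    simp only [P]
    congr 3
    apply List.ext_getElem
    · simp
    · intro i h1 h2
      simp [g, hbB']
  have hPF : ∀ x : B, x.1 ∈ b → P * F x = 0 := by
    intro x hx
    have h1 : hL K n (bB x) * ((L0.map fun x => ι K (hol (bB x))).prod * ι K (hol ρ)) = 0 := by
      have h2 := ι_mul_list_eq_zero (K := K) (fun x : B => hol (bB x)) (L0 ++ [ρB]) x (by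
        rw [List.mem_append, hL0mem, List.mem_singleton]
        by_cases h : x = ρB
        · exact Or.inr h
        · exact Or.inl ⟨h, hx⟩)
      rw [List.map_append, List.prod_append] at h2
      rw [hL_apply]
      simpa [hbB', ρB] using h2
    rw [← hFc]
    simp only [F, P]
    rw [hL_apply, aL_apply] at *
    rw [ι_swap, neg_mul, mul_assoc, ← mul_assoc (ι K (hol (bB x))), h1, zero_mul, mul_zero, neg_zero]
  have hsplit : ∑ x : B, F x = (∑ x ∈ b1, F x) + ∑ x : C0, F x.1 := by
    have h1 := Finset.sum_filter_add_sum_filter_not (Finset.univ : Finset B) (fun x => x.1 ∈ b) F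
    rw [← h1]
    congr 1
    rw [← Finset.sum_subtype_eq_sum_filter]
    simp
    rfl
  have hPS : P * (∑ x ∈ b1, F x) = 0 := by
    rw [Finset.mul_sum]
    exact Finset.sum_eq_zero fun x hx => hPF x (by simpa [b1] using hx)
  have hpow : ∀ m : ℕ, P * (∑ x : B, F x) ^ m = P * (∑ x : C0, F x.1) ^ m := by
    intro m
    induction m with
    | zero => simp
    | succ m ih =>
      rw [pow_succ, ← mul_assoc, ih, hsplit, mul_add, pow_succ, ← mul_assoc]
      have h1 : P * (∑ x : C0, F x.1) ^ m * (∑ x ∈ b1, F x) = 0 := by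
        have h2 : ∀ z, (∑ x ∈ b1, F x) * z = z * ∑ x ∈ b1, F x := by
          intro z
          rw [Finset.sum_mul, Finset.mul_sum]
          exact Finset.sum_congr rfl fun x _ => hFc x z
        rw [mul_assoc, ← h2, ← mul_assoc, hPS, zero_mul]
      rw [h1, zero_add]
  rw [hpow] at hk
  -- the power
  have hcen : ∀ x : B, F x ∈ Subring.center (ExteriorAlgebra K (Fin n ⊕ Fin n → K)) := by
    intro x
    rw [Subring.mem_center_iff]
    intro z
    exact (hFc x z).symm
  let F' : C0 → Subring.center (ExteriorAlgebra K (Fin n ⊕ Fin n → K)) := fun x => ⟨F x.1, hcen x.1⟩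
  have hF'sq : ∀ x ∈ (Finset.univ : Finset C0), F' x * F' x = 0 := by
    intro x _
    apply Subtype.ext
    change F x.1 * F x.1 = 0
    simp only [F]
    rw [mul_assoc, ← mul_assoc (aL K n (c x.1)), hL_apply, aL_apply, ι_swap (antihol (c x.1)),
      neg_mul, mul_assoc, ι_sq_zero, mul_zero, neg_zero, mul_zero]
  have hpw := (sum_pow_sq_zero (Finset.univ : Finset C0) F' hF'sq).1
  have hpw2 := congrArg (Subring.center (ExteriorAlgebra K (Fin n ⊕ Fin n → K))).subtype hpw
  rw [map_pow, map_sum, map_mul, map_natCast, ← Finset.prod_map_toList, map_list_prod,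
    List.map_map] at hpw2
  have hpw3 : (∑ x : C0, F x.1) ^ (Fintype.card C0) = ((Fintype.card C0).factorial : ExteriorAlgebra K (Fin n ⊕ Fin n → K)) *
      ((Finset.univ : Finset C0).toList.map fun x => F x.1).prod := by
    rw [← Finset.card_univ]
    exact hpw2
  rw [hpw3, ← mul_assoc, ← (Nat.cast_commute _ _).eq, mul_assoc] at hk
  have hk2 : P * ((Finset.univ : Finset C0).toList.map fun x => F x.1).prod = 0 := by
    have h1 : ((Fintype.card C0).factorial : ExteriorAlgebra K (Fin n ⊕ Fin n → K)) =
        algebraMap K _ ((Fintype.card C0).factorial : K) := by simp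
    rw [h1, ← Algebra.smul_def] at hk
    exact (smul_eq_zero.1 hk).resolve_left (Nat.cast_ne_zero.2 (Nat.factorial_ne_zero _))
  -- the list
  let L : List (B ⊕ Option C0) := L0.map Sum.inl ++ [Sum.inl ρB] ++ [Sum.inr none] ++
    (Finset.univ : Finset C0).toList.flatMap fun x => [Sum.inl x.1, Sum.inr (some x)]
  have hfl : ∀ l : List C0, l.Nodup → (l.flatMap fun x =>
      [(Sum.inl x.1 : B ⊕ Option C0), Sum.inr (some x)]).Nodup := by
    intro l hl
    rw [List.nodup_flatMap]
    refine ⟨fun x _ => by simp, ?_⟩
    refine List.Pairwise.imp ?_ hl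
    intro x y hxy
    have hxy' : x.1 ≠ y.1 := fun h => hxy (Subtype.ext h)
    simp [Function.onFun, List.disjoint_left, hxy, hxy']
  have hLn : L.Nodup := by
    have h1 : L0.Nodup := Finset.nodup_toList b0
    have h2 := hfl _ (Finset.nodup_toList (Finset.univ : Finset C0))
    have h3 : ρB ∉ L0 := by simp [hL0mem]
    have h4 : (L0.map (Sum.inl : B → B ⊕ Option C0)).Nodup := h1.map Sum.inl_injective
    have h5 : ∀ x ∈ L0, ∀ y : C0, x ≠ y.1 := by
      intro x hx y hxy
      exact y.2 (hxy ▸ ((hL0mem x).1 hx).2)
    have h6 : ∀ y : C0, y.1 ≠ ρB := by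
      intro y hy
      exact y.2 (by rw [hy]; exact hρb rfl)
    simp only [L]
    rw [List.nodup_append, List.nodup_append, List.nodup_append]
    refine ⟨⟨⟨h4, by simp, ?_⟩, by simp, ?_⟩, h2, ?_⟩
    · intro x hx y hy
      rw [List.mem_map] at hx
      rw [List.mem_singleton] at hy
      obtain ⟨z, hz, rfl⟩ := hx
      rw [hy]
      intro h
      exact h3 (Sum.inl_injective h ▸ hz)
    · intro x hx y hy
      rw [List.mem_singleton] at hy
      rw [hy]
      rcases List.mem_append.1 hx with hx | hx
      · rw [List.mem_map] at hx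
        obtain ⟨z, hz, rfl⟩ := hx
        simp
      · rw [List.mem_singleton.1 hx]
        simp
    · intro x hx y hy
      rw [List.mem_flatMap] at hy
      obtain ⟨z, -, hz⟩ := hy
      rcases List.mem_append.1 hx with hx | hx
      · rcases List.mem_append.1 hx with hx | hx
        · rw [List.mem_map] at hx
          obtain ⟨w, hw, rfl⟩ := hx
          rcases List.mem_cons.1 hz with rfl | hz
          · intro h
            exact h5 w hw z (Sum.inl_injective h)
          · rw [List.mem_singleton] at hz
            rw [hz]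
            simp
        · rw [List.mem_singleton] at hx
          rw [hx]
          rcases List.mem_cons.1 hz with rfl | hz
          · intro h
            exact h6 z (Sum.inl_injective h).symm
          · rw [List.mem_singleton] at hz
            rw [hz]
            simp
      · rw [List.mem_singleton] at hx
        rw [hx]
        rcases List.mem_cons.1 hz with rfl | hz
        · simp
        · rw [List.mem_singleton] at hz
          rw [hz]
          simp
  apply list_prod_ne_zero V hV L hLn
  rw [← hk2]
  have hfm : ∀ l : List C0, ((l.flatMap fun x =>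
      [(Sum.inl x.1 : B ⊕ Option C0), Sum.inr (some x)]).map fun i => ι K (V i)).prod =
      (l.map fun x => F x.1).prod := by
    intro l
    induction l with
    | nil => simp
    | cons x l ih =>
      rw [List.flatMap_cons, List.map_append, List.prod_append, ih, List.map_cons, List.prod_cons]
      congr 1
      simp [V, F, cO, hL_apply, aL_apply]
  simp only [L, List.map_append, List.prod_append, List.map_map, P]
  rw [hfm]
  congr 1
  simp only [List.map_cons, List.map_nil, List.prod_cons, List.prod_nil, mul_one]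
  congr 2
  simp [V, ρB, hbB']

end Pool.Agent.Work.MP_80f671_an
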