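import Pool.Agent.Work.MP_80f671_an.Pos

/-!
The residue field at a minimal prime over the union of Kohn's ideals, and the vanishing of the
jets of the defining function along a formal leaf.
-/

namespace Pool.Agent.Work.MP_80f671_an

open Filter Topology ContDiff Osm MvPolynomial

/-- The residue field of a prime ideal stable under a conjugation. -/
theorem exists_field {R : Type} [CommRing R] [Algebra ℂ R] (σ : R →+* R)
    (hσσ : ∀ f, σ (σ f) = f) (hσ : ∀ (t : ℂ) (f : R), σ (t • f) = (starRingEnd ℂ) t • σ f)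
    (P : Ideal R) [P.IsPrime] (hP : ∀ f ∈ P, σ f ∈ P) :
    ∃ (K : Type) (_ : Field K) (_ : Algebra ℂ K) (π : R →ₐ[ℂ] K) (c : K →+* K),
      (∀ k, c (c k) = k) ∧ (∀ f, c (π f) = π (σ f)) ∧
      (∀ (t : ℂ) (k : K), c (t • k) = (starRingEnd ℂ) t • c k) ∧
      (∀ k : K, ∃ a s : R, π s ≠ 0 ∧ k * π s = π a) ∧ ∀ f, π f = 0 ↔ f ∈ P := by
  set A := R ⧸ P with hA
  set K := FractionRing A with hK
  let σA : A →+* A := Ideal.quotientMap P σ hP
  have hσA : ∀ f, σA (Ideal.Quotient.mk P f) = Ideal.Quotient.mk P (σ f) := fun f =>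
    Ideal.quotientMap_mk
  have hinj : Function.Injective σA := by
    rw [injective_iff_map_eq_zero]
    intro a ha
    obtain ⟨f, rfl⟩ := Ideal.Quotient.mk_surjective a
    rw [hσA, Ideal.Quotient.eq_zero_iff_mem] at ha
    rw [Ideal.Quotient.eq_zero_iff_mem]
    have := hP _ ha
    rwa [hσσ] at this
  have hle : nonZeroDivisors A ≤ (nonZeroDivisors A).comap σA := by
    intro a ha
    rw [Submonoid.mem_comap, mem_nonZeroDivisors_iff_ne_zero]
    rw [mem_nonZeroDivisors_iff_ne_zero] at ha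
    intro h
    exact ha (hinj (by rw [h, map_zero]))
  let c : K →+* K := IsLocalization.map K σA hle
  have hc : ∀ a : A, c (algebraMap A K a) = algebraMap A K (σA a) := fun a =>
    IsLocalization.map_eq hle a
  let π : R →ₐ[ℂ] K := (IsScalarTower.toAlgHom ℂ A K).comp (Ideal.Quotient.mkₐ ℂ P)
  have hπ : ∀ f, π f = algebraMap A K (Ideal.Quotient.mk P f) := fun f => rfl
  have hcπ : ∀ f, c (π f) = π (σ f) := fun f => by rw [hπ, hc, hσA, hπ]
  have hfrac : ∀ k : K, ∃ a s : R, π s ≠ 0 ∧ k * π s = π a := by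
    intro k
    obtain ⟨x, y, hy, rfl⟩ := IsFractionRing.div_surjective (A := A) k
    obtain ⟨a, rfl⟩ := Ideal.Quotient.mk_surjective x
    obtain ⟨s, rfl⟩ := Ideal.Quotient.mk_surjective y
    have hs : π s ≠ 0 := by
      rw [hπ]
      intro h
      rw [map_eq_zero_iff _ (IsFractionRing.injective A K)] at h
      exact (mem_nonZeroDivisors_iff_ne_zero.1 hy) h
    refine ⟨a, s, hs, ?_⟩
    rw [hπ, hπ]
    exact div_mul_cancel₀ _ (by rwa [hπ] at hs)
  refine ⟨K, inferInstance, inferInstance, π, c, ?_, hcπ, ?_, hfrac, ?_⟩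
  · intro k
    obtain ⟨a, s, hs, h⟩ := hfrac k
    have h1 := congrArg (fun x => c (c x)) h
    simp only [map_mul, hcπ, hσσ] at h1
    rw [← h] at h1
    exact mul_right_cancel₀ hs h1
  · intro t k
    have h1 : c (algebraMap ℂ K t) = algebraMap ℂ K ((starRingEnd ℂ) t) := by
      rw [← π.commutes, hcπ, ← π.commutes, Algebra.algebraMap_eq_smul_one, hσ, map_one,
        Algebra.algebraMap_eq_smul_one]
    rw [Algebra.smul_def, map_mul, h1, Algebra.smul_def]
  · intro f
    rw [hπ, map_eq_zero_iff _ (IsFractionRing.injective A K), Ideal.Quotient.eq_zero_iff_mem]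

variable {n : ℕ} {x₀ : Fin n → ℂ}

/-- The algebraic setting attached to a prime ideal. -/
theorem exists_compat {P : Ideal (Osm n)} (hPp : P.IsPrime) (hP : LClosed x₀ P)
    (r : (Fin n → ℂ) → ℝ) (hr : ContDiff ℝ ∞ r) (hrP : rC r hr ∈ P) :
    ∃ (K : Type) (_ : Field K) (_ : Algebra ℂ K) (S : KSet n (Osm n) K), Compat S P r hr := by
  haveI := hPp
  obtain ⟨K, hK, hKA, π, c, h1, h2, h3, h4, h5⟩ := exists_field (R := Osm n) conj conj_conj
    conj_smul P (fun f hf => hP.conj_mem hf)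
  refine ⟨K, hK, hKA,
    { D := Osm.D
      Db := Osm.Dbar
      DD := D_D
      DbDb := Dbar_Dbar
      DDb := D_Dbar
      z := zc
      Dz := D_zc
      Dbz := Dbar_zc
      σ := conj
      σσ := conj_conj
      σD := conj_D
      π := π
      c := c
      cc := h1
      cπ := h2
      csmul := h3
      frac := h4
      r := rC r hr
      σr := conj_rC r hr
      πr := (h5 _).2 hrP }, ?_⟩
  exact ⟨rfl, rfl, rfl, rfl, rfl, h5⟩

/-- Scaling of the `(1,0)` forms. -/
lemma kohnForm_smul {R : Type*} [CommRing R] {n j : ℕ} (c : Fin j → R) (g : Fin j → Fin n → R)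
    (ρ ρ' : Fin n → R) (Λ : Fin n → Fin n → R) :
    kohnForm (fun i a => c i * g i a) ρ ρ' Λ = (∏ i, c i) • kohnForm g ρ ρ' Λ := by
  have h : ∀ {j : ℕ} (c : Fin j → R) (g : Fin j → Fin n → R),
      (List.ofFn fun i => ExteriorAlgebra.ι R (hol (fun a => c i * g i a))).prod
        = (∏ i, c i) • (List.ofFn fun i => ExteriorAlgebra.ι R (hol (g i))).prod := by
    intro j
    induction j with
    | zero => intro c g; simp
    | succ j ih =>
      intro c g
      have h1 : hol (fun a => c 0 * g 0 a) = c 0 • hol (g 0) := by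
        funext i
        rcases i with i | i <;> simp [hol]
      rw [List.ofFn_succ, List.prod_cons, ih (fun i => c i.succ) (fun i => g i.succ),
        List.ofFn_succ, List.prod_cons, Fin.prod_univ_succ, h1, map_smul, smul_mul_smul_comm]
  unfold kohnForm
  rw [h c g, smul_mul_assoc, smul_mul_assoc, smul_mul_assoc]

section null

variable {K : Type*} [Field K] [Algebra ℂ K] {S : KSet n (Osm n) K} {P : Ideal (Osm n)}
  {r : (Fin n → ℂ) → ℝ} {hr : ContDiff ℝ ∞ r}

/-- All the forms vanish over the residue field of a minimal prime. -/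
lemma Compat.form_zero (hc : Compat S P r hr) (hPp : P.IsPrime) (hJP : JK r x₀ ≤ P)
    (hmin : ∀ f ∈ P, ∃ s, s ∉ P ∧ s * f ∈ JK r x₀) {j : ℕ} (hj : j < n)
    (g : Fin j → Fin n → K) (hg : ∀ i, ∃ f ∈ P, g i = fun a => S.π (D a f)) :
    kohnForm g (fun a => S.π (D a (rC r hr))) (fun b => S.π (Dbar b (rC r hr)))
      (fun a b => S.π (D a (Dbar b (rC r hr)))) = 0 := by
  choose f hf hgf using hg
  choose s hs hsf using fun i => hmin (f i) (hf i)
  have h1 : kohnForm (fun i a => S.π (s i) * g i a) (fun a => S.π (D a (rC r hr)))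
      (fun b => S.π (Dbar b (rC r hr))) (fun a b => S.π (D a (Dbar b (rC r hr)))) = 0 := by
    apply eq_zero_of_coef
    intro t
    have h2 := coef_osmForm_mem r hr x₀ hj (fun i => s i * f i) hsf t
    have h3 := (hc.ker _).2 (hJP h2)
    have h4 := coef_kohnForm_map (S.π : Osm n →+* K) (fun i a => D a (s i * f i))
      (fun a => D a (rC r hr)) (fun b => Dbar b (rC r hr)) (fun a b => D a (Dbar b (rC r hr))) t
    have h5 : (fun (i : Fin j) (a : Fin n) => (S.π : Osm n →+* K) (D a (s i * f i)))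
        = fun i a => S.π (s i) * g i a := by
      funext i a
      rw [hgf, Derivation.leibniz, RingHom.coe_coe, map_add, smul_eq_mul, smul_eq_mul, map_mul,
        map_mul, (hc.ker (f i)).2 (hf i), zero_mul, add_zero]
    rw [h5] at h4
    exact h4.trans h3
  rw [kohnForm_smul] at h1
  refine (smul_eq_zero.1 h1).resolve_left ?_
  intro h0
  obtain ⟨i, -, h⟩ := Finset.prod_eq_zero_iff.1 h0
  exact hs i ((hc.ker _).1 h)

/-- The null vector field. -/
theorem Compat.exists_null (hc : Compat S P r hr) (hPp : P.IsPrime) (hP : LClosed x₀ P)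
    {i₀ : Fin n} (hi₀ : (D i₀ (rC r hr)) x₀ ≠ 0) (hJP : JK r x₀ ≤ P)
    (hmin : ∀ f ∈ P, ∃ s, s ∉ P ∧ s * f ∈ JK r x₀) :
    ∃ L ∈ S.G, S.hc L ≠ 0 ∧ ∀ a, S.ac L a = 0 := by
  haveI : CharZero K := charZero_of_injective_algebraMap (algebraMap ℂ K).injective
  have hD := hc.eD
  have hDb := hc.eDb
  have hr' := hc.er
  have hrP : rC r hr ∈ P := hJP (rC_mem_JK r hr x₀)
  have hne : S.π (D i₀ (rC r hr)) ≠ 0 := hc.π_ne_zero hP hi₀
  have hne' : S.π (Dbar i₀ (rC r hr)) ≠ 0 := by
    have : Dbar i₀ (rC r hr) = conj (D i₀ (rC r hr)) := by rw [conj_D, conj_rC]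
    rw [this]
    refine hc.π_ne_zero hP ?_
    rw [conj_apply]
    intro h
    exact hi₀ ((map_eq_zero _).1 h)
  obtain ⟨v, hv0, hv, μ, hμ⟩ := exists_null_vector
    {g : Fin n → K | ∃ f ∈ P, g = fun a => S.π (D a f)}
    (fun a => S.π (D a (rC r hr))) (fun b => S.π (Dbar b (rC r hr)))
    (fun a b => S.π (D a (Dbar b (rC r hr)))) ⟨rC r hr, hrP, rfl⟩
    (fun h => hne (congrFun h i₀)) (fun h => hne' (congrFun h i₀))
    (fun j hj g hg => hc.form_zero hPp hJP hmin hj g hg)
  obtain ⟨L, hL, hLh, hLa⟩ := S.exists_VF v (fun _ => 0) (by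
    intro f hf
    have h1 := hv _ ⟨f, (hc.ker f).1 hf, rfl⟩
    rw [hD]
    refine Eq.trans (Finset.sum_congr rfl fun a _ => ?_) h1
    ring)
  have hhc : S.hc L = v := funext hLh
  refine ⟨L, ⟨hL, ?_, ?_⟩, by rw [hhc]; exact hv0, hLa⟩
  · rw [hhc]
    refine ⟨?_, μ, fun b => ?_⟩
    · rw [hD, hr']
      exact hv _ ⟨rC r hr, hrP, rfl⟩
    · rw [hD, hDb, hr']
      exact hμ b
  · have : S.hc (S.cD L) = 0 := by
      funext a
      rw [S.hc_cD, hLa, map_zero]
      rfl
    rw [this]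
    exact S.N.zero_mem

end null

/-- The formal leaf along which all jets of the defining function vanish. -/
theorem exists_vanishing_leaf (r : (Fin n → ℂ) → ℝ) (hr : ContDiff ℝ ∞ r)
    {i₀ : Fin n} (hi₀ : (D i₀ (rC r hr)) x₀ ≠ 0) (hlow : LeviLow r hr x₀)
    (h1 : (1 : Osm n) ∉ JK r x₀) :
    ∃ P : Ideal (Osm n), P.IsPrime ∧ LClosed x₀ P ∧
      ∃ (K : Type) (_ : Field K) (_ : Algebra ℂ K) (S : KSet n (Osm n) K), Compat S P r hr ∧
        ∃ (ι : Type) (_ : Fintype ι) (_ : DecidableEq ι) (e : ι → Fin n)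
          (Z : Fin n → Multiset ι → K), Nonempty ι ∧ (∀ l, Z l 0 = S.π (S.z l)) ∧
          (∀ i j, Z (e j) {i} = if i = j then 1 else 0) ∧
          (∀ j α, 2 ≤ Multiset.card α → Z (e j) α = 0) ∧
          ∀ w, S.ev Z (jw S.D S.Db w (X (Gen.fn S.r))) = 0 := by
  obtain ⟨P, hPp, hP, hJP, hmin⟩ := exists_minimal_prime (JK r x₀) (JK_closed r x₀) h1
  have hrP : rC r hr ∈ P := hJP (rC_mem_JK r hr x₀)
  obtain ⟨K, hK, hKA, S, hc⟩ := exists_compat hPp hP r hr hrP
  obtain ⟨L, hLG, hL0, hLa⟩ := hc.exists_null hPp hP hi₀ hJP hmin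
  obtain ⟨ι, hι, hι', hne, ⟨F⟩⟩ := S.exists_leaf (L := L)
  have h3 := hc.third hP hi₀ hlow hrP
  have hpos := hc.pos hP hlow
  have hcons : ∀ i l α, F.Z l (i ::ₘ α) = F.X i (F.Z l α) := by
    intro i l α
    rw [F.Z1 _ (F.X_mem i) l α, Finset.sum_eq_single i]
    · rw [F.X_e, if_pos rfl, one_mul]
    · intro j _ hj
      rw [F.X_e, if_neg (Ne.symm hj), zero_mul]
    · simp
  have hone : ∀ i j, F.Z (F.e j) {i} = if i = j then 1 else 0 := by
    intro i j
    rw [← Multiset.cons_zero, hcons, F.Z0]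
    exact F.X_e i j
  have htwo : ∀ j (α : Multiset ι), 2 ≤ Multiset.card α → F.Z (F.e j) α = 0 := by
    intro j α
    induction α using Multiset.induction_on with
    | empty => intro h; simp at h
    | cons i α ih =>
      intro h
      rw [Multiset.card_cons] at h
      rw [hcons]
      by_cases h2 : 2 ≤ Multiset.card α
      · rw [ih h2, map_zero]
      · obtain ⟨k, rfl⟩ := Multiset.card_eq_one.1 (show Multiset.card α = 1 by omega)
        rw [hone]
        split_ifs
        · exact Derivation.map_one_eq_zero _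
        · exact map_zero _
  exact ⟨P, hPp, hP, K, hK, hKA, S, hc, ι, hι, hι', F.e, F.Z, hne hL0, F.Z0, hone, htwo,
    fun w => S.all_vanish F h3 hpos hLG hLa w⟩

end Pool.Agent.Work.MP_80f671_an
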