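import Pool.Agent.Work.MP_80f671_an.TypeTop

/-!
Kohn's ideals and the type depend only on the germ of the defining function; the local theorem.
-/

namespace Pool.Agent.Work.MP_80f671_an

open Filter Topology ContDiff Osm

variable {n : ℕ} {x₀ : Fin n → ℂ}

lemma dz_congr {f g : (Fin n → ℂ) → ℂ} {x : Fin n → ℂ} (h : f =ᶠ[𝓝 x] g) (a : Fin n) :
    dz a f x = dz a g x := by
  unfold dz
  rw [h.fderiv_eq]

lemma dzbar_congr {f g : (Fin n → ℂ) → ℂ} {x : Fin n → ℂ} (h : f =ᶠ[𝓝 x] g) (a : Fin n) :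
    dzbar a f x = dzbar a g x := by
  unfold dzbar
  rw [h.fderiv_eq]

lemma dz_dzbar_congr {f g : (Fin n → ℂ) → ℂ} {x : Fin n → ℂ} (h : f =ᶠ[𝓝 x] g) (a b : Fin n) :
    dz a (dzbar b f) x = dz a (dzbar b g) x := by
  apply dz_congr
  filter_upwards [h.eventuallyEq_nhds] with y hy
  exact dzbar_congr hy b

lemma kohnFormAt_congr {r r' : (Fin n → ℂ) → ℝ} {x : Fin n → ℂ} (h : r =ᶠ[𝓝 x] r') {j : ℕ}
    (f : Fin j → (Fin n → ℂ) → ℂ) : kohnFormAt r f x = kohnFormAt r' f x := by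
  have h1 : (fun y => (r y : ℂ)) =ᶠ[𝓝 x] fun y => (r' y : ℂ) := by
    filter_upwards [h] with y hy
    rw [hy]
  rw [kohnFormAt_eq, kohnFormAt_eq]
  congr 1
  · funext a
    exact dz_congr h1 a
  · funext a
    exact dzbar_congr h1 a
  · funext a b
    exact dz_dzbar_congr h1 a b

lemma idealGen_germ {G G' : Set ((Fin n → ℂ) → ℂ)}
    (h : ∀ g ∈ G, ∃ g' ∈ G', g =ᶠ[𝓝 x₀] g') : idealGen x₀ G ⊆ idealGen x₀ G' := by
  rintro f ⟨hf, k, a, g, ha, hg, he⟩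
  choose g' hg' hgg' using fun i => h (g i) (hg i)
  refine ⟨hf, k, a, g', ha, hg', ?_⟩
  filter_upwards [he, Filter.eventually_all.2 hgg'] with y h1 h2
  rw [h1]
  exact Finset.sum_congr rfl fun i _ => by rw [h2 i]

lemma realRadical_mono {I I' : Set ((Fin n → ℂ) → ℂ)} (h : I ⊆ I') :
    realRadical x₀ I ⊆ realRadical x₀ I' := by
  rintro g ⟨hg, f, hf, m, hm, hb⟩
  exact ⟨hg, f, h hf, m, hm, hb⟩

lemma formCoeffs_germ {r r' : (Fin n → ℂ) → ℝ} (h : r =ᶠ[𝓝 x₀] r') {j : ℕ}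
    (f : Fin j → (Fin n → ℂ) → ℂ) :
    ∀ g ∈ formCoeffs r f, ∃ g' ∈ formCoeffs r' f, g =ᶠ[𝓝 x₀] g' := by
  rintro g ⟨l, rfl⟩
  refine ⟨fun x => l (kohnFormAt r' f x), ⟨l, rfl⟩, ?_⟩
  filter_upwards [h.eventuallyEq_nhds] with y hy
  rw [kohnFormAt_congr hy]

/-- Kohn's ideals depend only on the germ of `r`. -/
theorem kohnIdeal_germ {r r' : (Fin n → ℂ) → ℝ} (h : r =ᶠ[𝓝 x₀] r') (k : ℕ) :
    kohnIdeal r x₀ k ⊆ kohnIdeal r' x₀ k := by
  induction k with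
  | zero =>
    refine realRadical_mono (idealGen_germ ?_)
    rintro g (hg | hg)
    · rw [Set.mem_singleton_iff] at hg
      refine ⟨fun y => (r' y : ℂ), Or.inl rfl, ?_⟩
      rw [hg]
      filter_upwards [h] with y hy
      rw [hy]
    · obtain ⟨g', hg', he⟩ := formCoeffs_germ h _ g hg
      exact ⟨g', Or.inr hg', he⟩
  | succ k ih =>
    refine realRadical_mono (idealGen_germ ?_)
    rintro g (hg | ⟨j, hj1, hj2, f, hf, hg⟩)
    · exact ⟨g, Or.inl (ih hg), EventuallyEq.rfl⟩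
    · obtain ⟨g', hg', he⟩ := formCoeffs_germ h _ g hg
      exact ⟨g', Or.inr ⟨j, hj1, hj2, f, fun i => ih (hf i), hg'⟩, he⟩

/-- The type depends only on the germ of `r`. -/
theorem dAngeloType_germ {r r' : (Fin n → ℂ) → ℝ} (h : r =ᶠ[𝓝 x₀] r') :
    dAngeloType r x₀ ≤ dAngeloType r' x₀ := by
  unfold dAngeloType
  refine iSup_mono fun γ => iSup_mono fun h1 => iSup_mono fun h2 => iSup_mono fun _ => ?_
  refine ENNReal.div_le_div ?_ le_rfl
  have h3 : (fun t => r (γ t)) =ᶠ[𝓝 0] fun t => r' (γ t) := by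
    have h4 : Tendsto γ (𝓝 0) (𝓝 x₀) := by
      have := h1.continuousAt.tendsto
      rwa [h2] at this
    exact h4.eventually h
  unfold vanishingOrder
  refine iSup_mono fun k => iSup_mono' fun h5 => ⟨h3.symm.trans_isBigO h5, le_rfl⟩

/-- Cutting off a germ. -/
theorem exists_global {r : (Fin n → ℂ) → ℝ} (hs : ∀ᶠ y in 𝓝 x₀, ContDiffAt ℝ ∞ r y) :
    ∃ r' : (Fin n → ℂ) → ℝ, ContDiff ℝ ∞ r' ∧ r =ᶠ[𝓝 x₀] r' := by
  obtain ⟨δ, hδ, hball⟩ := Metric.mem_nhds_iff.1 hs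
  let χ : ContDiffBump x₀ := ⟨δ / 4, δ / 2, by positivity, by linarith⟩
  refine ⟨fun y => χ y * r y, ?_, ?_⟩
  · rw [contDiff_iff_contDiffAt]
    intro y
    by_cases hy : y ∈ Metric.ball x₀ δ
    · exact (χ.contDiff.contDiffAt).mul (hball hy)
    · have h1 : y ∉ tsupport χ := by
        rw [χ.tsupport_eq, Metric.mem_closedBall]
        rw [Metric.mem_ball] at hy
        have h2 : χ.rOut = δ / 2 := rfl
        rw [h2]
        intro h3
        apply hy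
        linarith
      have h2 : (fun y => χ y * r y) =ᶠ[𝓝 y] fun _ => 0 := by
        filter_upwards [notMem_tsupport_iff_eventuallyEq.1 h1] with z hz
        rw [hz, Pi.zero_apply, zero_mul]
      exact contDiffAt_const.congr_of_eventuallyEq h2
  · filter_upwards [χ.eventuallyEq_one] with y hy
    rw [hy, Pi.one_apply, one_mul]

lemma dzbar_ofReal (r : (Fin n → ℂ) → ℝ) (hr : ContDiff ℝ ∞ r) (a : Fin n) (x : Fin n → ℂ) :
    (Dbar a (rC r hr)) x = (starRingEnd ℂ) ((D a (rC r hr)) x) := by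
  rw [← conj_apply, conj_D, conj_rC]

lemma exists_coord (r : (Fin n → ℂ) → ℝ) (hr : ContDiff ℝ ∞ r) (x : Fin n → ℂ)
    (hdr : fderiv ℝ r x ≠ 0) : ∃ i₀ : Fin n, (D i₀ (rC r hr)) x ≠ 0 := by
  by_contra hcon
  push Not at hcon
  apply hdr
  ext h
  have h1 := dir_apply h (rC r hr) x
  rw [dir_eq] at h1
  have h2 : fderiv ℝ ((rC r hr : Osm n) : (Fin n → ℂ) → ℂ) x h = ((fderiv ℝ r x h : ℝ) : ℂ) := by
    have h3 : HasFDerivAt (fun y => ((r y : ℝ) : ℂ)) (Complex.ofRealCLM.comp (fderiv ℝ r x)) x :=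
      Complex.ofRealCLM.hasFDerivAt.comp x (hr.differentiable (by simp) x).hasFDerivAt
    have h4 : ((rC r hr : Osm n) : (Fin n → ℂ) → ℂ) = fun y => ((r y : ℝ) : ℂ) := rfl
    rw [h4, h3.fderiv]
    rfl
  rw [h2] at h1
  have h5 : ∑ a, (h a * (D a (rC r hr)) x + (starRingEnd ℂ) (h a) * (Dbar a (rC r hr)) x) = 0 :=
    Finset.sum_eq_zero fun a _ => by rw [dzbar_ofReal, hcon a]; simp
  rw [h5] at h1
  rw [zero_apply]
  exact_mod_cast h1.symm

/-- The local theorem. -/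
theorem local_main {r : (Fin n → ℂ) → ℝ} (hs : ∀ᶠ y in 𝓝 x₀, ContDiffAt ℝ ∞ r y)
    (h0 : r x₀ = 0) (hdr : fderiv ℝ r x₀ ≠ 0)
    (hpsc : ∀ᶠ y in 𝓝 x₀, r y = 0 → ∀ v : Fin n → ℂ,
      ∑ a, dz a (fun z => (r z : ℂ)) y * v a = 0 →
      0 ≤ (∑ a, ∑ b, dz a (dzbar b (fun z => (r z : ℂ))) y * v a * (starRingEnd ℂ) (v b)).re)
    (ht : dAngeloType r x₀ < ⊤) : ∃ k, (fun _ => (1 : ℂ)) ∈ kohnIdeal r x₀ k := by
  obtain ⟨r', hr', he⟩ := exists_global hs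
  have ht' : dAngeloType r' x₀ < ⊤ := lt_of_le_of_lt (dAngeloType_germ he.symm) ht
  suffices h : ∃ k, (fun _ => (1 : ℂ)) ∈ kohnIdeal r' x₀ k by
    obtain ⟨k, hk⟩ := h
    exact ⟨k, kohnIdeal_germ he.symm k hk⟩
  by_contra hcon
  push Not at hcon
  have h1 : (1 : Osm n) ∉ JK r' x₀ := one_notMem_JK hcon
  have h0' : r' x₀ = 0 := by rw [← he.self_of_nhds, h0]
  have hdr' : fderiv ℝ r' x₀ ≠ 0 := by rwa [← he.fderiv_eq]
  obtain ⟨i₀, hi₀⟩ := exists_coord r' hr' x₀ hdr'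
  have hpsc' : ∀ᶠ y in 𝓝 x₀, r' y = 0 → ∀ v : Fin n → ℂ, dr r' hr' y v = 0 →
      0 ≤ (qf (fun a b => (leviM r' hr' a b) y) v v).re := by
    filter_upwards [hpsc, he.eventuallyEq_nhds] with y hy hey hry v hv
    have hey' : (fun z => (r z : ℂ)) =ᶠ[𝓝 y] fun z => (r' z : ℂ) := by
      filter_upwards [hey] with z hz
      rw [hz]
    have h2 := hy (by rw [hey.self_of_nhds, hry]) v (by
      rw [← hv]
      unfold dr
      refine Finset.sum_congr rfl fun a _ => ?_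
      rw [D_apply, dz_congr hey']
      rfl)
    refine le_of_le_of_eq h2 ?_
    congr 1
    unfold qf leviM
    refine Finset.sum_congr rfl fun a _ => Finset.sum_congr rfl fun b _ => ?_
    beta_reduce
    rw [D_apply, dz_dzbar_congr hey' a b, Dbar_coe]
    rfl
  have hlow : LeviLow r' hr' x₀ := levi_lower r' hr' h0' hdr' i₀ hi₀ hpsc'
  exact ht'.ne (type_top r' hr' hi₀ hlow h1)

end Pool.Agent.Work.MP_80f671_an
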