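import Pool.Agent.Work.MP_80f671_an.LPrime
import Pool.Agent.Work.MP_80f671_an.ExtAlg

/-!
The union of Kohn's ideals, as an ideal of the ring of globally smooth functions.
-/

namespace Pool.Agent.Work.MP_80f671_an

open Filter Topology ContDiff Osm

variable {n : ℕ} {x₀ : Fin n → ℂ}

lemma smoothNear_osm (f : Osm n) : SmoothNear x₀ (f : (Fin n → ℂ) → ℂ) :=
  Eventually.of_forall fun _ => (Osm.smooth f).contDiffAt

lemma SmoothNear.mul {f g : (Fin n → ℂ) → ℂ} (hf : SmoothNear x₀ f) (hg : SmoothNear x₀ g) :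
    SmoothNear x₀ (f * g) := by
  filter_upwards [hf, hg] with y h1 h2
  exact h1.mul h2

lemma SmoothNear.continuousAt {f : (Fin n → ℂ) → ℂ} (hf : SmoothNear x₀ f) :
    ContinuousAt f x₀ := (hf.self_of_nhds).continuousAt

lemma SmoothNear.bound {f : (Fin n → ℂ) → ℂ} (hf : SmoothNear x₀ f) :
    ∃ C : ℝ, 0 ≤ C ∧ ∀ᶠ y in 𝓝 x₀, ‖f y‖ ≤ C := by
  refine ⟨‖f x₀‖ + 1, by positivity, ?_⟩
  have h : Tendsto (fun y => ‖f y‖) (𝓝 x₀) (𝓝 ‖f x₀‖) := hf.continuousAt.norm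
  filter_upwards [h.eventually (gt_mem_nhds (show ‖f x₀‖ < ‖f x₀‖ + 1 by linarith))] with y hy
  exact hy.le

lemma subset_idealGen {G : Set ((Fin n → ℂ) → ℂ)} {g : (Fin n → ℂ) → ℂ} (hg : g ∈ G)
    (hs : SmoothNear x₀ g) : g ∈ idealGen x₀ G := by
  refine ⟨hs, 1, fun _ _ => 1, fun _ => g, fun _ => ?_, fun _ => hg, ?_⟩
  · exact Eventually.of_forall fun _ => contDiffAt_const
  · exact Eventually.of_forall fun y => by simp

lemma idealGen_mono {G G' : Set ((Fin n → ℂ) → ℂ)} (h : G ⊆ G') :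
    idealGen x₀ G ⊆ idealGen x₀ G' := by
  rintro f ⟨hf, k, a, g, ha, hg, he⟩
  exact ⟨hf, k, a, g, ha, fun i => h (hg i), he⟩

lemma idealGen_add {G : Set ((Fin n → ℂ) → ℂ)} {f g : (Fin n → ℂ) → ℂ}
    (hf : f ∈ idealGen x₀ G) (hg : g ∈ idealGen x₀ G) : f + g ∈ idealGen x₀ G := by
  obtain ⟨hf, k, a, u, ha, hu, he⟩ := hf
  obtain ⟨hg, k', a', u', ha', hu', he'⟩ := hg
  refine ⟨?_, k + k', Fin.append a a', Fin.append u u', ?_, ?_, ?_⟩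
  · filter_upwards [hf, hg] with y h1 h2
    exact h1.add h2
  · intro i
    refine Fin.addCases (fun i => ?_) (fun i => ?_) i
    · rw [Fin.append_left]; exact ha i
    · rw [Fin.append_right]; exact ha' i
  · intro i
    refine Fin.addCases (fun i => ?_) (fun i => ?_) i
    · rw [Fin.append_left]; exact hu i
    · rw [Fin.append_right]; exact hu' i
  · filter_upwards [he, he'] with y h1 h2
    rw [Pi.add_apply, h1, h2, Fin.sum_univ_add]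
    simp

lemma idealGen_mul {G : Set ((Fin n → ℂ) → ℂ)} {f g : (Fin n → ℂ) → ℂ}
    (hf : SmoothNear x₀ f) (hg : g ∈ idealGen x₀ G) : f * g ∈ idealGen x₀ G := by
  obtain ⟨hg, k, a, u, ha, hu, he⟩ := hg
  refine ⟨hf.mul hg, k, fun i => f * a i, u, fun i => hf.mul (ha i), hu, ?_⟩
  filter_upwards [he] with y h1
  rw [Pi.mul_apply, h1, Finset.mul_sum]
  exact Finset.sum_congr rfl fun i _ => by simp [mul_assoc]

lemma SmoothNear.conj {f : (Fin n → ℂ) → ℂ} (hf : SmoothNear x₀ f) :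
    SmoothNear x₀ (fun y => (starRingEnd ℂ) (f y)) := by
  filter_upwards [hf] with y h1
  exact (Complex.conjCLE.contDiff.contDiffAt).comp y h1

lemma realRadical_of_le {I : Set ((Fin n → ℂ) → ℂ)} {f g : (Fin n → ℂ) → ℂ}
    (hI : ∀ (c : ℂ) (f), f ∈ I → (fun y => c * f y) ∈ I)
    (hf : f ∈ I) (hg : SmoothNear x₀ g) {m : ℕ} (hm : 1 ≤ m) {C : ℝ}
    (h : ∀ᶠ y in 𝓝 x₀, ‖g y‖ ^ m ≤ C * ‖f y‖) : g ∈ realRadical x₀ I := by
  refine ⟨hg, _, hI (C : ℂ) f hf, m, hm, ?_⟩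
  filter_upwards [h] with y hy
  rw [norm_mul, Complex.norm_real, Real.norm_eq_abs]
  exact hy.trans (mul_le_mul_of_nonneg_right (le_abs_self C) (norm_nonneg _))

lemma idealGen_const {G : Set ((Fin n → ℂ) → ℂ)} (c : ℂ) (f : (Fin n → ℂ) → ℂ)
    (hf : f ∈ idealGen x₀ G) : (fun y => c * f y) ∈ idealGen x₀ G :=
  idealGen_mul (f := fun _ => c) (Eventually.of_forall fun _ => contDiffAt_const) hf

lemma realRadical_add {G : Set ((Fin n → ℂ) → ℂ)} {g₁ g₂ : (Fin n → ℂ) → ℂ}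
    (h1 : g₁ ∈ realRadical x₀ (idealGen x₀ G)) (h2 : g₂ ∈ realRadical x₀ (idealGen x₀ G)) :
    g₁ + g₂ ∈ realRadical x₀ (idealGen x₀ G) := by
  obtain ⟨hg₁, f₁, hf₁, m₁, hm₁, h1⟩ := h1
  obtain ⟨hg₂, f₂, hf₂, m₂, hm₂, h2⟩ := h2
  obtain ⟨B₁, hB₁, hb₁⟩ := hg₁.bound
  obtain ⟨B₂, hB₂, hb₂⟩ := hg₂.bound
  have hs₁ : SmoothNear x₀ f₁ := hf₁.1
  have hs₂ : SmoothNear x₀ f₂ := hf₂.1
  have hmem : (fun y => (starRingEnd ℂ) (f₁ y)) * f₁ + (fun y => (starRingEnd ℂ) (f₂ y)) * f₂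
      ∈ idealGen x₀ G :=
    idealGen_add (idealGen_mul hs₁.conj hf₁) (idealGen_mul hs₂.conj hf₂)
  refine realRadical_of_le (m := 2 * (m₁ + m₂))
    (C := 2 ^ (2 * (m₁ + m₂)) * (B₁ ^ (2 * m₂) + B₂ ^ (2 * m₁)))
    (fun c f hf => idealGen_const c f hf) hmem ?_ (by omega) ?_
  · filter_upwards [hg₁, hg₂] with y h1 h2
    exact h1.add h2
  filter_upwards [h1, h2, hb₁, hb₂] with y hy1 hy2 hy3 hy4
  have e1 : ((fun y => (starRingEnd ℂ) (f₁ y)) * f₁ + (fun y => (starRingEnd ℂ) (f₂ y)) * f₂) y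
      = ((‖f₁ y‖ ^ 2 + ‖f₂ y‖ ^ 2 : ℝ) : ℂ) := by
    rw [Pi.add_apply, Pi.mul_apply, Pi.mul_apply, mul_comm, mul_comm _ (f₂ y), Complex.mul_conj,
      Complex.mul_conj, Complex.normSq_eq_norm_sq, Complex.normSq_eq_norm_sq]
    push_cast
    ring
  rw [e1, Complex.norm_real, Real.norm_of_nonneg (by positivity), Pi.add_apply]
  have p1 : ‖g₁ y‖ ^ (2 * (m₁ + m₂)) ≤ B₁ ^ (2 * m₂) * ‖f₁ y‖ ^ 2 := by
    calc ‖g₁ y‖ ^ (2 * (m₁ + m₂)) = (‖g₁ y‖ ^ m₁) ^ 2 * ‖g₁ y‖ ^ (2 * m₂) := by ring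
      _ ≤ (‖f₁ y‖) ^ 2 * B₁ ^ (2 * m₂) := by gcongr
      _ = _ := by ring
  have p2 : ‖g₂ y‖ ^ (2 * (m₁ + m₂)) ≤ B₂ ^ (2 * m₁) * ‖f₂ y‖ ^ 2 := by
    calc ‖g₂ y‖ ^ (2 * (m₁ + m₂)) = (‖g₂ y‖ ^ m₂) ^ 2 * ‖g₂ y‖ ^ (2 * m₁) := by ring
      _ ≤ (‖f₂ y‖) ^ 2 * B₂ ^ (2 * m₁) := by gcongr
      _ = _ := by ring
  calc ‖g₁ y + g₂ y‖ ^ (2 * (m₁ + m₂)) ≤ (‖g₁ y‖ + ‖g₂ y‖) ^ (2 * (m₁ + m₂)) := by
        gcongr
        exact norm_add_le _ _
    _ ≤ 2 ^ (2 * (m₁ + m₂)) * (‖g₁ y‖ ^ (2 * (m₁ + m₂)) + ‖g₂ y‖ ^ (2 * (m₁ + m₂))) :=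
        add_pow_le_aux (norm_nonneg _) (norm_nonneg _) _
    _ ≤ 2 ^ (2 * (m₁ + m₂)) * (B₁ ^ (2 * m₂) * ‖f₁ y‖ ^ 2
          + B₂ ^ (2 * m₁) * ‖f₂ y‖ ^ 2) := by gcongr
    _ ≤ _ := by
        have q1 : 0 ≤ B₁ ^ (2 * m₂) := by positivity
        have q2 : 0 ≤ B₂ ^ (2 * m₁) := by positivity
        rw [mul_assoc (2 ^ (2 * (m₁ + m₂)) : ℝ)]
        refine mul_le_mul_of_nonneg_left ?_ (by positivity)
        nlinarith [mul_nonneg q1 (sq_nonneg ‖f₂ y‖), mul_nonneg q2 (sq_nonneg ‖f₁ y‖)]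

lemma realRadical_mul {G : Set ((Fin n → ℂ) → ℂ)} {f g : (Fin n → ℂ) → ℂ}
    (hf : SmoothNear x₀ f) (hg : g ∈ realRadical x₀ (idealGen x₀ G)) :
    f * g ∈ realRadical x₀ (idealGen x₀ G) := by
  obtain ⟨hg, u, hu, m, hm, h⟩ := hg
  obtain ⟨B, hB, hb⟩ := hf.bound
  refine realRadical_of_le (m := m) (C := B ^ m) (fun c f hf => idealGen_const c f hf) hu
    (hf.mul hg) hm ?_
  filter_upwards [h, hb] with y h1 h2
  rw [Pi.mul_apply, norm_mul, mul_pow]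
  gcongr

lemma subset_realRadical {I : Set ((Fin n → ℂ) → ℂ)} {g : (Fin n → ℂ) → ℂ} (hg : g ∈ I)
    (hs : SmoothNear x₀ g) : g ∈ realRadical x₀ I :=
  ⟨hs, g, hg, 1, le_rfl, Eventually.of_forall fun y => by simp⟩

/-- The generating set of the `k`-th ideal. -/
def kohnGen (r : (Fin n → ℂ) → ℝ) (x₀ : Fin n → ℂ) : ℕ → Set ((Fin n → ℂ) → ℂ)
  | 0 => {fun y => (r y : ℂ)} ∪ formCoeffs r (fun i : Fin 0 => i.elim0)
  | k + 1 => kohnIdeal r x₀ k ∪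
      {h | ∃ j : ℕ, 1 ≤ j ∧ j ≤ n - 1 ∧ ∃ f : Fin j → (Fin n → ℂ) → ℂ,
        (∀ i, f i ∈ kohnIdeal r x₀ k) ∧ h ∈ formCoeffs r f}

lemma kohnIdeal_eq (r : (Fin n → ℂ) → ℝ) (x₀ : Fin n → ℂ) (k : ℕ) :
    kohnIdeal r x₀ k = realRadical x₀ (idealGen x₀ (kohnGen r x₀ k)) := by
  cases k <;> rfl

lemma kohnIdeal_smooth {r : (Fin n → ℂ) → ℝ} {k : ℕ} {f : (Fin n → ℂ) → ℂ}
    (hf : f ∈ kohnIdeal r x₀ k) : SmoothNear x₀ f := by
  rw [kohnIdeal_eq] at hf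
  exact hf.1

lemma kohnIdeal_succ {r : (Fin n → ℂ) → ℝ} (k : ℕ) :
    kohnIdeal r x₀ k ⊆ kohnIdeal r x₀ (k + 1) := by
  intro f hf
  rw [kohnIdeal_eq _ _ (k + 1)]
  have hs := kohnIdeal_smooth hf
  exact subset_realRadical (subset_idealGen (Or.inl hf) hs) hs

lemma kohnIdeal_mono {r : (Fin n → ℂ) → ℝ} {k l : ℕ} (h : k ≤ l) :
    kohnIdeal r x₀ k ⊆ kohnIdeal r x₀ l := by
  induction h with
  | refl => exact subset_rfl
  | step _ ih => exact ih.trans (kohnIdeal_succ _)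

/-- The union of Kohn's ideals, restricted to globally smooth functions. -/
def JK (r : (Fin n → ℂ) → ℝ) (x₀ : Fin n → ℂ) : Ideal (Osm n) where
  carrier := {f | ∃ k, (f : (Fin n → ℂ) → ℂ) ∈ kohnIdeal r x₀ k}
  add_mem' := by
    rintro f g ⟨k, hf⟩ ⟨l, hg⟩
    refine ⟨max k l, ?_⟩
    have hf' := kohnIdeal_mono (le_max_left k l) hf
    have hg' := kohnIdeal_mono (le_max_right k l) hg
    rw [kohnIdeal_eq] at hf' hg' ⊢
    exact realRadical_add hf' hg'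
  zero_mem' := by
    refine ⟨0, ?_⟩
    rw [kohnIdeal_eq]
    refine subset_realRadical ?_ (smoothNear_osm 0)
    exact ⟨smoothNear_osm 0, 0, fun i => i.elim0, fun i => i.elim0, fun i => i.elim0,
      fun i => i.elim0, Eventually.of_forall fun y => by simp⟩
  smul_mem' := by
    rintro c f ⟨k, hf⟩
    refine ⟨k, ?_⟩
    rw [kohnIdeal_eq] at hf ⊢
    exact realRadical_mul (smoothNear_osm c) hf

lemma mem_JK {r : (Fin n → ℂ) → ℝ} {f : Osm n} :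
    f ∈ JK r x₀ ↔ ∃ k, (f : (Fin n → ℂ) → ℂ) ∈ kohnIdeal r x₀ k := Iff.rfl

lemma JK_closed (r : (Fin n → ℂ) → ℝ) (x₀ : Fin n → ℂ) : LClosed x₀ (JK r x₀) := by
  rintro f ⟨k, hf⟩ g ⟨m, hm, C, hC, h⟩
  refine ⟨k + 1, ?_⟩
  rw [kohnIdeal_eq]
  exact realRadical_of_le (fun c f hf => idealGen_const c f hf)
    (subset_idealGen (Or.inl hf) (smoothNear_osm f)) (smoothNear_osm g) hm h

lemma one_notMem_JK {r : (Fin n → ℂ) → ℝ} (h : ∀ k, (fun _ => (1 : ℂ)) ∉ kohnIdeal r x₀ k) :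
    (1 : Osm n) ∉ JK r x₀ := by
  rintro ⟨k, hk⟩
  exact h k hk

/-- The defining function as an element of the ring. -/
def rC (r : (Fin n → ℂ) → ℝ) (hr : ContDiff ℝ ∞ r) : Osm n :=
  Osm.mk (fun y => (r y : ℂ)) (Complex.ofRealCLM.contDiff.comp hr)

@[simp] lemma rC_apply (r : (Fin n → ℂ) → ℝ) (hr : ContDiff ℝ ∞ r) (y : Fin n → ℂ) :
    (rC r hr) y = (r y : ℂ) := rfl

lemma conj_rC (r : (Fin n → ℂ) → ℝ) (hr : ContDiff ℝ ∞ r) : conj (rC r hr) = rC r hr :=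
  Osm.ext' fun x => by simp

lemma rC_mem_JK (r : (Fin n → ℂ) → ℝ) (hr : ContDiff ℝ ∞ r) (x₀ : Fin n → ℂ) :
    rC r hr ∈ JK r x₀ := by
  refine ⟨0, ?_⟩
  rw [kohnIdeal_eq]
  have hs := smoothNear_osm (x₀ := x₀) (rC r hr)
  exact subset_realRadical (subset_idealGen (Or.inl rfl) hs) hs

/-- The form over the ring of smooth functions. -/
noncomputable def osmForm (r : (Fin n → ℂ) → ℝ) (hr : ContDiff ℝ ∞ r) {j : ℕ}
    (f : Fin j → Osm n) : ExteriorAlgebra (Osm n) (Fin n ⊕ Fin n → Osm n) :=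
  kohnForm (fun i a => D a (f i)) (fun a => D a (rC r hr)) (fun b => Dbar b (rC r hr))
    (fun a b => D a (Dbar b (rC r hr)))

lemma hol_eq_sum {n : ℕ} (v : Fin n → ℂ) :
    hol v = ∑ a, v a • (Pi.single (Sum.inl a) (1 : ℂ) : Fin n ⊕ Fin n → ℂ) := by
  funext i
  rw [Finset.sum_apply]
  rcases i with i | i
  · rw [Finset.sum_eq_single i]
    · simp [hol]
    · intro b _ hb
      have : (Sum.inl i : Fin n ⊕ Fin n) ≠ Sum.inl b := fun h => hb (Sum.inl_injective h).symm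
      simp [Pi.single_eq_of_ne this]
    · simp
  · rw [Finset.sum_eq_zero]
    · rfl
    · intro b _
      simp

lemma antihol_eq_sum {n : ℕ} (v : Fin n → ℂ) :
    antihol v = ∑ a, v a • (Pi.single (Sum.inr a) (1 : ℂ) : Fin n ⊕ Fin n → ℂ) := by
  funext i
  rw [Finset.sum_apply]
  rcases i with i | i
  · rw [Finset.sum_eq_zero]
    · rfl
    · intro b _
      simp
  · rw [Finset.sum_eq_single i]
    · simp [antihol]
    · intro b _ hb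
      have : (Sum.inr i : Fin n ⊕ Fin n) ≠ Sum.inr b := fun h => hb (Sum.inr_injective h).symm
      simp [Pi.single_eq_of_ne this]
    · simp

lemma hol_single {n : ℕ} (a : Fin n) :
    hol (Pi.single a (1 : ℂ)) = (Pi.single (Sum.inl a) (1 : ℂ) : Fin n ⊕ Fin n → ℂ) := by
  rw [hol_eq_sum, Finset.sum_eq_single a]
  · simp
  · intro b _ hb
    simp [Pi.single_eq_of_ne hb]
  · simp

lemma antihol_single {n : ℕ} (a : Fin n) :
    antihol (Pi.single a (1 : ℂ)) = (Pi.single (Sum.inr a) (1 : ℂ) : Fin n ⊕ Fin n → ℂ) := by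
  rw [antihol_eq_sum, Finset.sum_eq_single a]
  · simp
  · intro b _ hb
    simp [Pi.single_eq_of_ne hb]
  · simp

lemma del_eq {n : ℕ} (f : (Fin n → ℂ) → ℂ) (x : Fin n → ℂ) :
    del f x = ExteriorAlgebra.ι ℂ (hol (fun a => dz a f x)) := by
  rw [hol_eq_sum, map_sum]
  simp only [map_smul]
  rfl

lemma delbar_eq {n : ℕ} (f : (Fin n → ℂ) → ℂ) (x : Fin n → ℂ) :
    delbar f x = ExteriorAlgebra.ι ℂ (antihol (fun a => dzbar a f x)) := by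
  rw [antihol_eq_sum, map_sum]
  simp only [map_smul]
  rfl

lemma deldelbar_eq {n : ℕ} (f : (Fin n → ℂ) → ℂ) (x : Fin n → ℂ) :
    deldelbar f x = (∑ a : Fin n, ∑ b : Fin n, dz a (dzbar b f) x •
      (ExteriorAlgebra.ι ℂ (hol (Pi.single a 1)) *
        ExteriorAlgebra.ι ℂ (antihol (Pi.single b 1))) :
          ExteriorAlgebra ℂ (Fin n ⊕ Fin n → ℂ)) := by
  simp only [hol_single, antihol_single]
  rfl

lemma kohnFormAt_eq {n : ℕ} (r : (Fin n → ℂ) → ℝ) {j : ℕ}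
    (f : Fin j → (Fin n → ℂ) → ℂ) (x : Fin n → ℂ) :
    kohnFormAt r f x = kohnForm (fun i a => dz a (f i) x) (fun a => dz a (fun y => (r y : ℂ)) x)
      (fun b => dzbar b (fun y => (r y : ℂ)) x)
      (fun a b => dz a (dzbar b (fun y => (r y : ℂ))) x) := by
  unfold kohnFormAt kohnForm
  simp only [del_eq, delbar_eq, deldelbar_eq]
  rfl

lemma coef_osmForm (r : (Fin n → ℂ) → ℝ) (hr : ContDiff ℝ ∞ r) {j : ℕ}
    (f : Fin j → Osm n) (s : Finset (Fin n ⊕ Fin n)) :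
    ((coef (Osm n) n s (osmForm r hr f) : Osm n) : (Fin n → ℂ) → ℂ)
      = fun x => coef ℂ n s (kohnFormAt r (fun i => (f i : (Fin n → ℂ) → ℂ)) x) := by
  funext x
  have h := coef_kohnForm_map (evalAt x : Osm n →ₐ[ℂ] ℂ).toRingHom
    (fun i a => D a (f i)) (fun a => D a (rC r hr)) (fun b => Dbar b (rC r hr))
    (fun a b => D a (Dbar b (rC r hr))) s
  have h2 : (coef (Osm n) n s (osmForm r hr f) : Osm n) x
      = (evalAt x : Osm n →ₐ[ℂ] ℂ).toRingHom (coef (Osm n) n s (osmForm r hr f)) := rfl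
  rw [h2, osmForm, ← h, kohnFormAt_eq]
  congr 1
  congr 1
  · funext i a
    exact D_apply a (f i) x
  · funext a
    exact D_apply a _ x
  · funext a
    exact Dbar_apply a _ x
  · funext a b
    change (D a (Dbar b (rC r hr))) x = _
    rw [D_apply]
    congr 1
    exact Dbar_coe b (rC r hr)

lemma coef_osmForm_mem (r : (Fin n → ℂ) → ℝ) (hr : ContDiff ℝ ∞ r) (x₀ : Fin n → ℂ) {j : ℕ}
    (hj : j < n) (f : Fin j → Osm n) (hf : ∀ i, f i ∈ JK r x₀) (s : Finset (Fin n ⊕ Fin n)) :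
    coef (Osm n) n s (osmForm r hr f) ∈ JK r x₀ := by
  rcases Nat.eq_zero_or_pos j with rfl | hpos
  · refine ⟨0, ?_⟩
    rw [kohnIdeal_eq]
    have hs := smoothNear_osm (x₀ := x₀) (coef (Osm n) n s (osmForm r hr f))
    refine subset_realRadical (subset_idealGen (Or.inr ?_) hs) hs
    refine ⟨coef ℂ n s, ?_⟩
    rw [coef_osmForm]
    have : (fun i => (f i : (Fin n → ℂ) → ℂ)) = fun i : Fin 0 => i.elim0 := by
      funext i
      exact i.elim0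
    rw [this]
    rfl
  · choose k hk using hf
    obtain ⟨N, hN⟩ : ∃ N, ∀ i, k i ≤ N := ⟨Finset.univ.sup k, fun i => Finset.le_sup (Finset.mem_univ i)⟩
    refine ⟨N + 1, ?_⟩
    rw [kohnIdeal_eq]
    have hs := smoothNear_osm (x₀ := x₀) (coef (Osm n) n s (osmForm r hr f))
    refine subset_realRadical (subset_idealGen (Or.inr ?_) hs) hs
    refine ⟨j, hpos, by omega, fun i => (f i : (Fin n → ℂ) → ℂ),
      fun i => kohnIdeal_mono (hN i) (hk i), coef ℂ n s, ?_⟩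
    rw [coef_osmForm]
    rfl

end Pool.Agent.Work.MP_80f671_an
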