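import Pool.Agent.Work.MP_80f671_an.LieAlg

/-!
The formal jet algebra: polynomials in symbols for smooth functions and for the Taylor
coefficients of a formal leaf, with its commuting derivations.
-/

namespace Pool.Agent.Work.MP_80f671_an

open Finset MvPolynomial

/-- Generators of the jet algebra. -/
inductive Gen (n : ℕ) (R ι : Type*)
  | fn (f : R)
  | z (l : Fin n) (α : Multiset ι)
  | w (l : Fin n) (α : Multiset ι)

section jets

variable {n : ℕ} {R ι : Type*} [CommRing R] [Algebra ℂ R]

/-- The derivation of the jet algebra in a holomorphic direction. -/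
noncomputable def jA (D : Fin n → Derivation ℂ R R) (i : ι) :
    Derivation ℂ (MvPolynomial (Gen n R ι) ℂ) (MvPolynomial (Gen n R ι) ℂ) :=
  mkDerivation ℂ (fun g => match g with
    | Gen.fn f => ∑ a, X (Gen.fn (D a f)) * X (Gen.z a {i})
    | Gen.z l α => X (Gen.z l (i ::ₘ α))
    | Gen.w _ _ => 0)

/-- The derivation of the jet algebra in an antiholomorphic direction. -/
noncomputable def jB (Db : Fin n → Derivation ℂ R R) (i : ι) :
    Derivation ℂ (MvPolynomial (Gen n R ι) ℂ) (MvPolynomial (Gen n R ι) ℂ) :=
  mkDerivation ℂ (fun g => match g with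
    | Gen.fn f => ∑ a, X (Gen.fn (Db a f)) * X (Gen.w a {i})
    | Gen.z _ _ => 0
    | Gen.w l α => X (Gen.w l (i ::ₘ α)))

variable (D Db : Fin n → Derivation ℂ R R)

@[simp] lemma jA_fn (i : ι) (f : R) :
    jA D i (X (Gen.fn f)) = ∑ a, X (Gen.fn (D a f)) * X (Gen.z a {i}) := by
  rw [jA, mkDerivation_X]

@[simp] lemma jA_z (i : ι) (l : Fin n) (α : Multiset ι) :
    jA D i (X (Gen.z l α)) = X (Gen.z l (i ::ₘ α)) := by
  rw [jA, mkDerivation_X]

@[simp] lemma jA_w (i : ι) (l : Fin n) (α : Multiset ι) :
    jA D i (X (Gen.w l α)) = 0 := by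
  rw [jA, mkDerivation_X]

@[simp] lemma jB_fn (i : ι) (f : R) :
    jB Db i (X (Gen.fn f)) = ∑ a, X (Gen.fn (Db a f)) * X (Gen.w a {i}) := by
  rw [jB, mkDerivation_X]

@[simp] lemma jB_z (i : ι) (l : Fin n) (α : Multiset ι) :
    jB Db i (X (Gen.z l α)) = 0 := by
  rw [jB, mkDerivation_X]

@[simp] lemma jB_w (i : ι) (l : Fin n) (α : Multiset ι) :
    jB Db i (X (Gen.w l α)) = X (Gen.w l (i ::ₘ α)) := by
  rw [jB, mkDerivation_X]

lemma jA_comm (hDD : ∀ a b f, D a (D b f) = D b (D a f)) (i j : ι)
    (u : MvPolynomial (Gen n R ι) ℂ) : jA D i (jA D j u) = jA D j (jA D i u) := by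
  have h : ⁅jA D i, jA D j⁆ = (0 : Derivation ℂ _ (MvPolynomial (Gen n R ι) ℂ)) := by
    apply derivation_ext
    intro g
    rw [Derivation.commutator_apply, Derivation.zero_apply, sub_eq_zero]
    cases g with
    | fn f =>
      rw [jA_fn, jA_fn, map_sum, map_sum]
      simp only [Derivation.leibniz, jA_fn, jA_z, smul_eq_mul, mul_sum, sum_add_distrib]
      congr 1
      · refine sum_congr rfl fun a _ => ?_
        rw [← Multiset.cons_zero, ← Multiset.cons_zero, Multiset.cons_swap]
      · rw [sum_comm]
        refine sum_congr rfl fun a _ => sum_congr rfl fun b _ => ?_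
        rw [hDD a b]
        ring
    | z l α => rw [jA_z, jA_z, jA_z, jA_z, Multiset.cons_swap]
    | w l α => simp
  have := congrArg (fun δ : Derivation ℂ _ _ => δ u) h
  rw [Derivation.commutator_apply, Derivation.zero_apply, sub_eq_zero] at this
  exact this

lemma jB_comm (hDD : ∀ a b f, Db a (Db b f) = Db b (Db a f)) (i j : ι)
    (u : MvPolynomial (Gen n R ι) ℂ) : jB Db i (jB Db j u) = jB Db j (jB Db i u) := by
  have h : ⁅jB Db i, jB Db j⁆ = (0 : Derivation ℂ _ (MvPolynomial (Gen n R ι) ℂ)) := by
    apply derivation_ext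
    intro g
    rw [Derivation.commutator_apply, Derivation.zero_apply, sub_eq_zero]
    cases g with
    | fn f =>
      rw [jB_fn, jB_fn, map_sum, map_sum]
      simp only [Derivation.leibniz, jB_fn, jB_w, smul_eq_mul, mul_sum, sum_add_distrib]
      congr 1
      · refine sum_congr rfl fun a _ => ?_
        rw [← Multiset.cons_zero, ← Multiset.cons_zero, Multiset.cons_swap]
      · rw [sum_comm]
        refine sum_congr rfl fun a _ => sum_congr rfl fun b _ => ?_
        rw [hDD a b]
        ring
    | w l α => rw [jB_w, jB_w, jB_w, jB_w, Multiset.cons_swap]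
    | z l α => simp
  have := congrArg (fun δ : Derivation ℂ _ _ => δ u) h
  rw [Derivation.commutator_apply, Derivation.zero_apply, sub_eq_zero] at this
  exact this

lemma jAB_comm (hDD : ∀ a b f, D a (Db b f) = Db b (D a f)) (i j : ι)
    (u : MvPolynomial (Gen n R ι) ℂ) : jA D i (jB Db j u) = jB Db j (jA D i u) := by
  have h : ⁅jA D i, jB Db j⁆ = (0 : Derivation ℂ _ (MvPolynomial (Gen n R ι) ℂ)) := by
    apply derivation_ext
    intro g
    rw [Derivation.commutator_apply, Derivation.zero_apply, sub_eq_zero]
    cases g with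
    | fn f =>
      rw [jB_fn, jA_fn, map_sum, map_sum]
      simp only [Derivation.leibniz, jA_fn, jB_fn, jA_w, jB_z, smul_eq_mul, mul_sum, mul_zero,
        zero_add]
      rw [sum_comm]
      refine sum_congr rfl fun a _ => sum_congr rfl fun b _ => ?_
      rw [hDD a b]
      ring
    | w l α => simp
    | z l α => simp
  have := congrArg (fun δ : Derivation ℂ _ _ => δ u) h
  rw [Derivation.commutator_apply, Derivation.zero_apply, sub_eq_zero] at this
  exact this

/-- The derivation along a direction. -/
noncomputable def jD (d : ι ⊕ ι) :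
    Derivation ℂ (MvPolynomial (Gen n R ι) ℂ) (MvPolynomial (Gen n R ι) ℂ) :=
  Sum.elim (jA D) (jB Db) d

@[simp] lemma jD_inl (i : ι) : jD D Db (Sum.inl i) = jA D i := rfl
@[simp] lemma jD_inr (i : ι) : jD D Db (Sum.inr i) = jB Db i := rfl

lemma jD_comm (h1 : ∀ a b f, D a (D b f) = D b (D a f))
    (h2 : ∀ a b f, Db a (Db b f) = Db b (Db a f))
    (h3 : ∀ a b f, D a (Db b f) = Db b (D a f)) (d e : ι ⊕ ι)
    (u : MvPolynomial (Gen n R ι) ℂ) : jD D Db d (jD D Db e u) = jD D Db e (jD D Db d u) := by
  rcases d with i | i <;> rcases e with j | j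
  · exact jA_comm D h1 i j u
  · exact jAB_comm D Db h3 i j u
  · exact (jAB_comm D Db h3 j i u).symm
  · exact jB_comm Db h2 i j u

/-- The real direction `∑ ξ_i A_i + ∑ conj(ξ_i) B_i`. -/
noncomputable def jXi [Fintype ι] (ξ : ι → ℂ) :
    Derivation ℂ (MvPolynomial (Gen n R ι) ℂ) (MvPolynomial (Gen n R ι) ℂ) :=
  ∑ i, (ξ i • jA D i + (starRingEnd ℂ) (ξ i) • jB Db i)

lemma jXi_apply [Fintype ι] (ξ : ι → ℂ) (u : MvPolynomial (Gen n R ι) ℂ) :
    jXi D Db ξ u = ∑ i, (ξ i • jA D i u + (starRingEnd ℂ) (ξ i) • jB Db i u) := by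
  rw [jXi, ← Derivation.coeFnAddMonoidHom_apply, map_sum, Finset.sum_apply]
  rfl

/-- Evaluation of the jet algebra. -/
noncomputable def jev {T : Type*} [CommRing T] [Algebra ℂ T] (p : R → T)
    (Z Zb : Fin n → Multiset ι → T) : MvPolynomial (Gen n R ι) ℂ →ₐ[ℂ] T :=
  aeval (fun g => match g with
    | Gen.fn f => p f
    | Gen.z l α => Z l α
    | Gen.w l α => Zb l α)

section jev
variable {T : Type*} [CommRing T] [Algebra ℂ T] (p : R → T) (Z Zb : Fin n → Multiset ι → T)

@[simp] lemma jev_fn (f : R) : jev p Z Zb (X (Gen.fn f)) = p f := by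
  rw [jev, aeval_X]

@[simp] lemma jev_z (l : Fin n) (α : Multiset ι) : jev p Z Zb (X (Gen.z l α)) = Z l α := by
  rw [jev, aeval_X]

@[simp] lemma jev_w (l : Fin n) (α : Multiset ι) : jev p Z Zb (X (Gen.w l α)) = Zb l α := by
  rw [jev, aeval_X]

end jev

/-- Iterated derivative along a word of directions. -/
noncomputable def jw (w : List (ι ⊕ ι)) (u : MvPolynomial (Gen n R ι) ℂ) :
    MvPolynomial (Gen n R ι) ℂ :=
  w.foldl (fun u d => jD D Db d u) u

@[simp] lemma jw_nil (u : MvPolynomial (Gen n R ι) ℂ) : jw D Db [] u = u := rfl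

@[simp] lemma jw_cons (d : ι ⊕ ι) (w : List (ι ⊕ ι)) (u : MvPolynomial (Gen n R ι) ℂ) :
    jw D Db (d :: w) u = jw D Db w (jD D Db d u) := rfl

lemma jw_append (w w' : List (ι ⊕ ι)) (u : MvPolynomial (Gen n R ι) ℂ) :
    jw D Db (w ++ w') u = jw D Db w' (jw D Db w u) := by
  simp [jw, List.foldl_append]

lemma jw_perm (h1 : ∀ a b f, D a (D b f) = D b (D a f))
    (h2 : ∀ a b f, Db a (Db b f) = Db b (Db a f))
    (h3 : ∀ a b f, D a (Db b f) = Db b (D a f)) {w w' : List (ι ⊕ ι)} (h : w.Perm w')
    (u : MvPolynomial (Gen n R ι) ℂ) : jw D Db w u = jw D Db w' u := by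
  haveI : RightCommutative (fun (u : MvPolynomial (Gen n R ι) ℂ) (d : ι ⊕ ι) => jD D Db d u) :=
    ⟨fun u d e => jD_comm D Db h1 h2 h3 e d u⟩
  exact h.foldl_eq u

end jets

/-! ### Polarisation -/

section polar

variable {ι : Type*} [Fintype ι] {V K : Type*} [AddCommGroup V] [Module ℂ V] [Field K]
  [Algebra ℂ K]

/-- A polynomial identity in a natural number parameter. -/
lemma coeff_zero_of_nat (N : ℕ) (k : ℕ → K)
    (h : ∀ c : ℕ, ∑ m ∈ range (N + 1), (c : K) ^ m * k m = 0) : ∀ m ≤ N, k m = 0 := by
  haveI : CharZero K := charZero_of_injective_algebraMap (algebraMap ℂ K).injective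
  set p : Polynomial K := ∑ m ∈ range (N + 1), Polynomial.C (k m) * Polynomial.X ^ m with hp
  have hp0 : p = 0 := by
    apply Polynomial.eq_zero_of_infinite_isRoot
    refine Set.infinite_of_injective_forall_mem (f := fun c : ℕ => (c : K)) Nat.cast_injective ?_
    intro c
    simp only [Set.mem_ofPred_eq, Polynomial.IsRoot.def, hp, Polynomial.eval_finsetSum,
      Polynomial.eval_mul, Polynomial.eval_C, Polynomial.eval_pow, Polynomial.eval_X]
    rw [← h c]
    exact sum_congr rfl fun m _ => mul_comm _ _
  intro m hm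
  have h1 : p.coeff m = k m := by
    rw [hp, Polynomial.finsetSum_coeff]
    simp only [Polynomial.coeff_C_mul, Polynomial.coeff_X_pow]
    rw [sum_eq_single m]
    · simp
    · intro b _ hb
      simp [Ne.symm hb]
    · intro h
      exact absurd (mem_range.2 (by omega)) h
  rw [← h1, hp0, Polynomial.coeff_zero]

/-- The real direction operator. -/
noncomputable def realDir (A : ι ⊕ ι → V →ₗ[ℂ] V) (ξ : ι → ℂ) : Module.End ℂ V :=
  ∑ i, (ξ i • A (Sum.inl i) + (starRingEnd ℂ) (ξ i) • A (Sum.inr i))

omit [Fintype ι] in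
lemma foldl_apply_zero (A : ι ⊕ ι → V →ₗ[ℂ] V) (w : List (ι ⊕ ι)) :
    w.foldl (fun u d => A d u) 0 = 0 := by
  induction w with
  | nil => rfl
  | cons d w ih => simpa using ih

lemma commute_realDir {A : ι ⊕ ι → V →ₗ[ℂ] V} (hA : ∀ d e x, A d (A e x) = A e (A d x))
    (ξ η : ι → ℂ) : Commute (realDir A ξ) (realDir A η) := by
  have h1 : ∀ d e, Commute (A d : Module.End ℂ V) (A e) := fun d e => by
    ext x
    exact hA d e x
  unfold realDir
  refine Commute.sum_left _ _ _ fun i _ => Commute.sum_right _ _ _ fun j _ => ?_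
  exact ((((h1 _ _).smul_right _).add_right ((h1 _ _).smul_right _)).smul_left _).add_left
    ((((h1 _ _).smul_right _).add_right ((h1 _ _).smul_right _)).smul_left _)

/-- If all powers along real directions vanish under `φ`, then all words do. -/
theorem polarization {A : ι ⊕ ι → V →ₗ[ℂ] V} (hA : ∀ d e x, A d (A e x) = A e (A d x))
    (φ : V →ₗ[ℂ] K) (j : ℕ) : ∀ x : V, (∀ ξ : ι → ℂ, φ ((realDir A ξ ^ j) x) = 0) →
      ∀ w : List (ι ⊕ ι), w.length = j → φ (w.foldl (fun u d => A d u) x) = 0 := by
  classical
  induction j with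
  | zero =>
    intro x hx w hw
    rw [List.length_eq_zero_iff] at hw
    subst hw
    simpa using hx 0
  | succ j ih =>
    intro x hx w hw
    obtain ⟨d, w, rfl⟩ : ∃ d w', w = d :: w' := by
      cases w with
      | nil => simp at hw
      | cons d w => exact ⟨d, w, rfl⟩
    rw [List.foldl_cons]
    apply ih
    · intro ξ
      have key : ∀ η : ι → ℂ, φ ((realDir A ξ ^ j) (realDir A η x)) = 0 := by
        intro η
        have h1 : ∀ c : ℕ, ∑ m ∈ range (j + 1 + 1), (c : K) ^ m *
            (((j + 1).choose m : K) * φ ((realDir A η ^ m * realDir A ξ ^ (j + 1 - m)) x)) = 0 := by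
          intro c
          have h2 : realDir A (fun i => (c : ℂ) * η i + ξ i)
              = (c : ℂ) • realDir A η + realDir A ξ := by
            unfold realDir
            rw [smul_sum, ← sum_add_distrib]
            refine sum_congr rfl fun i _ => ?_
            rw [map_add, map_mul, Complex.conj_natCast]
            module
          have h3 := hx (fun i => (c : ℂ) * η i + ξ i)
          have h4 : Commute ((c : ℂ) • realDir A η) (realDir A ξ) :=
            (commute_realDir hA η ξ).smul_left _
          rw [h2, h4.add_pow, LinearMap.sum_apply, map_sum] at h3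
          rw [← h3]
          refine sum_congr rfl fun m _ => ?_
          have h5 : ((((c : ℂ) • realDir A η) ^ m * realDir A ξ ^ (j + 1 - m) *
              ((j + 1).choose m : Module.End ℂ V)) x)
              = ((c : ℂ) ^ m * ((j + 1).choose m : ℂ)) •
                ((realDir A η ^ m * realDir A ξ ^ (j + 1 - m)) x) := by
            rw [smul_pow, smul_mul_assoc, smul_mul_assoc]
            have h6 : (realDir A η ^ m * realDir A ξ ^ (j + 1 - m) *
              ((j + 1).choose m : Module.End ℂ V))
                = ((j + 1).choose m : ℂ) • (realDir A η ^ m * realDir A ξ ^ (j + 1 - m)) := by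
              rw [← Nat.cast_comm, ← nsmul_eq_mul, Nat.cast_smul_eq_nsmul]
            rw [h6, smul_smul]
            rfl
          rw [h5, map_smul, Algebra.smul_def, map_mul, map_pow, map_natCast, map_natCast]
          ring
        have h7 := coeff_zero_of_nat (j + 1) _ h1 1 (by omega)
        haveI : CharZero K := charZero_of_injective_algebraMap (algebraMap ℂ K).injective
        have h8 : (((j + 1).choose 1 : ℕ) : K) ≠ 0 := by
          rw [Nat.choose_one_right]
          exact_mod_cast Nat.succ_ne_zero j
        have h9 := (mul_eq_zero.1 h7).resolve_left h8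
        rw [pow_one, Nat.add_sub_cancel] at h9
        have h10 : (realDir A η * realDir A ξ ^ j) = realDir A ξ ^ j * realDir A η :=
          ((commute_realDir hA η ξ).pow_right j)
        rw [h10] at h9
        exact h9
      -- recover the complex directions
      rcases d with i | i
      · have h1 := key (Pi.single i 1)
        have h2 := key (Pi.single i Complex.I)
        have e : A (Sum.inl i) x = (1 / 2 : ℂ) • (realDir A (Pi.single i 1) x
            - Complex.I • realDir A (Pi.single i Complex.I) x) := by
          unfold realDir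
          rw [LinearMap.sum_apply, LinearMap.sum_apply, sum_eq_single i, sum_eq_single i]
          · simp only [Pi.single_eq_same, map_one, one_smul, LinearMap.add_apply,
              LinearMap.smul_apply, Complex.conj_I]
            rw [smul_add Complex.I, smul_smul Complex.I, smul_smul Complex.I, mul_neg,
              Complex.I_mul_I]
            module
          · intro b _ hb
            simp [Pi.single_eq_of_ne hb]
          · simp
          · intro b _ hb
            simp [Pi.single_eq_of_ne hb]
          · simp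
        rw [e]
        simp only [map_smul, map_sub, h1, h2, smul_zero, sub_zero]
      · have h1 := key (Pi.single i 1)
        have h2 := key (Pi.single i Complex.I)
        have e : A (Sum.inr i) x = (1 / 2 : ℂ) • (realDir A (Pi.single i 1) x
            + Complex.I • realDir A (Pi.single i Complex.I) x) := by
          unfold realDir
          rw [LinearMap.sum_apply, LinearMap.sum_apply, sum_eq_single i, sum_eq_single i]
          · simp only [Pi.single_eq_same, map_one, one_smul, LinearMap.add_apply,
              LinearMap.smul_apply, Complex.conj_I]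
            rw [smul_add Complex.I, smul_smul Complex.I, smul_smul Complex.I, mul_neg,
              Complex.I_mul_I]
            module
          · intro b _ hb
            simp [Pi.single_eq_of_ne hb]
          · simp
          · intro b _ hb
            simp [Pi.single_eq_of_ne hb]
          · simp
        rw [e]
        simp only [map_smul, map_add, h1, h2, smul_zero, add_zero]
    · simpa using hw

/-- Conversely, if all words vanish then so do all powers along real directions. -/
theorem realDir_pow_zero {A : ι ⊕ ι → V →ₗ[ℂ] V} (φ : V →ₗ[ℂ] K) (j : ℕ) :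
    ∀ x : V, (∀ w : List (ι ⊕ ι), w.length = j → φ (w.foldl (fun u d => A d u) x) = 0) →
      ∀ ξ : ι → ℂ, φ ((realDir A ξ ^ j) x) = 0 := by
  induction j with
  | zero =>
    intro x hx ξ
    simpa using hx [] rfl
  | succ j ih =>
    intro x hx ξ
    have h : ∀ d, φ ((realDir A ξ ^ j) (A d x)) = 0 := by
      intro d
      apply ih
      intro w hw
      exact hx (d :: w) (by simp [hw])
    rw [pow_succ]
    change φ ((realDir A ξ ^ j) (realDir A ξ x)) = 0
    have e : realDir A ξ x = ∑ i, (ξ i • A (Sum.inl i) x
        + (starRingEnd ℂ) (ξ i) • A (Sum.inr i) x) := by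
      unfold realDir
      rw [LinearMap.sum_apply]
      rfl
    rw [e, map_sum, map_sum]
    refine sum_eq_zero fun i _ => ?_
    simp only [map_add, map_smul, h, smul_zero, add_zero]

end polar

end Pool.Agent.Work.MP_80f671_an
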