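import Mathlib

/-!
# Kohn's ideals and D'Angelo's type

The definitions used in the statement of the theorem of MP_80f671_an. A germ at `x₀` is represented
by a function on `ℂ^n`; only its values near `x₀` matter.
-/

namespace Pool.Agent.Work.MP_80f671_an

open Filter Topology ContDiff

/-- The Wirtinger derivative `∂f/∂z_a` of a function on `ℂ^n`. -/
noncomputable def dz {n : ℕ} (a : Fin n) (f : (Fin n → ℂ) → ℂ) : (Fin n → ℂ) → ℂ := fun x =>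
  (fderiv ℝ f x (Pi.single a 1) - Complex.I * fderiv ℝ f x (Pi.single a Complex.I)) / 2

/-- The Wirtinger derivative `∂f/∂z̄_a` of a function on `ℂ^n`. -/
noncomputable def dzbar {n : ℕ} (a : Fin n) (f : (Fin n → ℂ) → ℂ) : (Fin n → ℂ) → ℂ := fun x =>
  (fderiv ℝ f x (Pi.single a 1) + Complex.I * fderiv ℝ f x (Pi.single a Complex.I)) / 2

/-- `f` represents a germ at `x₀` of a smooth complex valued function. -/
def SmoothNear {n : ℕ} (x₀ : Fin n → ℂ) (f : (Fin n → ℂ) → ℂ) : Prop :=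
  ∀ᶠ y in 𝓝 x₀, ContDiffAt ℝ ∞ f y

/-- The exterior algebra over `ℂ` on the symbols `dz_1, ..., dz_n, dz̄_1, ..., dz̄_n`. -/
def Frm (n : ℕ) : Type := ExteriorAlgebra ℂ (Fin n ⊕ Fin n → ℂ)

noncomputable instance instRingFrm (n : ℕ) : Ring (Frm n) :=
  (inferInstance : Ring (ExteriorAlgebra ℂ (Fin n ⊕ Fin n → ℂ)))

noncomputable instance instAlgebraFrm (n : ℕ) : Algebra ℂ (Frm n) :=
  (inferInstance : Algebra ℂ (ExteriorAlgebra ℂ (Fin n ⊕ Fin n → ℂ)))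

/-- The covector `dz_a`. -/
noncomputable def dZ {n : ℕ} (a : Fin n) : Frm n :=
  ExteriorAlgebra.ι ℂ (Pi.single (Sum.inl a) (1 : ℂ))

/-- The covector `dz̄_b`. -/
noncomputable def dZbar {n : ℕ} (b : Fin n) : Frm n :=
  ExteriorAlgebra.ι ℂ (Pi.single (Sum.inr b) (1 : ℂ))

/-- The value at `x` of `∂f`. -/
noncomputable def del {n : ℕ} (f : (Fin n → ℂ) → ℂ) (x : Fin n → ℂ) : Frm n :=
  ∑ a, dz a f x • dZ a

/-- The value at `x` of `∂̄f`. -/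
noncomputable def delbar {n : ℕ} (f : (Fin n → ℂ) → ℂ) (x : Fin n → ℂ) : Frm n :=
  ∑ b, dzbar b f x • dZbar b

/-- The value at `x` of `∂∂̄f`. -/
noncomputable def deldelbar {n : ℕ} (f : (Fin n → ℂ) → ℂ) (x : Fin n → ℂ) : Frm n :=
  ∑ a, ∑ b, dz a (dzbar b f) x • (dZ a * dZbar b)

/-- The value at `x` of the form
`∂f_1 ∧ ... ∧ ∂f_j ∧ ∂r ∧ ∂̄r ∧ (∂∂̄r)^(n-1-j)`. -/
noncomputable def kohnFormAt {n : ℕ} (r : (Fin n → ℂ) → ℝ) {j : ℕ}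
    (f : Fin j → (Fin n → ℂ) → ℂ) (x : Fin n → ℂ) : Frm n :=
  (List.ofFn fun i => del (f i) x).prod * del (fun y => (r y : ℂ)) x *
    delbar (fun y => (r y : ℂ)) x * deldelbar (fun y => (r y : ℂ)) x ^ (n - 1 - j)

/-- The coefficients of the form `∂f_1 ∧ ... ∧ ∂f_j ∧ ∂r ∧ ∂̄r ∧ (∂∂̄r)^(n-1-j)`: all functions
obtained by applying a fixed linear functional on the exterior algebra to its values. -/
def formCoeffs {n : ℕ} (r : (Fin n → ℂ) → ℝ) {j : ℕ} (f : Fin j → (Fin n → ℂ) → ℂ) :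
    Set ((Fin n → ℂ) → ℂ) :=
  {h | ∃ l : Frm n →ₗ[ℂ] ℂ, h = fun x => l (kohnFormAt r f x)}

/-- The ideal of smooth germs at `x₀` generated by the germs of the functions in `G`. -/
def idealGen {n : ℕ} (x₀ : Fin n → ℂ) (G : Set ((Fin n → ℂ) → ℂ)) :
    Set ((Fin n → ℂ) → ℂ) :=
  {f | SmoothNear x₀ f ∧ ∃ (k : ℕ) (a g : Fin k → (Fin n → ℂ) → ℂ),
    (∀ i, SmoothNear x₀ (a i)) ∧ (∀ i, g i ∈ G) ∧
      ∀ᶠ y in 𝓝 x₀, f y = ∑ i, a i y * g i y}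

/-- The real radical: smooth germs `g` with `|g|^m ≤ |f|` near `x₀` for some `f` in `I` and some
integer `m ≥ 1`. -/
def realRadical {n : ℕ} (x₀ : Fin n → ℂ) (I : Set ((Fin n → ℂ) → ℂ)) :
    Set ((Fin n → ℂ) → ℂ) :=
  {g | SmoothNear x₀ g ∧ ∃ f ∈ I, ∃ m : ℕ, 1 ≤ m ∧ ∀ᶠ y in 𝓝 x₀, ‖g y‖ ^ m ≤ ‖f y‖}

/-- Kohn's first ideal `I_1` at `x₀`: the real radical of the ideal generated by `r` and the
coefficients of `∂r ∧ ∂̄r ∧ (∂∂̄r)^(n-1)`. -/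
def kohnFirst {n : ℕ} (r : (Fin n → ℂ) → ℝ) (x₀ : Fin n → ℂ) : Set ((Fin n → ℂ) → ℂ) :=
  realRadical x₀ (idealGen x₀ ({fun y => (r y : ℂ)} ∪ formCoeffs r (fun i : Fin 0 => i.elim0)))

/-- The passage from `I_k` to `I_(k+1)`: the real radical of the ideal generated by `I` and the
coefficients of `∂f_1 ∧ ... ∧ ∂f_j ∧ ∂r ∧ ∂̄r ∧ (∂∂̄r)^(n-1-j)` for `1 ≤ j ≤ n - 1` and
`f_1, ..., f_j ∈ I`. -/
def kohnNext {n : ℕ} (r : (Fin n → ℂ) → ℝ) (x₀ : Fin n → ℂ) (I : Set ((Fin n → ℂ) → ℂ)) :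
    Set ((Fin n → ℂ) → ℂ) :=
  realRadical x₀ (idealGen x₀ (I ∪ {h | ∃ j : ℕ, 1 ≤ j ∧ j ≤ n - 1 ∧
    ∃ f : Fin j → (Fin n → ℂ) → ℂ, (∀ i, f i ∈ I) ∧ h ∈ formCoeffs r f}))

/-- Kohn's ideals at `x₀`; `kohnIdeal r x₀ k` is `I_(k+1)`. -/
noncomputable def kohnIdeal {n : ℕ} (r : (Fin n → ℂ) → ℝ) (x₀ : Fin n → ℂ) (k : ℕ) :
    Set ((Fin n → ℂ) → ℂ) :=
  Nat.rec (motive := fun _ => Set ((Fin n → ℂ) → ℂ)) (kohnFirst r x₀)
    (fun _ I => kohnNext r x₀ I) k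

/-- The order of vanishing at `0` of a function of one complex variable: the supremum of the
integers `k` with `g(t) = O(|t|^k)` as `t → 0`. -/
noncomputable def vanishingOrder {F : Type*} [NormedAddCommGroup F] (g : ℂ → F) : ENNReal :=
  ⨆ (k : ℕ) (_ : g =O[𝓝 0] (fun t : ℂ => ‖t‖ ^ k)), (k : ENNReal)

/-- D'Angelo's 1-type at `x₀` of the hypersurface with defining function `r`: the supremum of
`ν(r ∘ γ) / ν(γ)` over nonconstant germs `γ` of holomorphic curves through `x₀`. -/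
noncomputable def dAngeloType {n : ℕ} (r : (Fin n → ℂ) → ℝ) (x₀ : Fin n → ℂ) : ENNReal :=
  ⨆ (γ : ℂ → Fin n → ℂ) (_ : AnalyticAt ℂ γ 0) (_ : γ 0 = x₀)
    (_ : ∃ᶠ t in 𝓝 (0 : ℂ), γ t ≠ x₀),
      vanishingOrder (fun t => r (γ t)) / vanishingOrder (fun t => γ t - x₀)

/-- `r` is a smooth defining function of `Ω`: near each boundary point `x` of `Ω` the function `r`
is smooth and `Ω` is the set where `r < 0`, and `dr ≠ 0` at `x`. -/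
structure IsDefiningFunction {n : ℕ} (Ω : Set (Fin n → ℂ)) (r : (Fin n → ℂ) → ℝ) : Prop where
  smooth : ∀ x ∈ frontier Ω, ∀ᶠ y in 𝓝 x, ContDiffAt ℝ ∞ r y
  mem_iff : ∀ x ∈ frontier Ω, ∀ᶠ y in 𝓝 x, y ∈ Ω ↔ r y < 0
  deriv_ne : ∀ x ∈ frontier Ω, fderiv ℝ r x ≠ 0

/-- Pseudoconvexity of a smooth boundary (Levi's condition): at each boundary point `x` the Levi
form `∑ ∂²r/∂z_a∂z̄_b v_a conj(v_b)` is nonnegative for every `v` with `∑ ∂r/∂z_a v_a = 0`. -/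
def IsPseudoconvex {n : ℕ} (Ω : Set (Fin n → ℂ)) (r : (Fin n → ℂ) → ℝ) : Prop :=
  ∀ x ∈ frontier Ω, ∀ v : Fin n → ℂ, ∑ a, dz a (fun z => (r z : ℂ)) x * v a = 0 →
    0 ≤ (∑ a, ∑ b, dz a (dzbar b (fun z => (r z : ℂ))) x * v a * (starRingEnd ℂ) (v b)).re

end Pool.Agent.Work.MP_80f671_an
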