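import Pool.Agent.Work.MP_80f671_an.Smooth

/-!
Ideals of smooth functions closed under domination near a point, and minimal primes among them.
-/

namespace Pool.Agent.Work.MP_80f671_an

open Filter Topology ContDiff Osm

variable {n : ℕ} {x₀ : Fin n → ℂ}

/-- `g` is dominated by `f` near `x₀`: `|g|^m ≤ C |f|`. -/
def Dom (x₀ : Fin n → ℂ) (g f : Osm n) : Prop :=
  ∃ m : ℕ, 1 ≤ m ∧ ∃ C : ℝ, 0 ≤ C ∧ ∀ᶠ y in 𝓝 x₀, ‖g y‖ ^ m ≤ C * ‖f y‖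

/-- Ideals closed under domination. -/
def LClosed (x₀ : Fin n → ℂ) (I : Ideal (Osm n)) : Prop :=
  ∀ f ∈ I, ∀ g, Dom x₀ g f → g ∈ I

lemma eventually_bound (f : Osm n) (x₀ : Fin n → ℂ) :
    ∃ C : ℝ, 0 ≤ C ∧ ∀ᶠ y in 𝓝 x₀, ‖f y‖ ≤ C := by
  refine ⟨‖f x₀‖ + 1, by positivity, ?_⟩
  have h : Tendsto (fun y => ‖f y‖) (𝓝 x₀) (𝓝 ‖f x₀‖) := (Osm.continuous f).norm.continuousAt
  filter_upwards [h.eventually (gt_mem_nhds (show ‖f x₀‖ < ‖f x₀‖ + 1 by linarith))] with y hy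
  exact hy.le

lemma Dom.self (f : Osm n) : Dom x₀ f f :=
  ⟨1, le_rfl, 1, zero_le_one, Eventually.of_forall fun y => by simp⟩

lemma Dom.trans {g f h : Osm n} (h1 : Dom x₀ g f) (h2 : Dom x₀ f h) : Dom x₀ g h := by
  obtain ⟨m, hm, C, hC, h1⟩ := h1
  obtain ⟨m', hm', C', hC', h2⟩ := h2
  refine ⟨m * m', Nat.one_le_iff_ne_zero.2 (Nat.mul_ne_zero (by omega) (by omega)),
    C ^ m' * C', by positivity, ?_⟩
  filter_upwards [h1, h2] with y hy1 hy2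
  calc ‖g y‖ ^ (m * m') = (‖g y‖ ^ m) ^ m' := by rw [pow_mul]
    _ ≤ (C * ‖f y‖) ^ m' := pow_le_pow_left₀ (by positivity) hy1 _
    _ = C ^ m' * ‖f y‖ ^ m' := by rw [mul_pow]
    _ ≤ C ^ m' * (C' * ‖h y‖) := by gcongr
    _ = C ^ m' * C' * ‖h y‖ := by ring

lemma Dom.mul_left {g f : Osm n} (h1 : Dom x₀ g f) (k : Osm n) : Dom x₀ (k * g) f := by
  obtain ⟨m, hm, C, hC, h1⟩ := h1
  obtain ⟨B, hB, hb⟩ := eventually_bound k x₀
  refine ⟨m, hm, B ^ m * C, by positivity, ?_⟩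
  filter_upwards [h1, hb] with y hy1 hy2
  rw [coe_mul, norm_mul, mul_pow, mul_assoc]
  gcongr

lemma add_pow_le_aux {a b : ℝ} (ha : 0 ≤ a) (hb : 0 ≤ b) (N : ℕ) :
    (a + b) ^ N ≤ 2 ^ N * (a ^ N + b ^ N) := by
  rcases le_total a b with h | h
  · calc (a + b) ^ N ≤ (2 * b) ^ N := by gcongr; linarith
      _ = 2 ^ N * b ^ N := by rw [mul_pow]
      _ ≤ 2 ^ N * (a ^ N + b ^ N) := by
        have : 0 ≤ a ^ N := by positivity
        gcongr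
        linarith
  · calc (a + b) ^ N ≤ (2 * a) ^ N := by gcongr; linarith
      _ = 2 ^ N * a ^ N := by rw [mul_pow]
      _ ≤ 2 ^ N * (a ^ N + b ^ N) := by
        have : 0 ≤ b ^ N := by positivity
        gcongr
        linarith

lemma norm_mul_conj (f : Osm n) (y : Fin n → ℂ) : (f * conj f) y = ((‖f y‖ ^ 2 : ℝ) : ℂ) := by
  rw [coe_mul, conj_apply, Complex.mul_conj, Complex.normSq_eq_norm_sq]

lemma Dom.add {g₁ g₂ f₁ f₂ : Osm n} (h1 : Dom x₀ g₁ f₁) (h2 : Dom x₀ g₂ f₂) :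
    Dom x₀ (g₁ + g₂) (f₁ * conj f₁ + f₂ * conj f₂) := by
  obtain ⟨m₁, hm₁, C₁, hC₁, h1⟩ := h1
  obtain ⟨m₂, hm₂, C₂, hC₂, h2⟩ := h2
  obtain ⟨B₁, hB₁, hb₁⟩ := eventually_bound g₁ x₀
  obtain ⟨B₂, hB₂, hb₂⟩ := eventually_bound g₂ x₀
  refine ⟨2 * (m₁ + m₂), by omega,
    2 ^ (2 * (m₁ + m₂)) * (C₁ ^ 2 * B₁ ^ (2 * m₂) + C₂ ^ 2 * B₂ ^ (2 * m₁)), by positivity, ?_⟩
  filter_upwards [h1, h2, hb₁, hb₂] with y hy1 hy2 hy3 hy4
  have e1 : (f₁ * conj f₁ + f₂ * conj f₂) y = ((‖f₁ y‖ ^ 2 + ‖f₂ y‖ ^ 2 : ℝ) : ℂ) := by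
    rw [coe_add, norm_mul_conj, norm_mul_conj]
    push_cast
    ring
  rw [e1, Complex.norm_real, Real.norm_of_nonneg (by positivity), coe_add]
  have p1 : ‖g₁ y‖ ^ (2 * (m₁ + m₂)) ≤ C₁ ^ 2 * B₁ ^ (2 * m₂) * ‖f₁ y‖ ^ 2 := by
    calc ‖g₁ y‖ ^ (2 * (m₁ + m₂)) = (‖g₁ y‖ ^ m₁) ^ 2 * ‖g₁ y‖ ^ (2 * m₂) := by ring
      _ ≤ (C₁ * ‖f₁ y‖) ^ 2 * B₁ ^ (2 * m₂) := by gcongr
      _ = _ := by ring
  have p2 : ‖g₂ y‖ ^ (2 * (m₁ + m₂)) ≤ C₂ ^ 2 * B₂ ^ (2 * m₁) * ‖f₂ y‖ ^ 2 := by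
    calc ‖g₂ y‖ ^ (2 * (m₁ + m₂)) = (‖g₂ y‖ ^ m₂) ^ 2 * ‖g₂ y‖ ^ (2 * m₁) := by ring
      _ ≤ (C₂ * ‖f₂ y‖) ^ 2 * B₂ ^ (2 * m₁) := by gcongr
      _ = _ := by ring
  calc ‖g₁ y + g₂ y‖ ^ (2 * (m₁ + m₂)) ≤ (‖g₁ y‖ + ‖g₂ y‖) ^ (2 * (m₁ + m₂)) := by
        gcongr
        exact norm_add_le _ _
    _ ≤ 2 ^ (2 * (m₁ + m₂)) * (‖g₁ y‖ ^ (2 * (m₁ + m₂)) + ‖g₂ y‖ ^ (2 * (m₁ + m₂))) :=
        add_pow_le_aux (norm_nonneg _) (norm_nonneg _) _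
    _ ≤ 2 ^ (2 * (m₁ + m₂)) * (C₁ ^ 2 * B₁ ^ (2 * m₂) * ‖f₁ y‖ ^ 2
          + C₂ ^ 2 * B₂ ^ (2 * m₁) * ‖f₂ y‖ ^ 2) := by gcongr
    _ ≤ _ := by
        have q1 : 0 ≤ C₁ ^ 2 * B₁ ^ (2 * m₂) := by positivity
        have q2 : 0 ≤ C₂ ^ 2 * B₂ ^ (2 * m₁) := by positivity
        rw [mul_assoc (2 ^ (2 * (m₁ + m₂)) : ℝ)]
        refine mul_le_mul_of_nonneg_left ?_ (by positivity)
        nlinarith [mul_nonneg q1 (sq_nonneg ‖f₂ y‖), mul_nonneg q2 (sq_nonneg ‖f₁ y‖)]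

/-- The closure of an ideal under domination. -/
def lcl (x₀ : Fin n → ℂ) (I : Ideal (Osm n)) : Ideal (Osm n) where
  carrier := {g | ∃ f ∈ I, Dom x₀ g f}
  add_mem' := by
    rintro a b ⟨f, hf, h1⟩ ⟨g, hg, h2⟩
    exact ⟨f * conj f + g * conj g, I.add_mem (I.mul_mem_right _ hf) (I.mul_mem_right _ hg),
      h1.add h2⟩
  zero_mem' := ⟨0, I.zero_mem, Dom.self 0⟩
  smul_mem' := by
    rintro c g ⟨f, hf, h1⟩
    exact ⟨f, hf, h1.mul_left c⟩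

lemma mem_lcl {I : Ideal (Osm n)} {g : Osm n} : g ∈ lcl x₀ I ↔ ∃ f ∈ I, Dom x₀ g f := Iff.rfl

lemma le_lcl (I : Ideal (Osm n)) : I ≤ lcl x₀ I := fun f hf => ⟨f, hf, Dom.self f⟩

lemma lcl_closed (I : Ideal (Osm n)) : LClosed x₀ (lcl x₀ I) := by
  rintro f ⟨h, hh, hf⟩ g hg
  exact ⟨h, hh, hg.trans hf⟩

lemma LClosed.conj_mem {I : Ideal (Osm n)} (hI : LClosed x₀ I) {f : Osm n} (hf : f ∈ I) :
    conj f ∈ I :=
  hI f hf _ ⟨1, le_rfl, 1, zero_le_one, Eventually.of_forall fun y => by simp⟩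

/-- A maximal dominated-closed ideal disjoint from a multiplicative set is prime. -/
theorem exists_prime_avoiding (J : Ideal (Osm n)) (hJ : LClosed x₀ J) (T : Submonoid (Osm n))
    (hT : Disjoint (T : Set (Osm n)) (J : Set (Osm n))) :
    ∃ Q : Ideal (Osm n), Q.IsPrime ∧ LClosed x₀ Q ∧ J ≤ Q ∧
      Disjoint (T : Set (Osm n)) (Q : Set (Osm n)) := by
  have hz := zorn_le_nonempty₀ {I : Ideal (Osm n) | LClosed x₀ I ∧ J ≤ I ∧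
    Disjoint (T : Set (Osm n)) (I : Set (Osm n))} (by
      intro c hc hchain I hI
      have hne : c.Nonempty := ⟨I, hI⟩
      have hdir : DirectedOn (· ≤ ·) c := hchain.directedOn
      refine ⟨sSup c, ⟨?_, ?_, ?_⟩, fun z hz => le_sSup hz⟩
      · intro f hf g hg
        rw [Submodule.mem_sSup_of_directed hne hdir] at hf ⊢
        obtain ⟨I', hI', hf⟩ := hf
        exact ⟨I', hI', (hc hI').1 f hf g hg⟩
      · exact (hc hI).2.1.trans (le_sSup hI)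
      · rw [Set.disjoint_left]
        intro t ht hts
        rw [SetLike.mem_coe, Submodule.mem_sSup_of_directed hne hdir] at hts
        obtain ⟨I', hI', hf⟩ := hts
        exact Set.disjoint_left.1 (hc hI').2.2 ht hf) J ⟨hJ, le_rfl, hT⟩
  obtain ⟨Q, hJQ, hmax⟩ := hz
  obtain ⟨⟨hQ1, hQ2, hQ3⟩, hQ4⟩ := hmax
  refine ⟨Q, ?_, hQ1, hJQ, hQ3⟩
  have key : ∀ a, a ∉ Q → ∃ t ∈ T, ∃ q ∈ Q, ∃ c, Dom x₀ t (q + c * a) := by
    intro a ha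
    by_contra hcon
    push Not at hcon
    have hmem : lcl x₀ (Q ⊔ Ideal.span {a}) ∈ {I : Ideal (Osm n) | LClosed x₀ I ∧ J ≤ I ∧
        Disjoint (T : Set (Osm n)) (I : Set (Osm n))} := by
      refine ⟨lcl_closed _, hJQ.trans (le_sup_left.trans (le_lcl _)), ?_⟩
      rw [Set.disjoint_left]
      rintro t ht ⟨f, hf, hd⟩
      obtain ⟨q, hq, z, hz, rfl⟩ := Submodule.mem_sup.1 hf
      obtain ⟨c, rfl⟩ := Ideal.mem_span_singleton'.1 hz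
      exact hcon t ht q hq c hd
    have h1 := hQ4 hmem (le_sup_left.trans (le_lcl _))
    exact ha (h1 (le_lcl _ (Ideal.mem_sup_right (Ideal.mem_span_singleton_self a))))
  refine ⟨?_, ?_⟩
  · rintro rfl
    exact Set.disjoint_left.1 hQ3 T.one_mem (by simp)
  · intro a b hab
    by_contra hcon
    push Not at hcon
    obtain ⟨t₁, ht₁, q₁, hq₁, c₁, hd₁⟩ := key a hcon.1
    obtain ⟨t₂, ht₂, q₂, hq₂, c₂, hd₂⟩ := key b hcon.2
    have hprod : (q₁ + c₁ * a) * (q₂ + c₂ * b) ∈ Q := by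
      have : (q₁ + c₁ * a) * (q₂ + c₂ * b)
          = q₁ * (q₂ + c₂ * b) + (c₁ * a) * q₂ + c₁ * c₂ * (a * b) := by ring
      rw [this]
      exact Q.add_mem (Q.add_mem (Q.mul_mem_right _ hq₁) (Q.mul_mem_left _ hq₂))
        (Q.mul_mem_left _ hab)
    refine Set.disjoint_left.1 hQ3 (T.mul_mem ht₁ ht₂) (hQ1 _ hprod _ ?_)
    obtain ⟨m₁, hm₁, C₁, hC₁, h1⟩ := hd₁
    obtain ⟨m₂, hm₂, C₂, hC₂, h2⟩ := hd₂
    obtain ⟨B₁, hB₁, hb₁⟩ := eventually_bound t₁ x₀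
    obtain ⟨B₂, hB₂, hb₂⟩ := eventually_bound t₂ x₀
    refine ⟨m₁ + m₂, by omega, B₁ ^ m₂ * B₂ ^ m₁ * (C₁ * C₂), by positivity, ?_⟩
    filter_upwards [h1, h2, hb₁, hb₂] with y hy1 hy2 hy3 hy4
    rw [coe_mul, coe_mul, norm_mul, norm_mul]
    calc (‖t₁ y‖ * ‖t₂ y‖) ^ (m₁ + m₂)
        = (‖t₁ y‖ ^ m₂ * ‖t₂ y‖ ^ m₁) * (‖t₁ y‖ ^ m₁ * ‖t₂ y‖ ^ m₂) := by ring
      _ ≤ (B₁ ^ m₂ * B₂ ^ m₁) * ((C₁ * ‖(q₁ + c₁ * a) y‖) * (C₂ * ‖(q₂ + c₂ * b) y‖)) := by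
          gcongr
      _ = _ := by ring

lemma maxIdeal_closed : LClosed x₀ (RingHom.ker (evalAt x₀)) := by
  rintro f hf g ⟨m, hm, C, hC, h⟩
  rw [RingHom.mem_ker] at hf ⊢
  have h1 := h.self_of_nhds
  rw [evalAt_apply] at hf ⊢
  rw [hf, norm_zero, mul_zero] at h1
  have h2 : ‖g x₀‖ ^ m = 0 := le_antisymm h1 (by positivity)
  have h3 := pow_eq_zero_iff (by omega : m ≠ 0) |>.1 h2
  exact norm_eq_zero.1 h3

lemma le_maxIdeal {J : Ideal (Osm n)} (hJ : LClosed x₀ J) (h1 : (1 : Osm n) ∉ J) :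
    J ≤ RingHom.ker (evalAt x₀) := by
  intro f hf
  rw [RingHom.mem_ker, evalAt_apply]
  by_contra hne
  apply h1
  refine hJ f hf 1 ⟨1, le_rfl, 2 / ‖f x₀‖, by positivity, ?_⟩
  have hpos : 0 < ‖f x₀‖ := norm_pos_iff.2 hne
  have h : Tendsto (fun y => ‖f y‖) (𝓝 x₀) (𝓝 ‖f x₀‖) := (Osm.continuous f).norm.continuousAt
  filter_upwards [h.eventually (lt_mem_nhds (show ‖f x₀‖ / 2 < ‖f x₀‖ by linarith))] with y hy
  simp only [coe_one, norm_one, one_pow]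
  rw [div_mul_eq_mul_div, le_div_iff₀ hpos]
  linarith

/-- Minimal dominated-closed primes. -/
theorem exists_minimal_prime (J : Ideal (Osm n)) (hJ : LClosed x₀ J) (h1 : (1 : Osm n) ∉ J) :
    ∃ P : Ideal (Osm n), P.IsPrime ∧ LClosed x₀ P ∧ J ≤ P ∧ ∀ f ∈ P, ∃ s, s ∉ P ∧ s * f ∈ J := by
  have hz := zorn_le_nonempty₀ (α := (Ideal (Osm n))ᵒᵈ)
    {I : (Ideal (Osm n))ᵒᵈ | (OrderDual.ofDual I).IsPrime ∧ LClosed x₀ (OrderDual.ofDual I) ∧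
      J ≤ OrderDual.ofDual I} (by
      intro c hc hchain I hI
      have hne : c.Nonempty := ⟨I, hI⟩
      have hchain' : IsChain (· ≤ ·) (OrderDual.ofDual '' c : Set (Ideal (Osm n))) := by
        rintro _ ⟨a, ha, rfl⟩ _ ⟨b, hb, rfl⟩ hab
        have := hchain ha hb (fun h => hab (by rw [h]))
        rcases this with h | h
        · right; exact h
        · left; exact h
      refine ⟨OrderDual.toDual (sInf (OrderDual.ofDual '' c)), ⟨?_, ?_, ?_⟩, ?_⟩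
      · apply Ideal.sInf_isPrime_of_isChain (hne.image _) hchain'
        rintro _ ⟨a, ha, rfl⟩
        exact (hc ha).1
      · intro f hf g hg
        simp only [OrderDual.ofDual_toDual, Submodule.mem_sInf] at hf ⊢
        rintro _ ⟨a, ha, rfl⟩
        exact (hc ha).2.1 f (hf (OrderDual.ofDual a) (Set.mem_image_of_mem _ ha)) g hg
      · apply le_sInf
        rintro _ ⟨a, ha, rfl⟩
        exact (hc ha).2.2
      · intro z hz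
        exact sInf_le (Set.mem_image_of_mem OrderDual.ofDual hz)) (OrderDual.toDual (RingHom.ker (evalAt x₀)))
      ⟨RingHom.ker_isPrime _, maxIdeal_closed, le_maxIdeal hJ h1⟩
  obtain ⟨P, -, ⟨hP1, hP2, hP3⟩, hP4⟩ := hz
  refine ⟨OrderDual.ofDual P, hP1, hP2, hP3, ?_⟩
  set P' := OrderDual.ofDual P with hP'
  intro f hf
  by_contra hcon
  push Not at hcon
  haveI := hP1
  have hdis : Disjoint ((P'.primeCompl ⊔ Submonoid.powers f : Submonoid (Osm n)) : Set (Osm n))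
      (J : Set (Osm n)) := by
    rw [Set.disjoint_left]
    intro t ht htJ
    rw [SetLike.mem_coe, Submonoid.mem_sup] at ht
    obtain ⟨s, hs, z, ⟨k, rfl⟩, rfl⟩ := ht
    rcases Nat.eq_zero_or_pos k with rfl | hk
    · simp only [pow_zero, mul_one] at htJ
      exact hs (hP3 htJ)
    · refine hcon s hs (hJ _ htJ _ ?_)
      obtain ⟨B, hB, hb⟩ := eventually_bound s x₀
      refine ⟨k, hk, B ^ (k - 1), by positivity, ?_⟩
      filter_upwards [hb] with y hy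
      simp only [coe_mul, coe_pow, norm_mul, norm_pow]
      calc (‖s y‖ * ‖f y‖) ^ k = ‖s y‖ ^ (k - 1) * (‖s y‖ * ‖f y‖ ^ k) := by
            obtain ⟨k', rfl⟩ : ∃ k', k = k' + 1 := ⟨k - 1, by omega⟩
            simp only [Nat.add_sub_cancel]
            ring
        _ ≤ _ := by gcongr
  obtain ⟨Q, hQ1, hQ2, hQ3, hQ4⟩ := exists_prime_avoiding J hJ _ hdis
  have hQP : Q ≤ P' := by
    intro q hq
    by_contra hqP
    refine Set.disjoint_left.1 hQ4 ?_ hq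
    exact Submonoid.mem_sup_left hqP
  have hfQ : f ∉ Q := by
    intro hfQ
    refine Set.disjoint_left.1 hQ4 ?_ hfQ
    exact Submonoid.mem_sup_right (Submonoid.mem_powers f)
  have := hP4 (y := OrderDual.toDual Q) ⟨hQ1, hQ2, hQ3⟩ hQP
  exact hfQ (this hf)

end Pool.Agent.Work.MP_80f671_an
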