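import Pool.Agent.Work.MP_80f671_an.JIdeal

/-!
Quantitative consequences of Levi pseudoconvexity near a boundary point.
-/

namespace Pool.Agent.Work.MP_80f671_an

open Filter Topology ContDiff Osm

variable {n : ℕ} {x₀ : Fin n → ℂ}

/-- Hermitian type form with coefficients `A`. -/
def qf (A : Fin n → Fin n → ℂ) (v w : Fin n → ℂ) : ℂ :=
  ∑ a, ∑ b, A a b * v a * (starRingEnd ℂ) (w b)

lemma norm_qf_le {A : Fin n → Fin n → ℂ} {C : ℝ} (hA : ∀ a b, ‖A a b‖ ≤ C)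
    (v w : Fin n → ℂ) : ‖qf A v w‖ ≤ (n : ℝ) ^ 2 * C * ‖v‖ * ‖w‖ := by
  unfold qf
  calc ‖∑ a, ∑ b, A a b * v a * (starRingEnd ℂ) (w b)‖
      ≤ ∑ _a : Fin n, ∑ _b : Fin n, C * ‖v‖ * ‖w‖ := by
        refine (norm_sum_le _ _).trans (Finset.sum_le_sum fun a _ => ?_)
        refine (norm_sum_le _ _).trans (Finset.sum_le_sum fun b _ => ?_)
        rw [norm_mul, norm_mul, Complex.norm_conj]
        have h1 := norm_le_pi_norm v a
        have h2 := norm_le_pi_norm w b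
        have h3 : 0 ≤ C := (norm_nonneg _).trans (hA a b)
        have h4 := hA a b
        gcongr
    _ = _ := by
        simp only [Finset.sum_const, Finset.card_univ, Fintype.card_fin, nsmul_eq_mul]
        ring

/-- Local Lipschitz and bound estimate for smooth functions. -/
lemma local_lip (f : Osm n) (x₀ : Fin n → ℂ) :
    ∃ C : ℝ, 0 ≤ C ∧ ∃ δ > 0, ∀ y ∈ Metric.ball x₀ δ, ∀ y' ∈ Metric.ball x₀ δ,
      ‖f y - f y'‖ ≤ C * ‖y - y'‖ ∧ ‖f y‖ ≤ C := by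
  obtain ⟨K, t, ht, hK⟩ := ((Osm.smooth f).of_le (m := 1) (by
    exact_mod_cast (le_top : (1 : ℕ∞) ≤ ⊤))).contDiffAt (x := x₀)
    |>.exists_lipschitzOnWith
  obtain ⟨B, hB, hb⟩ := eventually_bound f x₀
  obtain ⟨δ, hδ, hball⟩ := Metric.mem_nhds_iff.1 (inter_mem ht hb)
  refine ⟨max K B, le_max_of_le_right hB, δ, hδ, fun y hy y' hy' => ⟨?_, ?_⟩⟩
  · have h1 := hK.dist_le_mul y (hball hy).1 y' (hball hy').1
    rw [dist_eq_norm, dist_eq_norm] at h1
    exact h1.trans (by gcongr; exact le_max_left _ _)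
  · exact (hball hy).2.trans (le_max_right _ _)

/-- Uniform version for finitely many functions. -/
lemma local_lip_family {κ : Type*} [Finite κ] (f : κ → Osm n) (x₀ : Fin n → ℂ) :
    ∃ C : ℝ, 0 ≤ C ∧ ∃ δ > 0, ∀ k, ∀ y ∈ Metric.ball x₀ δ, ∀ y' ∈ Metric.ball x₀ δ,
      ‖f k y - f k y'‖ ≤ C * ‖y - y'‖ ∧ ‖f k y‖ ≤ C := by
  haveI := Fintype.ofFinite κ
  choose C hC δ hδ h using fun k => local_lip (f k) x₀
  rcases isEmpty_or_nonempty κ with hκ | hκ
  · exact ⟨0, le_rfl, 1, one_pos, fun k => (hκ.false k).elim⟩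
  · refine ⟨∑ k, C k, Finset.sum_nonneg fun k _ => hC k,
      Finset.univ.inf' Finset.univ_nonempty δ, ?_, fun k y hy y' hy' => ?_⟩
    · rw [gt_iff_lt, Finset.lt_inf'_iff]
      exact fun k _ => hδ k
    · have hle : Finset.univ.inf' Finset.univ_nonempty δ ≤ δ k := Finset.inf'_le _ (Finset.mem_univ k)
      have hy1 := Metric.ball_subset_ball hle hy
      have hy1' := Metric.ball_subset_ball hle hy'
      have h1 := h k y hy1 y' hy1'
      have h2 : C k ≤ ∑ k, C k := Finset.single_le_sum (fun k _ => hC k) (Finset.mem_univ k)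
      exact ⟨h1.1.trans (by gcongr), h1.2.trans h2⟩

/-- A zero of `r` close to any point near `x₀`. -/
lemma exists_zero_near (r : (Fin n → ℂ) → ℝ) (hr : ContDiff ℝ ∞ r) (hx : r x₀ = 0)
    (hdr : fderiv ℝ r x₀ ≠ 0) :
    ∃ C : ℝ, 0 ≤ C ∧ ∀ᶠ y in 𝓝 x₀, ∃ y', r y' = 0 ∧ ‖y' - y‖ ≤ C * |r y| := by
  obtain ⟨u, hu⟩ : ∃ u, fderiv ℝ r x₀ u = 2 := by
    obtain ⟨u, hu⟩ : ∃ u, fderiv ℝ r x₀ u ≠ 0 := by
      by_contra h
      push Not at h
      exact hdr (ContinuousLinearMap.ext h)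
    refine ⟨(2 / fderiv ℝ r x₀ u) • u, ?_⟩
    rw [map_smul, smul_eq_mul, div_mul_cancel₀ _ hu]
  have hdiff : Differentiable ℝ r := hr.differentiable (by simp)
  have hcont : Continuous (fun y => fderiv ℝ r y u) := by
    have h1 : ContDiff ℝ ∞ (fun x => fderiv ℝ r x) := hr.fderiv_right (by simp)
    exact (h1.continuous).clm_apply continuous_const
  have hev : ∀ᶠ y in 𝓝 x₀, 1 < fderiv ℝ r y u := by
    have : Tendsto (fun y => fderiv ℝ r y u) (𝓝 x₀) (𝓝 2) := by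
      rw [← hu]; exact hcont.continuousAt
    exact this.eventually (lt_mem_nhds (by norm_num))
  obtain ⟨δ, hδ, hball⟩ := Metric.mem_nhds_iff.1 hev
  refine ⟨‖u‖, norm_nonneg _, ?_⟩
  have hsmall : ∀ᶠ y in 𝓝 x₀, |r y| * ‖u‖ < δ / 2 := by
    have : Tendsto (fun y => |r y| * ‖u‖) (𝓝 x₀) (𝓝 (|r x₀| * ‖u‖)) :=
      ((hdiff.continuous.continuousAt.abs).mul tendsto_const_nhds)
    rw [hx, abs_zero, zero_mul] at this
    exact this.eventually (gt_mem_nhds (by positivity))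
  filter_upwards [hsmall, Metric.ball_mem_nhds x₀ (half_pos hδ)] with y hy1 hy2
  set s := |r y| with hs
  have hs0 : 0 ≤ s := abs_nonneg _
  have hin : ∀ t ∈ Set.Icc (-s) s, y + t • u ∈ Metric.ball x₀ δ := by
    intro t ht
    rw [Metric.mem_ball, dist_eq_norm]
    have h1 : ‖y - x₀‖ < δ / 2 := by rwa [Metric.mem_ball, dist_eq_norm] at hy2
    have h2 : ‖t • u‖ ≤ s * ‖u‖ := by
      rw [norm_smul, Real.norm_eq_abs]
      gcongr
      exact abs_le.2 ht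
    calc ‖y + t • u - x₀‖ = ‖(y - x₀) + t • u‖ := by congr 1; abel
      _ ≤ ‖y - x₀‖ + ‖t • u‖ := norm_add_le _ _
      _ < δ / 2 + δ / 2 := by linarith
      _ = δ := by ring
  have hder : ∀ t : ℝ, HasDerivAt (fun t : ℝ => r (y + t • u)) (fderiv ℝ r (y + t • u) u) t := by
    intro t
    have h1 : HasDerivAt (fun t : ℝ => y + t • u) u t := by
      have := (hasDerivAt_id t).smul_const u
      simpa using this.const_add y
    exact (hdiff _).hasFDerivAt.comp_hasDerivAt t h1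
  have hcontφ : Continuous (fun t : ℝ => r (y + t • u)) :=
    continuous_iff_continuousAt.2 fun t => (hder t).continuousAt
  have hmono : ∀ t₁ ∈ Set.Icc (-s) s, ∀ t₂ ∈ Set.Icc (-s) s, t₁ ≤ t₂ →
      1 * (t₂ - t₁) ≤ r (y + t₂ • u) - r (y + t₁ • u) := by
    refine (convex_Icc (-s) s).mul_sub_le_image_sub_of_le_deriv
      (f := fun t : ℝ => r (y + t • u)) hcontφ.continuousOn
      (fun t _ => (hder t).differentiableAt.differentiableWithinAt) ?_
    intro t ht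
    rw [(hder t).deriv]
    exact (hball (hin t (interior_subset ht))).le
  have hz : r (y + (0 : ℝ) • u) = r y := by simp
  have h0mem : (0 : ℝ) ∈ Set.Icc (-s) s := ⟨by linarith, hs0⟩
  rcases le_total 0 (r y) with hpos | hneg
  · have hsr : s = r y := abs_of_nonneg hpos
    have h1 := hmono (-s) ⟨le_rfl, by linarith⟩ 0 h0mem (by linarith)
    rw [hz] at h1
    have h2 : r (y + (-s) • u) ≤ 0 := by linarith
    obtain ⟨t, ht, ht0⟩ := intermediate_value_Icc (show -s ≤ 0 by linarith)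
      hcontφ.continuousOn (show (0 : ℝ) ∈ Set.Icc (r (y + (-s) • u)) (r (y + (0:ℝ) • u)) from
        ⟨h2, by rw [hz]; exact hpos⟩)
    refine ⟨y + t • u, ht0, ?_⟩
    rw [add_sub_cancel_left, norm_smul, Real.norm_eq_abs, mul_comm]
    gcongr
    exact abs_le.2 ⟨ht.1, by linarith [ht.2]⟩
  · have hsr : s = - r y := abs_of_nonpos hneg
    have h1 := hmono 0 h0mem s ⟨by linarith, le_rfl⟩ hs0
    rw [hz] at h1
    have h2 : 0 ≤ r (y + s • u) := by linarith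
    obtain ⟨t, ht, ht0⟩ := intermediate_value_Icc hs0
      hcontφ.continuousOn (show (0 : ℝ) ∈ Set.Icc (r (y + (0:ℝ) • u)) (r (y + s • u)) from
        ⟨by rw [hz]; exact hneg, h2⟩)
    refine ⟨y + t • u, ht0, ?_⟩
    rw [add_sub_cancel_left, norm_smul, Real.norm_eq_abs, mul_comm]
    gcongr
    exact abs_le.2 ⟨by linarith [ht.1], ht.2⟩

/-- The Levi matrix of `r`. -/
noncomputable def leviM (r : (Fin n → ℂ) → ℝ) (hr : ContDiff ℝ ∞ r) (a b : Fin n) : Osm n :=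
  D a (Dbar b (rC r hr))

/-- The derivative `∂r` applied to a vector. -/
noncomputable def dr (r : (Fin n → ℂ) → ℝ) (hr : ContDiff ℝ ∞ r) (y v : Fin n → ℂ) : ℂ :=
  ∑ a, (D a (rC r hr)) y * v a

lemma qf_expand (A : Fin n → Fin n → ℂ) (v e : Fin n → ℂ) (c s : ℂ) :
    qf A (c • v - s • e) (c • v - s • e)
      = (c * (starRingEnd ℂ) c) * qf A v v - (c * (starRingEnd ℂ) s) * qf A v e
        - (s * (starRingEnd ℂ) c) * qf A e v + (s * (starRingEnd ℂ) s) * qf A e e := by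
  unfold qf
  simp only [Finset.mul_sum]
  rw [← Finset.sum_sub_distrib, ← Finset.sum_sub_distrib, ← Finset.sum_add_distrib]
  refine Finset.sum_congr rfl fun a _ => ?_
  rw [← Finset.sum_sub_distrib, ← Finset.sum_sub_distrib, ← Finset.sum_add_distrib]
  refine Finset.sum_congr rfl fun b _ => ?_
  simp only [Pi.sub_apply, Pi.smul_apply, smul_eq_mul, map_sub, map_mul]
  ring

/-- Lower bound for the Levi form near a pseudoconvex boundary point. -/
theorem levi_lower (r : (Fin n → ℂ) → ℝ) (hr : ContDiff ℝ ∞ r) (hx : r x₀ = 0)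
    (hdr : fderiv ℝ r x₀ ≠ 0) (i₀ : Fin n) (hi₀ : (D i₀ (rC r hr)) x₀ ≠ 0)
    (hpsc : ∀ᶠ y in 𝓝 x₀, r y = 0 → ∀ v : Fin n → ℂ, dr r hr y v = 0 →
      0 ≤ (qf (fun a b => (leviM r hr a b) y) v v).re) :
    ∃ C : ℝ, 0 ≤ C ∧ ∀ᶠ y in 𝓝 x₀, ∀ v : Fin n → ℂ,
      -(C * (|r y| * ‖v‖ ^ 2 + ‖dr r hr y v‖ * ‖v‖))
        ≤ (qf (fun a b => (leviM r hr a b) y) v v).re := by
  obtain ⟨C₀, hC₀, hzero⟩ := exists_zero_near r hr hx hdr
  obtain ⟨C₁, hC₁, δ₁, hδ₁, hlipΛ⟩ :=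
    local_lip_family (fun k : Fin n × Fin n => leviM r hr k.1 k.2) x₀
  obtain ⟨C₂, hC₂, δ₂, hδ₂, hlipD⟩ := local_lip_family (fun a : Fin n => D a (rC r hr)) x₀
  set c₀ := ‖(D i₀ (rC r hr)) x₀‖ / 2 with hc₀
  have hc₀pos : 0 < c₀ := by
    have := norm_pos_iff.2 hi₀
    positivity
  have hbig : ∀ᶠ y in 𝓝 x₀, c₀ < ‖(D i₀ (rC r hr)) y‖ := by
    have : Tendsto (fun y => ‖(D i₀ (rC r hr)) y‖) (𝓝 x₀) (𝓝 ‖(D i₀ (rC r hr)) x₀‖) :=
      (Osm.continuous _).norm.continuousAt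
    exact this.eventually (lt_mem_nhds (by rw [hc₀]; linarith [norm_pos_iff.2 hi₀]))
  obtain ⟨δ₃, hδ₃, hball3⟩ := Metric.mem_nhds_iff.1 (inter_mem hpsc hbig)
  set δ := min δ₁ (min δ₂ δ₃) with hδdef
  have hδ : 0 < δ := lt_min hδ₁ (lt_min hδ₂ hδ₃)
  -- constants
  set N : ℝ := (n : ℝ) with hN
  have hN0 : 0 ≤ N := Nat.cast_nonneg _
  set B : ℝ := N ^ 2 * C₁ with hB
  have hB0 : 0 ≤ B := by positivity
  set E : ℝ := C₂ * B + N * C₂ * B + C₂ * B with hE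
  have hE0 : 0 ≤ E := by positivity
  refine ⟨(E * (N * C₂ * C₀) + E) / c₀ ^ 2 + N ^ 2 * C₁ * C₀, by positivity, ?_⟩
  have hsmall : ∀ᶠ y in 𝓝 x₀, C₀ * |r y| < δ / 2 := by
    have hcr : Continuous r := hr.continuous
    have : Tendsto (fun y => C₀ * |r y|) (𝓝 x₀) (𝓝 (C₀ * |r x₀|)) :=
      (hcr.continuousAt.abs).const_mul C₀
    rw [hx, abs_zero, mul_zero] at this
    exact this.eventually (gt_mem_nhds (by positivity))
  filter_upwards [hzero, hsmall, Metric.ball_mem_nhds x₀ (half_pos hδ)] with y hy0 hys hyb v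
  obtain ⟨y', hy'0, hyy'⟩ := hy0
  have hyb' : ‖y - x₀‖ < δ / 2 := by rwa [Metric.mem_ball, dist_eq_norm] at hyb
  have hymem : y ∈ Metric.ball x₀ δ := by
    rw [Metric.mem_ball, dist_eq_norm]; linarith
  have hy'mem : y' ∈ Metric.ball x₀ δ := by
    rw [Metric.mem_ball, dist_eq_norm]
    calc ‖y' - x₀‖ = ‖(y' - y) + (y - x₀)‖ := by congr 1; abel
      _ ≤ ‖y' - y‖ + ‖y - x₀‖ := norm_add_le _ _
      _ < δ := by linarith
  have m1 : δ ≤ δ₁ := min_le_left _ _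
  have m2 : δ ≤ δ₂ := (min_le_right _ _).trans (min_le_left _ _)
  have m3 : δ ≤ δ₃ := (min_le_right _ _).trans (min_le_right _ _)
  have hy3 := hball3 (Metric.ball_subset_ball m3 hy'mem)
  have hΛ : ∀ a b, ‖(leviM r hr a b) y - (leviM r hr a b) y'‖ ≤ C₁ * ‖y - y'‖ ∧
      ‖(leviM r hr a b) y'‖ ≤ C₁ := fun a b =>
    ⟨(hlipΛ (a, b) y (Metric.ball_subset_ball m1 hymem) y' (Metric.ball_subset_ball m1 hy'mem)).1,
     (hlipΛ (a, b) y' (Metric.ball_subset_ball m1 hy'mem) y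
      (Metric.ball_subset_ball m1 hymem)).2⟩
  have hDl : ∀ a, ‖(D a (rC r hr)) y - (D a (rC r hr)) y'‖ ≤ C₂ * ‖y - y'‖ ∧
      ‖(D a (rC r hr)) y'‖ ≤ C₂ := fun a =>
    ⟨(hlipD a y (Metric.ball_subset_ball m2 hymem) y' (Metric.ball_subset_ball m2 hy'mem)).1,
     (hlipD a y' (Metric.ball_subset_ball m2 hy'mem) y
      (Metric.ball_subset_ball m2 hymem)).2⟩
  have hdist : ‖y - y'‖ ≤ C₀ * |r y| := by rwa [norm_sub_rev]
  -- the tangential vector
  set c := (D i₀ (rC r hr)) y' with hc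
  set s := dr r hr y' v with hs
  set e : Fin n → ℂ := Pi.single i₀ 1 with he
  have hene : ‖e‖ ≤ 1 := by
    rw [pi_norm_le_iff_of_nonneg zero_le_one]
    intro a
    by_cases h : a = i₀
    · subst h; simp [he]
    · simp [he, Pi.single_eq_of_ne h]
  have htan : dr r hr y' (c • v - s • e) = 0 := by
    have h1 : dr r hr y' (c • v - s • e) = c * dr r hr y' v - s * dr r hr y' e := by
      unfold dr
      rw [Finset.mul_sum, Finset.mul_sum, ← Finset.sum_sub_distrib]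
      refine Finset.sum_congr rfl fun a _ => ?_
      simp only [Pi.sub_apply, Pi.smul_apply, smul_eq_mul]
      ring
    have h2 : dr r hr y' e = c := by
      unfold dr
      rw [Finset.sum_eq_single i₀]
      · simp [he, hc]
      · intro b _ hb
        simp [he, Pi.single_eq_of_ne hb]
      · simp
    rw [h1, h2, ← hs]
    ring
  have hpos := hy3.1 hy'0 _ htan
  rw [qf_expand] at hpos
  have hsn : ‖s‖ ≤ N * C₂ * ‖v‖ := by
    rw [hs]
    unfold dr
    calc _ ≤ ∑ _a : Fin n, C₂ * ‖v‖ := by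
          refine (norm_sum_le _ _).trans (Finset.sum_le_sum fun a _ => ?_)
          rw [norm_mul]
          have h1 := norm_le_pi_norm v a
          have h2 := (hDl a).2
          gcongr
      _ = _ := by
          simp only [Finset.sum_const, Finset.card_univ, Fintype.card_fin, nsmul_eq_mul]
          ring
  have hcn : ‖c‖ ≤ C₂ := (hDl i₀).2
  have hcpos : c₀ < ‖c‖ := hy3.2
  set A' : Fin n → Fin n → ℂ := fun a b => (leviM r hr a b) y' with hA'
  have b1 : ‖qf A' v e‖ ≤ B * ‖v‖ := by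
    refine (norm_qf_le (fun a b => (hΛ a b).2) v e).trans ?_
    calc N ^ 2 * C₁ * ‖v‖ * ‖e‖ ≤ N ^ 2 * C₁ * ‖v‖ * 1 := by gcongr
      _ = B * ‖v‖ := by rw [hB]; ring
  have b2 : ‖qf A' e v‖ ≤ B * ‖v‖ := by
    refine (norm_qf_le (fun a b => (hΛ a b).2) e v).trans ?_
    calc N ^ 2 * C₁ * ‖e‖ * ‖v‖ ≤ N ^ 2 * C₁ * 1 * ‖v‖ := by gcongr
      _ = B * ‖v‖ := by rw [hB]; ring
  have b3 : ‖qf A' e e‖ ≤ B := by
    refine (norm_qf_le (fun a b => (hΛ a b).2) e e).trans ?_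
    calc N ^ 2 * C₁ * ‖e‖ * ‖e‖ ≤ N ^ 2 * C₁ * 1 * 1 := by gcongr
      _ = B := by rw [hB]; ring
  -- real part estimate at y'
  have hmain : -(E * ‖s‖ * ‖v‖) ≤ ‖c‖ ^ 2 * (qf A' v v).re := by
    have e1 : ((c * (starRingEnd ℂ) c) * qf A' v v).re = ‖c‖ ^ 2 * (qf A' v v).re := by
      rw [Complex.mul_conj, Complex.normSq_eq_norm_sq, Complex.re_ofReal_mul]
    have e2 : |((c * (starRingEnd ℂ) s) * qf A' v e).re| ≤ C₂ * ‖s‖ * (B * ‖v‖) := by
      refine (Complex.abs_re_le_norm _).trans ?_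
      rw [norm_mul, norm_mul, Complex.norm_conj]
      gcongr
    have e3 : |((s * (starRingEnd ℂ) c) * qf A' e v).re| ≤ ‖s‖ * C₂ * (B * ‖v‖) := by
      refine (Complex.abs_re_le_norm _).trans ?_
      rw [norm_mul, norm_mul, Complex.norm_conj]
      gcongr
    have e4 : |((s * (starRingEnd ℂ) s) * qf A' e e).re| ≤ ‖s‖ * (N * C₂ * ‖v‖) * B := by
      refine (Complex.abs_re_le_norm _).trans ?_
      rw [norm_mul, norm_mul, Complex.norm_conj]
      gcongr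
    rw [Complex.add_re, Complex.sub_re, Complex.sub_re, e1] at hpos
    have f2 := abs_le.1 e2
    have f3 := abs_le.1 e3
    have f4 := abs_le.1 e4
    have : E * ‖s‖ * ‖v‖ = C₂ * ‖s‖ * (B * ‖v‖) + ‖s‖ * C₂ * (B * ‖v‖)
        + ‖s‖ * (N * C₂ * ‖v‖) * B := by rw [hE]; ring
    rw [this]
    linarith [f2.1, f3.1, f4.2]
  have hs2 : ‖s‖ ≤ ‖dr r hr y v‖ + N * C₂ * C₀ * |r y| * ‖v‖ := by
    have h1 : s = dr r hr y v - ∑ a, ((D a (rC r hr)) y - (D a (rC r hr)) y') * v a := by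
      rw [hs]
      unfold dr
      rw [← Finset.sum_sub_distrib]
      exact Finset.sum_congr rfl fun a _ => by ring
    have h2 : ‖∑ a, ((D a (rC r hr)) y - (D a (rC r hr)) y') * v a‖
        ≤ N * C₂ * C₀ * |r y| * ‖v‖ := by
      calc _ ≤ ∑ _a : Fin n, C₂ * (C₀ * |r y|) * ‖v‖ := by
            refine (norm_sum_le _ _).trans (Finset.sum_le_sum fun a _ => ?_)
            rw [norm_mul]
            have h1 := norm_le_pi_norm v a
            have h2 := (hDl a).1.trans (mul_le_mul_of_nonneg_left hdist hC₂)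
            gcongr
        _ = _ := by
            simp only [Finset.sum_const, Finset.card_univ, Fintype.card_fin, nsmul_eq_mul]
            ring
    rw [h1]
    exact (norm_sub_le _ _).trans (by gcongr)
  have hcsq : c₀ ^ 2 ≤ ‖c‖ ^ 2 := by gcongr
  have hq' : -(E * ‖s‖ * ‖v‖ / c₀ ^ 2) ≤ (qf A' v v).re := by
    rcases le_or_gt 0 (qf A' v v).re with h | h
    · have : 0 ≤ E * ‖s‖ * ‖v‖ / c₀ ^ 2 := by positivity
      linarith
    · have h1 : ‖c‖ ^ 2 * (qf A' v v).re ≤ c₀ ^ 2 * (qf A' v v).re :=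
        mul_le_mul_of_nonpos_right hcsq h.le
      rw [← neg_div, div_le_iff₀ (by positivity)]
      linarith
  have hdiff : |(qf (fun a b => (leviM r hr a b) y) v v).re - (qf A' v v).re|
      ≤ N ^ 2 * C₁ * C₀ * |r y| * ‖v‖ ^ 2 := by
    have h1 : qf (fun a b => (leviM r hr a b) y) v v - qf A' v v
        = qf (fun a b => (leviM r hr a b) y - (leviM r hr a b) y') v v := by
      unfold qf
      rw [← Finset.sum_sub_distrib]
      refine Finset.sum_congr rfl fun a _ => ?_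
      rw [← Finset.sum_sub_distrib]
      exact Finset.sum_congr rfl fun b _ => by rw [hA']; ring
    rw [← Complex.sub_re, h1]
    refine (Complex.abs_re_le_norm _).trans ?_
    refine (norm_qf_le (C := C₁ * (C₀ * |r y|)) (fun a b => (hΛ a b).1.trans
      (mul_le_mul_of_nonneg_left hdist hC₁)) v v).trans (le_of_eq ?_)
    rw [← hN]
    ring
  have f := (abs_le.1 hdiff).1
  have hfin : E * ‖s‖ * ‖v‖ / c₀ ^ 2
      ≤ (E * (N * C₂ * C₀) + E) / c₀ ^ 2 * (|r y| * ‖v‖ ^ 2 + ‖dr r hr y v‖ * ‖v‖) := by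
    rw [div_mul_eq_mul_div]
    refine div_le_div_of_nonneg_right ?_ (by positivity)
    have h1 : E * ‖s‖ * ‖v‖ ≤ E * (‖dr r hr y v‖ + N * C₂ * C₀ * |r y| * ‖v‖) * ‖v‖ := by
      gcongr
    have h2 : 0 ≤ E * (N * C₂ * C₀) := by positivity
    have h3 : 0 ≤ |r y| * ‖v‖ ^ 2 := by positivity
    have h4 : 0 ≤ ‖dr r hr y v‖ * ‖v‖ := by positivity
    nlinarith [mul_nonneg h2 h4, mul_nonneg hE0 h3]
  have hfin2 : N ^ 2 * C₁ * C₀ * |r y| * ‖v‖ ^ 2
      ≤ N ^ 2 * C₁ * C₀ * (|r y| * ‖v‖ ^ 2 + ‖dr r hr y v‖ * ‖v‖) := by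
    have h4 : 0 ≤ ‖dr r hr y v‖ * ‖v‖ := by positivity
    have h5 : 0 ≤ N ^ 2 * C₁ * C₀ := by positivity
    nlinarith [mul_nonneg h5 h4]
  calc _ = -((E * (N * C₂ * C₀) + E) / c₀ ^ 2 * (|r y| * ‖v‖ ^ 2 + ‖dr r hr y v‖ * ‖v‖))
        - N ^ 2 * C₁ * C₀ * (|r y| * ‖v‖ ^ 2 + ‖dr r hr y v‖ * ‖v‖) := by ring
    _ ≤ _ := by linarith

end Pool.Agent.Work.MP_80f671_an
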