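import Pool.Agent.Work.MP_80f671_an.Deriv

/-!
The Lie algebra generated by one derivation and its conjugate, and its formal leaf.
-/

namespace Pool.Agent.Work.MP_80f671_an

open Finset

section gen

variable {K : Type*} [Field K] [Algebra ℂ K]

/-- The `K`-subspace generated by `L`, `M` and iterated brackets with them. -/
def lieGen (L M : Derivation ℂ K K) : Submodule K (Derivation ℂ K K) :=
  sInf {W | L ∈ W ∧ M ∈ W ∧ ∀ X ∈ W, ⁅L, X⁆ ∈ W ∧ ⁅M, X⁆ ∈ W}

variable {L M : Derivation ℂ K K}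

lemma lieGen_le {W : Submodule K (Derivation ℂ K K)} (hL : L ∈ W) (hM : M ∈ W)
    (h : ∀ X ∈ W, ⁅L, X⁆ ∈ W ∧ ⁅M, X⁆ ∈ W) : lieGen L M ≤ W :=
  sInf_le ⟨hL, hM, h⟩

lemma left_mem_lieGen : L ∈ lieGen L M := by
  rw [lieGen, Submodule.mem_sInf]
  exact fun W hW => hW.1

lemma right_mem_lieGen : M ∈ lieGen L M := by
  rw [lieGen, Submodule.mem_sInf]
  exact fun W hW => hW.2.1

lemma ad_left_mem {X : Derivation ℂ K K} (hX : X ∈ lieGen L M) : ⁅L, X⁆ ∈ lieGen L M := by
  rw [lieGen, Submodule.mem_sInf] at hX ⊢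
  exact fun W hW => (hW.2.2 X (hX W hW)).1

lemma ad_right_mem {X : Derivation ℂ K K} (hX : X ∈ lieGen L M) : ⁅M, X⁆ ∈ lieGen L M := by
  rw [lieGen, Submodule.mem_sInf] at hX ⊢
  exact fun W hW => (hW.2.2 X (hX W hW)).2

lemma smul_lie_eq (k : K) (Y X : Derivation ℂ K K) : ⁅k • Y, X⁆ = k • ⁅Y, X⁆ - X k • Y := by
  ext f
  simp only [Derivation.commutator_apply, Derivation.smul_apply, Derivation.sub_apply,
    Derivation.leibniz, smul_eq_mul]
  ring

/-- The generated subspace is a Lie algebra. -/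
theorem lieGen_lie {X Y : Derivation ℂ K K} (hX : X ∈ lieGen L M) (hY : Y ∈ lieGen L M) :
    ⁅X, Y⁆ ∈ lieGen L M := by
  let W : Submodule K (Derivation ℂ K K) :=
    { carrier := {Z | Z ∈ lieGen L M ∧ ∀ Y ∈ lieGen L M, ⁅Z, Y⁆ ∈ lieGen L M}
      add_mem' := by
        rintro a b ⟨ha, ha'⟩ ⟨hb, hb'⟩
        refine ⟨Submodule.add_mem _ ha hb, fun Y hY => ?_⟩
        rw [add_lie]
        exact Submodule.add_mem _ (ha' Y hY) (hb' Y hY)
      zero_mem' := ⟨Submodule.zero_mem _, fun Y _ => by rw [zero_lie]; exact Submodule.zero_mem _⟩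
      smul_mem' := by
        rintro k a ⟨ha, ha'⟩
        refine ⟨Submodule.smul_mem _ k ha, fun Y hY => ?_⟩
        rw [smul_lie_eq]
        exact Submodule.sub_mem _ (Submodule.smul_mem _ _ (ha' Y hY)) (Submodule.smul_mem _ _ ha) }
  have hW : lieGen L M ≤ W := by
    refine lieGen_le ⟨left_mem_lieGen, fun Y hY => ad_left_mem hY⟩
      ⟨right_mem_lieGen, fun Y hY => ad_right_mem hY⟩ ?_
    rintro Z ⟨hZ, hZ'⟩
    refine ⟨⟨ad_left_mem hZ, fun Y hY => ?_⟩, ⟨ad_right_mem hZ, fun Y hY => ?_⟩⟩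
    · rw [lie_lie]
      exact Submodule.sub_mem _ (ad_left_mem (hZ' Y hY)) (hZ' _ (ad_left_mem hY))
    · rw [lie_lie]
      exact Submodule.sub_mem _ (ad_right_mem (hZ' Y hY)) (hZ' _ (ad_right_mem hY))
  exact (hW hX).2 Y hY

/-- Coordinate selection for a subspace of `K^n`. -/
theorem exists_coord_selection {n : ℕ} (W : Submodule K (Fin n → K)) :
    ∃ T : Finset (Fin n), (∀ a ∈ W, (∀ j ∈ T, a j = 0) → a = 0) ∧
      ∀ i ∈ T, ∃ a ∈ W, a i = 1 ∧ ∀ j ∈ T, j ≠ i → a j = 0 := by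
  classical
  have hne : ∃ T : Finset (Fin n), ∀ a ∈ W, (∀ j ∈ T, a j = 0) → a = 0 :=
    ⟨Finset.univ, fun a _ h => funext fun j => h j (mem_univ j)⟩
  obtain ⟨T, hT, hmin⟩ : ∃ T : Finset (Fin n), (∀ a ∈ W, (∀ j ∈ T, a j = 0) → a = 0) ∧
      ∀ T' : Finset (Fin n), (∀ a ∈ W, (∀ j ∈ T', a j = 0) → a = 0) → T.card ≤ T'.card := by
    have := WellFounded.has_min (measure (Finset.card (α := Fin n))).wf
      {T : Finset (Fin n) | ∀ a ∈ W, (∀ j ∈ T, a j = 0) → a = 0} hne
    obtain ⟨T, hT, h⟩ := this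
    exact ⟨T, hT, fun T' hT' => not_lt.1 (h T' hT')⟩
  refine ⟨T, hT, fun i hi => ?_⟩
  have h1 : ¬ ∀ a ∈ W, (∀ j ∈ T.erase i, a j = 0) → a = 0 := by
    intro h
    have := hmin _ h
    rw [card_erase_of_mem hi] at this
    have : 0 < T.card := card_pos.2 ⟨i, hi⟩
    omega
  push Not at h1
  obtain ⟨a, ha, h2, h3⟩ := h1
  have h4 : a i ≠ 0 := by
    intro h4
    apply h3
    apply hT a ha
    intro j hj
    by_cases hji : j = i
    · rw [hji, h4]
    · exact h2 j (mem_erase.2 ⟨hji, hj⟩)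
  refine ⟨(a i)⁻¹ • a, W.smul_mem _ ha, ?_, ?_⟩
  · simp [h4]
  · intro j hj hji
    simp [h2 j (mem_erase.2 ⟨hji, hj⟩)]

end gen

/-- A formal leaf of a Lie algebra of vector fields: coordinates, normalised vector fields and
Taylor coefficients of the leaf. -/
structure Leaf {n : ℕ} {R K : Type*} [CommRing R] [Algebra ℂ R] [Field K] [Algebra ℂ K]
    (S : KSet n R K) (W : Submodule K (Derivation ℂ K K)) (ι : Type) [Fintype ι]
    [DecidableEq ι] where
  e : ι → Fin n
  X : ι → Derivation ℂ K K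
  X_mem : ∀ i, X i ∈ W
  X_e : ∀ i j, S.hc (X i) (e j) = if i = j then 1 else 0
  Z : Fin n → Multiset ι → K
  Z0 : ∀ l, Z l 0 = S.π (S.z l)
  Z1 : ∀ Y ∈ W, ∀ l α, Y (Z l α) = ∑ i, S.hc Y (e i) * Z l (i ::ₘ α)

namespace KSet

variable {n : ℕ} {R K : Type*} [CommRing R] [Algebra ℂ R] [Field K] [Algebra ℂ K]
  (S : KSet n R K)

lemma cD_lieGen {L X : Derivation ℂ K K} (hX : X ∈ lieGen L (S.cD L)) :
    S.cD X ∈ lieGen L (S.cD L) := by
  let W : Submodule K (Derivation ℂ K K) :=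
    { carrier := {Z | S.cD Z ∈ lieGen L (S.cD L)}
      add_mem' := by
        intro a b ha hb
        have h1 : S.cD a ∈ lieGen L (S.cD L) := ha
        have h2 : S.cD b ∈ lieGen L (S.cD L) := hb
        have : S.cD (a + b) ∈ lieGen L (S.cD L) := by
          rw [S.cD_add]
          exact Submodule.add_mem _ h1 h2
        exact this
      zero_mem' := by
        have : S.cD (0 : Derivation ℂ K K) = 0 := by ext k; simp
        have h : S.cD (0 : Derivation ℂ K K) ∈ lieGen L (S.cD L) := by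
          rw [this]
          exact Submodule.zero_mem _
        exact h
      smul_mem' := by
        intro k a ha
        have h1 : S.cD a ∈ lieGen L (S.cD L) := ha
        have : S.cD (k • a) ∈ lieGen L (S.cD L) := by
          rw [S.cD_smul]
          exact Submodule.smul_mem _ _ h1
        exact this }
  have hW : lieGen L (S.cD L) ≤ W := by
    refine lieGen_le ?_ ?_ ?_
    · change S.cD L ∈ lieGen L (S.cD L)
      exact right_mem_lieGen
    · change S.cD (S.cD L) ∈ lieGen L (S.cD L)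
      rw [S.cD_cD]
      exact left_mem_lieGen
    · intro X hX
      have hX' : S.cD X ∈ lieGen L (S.cD L) := hX
      constructor
      · change S.cD ⁅L, X⁆ ∈ lieGen L (S.cD L)
        rw [S.cD_lie]
        exact ad_right_mem hX'
      · change S.cD ⁅S.cD L, X⁆ ∈ lieGen L (S.cD L)
        rw [S.cD_lie, S.cD_cD]
        exact ad_left_mem hX'
  exact hW hX

/-- The holomorphic components as a linear map. -/
def hcL : Derivation ℂ K K →ₗ[K] (Fin n → K) where
  toFun := S.hc
  map_add' := fun δ ε => by funext a; simp [hc]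
  map_smul' := fun k δ => by funext a; simp [hc]

/-- Existence of a formal leaf. -/
theorem exists_leaf {L : Derivation ℂ K K} :
    ∃ (ι : Type) (_ : Fintype ι) (_ : DecidableEq ι),
      (S.hc L ≠ 0 → Nonempty ι) ∧ Nonempty (Leaf S (lieGen L (S.cD L)) ι) := by
  classical
  set W := lieGen L (S.cD L) with hW
  obtain ⟨T, hT1, hT2⟩ := exists_coord_selection (W.map S.hcL)
  have hX : ∀ i : T, ∃ X ∈ W, S.hc X i = 1 ∧ ∀ j ∈ T, j ≠ i → S.hc X j = 0 := by
    rintro ⟨i, hi⟩
    obtain ⟨a, ha, h1, h2⟩ := hT2 i hi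
    obtain ⟨X, hX, rfl⟩ := Submodule.mem_map.1 ha
    exact ⟨X, hX, h1, h2⟩
  choose X hXW hX1 hX0 using hX
  have hXe : ∀ i j : T, S.hc (X i) j = if i = j then 1 else 0 := by
    intro i j
    split_ifs with h
    · rw [← h]; exact hX1 i
    · exact hX0 i j j.2 (fun h' => h (Subtype.ext h'.symm))
  have hinj : ∀ Y ∈ W, (∀ j : T, S.hc Y j = 0) → ∀ a, S.hc Y a = 0 := by
    intro Y hY h a
    have h1 := hT1 (S.hcL Y) (Submodule.mem_map_of_mem hY) (fun j hj => h ⟨j, hj⟩)
    exact congrFun h1 a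
  refine ⟨T, inferInstance, inferInstance, ?_, ?_⟩
  · intro hL
    by_contra hempty
    rw [not_nonempty_iff] at hempty
    apply hL
    funext a
    exact hinj L left_mem_lieGen (fun j => (hempty.false j).elim) a
  -- CR elements
  let C : Set K := {f | ∀ M ∈ W, (∀ a, S.hc M a = 0) → M f = 0}
  have hexp : ∀ f ∈ C, ∀ Y ∈ W, Y f = ∑ i : T, S.hc Y i * X i f := by
    intro f hf Y hY
    have hM : Y - ∑ i : T, S.hc Y i • X i ∈ W :=
      W.sub_mem hY (W.sum_mem fun i _ => W.smul_mem _ (hXW i))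
    have h0 : ∀ j : T, S.hc (Y - ∑ i : T, S.hc Y i • X i) j = 0 := by
      intro j
      have e1 : S.hc (Y - ∑ i : T, S.hc Y i • X i)
          = S.hc Y - ∑ i : T, S.hc Y i • S.hc (X i) := by
        have := map_sub S.hcL Y (∑ i : T, S.hc Y i • X i)
        rw [map_sum] at this
        simp only [map_smul] at this
        exact this
      rw [e1, Pi.sub_apply, Finset.sum_apply, sum_eq_single j]
      · simp [hXe]
      · intro i _ hij
        simp [hXe, hij]
      · simp
    have := hf _ hM (hinj _ hM h0)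
    rw [Derivation.sub_apply, sub_eq_zero] at this
    rw [this]
    have e2 : (∑ i : T, S.hc Y i • X i) f = ∑ i : T, (S.hc Y i • X i) f := by
      rw [← Derivation.coeFnAddMonoidHom_apply, map_sum, Finset.sum_apply]
      rfl
    rw [e2]
    simp
  have hconst : ∀ (M : Derivation ℂ K K) (i j : T), M (S.hc (X i) j) = 0 := by
    intro M i j
    rw [hXe]
    split_ifs <;> simp
  have hXC : ∀ f ∈ C, ∀ i, X i f ∈ C := by
    intro f hf i M hM hM0
    have h1 : ⁅M, X i⁆ f = 0 := by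
      have hbr : ⁅M, X i⁆ ∈ W := lieGen_lie hM (hXW i)
      rw [hexp f hf _ hbr]
      apply sum_eq_zero
      intro j _
      have : S.hc ⁅M, X i⁆ j = 0 := by
        have e : S.hc ⁅M, X i⁆ j = M (S.hc (X i) j) - X i (S.hc M j) := by
          simp only [hc, Derivation.commutator_apply]
        rw [e, hconst, hM0, map_zero, sub_zero]
      rw [this, zero_mul]
    rw [Derivation.commutator_apply, hf M hM hM0, map_zero, sub_zero] at h1
    exact h1
  have hcomm : ∀ f ∈ C, ∀ i j, X i (X j f) = X j (X i f) := by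
    intro f hf i j
    have hbr : ⁅X i, X j⁆ ∈ W := lieGen_lie (hXW i) (hXW j)
    have h1 : ⁅X i, X j⁆ f = 0 := by
      rw [hexp f hf _ hbr]
      apply sum_eq_zero
      intro k _
      have : S.hc ⁅X i, X j⁆ k = 0 := by
        have e : S.hc ⁅X i, X j⁆ k = X i (S.hc (X j) k) - X j (S.hc (X i) k) := by
          simp only [hc, Derivation.commutator_apply]
        rw [e, hconst, hconst, sub_zero]
      rw [this, zero_mul]
    rw [Derivation.commutator_apply, sub_eq_zero] at h1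
    exact h1
  have hzC : ∀ l, S.π (S.z l) ∈ C := fun l M _ hM0 => hM0 l
  let op : T → C → C := fun i f => ⟨X i f.1, hXC f.1 f.2 i⟩
  haveI : LeftCommutative op := ⟨fun i j f => Subtype.ext (hcomm f.1 f.2 i j)⟩
  let Zc : Fin n → Multiset T → C := fun l α => Multiset.foldr op ⟨S.π (S.z l), hzC l⟩ α
  have hZc : ∀ l i α, ((Zc l (i ::ₘ α) : C) : K) = X i (Zc l α : C) := by
    intro l i α
    simp only [Zc, Multiset.foldr_cons, op]
  refine ⟨⟨fun i => i, X, hXW, hXe, fun l α => (Zc l α : C), fun l => ?_, ?_⟩⟩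
  · simp [Zc]
  · intro Y hY l α
    rw [hexp _ (Zc l α).2 Y hY]
    refine sum_congr rfl fun i _ => ?_
    rw [hZc]

end KSet

end Pool.Agent.Work.MP_80f671_an
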