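import Mathlib
import Pool.Agent.Work.MP_80f671_an.Defs

/-!
Limits of formal curves: if formal curves `g ν` (normalised so that one coordinate is the
parameter) annihilate asymptotically hermitian forms `c ν → c₀`, then some nonconstant formal
curve annihilates `c₀`.
-/

namespace Pool.Agent.Work.MP_80f671_an

open Filter Topology

/-- The constant exponent vector `(j, ..., j)`. -/
noncomputable def bx (n j : ℕ) : Fin n →₀ ℕ := Finsupp.equivFunOnFinite.symm (fun _ => j)

theorem le_bx {n j : ℕ} {α : Fin n →₀ ℕ} : α ≤ bx n j ↔ ∀ i, α i ≤ j := by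
  constructor
  · intro h i
    exact h i
  · intro h i
    exact h i

theorem bx_mono {n i j : ℕ} (h : i ≤ j) : bx n i ≤ bx n j := by
  rw [le_bx]
  intro l
  exact h

/-- Coefficients of monomials along a curve. -/
noncomputable def dl {n : ℕ} (h : Fin n → PowerSeries ℂ) (j : ℕ) (α : Fin n →₀ ℕ) : ℂ :=
  PowerSeries.coeff j (∏ i, h i ^ α i)

theorem dl_eq_zero {n : ℕ} {h : Fin n → PowerSeries ℂ}
    (hh : ∀ i, PowerSeries.constantCoeff (h i) = 0) {j : ℕ} {α : Fin n →₀ ℕ}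
    (hα : ¬ α ≤ bx n j) : dl h j α = 0 := by
  rw [le_bx] at hα
  push Not at hα
  obtain ⟨i, hi⟩ := hα
  have h1 : (PowerSeries.X : PowerSeries ℂ) ^ (α i) ∣ ∏ i, h i ^ α i := by
    refine dvd_trans ?_ (Finset.dvd_prod_of_mem _ (Finset.mem_univ i))
    exact pow_dvd_pow_of_dvd (PowerSeries.X_dvd_iff.mpr (hh i)) _
  exact (PowerSeries.X_pow_dvd_iff.mp h1) j hi

/-- The functional `dl h j` as a finitely supported function. -/
noncomputable def dlE {n : ℕ} (h : Fin n → PowerSeries ℂ)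
    (hh : ∀ i, PowerSeries.constantCoeff (h i) = 0) (j : ℕ) : (Fin n →₀ ℕ) →₀ ℂ :=
  Finsupp.onFinset (Finset.Iic (bx n j)) (dl h j) (by
    intro α hα
    rw [Finset.mem_Iic]
    by_contra h'
    exact hα (dl_eq_zero hh h'))

@[simp] theorem dlE_apply {n : ℕ} (h : Fin n → PowerSeries ℂ)
    (hh : ∀ i, PowerSeries.constantCoeff (h i) = 0) (j : ℕ) (α : Fin n →₀ ℕ) :
    dlE h hh j α = dl h j α := rfl

/-- shift operator -/
noncomputable def shf {n : ℕ} (l : Fin n) : ((Fin n →₀ ℕ) →₀ ℂ) →ₗ[ℂ] ((Fin n →₀ ℕ) →₀ ℂ) :=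
  Finsupp.lcomapDomain (fun α => α + Finsupp.single l 1) (fun _ _ h => add_right_cancel h)

@[simp] theorem shf_apply {n : ℕ} (l : Fin n) (δ : (Fin n →₀ ℕ) →₀ ℂ) (α : Fin n →₀ ℕ) :
    shf l δ α = δ (α + Finsupp.single l 1) := rfl

theorem prod_pow_add_single {n : ℕ} (h : Fin n → PowerSeries ℂ) (α : Fin n →₀ ℕ) (l : Fin n) :
    ∏ i, h i ^ (α + Finsupp.single l 1 : Fin n →₀ ℕ) i = (∏ i, h i ^ α i) * h l := by
  have : ∀ i, h i ^ (α + Finsupp.single l 1 : Fin n →₀ ℕ) i =
      h i ^ α i * h i ^ ((Finsupp.single l 1 : Fin n →₀ ℕ) i) := by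
    intro i
    rw [Finsupp.add_apply, pow_add]
  simp_rw [this]
  rw [Finset.prod_mul_distrib]
  congr 1
  rw [Finset.prod_eq_single l]
  · simp
  · intro b _ hb
    simp [hb.symm]
  · simp

theorem shf_dlE {n : ℕ} (h : Fin n → PowerSeries ℂ)
    (hh : ∀ i, PowerSeries.constantCoeff (h i) = 0) (l : Fin n) (j : ℕ) :
    shf l (dlE h hh j) =
      ∑ p ∈ Finset.HasAntidiagonal.antidiagonal j, PowerSeries.coeff p.2 (h l) • dlE h hh p.1 := by
  ext α
  rw [shf_apply, dlE_apply, dl, prod_pow_add_single, PowerSeries.coeff_mul, Finsupp.finsetSum_apply]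
  apply Finset.sum_congr rfl
  intro p _
  rw [Finsupp.smul_apply, dlE_apply, smul_eq_mul, mul_comm, dl]

/-- The span of the first `N+1` functionals. -/
noncomputable def DN {n : ℕ} (h : Fin n → PowerSeries ℂ)
    (hh : ∀ i, PowerSeries.constantCoeff (h i) = 0) (N : ℕ) : Submodule ℂ ((Fin n →₀ ℕ) →₀ ℂ) :=
  Submodule.span ℂ (dlE h hh '' Set.Iic N)

theorem DN_mono {n : ℕ} (h : Fin n → PowerSeries ℂ)
    (hh : ∀ i, PowerSeries.constantCoeff (h i) = 0) {N N' : ℕ} (hN : N ≤ N') :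
    DN h hh N ≤ DN h hh N' :=
  Submodule.span_mono (Set.image_mono (Set.Iic_subset_Iic.mpr hN))

theorem dlE_mem_DN {n : ℕ} (h : Fin n → PowerSeries ℂ)
    (hh : ∀ i, PowerSeries.constantCoeff (h i) = 0) {j N : ℕ} (hj : j ≤ N) :
    dlE h hh j ∈ DN h hh N :=
  Submodule.subset_span ⟨j, hj, rfl⟩

theorem shf_mem_DN {n : ℕ} (h : Fin n → PowerSeries ℂ)
    (hh : ∀ i, PowerSeries.constantCoeff (h i) = 0) (l : Fin n) (N : ℕ)
    (δ : (Fin n →₀ ℕ) →₀ ℂ) (hδ : δ ∈ DN h hh N) : shf l δ ∈ DN h hh N := by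
  have : DN h hh N ≤ (DN h hh N).comap (shf l) := by
    unfold DN
    rw [Submodule.span_le]
    rintro _ ⟨j, hj, rfl⟩
    rw [SetLike.mem_coe, Submodule.mem_comap, shf_dlE]
    apply Submodule.sum_mem
    intro p hp
    apply Submodule.smul_mem
    apply dlE_mem_DN
    have := Finset.HasAntidiagonal.mem_antidiagonal.mp hp
    have hj' : j ≤ N := hj
    omega
  exact this hδ

/-- Limit space. -/
noncomputable def DD {n : ℕ} (g : ℕ → Fin n → PowerSeries ℂ)
    (hg0 : ∀ ν i, PowerSeries.constantCoeff (g ν i) = 0) (𝒰 : Filter ℕ) :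
    Submodule ℂ ((Fin n →₀ ℕ) →₀ ℂ) where
  carrier := {δ | ∃ N, ∃ e : ℕ → ((Fin n →₀ ℕ) →₀ ℂ), (∀ ν, e ν ∈ DN (g ν) (hg0 ν) N) ∧
    ∀ α, Tendsto (fun ν => e ν α) 𝒰 (𝓝 (δ α))}
  zero_mem' := ⟨0, fun _ => 0, fun ν => Submodule.zero_mem _, fun α => by
    simp only [Finsupp.coe_zero, Pi.zero_apply]; exact tendsto_const_nhds⟩
  add_mem' := by
    rintro δ δ' ⟨N, e, he, ht⟩ ⟨N', e', he', ht'⟩
    refine ⟨max N N', fun ν => e ν + e' ν, fun ν => ?_, fun α => ?_⟩
    · exact Submodule.add_mem _ (DN_mono _ _ (le_max_left _ _) (he ν))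
        (DN_mono _ _ (le_max_right _ _) (he' ν))
    · simp only [Finsupp.add_apply]
      exact (ht α).add (ht' α)
  smul_mem' := by
    rintro c δ ⟨N, e, he, ht⟩
    refine ⟨N, fun ν => c • e ν, fun ν => Submodule.smul_mem _ _ (he ν), fun α => ?_⟩
    simp only [Finsupp.smul_apply, smul_eq_mul]
    exact (ht α).const_mul c

theorem shf_mem_DD {n : ℕ} {g : ℕ → Fin n → PowerSeries ℂ}
    {hg0 : ∀ ν i, PowerSeries.constantCoeff (g ν i) = 0} {𝒰 : Filter ℕ} (l : Fin n)
    {δ : (Fin n →₀ ℕ) →₀ ℂ} (hδ : δ ∈ DD g hg0 𝒰) : shf l δ ∈ DD g hg0 𝒰 := by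
  obtain ⟨N, e, he, ht⟩ := hδ
  refine ⟨N, fun ν => shf l (e ν), fun ν => shf_mem_DN _ _ _ _ _ (he ν), fun α => ?_⟩
  simp only [shf_apply]
  exact ht _


/-! ### Pairing -/

theorem tendsto_zero_pairing_aux {n : ℕ} (c : (Fin n →₀ ℕ) → (Fin n →₀ ℕ) → ℂ)
    (h : Fin n → PowerSeries ℂ) (hh : ∀ i, PowerSeries.constantCoeff (h i) = 0)
    {a b N N' : ℕ} (ha : a ≤ N) (hb : b ≤ N') :
    pairing c h a b = ∑ α ∈ Finset.Iic (bx n N), ∑ β ∈ Finset.Iic (bx n N'),
      c α β * dlE h hh a α * (starRingEnd ℂ) (dlE h hh b β) := by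
  unfold pairing
  have e1 : (Finsupp.equivFunOnFinite.symm (fun _ : Fin n => a)) = bx n a := rfl
  have e2 : (Finsupp.equivFunOnFinite.symm (fun _ : Fin n => b)) = bx n b := rfl
  rw [e1, e2]
  rw [← Finset.sum_subset (Finset.Iic_subset_Iic.mpr (bx_mono ha))]
  · apply Finset.sum_congr rfl
    intro α _
    rw [← Finset.sum_subset (Finset.Iic_subset_Iic.mpr (bx_mono hb))]
    · rfl
    · intro β _ hβ
      rw [Finset.mem_Iic] at hβ
      rw [dlE_apply h hh b β, dl_eq_zero hh hβ, map_zero, mul_zero]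
  · intro α _ hα
    rw [Finset.mem_Iic] at hα
    apply Finset.sum_eq_zero
    intro β _
    rw [dlE_apply h hh a α, dl_eq_zero hh hα, mul_zero, zero_mul]

theorem dl_single {n : ℕ} (i₀ : Fin n) (h : Fin n → PowerSeries ℂ)
    (hi : h i₀ = PowerSeries.X) (j k : ℕ) :
    dl h j (Finsupp.single i₀ k) = if j = k then 1 else 0 := by
  unfold dl
  rw [Finset.prod_eq_single i₀]
  · rw [Finsupp.single_eq_same, hi, PowerSeries.coeff_X_pow]
  · intro b _ hb
    rw [Finsupp.single_eq_of_ne hb, pow_zero]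
  · simp

theorem DN_coords {n : ℕ} (i₀ : Fin n) (h : Fin n → PowerSeries ℂ)
    (hh : ∀ i, PowerSeries.constantCoeff (h i) = 0)
    (hi : h i₀ = PowerSeries.X) (N : ℕ) (δ : (Fin n →₀ ℕ) →₀ ℂ) (hδ : δ ∈ DN h hh N) :
    δ = ∑ j ∈ Finset.range (N + 1), δ (Finsupp.single i₀ j) • dlE h hh j := by
  unfold DN at hδ
  induction hδ using Submodule.span_induction with
  | mem x hx =>
    obtain ⟨j, hj, rfl⟩ := hx
    have hj' : j ≤ N := hj
    rw [Finset.sum_eq_single j]
    · rw [dlE_apply, dl_single i₀ h hi, if_pos rfl, one_smul]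
    · intro b _ hb
      rw [dlE_apply, dl_single i₀ h hi, if_neg (Ne.symm hb), zero_smul]
    · intro h'
      exact absurd (Finset.mem_range.mpr (by omega)) h'
  | zero => simp
  | add x y _ _ hx hy =>
    conv_lhs => rw [hx, hy]
    rw [← Finset.sum_add_distrib]
    apply Finset.sum_congr rfl
    intro j _
    rw [Finsupp.add_apply, add_smul]
  | smul c x _ hx =>
    conv_lhs => rw [hx]
    rw [Finset.smul_sum]
    apply Finset.sum_congr rfl
    intro j _
    rw [Finsupp.smul_apply, smul_smul, smul_eq_mul]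

theorem supp_DN {n : ℕ} (h : Fin n → PowerSeries ℂ)
    (hh : ∀ i, PowerSeries.constantCoeff (h i) = 0) (N : ℕ) (δ : (Fin n →₀ ℕ) →₀ ℂ)
    (hδ : δ ∈ DN h hh N) (α : Fin n →₀ ℕ) (hα : ¬ α ≤ bx n N) : δ α = 0 := by
  unfold DN at hδ
  induction hδ using Submodule.span_induction with
  | mem x hx =>
    obtain ⟨j, hj, rfl⟩ := hx
    rw [dlE_apply]
    apply dl_eq_zero hh
    intro h'
    exact hα (h'.trans (bx_mono hj))
  | zero => rfl
  | add x y _ _ hx hy => rw [Finsupp.add_apply, hx, hy, add_zero]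
  | smul c x _ hx => rw [Finsupp.smul_apply, hx, smul_zero]

/-- The sesquilinear form on finitely supported functionals, over a box. -/
theorem form_DD {n : ℕ} (i₀ : Fin n) {g : ℕ → Fin n → PowerSeries ℂ}
    {hg0 : ∀ ν i, PowerSeries.constantCoeff (g ν i) = 0} {𝒰 : Filter ℕ} [𝒰.NeBot]
    (h𝒰 : 𝒰 ≤ atTop)
    (hgi : ∀ ν, g ν i₀ = PowerSeries.X)
    (c : ℕ → (Fin n →₀ ℕ) → (Fin n →₀ ℕ) → ℂ) (c₀ : (Fin n →₀ ℕ) → (Fin n →₀ ℕ) → ℂ)
    (hc : ∀ α β, Tendsto (fun ν => c ν α β) atTop (𝓝 (c₀ α β)))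
    (hz : ∀ a b : ℕ, Tendsto (fun ν => pairing (c ν) (g ν) a b) atTop (𝓝 0))
    {δ δ' : (Fin n →₀ ℕ) →₀ ℂ} (hδ : δ ∈ DD g hg0 𝒰) (hδ' : δ' ∈ DD g hg0 𝒰) (M M' : ℕ)
    (hM : ∀ α, ¬ α ≤ bx n M → δ α = 0) (hM' : ∀ α, ¬ α ≤ bx n M' → δ' α = 0) :
    ∑ α ∈ Finset.Iic (bx n M), ∑ β ∈ Finset.Iic (bx n M'),
      c₀ α β * δ α * (starRingEnd ℂ) (δ' β) = 0 := by
  obtain ⟨N, e, he, ht⟩ := hδ
  obtain ⟨N', e', he', ht'⟩ := hδ'
  -- enlarge the boxes
  have key : ∀ (M₁ M₁' : ℕ), M ≤ M₁ → M' ≤ M₁' →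
      ∑ α ∈ Finset.Iic (bx n M), ∑ β ∈ Finset.Iic (bx n M'),
        c₀ α β * δ α * (starRingEnd ℂ) (δ' β) =
      ∑ α ∈ Finset.Iic (bx n M₁), ∑ β ∈ Finset.Iic (bx n M₁'),
        c₀ α β * δ α * (starRingEnd ℂ) (δ' β) := by
    intro M₁ M₁' h1 h2
    rw [← Finset.sum_subset (Finset.Iic_subset_Iic.mpr (bx_mono h1))]
    · apply Finset.sum_congr rfl
      intro α _
      rw [← Finset.sum_subset (Finset.Iic_subset_Iic.mpr (bx_mono h2))]
      intro β _ hβ
      rw [Finset.mem_Iic] at hβ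
      rw [hM' β hβ, map_zero, mul_zero]
    · intro α _ hα
      rw [Finset.mem_Iic] at hα
      apply Finset.sum_eq_zero
      intro β _
      rw [hM α hα, mul_zero, zero_mul]
  rw [key (max M N) (max M' N') (le_max_left _ _) (le_max_left _ _)]
  set B := Finset.Iic (bx n (max M N))
  set B' := Finset.Iic (bx n (max M' N'))
  have lim1 : Tendsto (fun ν => ∑ α ∈ B, ∑ β ∈ B', c ν α β * e ν α * (starRingEnd ℂ) (e' ν β)) 𝒰
      (𝓝 (∑ α ∈ B, ∑ β ∈ B', c₀ α β * δ α * (starRingEnd ℂ) (δ' β))) := by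
    apply tendsto_finsetSum
    intro α _
    apply tendsto_finsetSum
    intro β _
    exact (((hc α β).mono_left h𝒰).mul (ht α)).mul
      ((Complex.continuous_conj.tendsto _).comp (ht' β))
  have lim2 : Tendsto (fun ν => ∑ α ∈ B, ∑ β ∈ B', c ν α β * e ν α * (starRingEnd ℂ) (e' ν β)) 𝒰
      (𝓝 0) := by
    have hrew : ∀ ν, ∑ α ∈ B, ∑ β ∈ B', c ν α β * e ν α * (starRingEnd ℂ) (e' ν β) =
        ∑ a ∈ Finset.range (N + 1), ∑ b ∈ Finset.range (N' + 1),
          e ν (Finsupp.single i₀ a) * (starRingEnd ℂ) (e' ν (Finsupp.single i₀ b)) *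
            pairing (c ν) (g ν) a b := by
      intro ν
      have h1 := DN_coords i₀ (g ν) (hg0 ν) (hgi ν) N (e ν) (he ν)
      have h2 := DN_coords i₀ (g ν) (hg0 ν) (hgi ν) N' (e' ν) (he' ν)
      have h1' : ∀ α, e ν α = ∑ a ∈ Finset.range (N + 1),
          e ν (Finsupp.single i₀ a) * dlE (g ν) (hg0 ν) a α := by
        intro α
        conv_lhs => rw [h1]
        rw [Finsupp.finsetSum_apply]
        rfl
      have h2' : ∀ β, e' ν β = ∑ b ∈ Finset.range (N' + 1),
          e' ν (Finsupp.single i₀ b) * dlE (g ν) (hg0 ν) b β := by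
        intro β
        conv_lhs => rw [h2]
        rw [Finsupp.finsetSum_apply]
        rfl
      have h3 : ∀ α ∈ B, ∀ β ∈ B', c ν α β * e ν α * (starRingEnd ℂ) (e' ν β) =
          ∑ a ∈ Finset.range (N + 1), ∑ b ∈ Finset.range (N' + 1),
            e ν (Finsupp.single i₀ a) * (starRingEnd ℂ) (e' ν (Finsupp.single i₀ b)) *
            (c ν α β * dlE (g ν) (hg0 ν) a α * (starRingEnd ℂ) (dlE (g ν) (hg0 ν) b β)) := by
        intro α _ β _
        conv_lhs => rw [h1' α, h2' β]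
        rw [mul_assoc, map_sum, Finset.sum_mul_sum, Finset.mul_sum]
        apply Finset.sum_congr rfl
        intro a _
        rw [Finset.mul_sum]
        apply Finset.sum_congr rfl
        intro b _
        rw [map_mul]
        ring
      rw [Finset.sum_congr rfl (fun α hα => Finset.sum_congr rfl (fun β hβ => h3 α hα β hβ))]
      have h4 : ∀ a ∈ Finset.range (N + 1), ∀ b ∈ Finset.range (N' + 1),
          e ν (Finsupp.single i₀ a) * (starRingEnd ℂ) (e' ν (Finsupp.single i₀ b)) *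
            pairing (c ν) (g ν) a b = ∑ α ∈ B, ∑ β ∈ B',
              e ν (Finsupp.single i₀ a) * (starRingEnd ℂ) (e' ν (Finsupp.single i₀ b)) *
            (c ν α β * dlE (g ν) (hg0 ν) a α * (starRingEnd ℂ) (dlE (g ν) (hg0 ν) b β)) := by
        intro a ha b hb
        rw [tendsto_zero_pairing_aux (c ν) (g ν) (hg0 ν) (N := max M N) (N' := max M' N')
          (by have := Finset.mem_range.mp ha; omega) (by have := Finset.mem_range.mp hb; omega)]
        rw [Finset.mul_sum]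
        apply Finset.sum_congr rfl
        intro α _
        rw [Finset.mul_sum]
      rw [Finset.sum_congr rfl (fun a ha => Finset.sum_congr rfl (fun b hb => h4 a ha b hb))]
      rw [Finset.sum_congr rfl (fun α _ => (Finset.sum_comm.trans
        (Finset.sum_congr rfl (fun a _ => Finset.sum_comm))))]
      rw [Finset.sum_comm]
      apply Finset.sum_congr rfl
      intro a _
      rw [Finset.sum_comm]
    rw [tendsto_congr hrew]
    have : (0 : ℂ) = ∑ a ∈ Finset.range (N + 1), ∑ b ∈ Finset.range (N' + 1),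
        δ (Finsupp.single i₀ a) * (starRingEnd ℂ) (δ' (Finsupp.single i₀ b)) * 0 := by simp
    rw [this]
    apply tendsto_finsetSum
    intro a _
    apply tendsto_finsetSum
    intro b _
    exact ((ht _).mul ((Complex.continuous_conj.tendsto _).comp (ht' _))).mul
      ((hz a b).mono_left h𝒰)
  exact tendsto_nhds_unique lim1 lim2


/-! ### Infinite dimension -/

theorem linIndep_dlE {n : ℕ} (i₀ : Fin n) (h : Fin n → PowerSeries ℂ)
    (hh : ∀ i, PowerSeries.constantCoeff (h i) = 0)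
    (hi : h i₀ = PowerSeries.X) (N : ℕ) :
    LinearIndependent ℂ (fun j : Fin (N + 1) => dlE h hh j) := by
  rw [Fintype.linearIndependent_iff]
  intro w hw k
  have := DFunLike.congr_fun hw (Finsupp.single i₀ (k : ℕ))
  rw [Finsupp.finsetSum_apply] at this
  simp only [Finsupp.smul_apply, dlE_apply, dl_single i₀ h hi, Finsupp.coe_zero, Pi.zero_apply,
    smul_eq_mul] at this
  rw [Finset.sum_eq_single k] at this
  · simpa using this
  · intro b _ hb
    rw [if_neg (fun h' => hb (Fin.ext h')), mul_zero]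
  · simp

/-- restriction to a box, as an element of a Euclidean space -/
noncomputable def rst (n N : ℕ) : ((Fin n →₀ ℕ) →₀ ℂ) →ₗ[ℂ]
    EuclideanSpace ℂ (Finset.Iic (bx n N)) where
  toFun δ := WithLp.toLp 2 (fun α => δ α)
  map_add' x y := by ext; simp
  map_smul' c x := by ext; simp

/-- extension by zero -/
noncomputable def xt (n N : ℕ) : EuclideanSpace ℂ (Finset.Iic (bx n N)) →ₗ[ℂ]
    ((Fin n →₀ ℕ) →₀ ℂ) where
  toFun x := Finsupp.onFinset (Finset.Iic (bx n N))
    (fun α => if h : α ∈ Finset.Iic (bx n N) then x ⟨α, h⟩ else 0) (by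
      intro α hα
      by_contra h
      exact hα (dif_neg h))
  map_add' x y := by
    ext α
    by_cases h : α ≤ bx n N <;> simp [h]
  map_smul' c x := by
    ext α
    by_cases h : α ≤ bx n N <;> simp [h]

theorem xt_rst {n N : ℕ} (δ : (Fin n →₀ ℕ) →₀ ℂ) (hδ : ∀ α, ¬ α ≤ bx n N → δ α = 0) :
    xt n N (rst n N δ) = δ := by
  ext α
  by_cases h : α ≤ bx n N
  · simp [xt, rst, h]
  · simp [xt, rst, h, hδ α h]

theorem rst_xt {n N : ℕ} (x : EuclideanSpace ℂ (Finset.Iic (bx n N))) :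
    rst n N (xt n N x) = x := by
  ext α
  have := Finset.mem_Iic.mp α.2
  simp [xt, rst, this]

theorem exists_limit_family {n : ℕ} (i₀ : Fin n) (g : ℕ → Fin n → PowerSeries ℂ)
    (hg0 : ∀ ν i, PowerSeries.constantCoeff (g ν i) = 0) (𝒰 : Ultrafilter ℕ)
    (hgi : ∀ ν, g ν i₀ = PowerSeries.X) (N : ℕ) :
    ∃ δ : Fin (N + 1) → ((Fin n →₀ ℕ) →₀ ℂ), LinearIndependent ℂ δ ∧
      ∀ k, δ k ∈ DD g hg0 𝒰 := by
  -- orthonormal basis for each ν
  have h1 : ∀ ν, ∃ u : Fin (N + 1) → EuclideanSpace ℂ (Finset.Iic (bx n N)),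
      Orthonormal ℂ u ∧ ∀ k, xt n N (u k) ∈ DN (g ν) (hg0 ν) N := by
    intro ν
    let K := (DN (g ν) (hg0 ν) N).map (rst n N)
    have hK : Module.finrank ℂ K = N + 1 := by
      have e1 : K = Submodule.span ℂ
          (Set.range (fun j : Fin (N + 1) => rst n N (dlE (g ν) (hg0 ν) j))) := by
        show (DN (g ν) (hg0 ν) N).map (rst n N) = _
        unfold DN
        rw [Submodule.map_span]
        congr 1
        ext y
        constructor
        · rintro ⟨_, ⟨j, hj, rfl⟩, rfl⟩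
          exact ⟨⟨j, Nat.lt_succ_of_le hj⟩, rfl⟩
        · rintro ⟨j, rfl⟩
          exact ⟨_, ⟨j, Nat.le_of_lt_succ j.2, rfl⟩, rfl⟩
      have e2 : LinearIndependent ℂ
          (fun j : Fin (N + 1) => rst n N (dlE (g ν) (hg0 ν) j)) := by
        apply LinearIndependent.of_comp (xt n N)
        have e3 : (⇑(xt n N) ∘ fun j : Fin (N + 1) => rst n N (dlE (g ν) (hg0 ν) j)) =
            fun j : Fin (N + 1) => dlE (g ν) (hg0 ν) j := by
          funext j
          show xt n N (rst n N (dlE (g ν) (hg0 ν) j)) = _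
          apply xt_rst
          intro α hα
          apply dl_eq_zero (hg0 ν)
          intro h'
          exact hα (h'.trans (bx_mono (Nat.le_of_lt_succ j.2)))
        rw [e3]
        exact linIndep_dlE i₀ (g ν) (hg0 ν) (hgi ν) N
      rw [e1, finrank_span_eq_card e2, Fintype.card_fin]
    let b := (stdOrthonormalBasis ℂ K).reindex (finCongr hK)
    refine ⟨fun k => (b k : EuclideanSpace ℂ (Finset.Iic (bx n N))), ?_, ?_⟩
    · exact b.orthonormal.comp_linearIsometry K.subtypeₗᵢ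
    · intro k
      obtain ⟨δ, hδ, hδ'⟩ := (b k).2
      show xt n N (b k : EuclideanSpace ℂ (Finset.Iic (bx n N))) ∈ _
      rw [← hδ', xt_rst]
      · exact hδ
      · exact fun α hα => supp_DN _ _ _ _ hδ α hα
  choose u hu hu' using h1
  have h2 : ∀ k, ∃ x : EuclideanSpace ℂ (Finset.Iic (bx n N)),
      Tendsto (fun ν => u ν k) 𝒰 (𝓝 x) := by
    intro k
    have hc : IsCompact (Metric.closedBall (0 : EuclideanSpace ℂ (Finset.Iic (bx n N))) 1) :=
      isCompact_closedBall _ _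
    obtain ⟨x, _, hx⟩ := hc.ultrafilter_le_nhds (𝒰.map (fun ν => u ν k)) (by
      rw [Ultrafilter.coe_map, Filter.le_principal_iff, Filter.mem_map]
      apply Filter.univ_mem'
      intro ν
      simp [(hu ν).1 k])
    exact ⟨x, hx⟩
  choose x hx using h2
  have h3 : Orthonormal ℂ x := by
    rw [orthonormal_iff_ite]
    intro i j
    have h4 : Tendsto (fun ν => inner ℂ (u ν i) (u ν j)) 𝒰 (𝓝 (inner ℂ (x i) (x j))) :=
      (hx i).inner (hx j)
    have h5 : (fun ν => inner ℂ (u ν i) (u ν j)) = fun _ => if i = j then (1 : ℂ) else 0 := by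
      funext ν
      exact (orthonormal_iff_ite.mp (hu ν)) i j
    rw [h5] at h4
    exact tendsto_nhds_unique h4 tendsto_const_nhds
  refine ⟨fun k => xt n N (x k), ?_, ?_⟩
  · apply h3.linearIndependent.map' (xt n N)
    rw [LinearMap.ker_eq_bot]
    exact Function.LeftInverse.injective rst_xt
  · intro k
    refine ⟨N, fun ν => xt n N (u ν k), fun ν => hu' ν k, fun α => ?_⟩
    by_cases h : α ∈ Finset.Iic (bx n N)
    · have e : ∀ y : EuclideanSpace ℂ (Finset.Iic (bx n N)), xt n N y α = y ⟨α, h⟩ := by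
        intro y
        exact dif_pos h
      simp only [e]
      have hcont : Continuous (fun y : EuclideanSpace ℂ (Finset.Iic (bx n N)) => y ⟨α, h⟩) := by
        fun_prop
      exact (hcont.tendsto _).comp (hx k)
    · have e : ∀ y : EuclideanSpace ℂ (Finset.Iic (bx n N)), xt n N y α = 0 := by
        intro y
        exact dif_neg h
      simp only [e]
      exact tendsto_const_nhds


/-! ### The annihilator ideal -/

/-- Evaluation of a finitely supported functional on a power series. -/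
noncomputable def evf {n : ℕ} (f : MvPowerSeries (Fin n) ℂ) : ((Fin n →₀ ℕ) →₀ ℂ) →ₗ[ℂ] ℂ :=
  Finsupp.lsum ℂ (fun α => (MvPowerSeries.coeff α f) • (LinearMap.id : ℂ →ₗ[ℂ] ℂ))

theorem evf_apply {n : ℕ} (f : MvPowerSeries (Fin n) ℂ) (δ : (Fin n →₀ ℕ) →₀ ℂ) :
    evf f δ = δ.sum (fun α d => MvPowerSeries.coeff α f * d) := by
  simp only [evf, Finsupp.lsum_apply]
  rfl

theorem evf_eq_sum {n : ℕ} (f : MvPowerSeries (Fin n) ℂ) (δ : (Fin n →₀ ℕ) →₀ ℂ) (N : ℕ)
    (hδ : ∀ α, ¬ α ≤ bx n N → δ α = 0) :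
    evf f δ = ∑ α ∈ Finset.Iic (bx n N), MvPowerSeries.coeff α f * δ α := by
  rw [evf_apply, Finsupp.sum_of_support_subset]
  · intro α hα
    rw [Finset.mem_Iic]
    by_contra h
    exact (Finsupp.mem_support_iff.mp hα) (hδ α h)
  · intro i _
    exact mul_zero _

theorem evf_add {n : ℕ} (f f' : MvPowerSeries (Fin n) ℂ) : evf (f + f') = evf f + evf f' := by
  ext α
  simp [evf]

theorem evf_smul {n : ℕ} (c : ℂ) (f : MvPowerSeries (Fin n) ℂ) : evf (c • f) = c • evf f := by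
  ext α
  simp [evf]


/-- shift by a multi-index -/
noncomputable def shm {n : ℕ} (p : Fin n →₀ ℕ) : ((Fin n →₀ ℕ) →₀ ℂ) →ₗ[ℂ] ((Fin n →₀ ℕ) →₀ ℂ) :=
  Finsupp.lcomapDomain (fun α => α + p) (fun _ _ h => add_right_cancel h)

@[simp] theorem shm_apply {n : ℕ} (p : Fin n →₀ ℕ) (δ : (Fin n →₀ ℕ) →₀ ℂ) (α : Fin n →₀ ℕ) :
    shm p δ α = δ (α + p) := rfl

theorem shm_mem {n : ℕ} (D : Submodule ℂ ((Fin n →₀ ℕ) →₀ ℂ))
    (hD : ∀ l, ∀ δ ∈ D, shf l δ ∈ D) (p : Fin n →₀ ℕ) : ∀ δ ∈ D, shm p δ ∈ D := by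
  induction p using Finsupp.induction_linear with
  | zero =>
    intro δ hδ
    have : shm 0 δ = δ := by ext α; simp
    rw [this]; exact hδ
  | add p q hp hq =>
    intro δ hδ
    have : shm (p + q) δ = shm p (shm q δ) := by
      ext α; simp [add_assoc]
    rw [this]
    exact hp _ (hq _ hδ)
  | single l b =>
    induction b with
    | zero =>
      intro δ hδ
      have : shm (Finsupp.single l 0) δ = δ := by ext α; simp
      rw [this]; exact hδ
    | succ b ih =>
      intro δ hδ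
      have : shm (Finsupp.single l (b + 1)) δ = shf l (shm (Finsupp.single l b) δ) := by
        ext α
        simp only [shm_apply, shf_apply]
        congr 1
        rw [add_assoc, ← Finsupp.single_add, add_comm 1 b]
      rw [this]
      exact hD l _ (ih δ hδ)

theorem evf_mul {n : ℕ} (f f' : MvPowerSeries (Fin n) ℂ) (δ : (Fin n →₀ ℕ) →₀ ℂ) (N : ℕ)
    (hδ : ∀ α, ¬ α ≤ bx n N → δ α = 0) :
    evf (f' * f) δ = ∑ p ∈ Finset.Iic (bx n N), MvPowerSeries.coeff p f' * evf f (shm p δ) := by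
  classical
  rw [evf_eq_sum (f' * f) δ N hδ]
  have h1 : ∀ p ∈ Finset.Iic (bx n N), MvPowerSeries.coeff p f' * evf f (shm p δ) =
      ∑ q ∈ Finset.Iic (bx n N), MvPowerSeries.coeff p f' * (MvPowerSeries.coeff q f *
        δ (q + p)) := by
    intro p _
    rw [evf_eq_sum f (shm p δ) N, Finset.mul_sum]
    · rfl
    · intro α hα
      rw [shm_apply]
      apply hδ
      intro h
      exact hα (le_trans (le_add_of_nonneg_right (zero_le)) h)
  rw [Finset.sum_congr rfl h1, ← Finset.sum_product']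
  have h2 : ∑ x ∈ Finset.Iic (bx n N) ×ˢ Finset.Iic (bx n N),
      MvPowerSeries.coeff x.1 f' * (MvPowerSeries.coeff x.2 f * δ (x.2 + x.1)) =
      ∑ x ∈ (Finset.Iic (bx n N) ×ˢ Finset.Iic (bx n N)).filter (fun x => x.2 + x.1 ≤ bx n N),
      MvPowerSeries.coeff x.1 f' * (MvPowerSeries.coeff x.2 f * δ (x.2 + x.1)) := by
    rw [Finset.sum_filter_of_ne]
    intro x _ hx
    by_contra h
    apply hx
    rw [hδ _ h, mul_zero, mul_zero]
  rw [h2]
  have h3 := Finset.sum_fiberwise_of_maps_to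
    (s := (Finset.Iic (bx n N) ×ˢ Finset.Iic (bx n N)).filter (fun x => x.2 + x.1 ≤ bx n N))
    (t := Finset.Iic (bx n N)) (g := fun x : (Fin n →₀ ℕ) × (Fin n →₀ ℕ) => x.2 + x.1)
    (fun x hx => Finset.mem_Iic.mpr (Finset.mem_filter.mp hx).2)
    (fun x => MvPowerSeries.coeff x.1 f' * (MvPowerSeries.coeff x.2 f * δ (x.2 + x.1)))
  rw [← h3]
  · apply Finset.sum_congr rfl
    intro α hα
    rw [MvPowerSeries.coeff_mul, Finset.sum_mul]
    apply Finset.sum_congr
    · ext x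
      simp only [Finset.HasAntidiagonal.mem_antidiagonal, Finset.mem_filter, Finset.mem_product,
        Finset.mem_Iic] at hα ⊢
      constructor
      · intro h
        have e : x.2 + x.1 = α := by rw [add_comm]; exact h
        refine ⟨⟨⟨?_, ?_⟩, ?_⟩, e⟩
        · refine le_trans ?_ hα
          rw [← h]; exact le_add_of_nonneg_right zero_le
        · refine le_trans ?_ hα
          rw [← h]; exact le_add_of_nonneg_left zero_le
        · rw [e]; exact hα
      · intro h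
        rw [add_comm]; exact h.2
    · intro x hx
      have := (Finset.mem_filter.mp hx).2
      rw [this]
      ring

theorem exists_box {n : ℕ} (δ : (Fin n →₀ ℕ) →₀ ℂ) : ∃ N, ∀ α, ¬ α ≤ bx n N → δ α = 0 := by
  classical
  refine ⟨∑ α ∈ δ.support, ∑ i, α i, ?_⟩
  intro α hα
  by_contra h
  apply hα
  rw [le_bx]
  intro i
  have h1 : α ∈ δ.support := Finsupp.mem_support_iff.mpr h
  calc α i ≤ ∑ i, α i := Finset.single_le_sum (fun _ _ => Nat.zero_le _) (Finset.mem_univ i)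
    _ ≤ _ := Finset.single_le_sum (f := fun α : Fin n →₀ ℕ => ∑ i, α i)
      (fun _ _ => Nat.zero_le _) h1

/-- The annihilator ideal of a shift-stable space of functionals. -/
noncomputable def annI {n : ℕ} (D : Submodule ℂ ((Fin n →₀ ℕ) →₀ ℂ))
    (hD : ∀ l, ∀ δ ∈ D, shf l δ ∈ D) : Ideal (MvPowerSeries (Fin n) ℂ) where
  carrier := {f | ∀ δ ∈ D, evf f δ = 0}
  zero_mem' := by
    intro δ _
    rw [evf_apply]
    simp
  add_mem' := by
    intro f f' hf hf' δ hδ
    rw [evf_add, LinearMap.add_apply, hf δ hδ, hf' δ hδ, add_zero]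
  smul_mem' := by
    intro f' f hf δ hδ
    obtain ⟨N, hN⟩ := exists_box δ
    rw [smul_eq_mul, evf_mul f f' δ N hN]
    apply Finset.sum_eq_zero
    intro p _
    rw [hf _ (shm_mem D hD p δ hδ), mul_zero]

theorem mem_of_ann {n : ℕ} (D : Submodule ℂ ((Fin n →₀ ℕ) →₀ ℂ))
    (hD : ∀ l, ∀ δ ∈ D, shf l δ ∈ D) (δ₀ : (Fin n →₀ ℕ) →₀ ℂ)
    (h : ∀ f ∈ annI D hD, evf f δ₀ = 0) : δ₀ ∈ D := by
  by_contra hn
  obtain ⟨φ, hφ, hφD⟩ := Submodule.exists_le_ker_of_notMem hn
  let f : MvPowerSeries (Fin n) ℂ := fun α => φ (Finsupp.single α 1)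
  have hf : evf f = φ := by
    apply Finsupp.lhom_ext
    intro α d
    rw [evf_apply, Finsupp.sum_single_index (mul_zero _)]
    have e1 : (Finsupp.single α d : (Fin n →₀ ℕ) →₀ ℂ) = d • Finsupp.single α 1 := by simp
    rw [e1, map_smul, smul_eq_mul, mul_comm]
    rfl
  apply hφ
  rw [← hf]
  apply h
  intro δ hδ
  rw [hf]
  exact hφD hδ

/-- evaluation as a map from functionals to the dual -/
noncomputable def evd (n : ℕ) : ((Fin n →₀ ℕ) →₀ ℂ) →ₗ[ℂ]
    Module.Dual ℂ (MvPowerSeries (Fin n) ℂ) where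
  toFun δ :=
    { toFun := fun f => evf f δ
      map_add' := fun f f' => by rw [evf_add]; rfl
      map_smul' := fun c f => by rw [evf_smul]; rfl }
  map_add' δ δ' := by ext f; simp
  map_smul' c δ := by ext f; simp

theorem evd_injective (n : ℕ) : Function.Injective (evd n) := by
  rw [← LinearMap.ker_eq_bot, LinearMap.ker_eq_bot']
  intro δ hδ
  ext α
  have h := LinearMap.congr_fun hδ (MvPowerSeries.monomial α 1)
  have h' : evf (MvPowerSeries.monomial α (1 : ℂ)) δ = 0 := h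
  classical
  rw [evf_apply] at h'
  simp only [MvPowerSeries.coeff_monomial] at h'
  rw [Finsupp.sum_eq_single α] at h'
  · simpa using h'
  · intro b _ hb
    rw [if_neg hb, zero_mul]
  · intro _
    simp

theorem annI_not_finite {n : ℕ} (D : Submodule ℂ ((Fin n →₀ ℕ) →₀ ℂ))
    (hD : ∀ l, ∀ δ ∈ D, shf l δ ∈ D)
    (hinf : ∀ N : ℕ, ∃ δ : Fin (N + 1) → ((Fin n →₀ ℕ) →₀ ℂ), LinearIndependent ℂ δ ∧
      ∀ k, δ k ∈ D) : ¬ Module.Finite ℂ (MvPowerSeries (Fin n) ℂ ⧸ annI D hD) := by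
  intro hfin
  let W := (annI D hD).restrictScalars ℂ
  have hfin' : Module.Finite ℂ (MvPowerSeries (Fin n) ℂ ⧸ W) :=
    Module.Finite.equiv (Submodule.Quotient.restrictScalarsEquiv ℂ (annI D hD)).symm
  have hfin'' : Module.Finite ℂ W.dualAnnihilator :=
    Module.Finite.equiv (Submodule.dualQuotEquivDualAnnihilator W)
  obtain ⟨δ, hδ, hδD⟩ := hinf (Module.finrank ℂ W.dualAnnihilator)
  have h1 : LinearIndependent ℂ (fun k => evd n (δ k)) :=
    hδ.map' (evd n) (LinearMap.ker_eq_bot.mpr (evd_injective n))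
  have h2 : ∀ k, evd n (δ k) ∈ W.dualAnnihilator := by
    intro k
    rw [Submodule.mem_dualAnnihilator]
    intro f hf
    exact hf (δ k) (hδD k)
  have h3 : LinearIndependent ℂ (fun k => (⟨evd n (δ k), h2 k⟩ : W.dualAnnihilator)) := by
    apply LinearIndependent.of_comp W.dualAnnihilator.subtype
    exact h1
  have := h3.fintype_card_le_finrank
  rw [Fintype.card_fin] at this
  omega


/-! ### Algebra homomorphisms to one-variable power series -/

theorem psi_local {n : ℕ} (ψ : MvPowerSeries (Fin n) ℂ →ₐ[ℂ] PowerSeries ℂ) (i : Fin n) :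
    PowerSeries.constantCoeff (ψ (MvPowerSeries.X i)) = 0 := by
  by_contra h
  set a := PowerSeries.constantCoeff (ψ (MvPowerSeries.X i)) with ha
  have h1 : IsUnit (MvPowerSeries.X i - algebraMap ℂ (MvPowerSeries (Fin n) ℂ) a) := by
    rw [MvPowerSeries.isUnit_iff_constantCoeff]
    rw [map_sub, MvPowerSeries.constantCoeff_X, zero_sub, IsUnit.neg_iff]
    rw [MvPowerSeries.algebraMap_apply]
    simpa using h
  have h2 := h1.map ψ
  rw [map_sub, AlgHom.commutes, PowerSeries.isUnit_iff_constantCoeff, map_sub, ← ha] at h2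
  have h3 : PowerSeries.constantCoeff (algebraMap ℂ (PowerSeries ℂ) a) = a := by
    rw [PowerSeries.algebraMap_apply]
    simp
  rw [h3, sub_self] at h2
  simp at h2

/-- The part of `f` divided by `X i`. -/
noncomputable def part {n : ℕ} (f : MvPowerSeries (Fin n) ℂ) (i : Fin n) :
    MvPowerSeries (Fin n) ℂ :=
  fun β => if ∀ i' < i, β i' = 0 then MvPowerSeries.coeff (β + Finsupp.single i 1) f else 0

theorem coeff_part {n : ℕ} (f : MvPowerSeries (Fin n) ℂ) (i : Fin n) (β : Fin n →₀ ℕ)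
    [Decidable (∀ i' < i, β i' = 0)] :
    MvPowerSeries.coeff β (part f i) =
      if ∀ i' < i, β i' = 0 then MvPowerSeries.coeff (β + Finsupp.single i 1) f else 0 := by
  refine (MvPowerSeries.coeff_apply _ _).trans ?_
  unfold part
  split_ifs <;> rfl

theorem eq_sum_part {n : ℕ} (f : MvPowerSeries (Fin n) ℂ)
    (hf : MvPowerSeries.coeff 0 f = 0) :
    f = ∑ i, MvPowerSeries.X i * part f i := by
  classical
  ext α
  rw [map_sum]
  simp only [MvPowerSeries.X, MvPowerSeries.coeff_monomial_mul, coeff_part, one_mul]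
  by_cases h0 : α = 0
  · rw [h0, hf]
    symm
    apply Finset.sum_eq_zero
    intro i _
    rw [if_neg]
    intro h
    have := h i
    simp at this
  · -- minimal index
    have hex : ∃ i, α i ≠ 0 := by
      by_contra h
      push Not at h
      exact h0 (Finsupp.ext h)
    obtain ⟨m, hm, hmin⟩ : ∃ m, α m ≠ 0 ∧ ∀ i' < m, α i' = 0 := by
      have hne : (Finset.univ.filter (fun i => α i ≠ 0)).Nonempty := by
        obtain ⟨i, hi⟩ := hex
        exact ⟨i, Finset.mem_filter.mpr ⟨Finset.mem_univ _, hi⟩⟩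
      refine ⟨_, (Finset.mem_filter.mp (Finset.min'_mem _ hne)).2, ?_⟩
      intro i' hi'
      by_contra h
      have := Finset.min'_le (Finset.univ.filter (fun i => α i ≠ 0)) i'
        (Finset.mem_filter.mpr ⟨Finset.mem_univ _, h⟩)
      exact absurd hi' (not_lt.mpr this)
    rw [Finset.sum_eq_single m]
    · have hle : Finsupp.single m 1 ≤ α := by
        rw [Finsupp.single_le_iff]
        omega
      rw [if_pos hle, if_pos, tsub_add_cancel_of_le hle]
      intro i' hi'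
      rw [Finsupp.tsub_apply, hmin i' hi', zero_tsub]
    · intro b _ hb
      by_cases hle : Finsupp.single b 1 ≤ α
      · rw [if_pos hle, if_neg]
        intro h
        rw [Finsupp.single_le_iff] at hle
        rcases lt_or_gt_of_ne hb with h1 | h1
        · have := hmin b h1
          omega
        · have := h m h1
          rw [Finsupp.tsub_apply, Finsupp.single_eq_of_ne (ne_of_lt h1), tsub_zero] at this
          exact hm this
      · rw [if_neg hle]
    · simp

theorem X_pow_dvd_psi {n : ℕ} (ψ : MvPowerSeries (Fin n) ℂ →ₐ[ℂ] PowerSeries ℂ) (m : ℕ) :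
    ∀ f : MvPowerSeries (Fin n) ℂ, (∀ α : Fin n →₀ ℕ, ∑ i, α i < m → MvPowerSeries.coeff α f = 0) →
      (PowerSeries.X : PowerSeries ℂ) ^ m ∣ ψ f := by
  classical
  induction m with
  | zero => intro f _; simp
  | succ m ih =>
    intro f hf
    rw [eq_sum_part f (hf 0 (by simp)), map_sum]
    apply Finset.dvd_sum
    intro i _
    rw [map_mul, pow_succ']
    apply mul_dvd_mul
    · exact PowerSeries.X_dvd_iff.mpr (psi_local ψ i)
    · apply ih
      intro α hα
      rw [coeff_part]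
      split_ifs with h
      · apply hf
        simp only [Finsupp.add_apply, Finset.sum_add_distrib]
        have : ∑ x, (Finsupp.single i 1 : Fin n →₀ ℕ) x = 1 := by
          rw [Finset.sum_eq_single i] <;> simp +contextual
        omega
      · rfl

theorem coeff_psi {n : ℕ} (ψ : MvPowerSeries (Fin n) ℂ →ₐ[ℂ] PowerSeries ℂ)
    (f : MvPowerSeries (Fin n) ℂ) (j : ℕ) :
    PowerSeries.coeff j (ψ f) =
      evf f (dlE (fun i => ψ (MvPowerSeries.X i)) (fun i => psi_local ψ i) j) := by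
  classical
  set P : MvPolynomial (Fin n) ℂ := MvPowerSeries.trunc' ℂ (bx n j) f with hP
  have h1 : (PowerSeries.X : PowerSeries ℂ) ^ (j + 1) ∣
      ψ (f - (P : MvPowerSeries (Fin n) ℂ)) := by
    apply X_pow_dvd_psi
    intro α hα
    rw [map_sub, MvPolynomial.coeff_coe, hP, MvPowerSeries.coeff_trunc', if_pos, sub_self]
    rw [le_bx]
    intro i
    have := Finset.single_le_sum (f := fun i => α i) (fun _ _ => Nat.zero_le _)
      (Finset.mem_univ i)
    omega
  have h2 : PowerSeries.coeff j (ψ f) = PowerSeries.coeff j (ψ (P : MvPowerSeries (Fin n) ℂ)) := by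
    have := (PowerSeries.X_pow_dvd_iff.mp h1) j (Nat.lt_succ_self j)
    rw [map_sub, map_sub, sub_eq_zero] at this
    exact this
  have h3 : ψ (P : MvPowerSeries (Fin n) ℂ) =
      MvPolynomial.aeval (fun i => ψ (MvPowerSeries.X i)) P := by
    have e : (ψ.comp (MvPolynomial.coeToMvPowerSeries.algHom ℂ)) =
        MvPolynomial.aeval (fun i => ψ (MvPowerSeries.X i)) := by
      apply MvPolynomial.algHom_ext
      intro i
      rw [AlgHom.comp_apply, MvPolynomial.coeToMvPowerSeries.algHom_apply, MvPolynomial.aeval_X]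
      simp
    have := DFunLike.congr_fun e P
    rw [← this, AlgHom.comp_apply, MvPolynomial.coeToMvPowerSeries.algHom_apply]
    simp
  rw [h2, h3, MvPolynomial.aeval_def, MvPolynomial.eval₂_eq', map_sum]
  rw [evf_eq_sum f _ j (fun α hα => dl_eq_zero (fun i => psi_local ψ i) hα)]
  have hsub : P.support ⊆ Finset.Iic (bx n j) := by
    intro α hα
    rw [Finset.mem_Iic]
    by_contra h
    rw [MvPolynomial.mem_support_iff, hP, MvPowerSeries.coeff_trunc', if_neg h] at hα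
    exact hα rfl
  rw [Finset.sum_subset hsub]
  · apply Finset.sum_congr rfl
    intro α hα
    rw [hP, MvPowerSeries.coeff_trunc', if_pos (Finset.mem_Iic.mp hα), dlE_apply, dl]
    rw [← Algebra.smul_def, PowerSeries.coeff_smul]
    rfl
  · intro α _ hα
    rw [MvPolynomial.notMem_support_iff] at hα
    rw [hα]
    simp

theorem limit_curve
    {n : ℕ}
    (curve_lemma : ∀ (b : Ideal (MvPowerSeries (Fin n) ℂ)),
      ¬ Module.Finite ℂ (MvPowerSeries (Fin n) ℂ ⧸ b) →
      ∃ ψ : MvPowerSeries (Fin n) ℂ →ₐ[ℂ] PowerSeries ℂ,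
        (∀ f ∈ b, ψ f = 0) ∧ ∃ i, ψ (MvPowerSeries.X i) ≠ 0)
    (i₀ : Fin n) (g : ℕ → Fin n → PowerSeries ℂ)
    (hg0 : ∀ ν i, PowerSeries.constantCoeff (g ν i) = 0)
    (hgi : ∀ ν, g ν i₀ = PowerSeries.X)
    (c : ℕ → (Fin n →₀ ℕ) → (Fin n →₀ ℕ) → ℂ) (c₀ : (Fin n →₀ ℕ) → (Fin n →₀ ℕ) → ℂ)
    (hc : ∀ α β, Tendsto (fun ν => c ν α β) atTop (𝓝 (c₀ α β)))
    (hz : ∀ a b : ℕ, Tendsto (fun ν => pairing (c ν) (g ν) a b) atTop (𝓝 0)) :
    ∃ ψ : Fin n → PowerSeries ℂ, (∀ i, PowerSeries.constantCoeff (ψ i) = 0) ∧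
      (∃ i, ψ i ≠ 0) ∧ ∀ a b, pairing c₀ ψ a b = 0 := by
  let 𝒰 : Ultrafilter ℕ := Filter.hyperfilter ℕ
  have h𝒰 : (𝒰 : Filter ℕ) ≤ atTop := Nat.hyperfilter_le_atTop
  let D := DD g hg0 𝒰
  have hD : ∀ l, ∀ δ ∈ D, shf l δ ∈ D := fun l δ hδ => shf_mem_DD l hδ
  have hinf := exists_limit_family i₀ g hg0 𝒰 hgi
  obtain ⟨ψ, hψ, i, hi⟩ := curve_lemma (annI D hD) (annI_not_finite D hD hinf)
  refine ⟨fun i => ψ (MvPowerSeries.X i), fun i => psi_local ψ i, ⟨i, hi⟩, ?_⟩
  have hmem : ∀ j, dlE (fun i => ψ (MvPowerSeries.X i)) (fun i => psi_local ψ i) j ∈ D := by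
    intro j
    apply mem_of_ann D hD
    intro f hf
    rw [← coeff_psi, hψ f hf, map_zero]
  intro a b
  rw [tendsto_zero_pairing_aux c₀ _ (fun i => psi_local ψ i) (le_refl a) (le_refl b)]
  exact form_DD i₀ h𝒰 hgi c c₀ hc hz (hmem a) (hmem b) a b
    (fun α hα => dl_eq_zero (fun i => psi_local ψ i) hα)
    (fun α hα => dl_eq_zero (fun i => psi_local ψ i) hα)

end Pool.Agent.Work.MP_80f671_an
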