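import Pool.Agent.Work.MP_80f671_an.Germ

/-!
From a domain with a defining function to the local theorem.
-/

namespace Pool.Agent.Work.MP_80f671_an

open Filter Topology ContDiff

variable {n : ℕ} {x₀ : Fin n → ℂ}

/-- The defining function vanishes at a boundary point. -/
lemma zero_of_frontier {Ω : Set (Fin n → ℂ)} {r : (Fin n → ℂ) → ℝ} (hx₀ : x₀ ∈ frontier Ω)
    (hc : ContinuousAt r x₀) (hmem : ∀ᶠ y in 𝓝 x₀, y ∈ Ω ↔ r y < 0) : r x₀ = 0 := by
  rw [frontier_eq_closure_inter_closure] at hx₀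
  obtain ⟨h1, h2⟩ := hx₀
  rw [mem_closure_iff_frequently] at h1 h2
  apply le_antisymm
  · by_contra hcon
    rw [not_le] at hcon
    have h3 : ∀ᶠ y in 𝓝 x₀, 0 < r y := hc.eventually (lt_mem_nhds hcon)
    obtain ⟨y, hy, hy1, hy2⟩ := (h1.and_eventually (hmem.and h3)).exists
    exact absurd (hy1.1 hy) (not_lt.2 hy2.le)
  · by_contra hcon
    rw [not_le] at hcon
    have h3 : ∀ᶠ y in 𝓝 x₀, r y < 0 := hc.eventually (gt_mem_nhds hcon)
    obtain ⟨y, hy, hy1, hy2⟩ := (h2.and_eventually (hmem.and h3)).exists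
    exact hy (hy1.2 hy2)

/-- Zeros of the defining function near a boundary point are boundary points. -/
lemma frontier_of_zero {Ω : Set (Fin n → ℂ)} {r : (Fin n → ℂ) → ℝ}
    (hs : ∀ᶠ y in 𝓝 x₀, ContDiffAt ℝ ∞ r y) (hmem : ∀ᶠ y in 𝓝 x₀, y ∈ Ω ↔ r y < 0)
    (hdr : fderiv ℝ r x₀ ≠ 0) : ∀ᶠ y in 𝓝 x₀, r y = 0 → y ∈ frontier Ω := by
  have hcont : ContinuousAt (fun y => fderiv ℝ r y) x₀ :=
    ((hs.self_of_nhds).fderiv_right (m := 0) (by simp)).continuousAt
  have hne : ∀ᶠ y in 𝓝 x₀, fderiv ℝ r y ≠ 0 := hcont.eventually_ne hdr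
  filter_upwards [hne, hmem, eventually_eventually_nhds.2 hmem] with y h1 h2 h3 h4
  rw [frontier_eq_closure_inter_closure]
  constructor
  · rw [mem_closure_iff_frequently]
    by_contra hcon
    rw [not_frequently] at hcon
    apply h1
    have h5 : IsLocalMin r y := by
      filter_upwards [hcon, h3] with z hz hz'
      rw [h4]
      by_contra h6
      exact hz (hz'.2 (not_le.1 h6))
    exact h5.fderiv_eq_zero
  · apply subset_closure
    intro h5
    have := h2.1 h5
    rw [h4] at this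
    exact lt_irrefl _ this

end Pool.Agent.Work.MP_80f671_an
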