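import Pool.Agent.Work.MP_80f671_an.Taylor

/-!
Taylor coefficients of a smooth function along a polynomial curve.
-/

namespace Pool.Agent.Work.MP_80f671_an

open Filter Topology ContDiff Osm

variable {n : ℕ}

/-- Monomials in the components of a polynomial curve. -/
noncomputable def pp (g : Fin n → Polynomial ℂ) (α : Fin n → ℕ) : Polynomial ℂ :=
  ∏ i, g i ^ α i

lemma pp_coeff_zero {g : Fin n → Polynomial ℂ} (hg : ∀ i, (g i).coeff 0 = 0) {α : Fin n → ℕ}
    {a : ℕ} (h : a < ∑ i, α i) : (pp g α).coeff a = 0 := by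
  have h1 : Polynomial.X ^ (∑ i, α i) ∣ pp g α := by
    rw [← Finset.prod_pow_eq_pow_sum]
    refine Finset.prod_dvd_prod_of_dvd _ _ fun i _ => pow_dvd_pow_of_dvd ?_ _
    exact Polynomial.X_dvd_iff.2 (hg i)
  exact Polynomial.X_pow_dvd_iff.1 h1 a h

lemma eval_pp (g : Fin n → Polynomial ℂ) (α : Fin n → ℕ) (t : ℂ) :
    (pp g α).eval t = ∏ i, (g i).eval t ^ α i := by
  rw [pp, Polynomial.eval_prod]
  exact Finset.prod_congr rfl fun i _ => by rw [Polynomial.eval_pow]

/-- The coefficient functional. -/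
noncomputable def wcoef (g : Fin n → Polynomial ℂ) (a b : ℕ) (d : Fin n ⊕ Fin n →₀ ℕ) : ℂ :=
  (pp g (fun i => d (Sum.inl i))).coeff a *
    (starRingEnd ℂ) ((pp g (fun i => d (Sum.inr i))).coeff b)

lemma eval_curve (g : Fin n → Polynomial ℂ) (t : ℂ) (Q : MvPolynomial (Fin n ⊕ Fin n) ℂ) (D : ℕ)
    (hD : ∀ d ∈ Q.support, (pp g (fun i => d (Sum.inl i))).natDegree < D ∧
      (pp g (fun i => d (Sum.inr i))).natDegree < D) :
    MvPolynomial.eval (hk (fun i => (g i).eval t)) Q
      = ∑ p ∈ Finset.range D ×ˢ Finset.range D,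
          (∑ d ∈ Q.support, Q.coeff d * wcoef g p.1 p.2 d) * (t ^ p.1 * (starRingEnd ℂ) t ^ p.2) := by
  rw [MvPolynomial.eval_eq']
  have h1 : ∀ d ∈ Q.support, Q.coeff d * ∏ i, hk (fun i => (g i).eval t) i ^ d i
      = ∑ p ∈ Finset.range D ×ˢ Finset.range D,
          (Q.coeff d * wcoef g p.1 p.2 d) * (t ^ p.1 * (starRingEnd ℂ) t ^ p.2) := by
    intro d hd
    have h2 : ∏ i, hk (fun i => (g i).eval t) i ^ d i
        = (pp g (fun i => d (Sum.inl i))).eval t *
          (starRingEnd ℂ) ((pp g (fun i => d (Sum.inr i))).eval t) := by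
      rw [Fintype.prod_sum_type, eval_pp, eval_pp, map_prod]
      congr 1
      exact Finset.prod_congr rfl fun i _ => by rw [map_pow]; rfl
    rw [h2, Polynomial.eval_eq_sum_range' (hD d hd).1, Polynomial.eval_eq_sum_range' (hD d hd).2,
      map_sum, Finset.sum_mul_sum, Finset.mul_sum, Finset.sum_product]
    refine Finset.sum_congr rfl fun a _ => ?_
    rw [Finset.mul_sum]
    refine Finset.sum_congr rfl fun b _ => ?_
    rw [map_mul, map_pow, wcoef]
    ring
  rw [Finset.sum_congr rfl h1, Finset.sum_comm]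
  exact Finset.sum_congr rfl fun p _ => by rw [Finset.sum_mul]

lemma pairing_eq (f : Osm n) (y : Fin n → ℂ) {g : Fin n → Polynomial ℂ}
    (hg : ∀ i, (g i).coeff 0 = 0) {M a b : ℕ} (h : a + b ≤ M) :
    ∑ d ∈ (tq M f y).support, (tq M f y).coeff d * wcoef g a b d
      = pairing (cf f y) (fun i => (g i : PowerSeries ℂ)) a b := by
  classical
  have hvan : ∀ d : Fin n ⊕ Fin n →₀ ℕ, wcoef g a b d ≠ 0 →
      ∑ i, d (Sum.inl i) ≤ a ∧ ∑ i, d (Sum.inr i) ≤ b := by
    intro d hd
    constructor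
    · by_contra hcon
      apply hd
      rw [wcoef, pp_coeff_zero hg (by omega), zero_mul]
    · by_contra hcon
      apply hd
      rw [wcoef, pp_coeff_zero hg (α := fun i => d (Sum.inr i)) (by omega), map_zero, mul_zero]
  have hdeg : ∀ d : Fin n ⊕ Fin n →₀ ℕ, d.degree = ∑ i, d (Sum.inl i) + ∑ i, d (Sum.inr i) := by
    intro d
    rw [Finsupp.degree_eq_sum, Fintype.sum_sum_type]
  set e := (Finsupp.sumFinsuppEquivProdFinsupp (α := Fin n) (β := Fin n) (γ := ℕ)).symm with he
  set I := Finset.Iic (Finsupp.equivFunOnFinite.symm (fun _ : Fin n => a)) ×ˢ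
    Finset.Iic (Finsupp.equivFunOnFinite.symm (fun _ : Fin n => b)) with hI
  have hmemI : ∀ p : (Fin n →₀ ℕ) × (Fin n →₀ ℕ), p ∈ I ↔ (∀ i, p.1 i ≤ a) ∧ ∀ i, p.2 i ≤ b := by
    intro p
    rw [hI, Finset.mem_product, Finset.mem_Iic, Finset.mem_Iic]
    exact Iff.rfl
  have hR : pairing (cf f y) (fun i => (g i : PowerSeries ℂ)) a b
      = ∑ p ∈ I, tcoef f y (e p) * wcoef g a b (e p) := by
    rw [pairing, hI, Finset.sum_product]
    refine Finset.sum_congr rfl fun α _ => Finset.sum_congr rfl fun β _ => ?_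
    have h1 : ∀ α : Fin n →₀ ℕ, (∏ i, (g i : PowerSeries ℂ) ^ α i)
        = ((pp g α : Polynomial ℂ) : PowerSeries ℂ) := by
      intro α
      rw [pp]
      have := map_prod (Polynomial.coeToPowerSeries.ringHom (R := ℂ)) (fun i => g i ^ α i)
        Finset.univ
      simp only [map_pow, Polynomial.coeToPowerSeries.ringHom_apply] at this
      exact this.symm
    rw [h1, h1, Polynomial.coeff_coe, Polynomial.coeff_coe, cf, wcoef, mul_assoc]
    rfl
  rw [hR]
  have hinj : Set.InjOn e (I : Set ((Fin n →₀ ℕ) × (Fin n →₀ ℕ))) := e.injective.injOn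
  rw [← Finset.sum_image (f := fun d => tcoef f y d * wcoef g a b d) hinj]
  have hL : ∀ d ∈ (tq M f y).support, (tq M f y).coeff d * wcoef g a b d
      = tcoef f y d * wcoef g a b d := by
    intro d hd
    rw [MvPolynomial.mem_support_iff, coeff_tq] at hd
    rw [coeff_tq, if_pos]
    by_contra hcon
    exact hd (if_neg hcon)
  rw [Finset.sum_congr rfl hL]
  have hU1 : ∑ d ∈ (tq M f y).support, tcoef f y d * wcoef g a b d
      = ∑ d ∈ (tq M f y).support ∪ I.image e, tcoef f y d * wcoef g a b d := by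
    refine Finset.sum_subset Finset.subset_union_left fun d _ hd => ?_
    by_cases hw : wcoef g a b d = 0
    · rw [hw, mul_zero]
    · obtain ⟨h1, h2⟩ := hvan d hw
      rw [MvPolynomial.notMem_support_iff, coeff_tq, if_pos (by rw [hdeg]; omega)] at hd
      rw [hd, zero_mul]
  have hU2 : ∑ d ∈ I.image e, tcoef f y d * wcoef g a b d
      = ∑ d ∈ (tq M f y).support ∪ I.image e, tcoef f y d * wcoef g a b d := by
    refine Finset.sum_subset Finset.subset_union_right fun d _ hd => ?_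
    by_cases hw : wcoef g a b d = 0
    · rw [hw, mul_zero]
    · exfalso
      obtain ⟨h1, h2⟩ := hvan d hw
      apply hd
      rw [Finset.mem_image]
      refine ⟨e.symm d, ?_, e.apply_symm_apply d⟩
      rw [hmemI]
      constructor
      · intro i
        exact (Finset.single_le_sum (f := fun i => d (Sum.inl i)) (fun _ _ => Nat.zero_le _)
          (Finset.mem_univ i)).trans h1
      · intro i
        exact (Finset.single_le_sum (f := fun i => d (Sum.inr i)) (fun _ _ => Nat.zero_le _)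
          (Finset.mem_univ i)).trans h2
  rw [hU1, hU2]

lemma sum_antidiag (M : ℕ) (F : ℕ × ℕ → ℂ) (D : ℕ) (hD : M < D) :
    ∑ j ∈ Finset.range (M + 1), ∑ p ∈ Finset.HasAntidiagonal.antidiagonal j, F p
      = ∑ p ∈ (Finset.range D ×ˢ Finset.range D).filter (fun p => p.1 + p.2 ≤ M), F p := by
  have h1 : (Finset.range D ×ˢ Finset.range D).filter (fun p => p.1 + p.2 ≤ M)
      = (Finset.range (M + 1)).biUnion Finset.HasAntidiagonal.antidiagonal := by
    ext p
    simp only [Finset.mem_filter, Finset.mem_product, Finset.mem_range, Finset.mem_biUnion,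
      Finset.HasAntidiagonal.mem_antidiagonal]
    constructor
    · rintro ⟨_, h⟩
      exact ⟨p.1 + p.2, by omega, rfl⟩
    · rintro ⟨j, hj, rfl⟩
      omega
  rw [h1, Finset.sum_biUnion]
  intro i _ j _ hij
  rw [Function.onFun, Finset.disjoint_left]
  intro p hp hp'
  rw [Finset.HasAntidiagonal.mem_antidiagonal] at hp hp'
  exact hij (hp.symm.trans hp')

/-- Taylor expansion along a polynomial curve. -/
theorem taylor_curve (M : ℕ) (f : Osm n) (y : Fin n → ℂ) {g : Fin n → Polynomial ℂ}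
    (hg : ∀ i, (g i).coeff 0 = 0) :
    ∃ C : ℝ, 0 ≤ C ∧ ∀ᶠ t in 𝓝 (0 : ℂ),
      ‖f (y + fun i => (g i).eval t) - ∑ j ∈ Finset.range (M + 1), ∑ p ∈ Finset.HasAntidiagonal.antidiagonal j,
        pairing (cf f y) (fun i => (g i : PowerSeries ℂ)) p.1 p.2 *
          (t ^ p.1 * (starRingEnd ℂ) t ^ p.2)‖ ≤ C * ‖t‖ ^ (M + 1) := by
  classical
  obtain ⟨C, hC, hb⟩ := taylor_tq M f y
  set Q := tq M f y with hQ
  -- the degree bound
  obtain ⟨D, hDM, hD⟩ : ∃ D, M < D ∧ ∀ d ∈ Q.support,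
      (pp g (fun i => d (Sum.inl i))).natDegree < D ∧
      (pp g (fun i => d (Sum.inr i))).natDegree < D := by
    refine ⟨M + 1 + ∑ d ∈ Q.support, ((pp g (fun i => d (Sum.inl i))).natDegree +
      (pp g (fun i => d (Sum.inr i))).natDegree), by omega, fun d hd => ?_⟩
    have := Finset.single_le_sum (f := fun d : Fin n ⊕ Fin n →₀ ℕ =>
      (pp g (fun i => d (Sum.inl i))).natDegree +
      (pp g (fun i => d (Sum.inr i))).natDegree) (fun _ _ => Nat.zero_le _) hd
    omega
  set W : ℕ × ℕ → ℂ := fun p => ∑ d ∈ Q.support, Q.coeff d * wcoef g p.1 p.2 d with hW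
  -- the curve is O(t)
  obtain ⟨B, hB, hgB⟩ : ∃ B : ℝ, 0 ≤ B ∧ ∀ᶠ t in 𝓝 (0 : ℂ), ∀ i, ‖(g i).eval t‖ ≤ B * ‖t‖ := by
    have h1 : ∀ i, ∃ B : ℝ, 0 ≤ B ∧ ∀ᶠ t in 𝓝 (0 : ℂ), ‖(g i).eval t‖ ≤ B * ‖t‖ := by
      intro i
      obtain ⟨q, hq⟩ := Polynomial.X_dvd_iff.2 (hg i)
      have hcont : ContinuousAt (fun t => ‖q.eval t‖) 0 := q.continuous.norm.continuousAt
      refine ⟨‖q.eval 0‖ + 1, by positivity, ?_⟩
      filter_upwards [hcont.eventually (gt_mem_nhds (show ‖q.eval 0‖ < ‖q.eval 0‖ + 1 by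
        linarith))] with t ht
      rw [hq, Polynomial.eval_mul, Polynomial.eval_X, norm_mul, mul_comm]
      gcongr
    choose B hB hb using h1
    refine ⟨∑ i, B i, Finset.sum_nonneg fun i _ => hB i, ?_⟩
    filter_upwards [Filter.eventually_all.2 hb] with t ht i
    refine (ht i).trans ?_
    gcongr
    exact Finset.single_le_sum (f := B) (fun i _ => hB i) (Finset.mem_univ i)
  have htend : Tendsto (fun t : ℂ => (fun i => (g i).eval t : Fin n → ℂ)) (𝓝 0) (𝓝 0) := by
    rw [tendsto_pi_nhds]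
    intro i
    have := ((g i).continuous.tendsto 0)
    rw [← Polynomial.coeff_zero_eq_eval_zero, hg i] at this
    exact this
  set R : ℝ := ∑ p ∈ (Finset.range D ×ˢ Finset.range D).filter (fun p => ¬ (p.1 + p.2 ≤ M)),
    ‖W p‖ with hR
  have hR0 : 0 ≤ R := Finset.sum_nonneg fun _ _ => norm_nonneg _
  refine ⟨C * B ^ (M + 1) + R, by positivity, ?_⟩
  filter_upwards [htend.eventually hb, hgB, Metric.ball_mem_nhds (0 : ℂ) one_pos] with t h1 h2 h3
  rw [Metric.mem_ball, dist_zero_right] at h3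
  have h4 : ‖(fun i => (g i).eval t : Fin n → ℂ)‖ ≤ B * ‖t‖ := by
    rw [pi_norm_le_iff_of_nonneg (by positivity)]
    exact h2
  have h5 := eval_curve g t Q D hD
  have h6 : ∑ j ∈ Finset.range (M + 1), ∑ p ∈ Finset.HasAntidiagonal.antidiagonal j,
        pairing (cf f y) (fun i => (g i : PowerSeries ℂ)) p.1 p.2 *
          (t ^ p.1 * (starRingEnd ℂ) t ^ p.2)
      = ∑ p ∈ (Finset.range D ×ˢ Finset.range D).filter (fun p => p.1 + p.2 ≤ M),
          W p * (t ^ p.1 * (starRingEnd ℂ) t ^ p.2) := by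
    rw [← sum_antidiag M _ D hDM]
    refine Finset.sum_congr rfl fun j hj => Finset.sum_congr rfl fun p hp => ?_
    rw [Finset.mem_range] at hj
    rw [Finset.HasAntidiagonal.mem_antidiagonal] at hp
    rw [hW]
    simp only
    rw [pairing_eq f y hg (by omega)]
  have h7 : ∑ p ∈ Finset.range D ×ˢ Finset.range D, W p * (t ^ p.1 * (starRingEnd ℂ) t ^ p.2)
      = ∑ p ∈ (Finset.range D ×ˢ Finset.range D).filter (fun p => p.1 + p.2 ≤ M),
          W p * (t ^ p.1 * (starRingEnd ℂ) t ^ p.2)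
        + ∑ p ∈ (Finset.range D ×ˢ Finset.range D).filter (fun p => ¬ (p.1 + p.2 ≤ M)),
          W p * (t ^ p.1 * (starRingEnd ℂ) t ^ p.2) :=
    (Finset.sum_filter_add_sum_filter_not _ _ _).symm
  have h8 : ‖∑ p ∈ (Finset.range D ×ˢ Finset.range D).filter (fun p => ¬ (p.1 + p.2 ≤ M)),
          W p * (t ^ p.1 * (starRingEnd ℂ) t ^ p.2)‖ ≤ R * ‖t‖ ^ (M + 1) := by
    rw [hR, Finset.sum_mul]
    refine (norm_sum_le _ _).trans (Finset.sum_le_sum fun p hp => ?_)
    rw [norm_mul, norm_mul, norm_pow, norm_pow, RCLike.norm_conj, ← pow_add]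
    have hp' : M + 1 ≤ p.1 + p.2 := by
      have := (Finset.mem_filter.1 hp).2
      omega
    gcongr ‖W p‖ * ?_
    exact pow_le_pow_of_le_one (norm_nonneg _) h3.le hp'
  rw [h6]
  calc ‖f (y + fun i => (g i).eval t)
        - ∑ p ∈ (Finset.range D ×ˢ Finset.range D).filter (fun p => p.1 + p.2 ≤ M),
          W p * (t ^ p.1 * (starRingEnd ℂ) t ^ p.2)‖
      = ‖(f (y + fun i => (g i).eval t) - MvPolynomial.eval (hk fun i => (g i).eval t) Q)
        + ∑ p ∈ (Finset.range D ×ˢ Finset.range D).filter (fun p => ¬ (p.1 + p.2 ≤ M)),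
          W p * (t ^ p.1 * (starRingEnd ℂ) t ^ p.2)‖ := by
        congr 1
        rw [h5, h7]
        ring
    _ ≤ C * (B * ‖t‖) ^ (M + 1) + R * ‖t‖ ^ (M + 1) := by
        refine (norm_add_le _ _).trans (add_le_add ?_ h8)
        exact h1.trans (by gcongr)
    _ = _ := by ring

/-- A polynomial that is small to high order vanishes. -/
lemma poly_small (c : ℕ → ℂ) (M : ℕ) (C : ℝ)
    (h : ∀ᶠ τ : ℝ in 𝓝[>] (0 : ℝ), ‖∑ i ∈ Finset.range (M + 1), c i * (τ : ℂ) ^ i‖
      ≤ C * τ ^ (M + 1)) : ∀ j ≤ M, c j = 0 := by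
  intro j
  induction j using Nat.strong_induction_on with
  | _ j ih =>
    intro hj
    set G : ℝ → ℂ := fun τ => ∑ i ∈ Finset.range (M + 1), c i * (τ : ℂ) ^ (i - j) with hG
    have hGc : Continuous G := by
      rw [hG]
      refine continuous_finsetSum _ fun i _ => ?_
      exact continuous_const.mul (Complex.continuous_ofReal.pow _)
    have hG0 : G 0 = c j := by
      rw [hG]
      simp only
      rw [Finset.sum_eq_single j]
      · simp
      · intro i _ hi
        rcases lt_or_gt_of_ne hi with h1 | h1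
        · rw [ih i h1 (by omega), zero_mul]
        · have : i - j ≠ 0 := by omega
          simp [this]
      · intro h'
        exact absurd (Finset.mem_range.2 (by omega)) h'
    have hfac : ∀ τ : ℝ, ∑ i ∈ Finset.range (M + 1), c i * (τ : ℂ) ^ i = (τ : ℂ) ^ j * G τ := by
      intro τ
      rw [hG]
      simp only
      rw [Finset.mul_sum]
      refine Finset.sum_congr rfl fun i _ => ?_
      rcases lt_or_ge i j with h1 | h1
      · rw [ih i h1 (by omega), zero_mul, zero_mul, mul_zero]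
      · obtain ⟨k, rfl⟩ := Nat.exists_eq_add_of_le h1
        rw [Nat.add_sub_cancel_left, pow_add]
        ring
    have hle : ∀ᶠ τ : ℝ in 𝓝[>] (0 : ℝ), ‖G τ‖ ≤ C * τ ^ (M + 1 - j) := by
      filter_upwards [h, self_mem_nhdsWithin] with τ h1 h2
      have hτ : (0 : ℝ) < τ := h2
      rw [hfac, norm_mul, norm_pow, Complex.norm_real, Real.norm_of_nonneg hτ.le] at h1
      have h3 : τ ^ (M + 1) = τ ^ j * τ ^ (M + 1 - j) := by
        rw [← pow_add]
        congr 1
        omega
      rw [h3] at h1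
      have h4 : τ ^ j * ‖G τ‖ ≤ τ ^ j * (C * τ ^ (M + 1 - j)) := by linarith
      exact le_of_mul_le_mul_left h4 (by positivity)
    have hlim1 : Tendsto (fun τ => ‖G τ‖) (𝓝[>] (0 : ℝ)) (𝓝 ‖c j‖) := by
      rw [← hG0]
      exact (hGc.norm.tendsto 0).mono_left nhdsWithin_le_nhds
    have hlim2 : Tendsto (fun τ : ℝ => C * τ ^ (M + 1 - j)) (𝓝[>] (0 : ℝ)) (𝓝 0) := by
      have h5 : Continuous (fun τ : ℝ => C * τ ^ (M + 1 - j)) := by fun_prop
      have h6 := h5.tendsto 0
      have h7 : M + 1 - j ≠ 0 := by omega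
      simp only [zero_pow h7, mul_zero] at h6
      exact h6.mono_left nhdsWithin_le_nhds
    have := le_of_tendsto_of_tendsto hlim1 hlim2 hle
    exact norm_eq_zero.1 (le_antisymm this (norm_nonneg _))

/-- Uniqueness of Taylor coefficients in `t` and its conjugate. -/
lemma coeff_unique (w : ℕ → ℕ → ℂ) (M : ℕ)
    (h : ∀ θ : ℂ, ‖θ‖ = 1 → ∃ C : ℝ, ∀ᶠ τ : ℝ in 𝓝[>] (0 : ℝ),
      ‖∑ j ∈ Finset.range (M + 1), ∑ p ∈ Finset.HasAntidiagonal.antidiagonal j, w p.1 p.2 *
        (((τ : ℂ) * θ) ^ p.1 * (starRingEnd ℂ) ((τ : ℂ) * θ) ^ p.2)‖ ≤ C * τ ^ (M + 1)) :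
    ∀ a b, a + b ≤ M → w a b = 0 := by
  have h1 : ∀ θ : ℂ, ‖θ‖ = 1 → ∀ j ≤ M, ∑ p ∈ Finset.HasAntidiagonal.antidiagonal j, w p.1 p.2 *
      (θ ^ p.1 * (starRingEnd ℂ) θ ^ p.2) = 0 := by
    intro θ hθ
    obtain ⟨C, hC⟩ := h θ hθ
    refine poly_small (fun j => ∑ p ∈ Finset.HasAntidiagonal.antidiagonal j, w p.1 p.2 *
      (θ ^ p.1 * (starRingEnd ℂ) θ ^ p.2)) M C ?_
    filter_upwards [hC] with τ hτ
    refine le_trans (le_of_eq ?_) hτ
    congr 1
    refine Finset.sum_congr rfl fun j _ => ?_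
    rw [Finset.sum_mul]
    refine Finset.sum_congr rfl fun p hp => ?_
    rw [Finset.HasAntidiagonal.mem_antidiagonal] at hp
    rw [← hp, map_mul, Complex.conj_ofReal]
    ring
  intro a b hab
  set p : Polynomial ℂ := ∑ q ∈ Finset.HasAntidiagonal.antidiagonal (a + b),
    Polynomial.C (w q.1 q.2) * Polynomial.X ^ (2 * q.1) with hp
  have hroot : ∀ θ : ℂ, ‖θ‖ = 1 → p.eval θ = 0 := by
    intro θ hθ
    have h2 := h1 θ hθ (a + b) hab
    have h3 : θ * (starRingEnd ℂ) θ = 1 := by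
      rw [Complex.mul_conj, Complex.normSq_eq_norm_sq, hθ]
      simp
    rw [hp, Polynomial.eval_finsetSum]
    have h4 : ∀ q ∈ Finset.HasAntidiagonal.antidiagonal (a + b),
        (Polynomial.C (w q.1 q.2) * Polynomial.X ^ (2 * q.1)).eval θ
          = θ ^ (a + b) * (w q.1 q.2 * (θ ^ q.1 * (starRingEnd ℂ) θ ^ q.2)) := by
      intro q hq
      rw [Finset.HasAntidiagonal.mem_antidiagonal] at hq
      rw [Polynomial.eval_mul, Polynomial.eval_C, Polynomial.eval_pow, Polynomial.eval_X, ← hq]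
      have h5 : θ ^ (q.1 + q.2) * (w q.1 q.2 * (θ ^ q.1 * (starRingEnd ℂ) θ ^ q.2))
          = w q.1 q.2 * θ ^ (2 * q.1) * (θ * (starRingEnd ℂ) θ) ^ q.2 := by ring
      rw [h5, h3, one_pow, mul_one]
    rw [Finset.sum_congr rfl h4, ← Finset.mul_sum, h2, mul_zero]
  have hp0 : p = 0 := by
    apply Polynomial.eq_zero_of_infinite_isRoot
    have hinf : (Metric.sphere (0 : ℂ) 1).Infinite := by
      refine Set.infinite_of_injective_forall_mem (f := fun k : ℕ =>
        Complex.exp ((1 / ((k : ℝ) + 1) : ℝ) * Complex.I)) ?_ ?_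
      · intro k l hkl
        simp only at hkl
        rw [Complex.exp_eq_exp_iff_exists_int] at hkl
        obtain ⟨m, hm⟩ := hkl
        have h5 : (1 / ((k : ℝ) + 1)) = 1 / ((l : ℝ) + 1) + m * (2 * Real.pi) := by
          have h6 : ((1 / ((k : ℝ) + 1) : ℝ) : ℂ)
              = ((1 / ((l : ℝ) + 1) + m * (2 * Real.pi) : ℝ) : ℂ) := by
            apply mul_right_cancel₀ Complex.I_ne_zero
            rw [hm]
            push_cast
            ring
          exact_mod_cast h6
        have h7 : (0 : ℝ) < 1 / ((k : ℝ) + 1) := by positivity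
        have h8 : (0 : ℝ) < 1 / ((l : ℝ) + 1) := by positivity
        have h9 : 1 / ((k : ℝ) + 1) ≤ 1 := by
          rw [div_le_one (by positivity)]
          linarith [(Nat.cast_nonneg k : (0 : ℝ) ≤ k)]
        have h10 : 1 / ((l : ℝ) + 1) ≤ 1 := by
          rw [div_le_one (by positivity)]
          linarith [(Nat.cast_nonneg l : (0 : ℝ) ≤ l)]
        have hpi := Real.pi_gt_three
        have hm0 : m = 0 := by
          by_contra hne
          rcases lt_or_gt_of_ne hne with hlt | hgt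
          · have : (m : ℝ) ≤ -1 := by exact_mod_cast Int.le_sub_one_of_lt hlt
            nlinarith
          · have : (1 : ℝ) ≤ m := by exact_mod_cast hgt
            nlinarith
        rw [hm0] at h5
        simp only [Int.cast_zero, zero_mul, add_zero] at h5
        have h11 : (k : ℝ) + 1 = (l : ℝ) + 1 := by
          rwa [one_div, one_div, inv_inj] at h5
        exact_mod_cast (add_right_cancel h11)
      · intro k
        rw [mem_sphere_zero_iff_norm, Complex.norm_exp_ofReal_mul_I]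
    refine hinf.mono ?_
    intro θ hθ
    rw [mem_sphere_zero_iff_norm] at hθ
    exact hroot θ hθ
  have h2 : p.coeff (2 * a) = w a b := by
    rw [hp, Polynomial.finsetSum_coeff]
    simp only [Polynomial.coeff_C_mul, Polynomial.coeff_X_pow]
    rw [Finset.sum_eq_single (a, b)]
    · simp
    · intro q hq hne
      rw [Finset.HasAntidiagonal.mem_antidiagonal] at hq
      rw [if_neg, mul_zero]
      intro h3
      apply hne
      ext
      · simp only
        omega
      · simp only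
        omega
    · intro h'
      exact absurd (Finset.HasAntidiagonal.mem_antidiagonal.2 (show (a, b).1 + (a, b).2 = a + b
        from rfl)) h'
  rw [← h2, hp0, Polynomial.coeff_zero]

end Pool.Agent.Work.MP_80f671_an
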