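import Pool.Agent.Work.MP_80f671_an.FieldSetup
import Pool.Agent.Work.MP_80f671_an.Pairing

/-!
Curves close to the boundary to high order through points near `x₀`.
-/

namespace Pool.Agent.Work.MP_80f671_an

open Filter Topology ContDiff Osm MvPolynomial

variable {n : ℕ} {x₀ : Fin n → ℂ}

section jets

variable {ι : Type} [Fintype ι] [DecidableEq ι]

lemma jXi_single (i₁ : ι) (θ : ℂ) (u : MvPolynomial (Gen n (Osm n) ι) ℂ) :
    jXi D Dbar (Pi.single i₁ θ) u = θ • jA D i₁ u + (starRingEnd ℂ) θ • jB Dbar i₁ u := by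
  rw [jXi_apply, Finset.sum_eq_single i₁]
  · simp
  · intro i _ hi
    simp [Pi.single_eq_of_ne hi]
  · simp

lemma jXi_single_iter_z (i₁ : ι) (θ : ℂ) (j : ℕ) (l : Fin n) (α : Multiset ι) :
    (jXi D Dbar (Pi.single i₁ θ))^[j] (X (Gen.z l α) : MvPolynomial (Gen n (Osm n) ι) ℂ)
      = θ ^ j • X (Gen.z l (Multiset.replicate j i₁ + α)) := by
  induction j with
  | zero => simp
  | succ j ih =>
    rw [Function.iterate_succ_apply', ih, Derivation.map_smul, jXi_single, jA_z, jB_z, smul_zero,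
      add_zero, smul_smul, pow_succ, Multiset.replicate_succ, Multiset.cons_add]

lemma jXi_single_iter (i₁ : ι) (θ : ℂ) (j : ℕ) (u : MvPolynomial (Gen n (Osm n) ι) ℂ) :
    (jXi D Dbar (Pi.single i₁ θ))^[j] u
      = ∑ p ∈ Finset.HasAntidiagonal.antidiagonal j, ((j.choose p.1 : ℂ) *
          (θ ^ p.1 * (starRingEnd ℂ) θ ^ p.2)) • ((jA D i₁)^[p.1] ((jB Dbar i₁)^[p.2] u)) := by
  set A : Module.End ℂ (MvPolynomial (Gen n (Osm n) ι) ℂ) := (jA D i₁).toLinearMap with hA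
  set B : Module.End ℂ (MvPolynomial (Gen n (Osm n) ι) ℂ) := (jB Dbar i₁).toLinearMap with hB
  have hAi : ∀ k u, (A ^ k) u = (jA D i₁)^[k] u := fun k u => by rw [Module.End.pow_apply]; rfl
  have hBi : ∀ k u, (B ^ k) u = (jB Dbar i₁)^[k] u := fun k u => by rw [Module.End.pow_apply]; rfl
  have hcomm : Commute A B := LinearMap.ext fun x => jAB_comm D Dbar D_Dbar i₁ i₁ x
  have hcomm' : Commute (θ • A) ((starRingEnd ℂ) θ • B) :=
    (hcomm.smul_left _).smul_right _
  have h1 : ∀ k u, ((θ • A + (starRingEnd ℂ) θ • B) ^ k) u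
      = (jXi D Dbar (Pi.single i₁ θ))^[k] u := by
    intro k u
    rw [Module.End.pow_apply]
    congr 1
    funext x
    rw [jXi_single]
    rfl
  rw [← h1, hcomm'.add_pow', LinearMap.sum_apply]
  refine Finset.sum_congr rfl fun p _ => ?_
  rw [← hAi, ← hBi, smul_pow, smul_pow, LinearMap.smul_apply, Module.End.mul_apply,
    LinearMap.smul_apply, LinearMap.smul_apply, map_smul, smul_smul, ← Nat.cast_smul_eq_nsmul ℂ,
    smul_smul]

/-- The polynomial curve given by the Taylor coefficients in one direction. -/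
noncomputable def crv (ζ : Fin n → Multiset ι → Osm n) (i₁ : ι) (N : ℕ) (y : Fin n → ℂ)
    (l : Fin n) : Polynomial ℂ :=
  ∑ j ∈ Finset.range N, Polynomial.C ((ζ l (Multiset.replicate (j + 1) i₁)) y /
    ((j + 1).factorial : ℂ)) * Polynomial.X ^ (j + 1)

omit [Fintype ι] [DecidableEq ι] in
lemma crv_coeff_zero (ζ : Fin n → Multiset ι → Osm n) (i₁ : ι) (N : ℕ) (y : Fin n → ℂ)
    (l : Fin n) : (crv ζ i₁ N y l).coeff 0 = 0 := by
  rw [crv, Polynomial.finsetSum_coeff]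
  refine Finset.sum_eq_zero fun j _ => ?_
  rw [Polynomial.coeff_C_mul, Polynomial.coeff_X_pow, if_neg (by omega), mul_zero]

lemma cw_single (ζ : Fin n → Multiset ι → Osm n) (hζ0 : ∀ l, ζ l 0 = zc l) (i₁ : ι) (N : ℕ)
    (y : Fin n → ℂ) (θ : ℂ) (τ : ℝ) :
    cw ζ (Pi.single i₁ θ) N (y, τ) = y + fun l => (crv ζ i₁ N y l).eval ((τ : ℂ) * θ) := by
  funext l
  rw [Pi.add_apply, cw, zt, crv, Polynomial.eval_finsetSum, Finset.sum_range_succ']
  rw [add_comm]
  congr 1
  · simp only [Function.iterate_zero, id_eq, evR_z, hζ0, zc_apply]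
    simp
  · refine Finset.sum_congr rfl fun j _ => ?_
    rw [jXi_single_iter_z, add_zero, map_smul, evR_z, coe_smul, Polynomial.eval_mul,
      Polynomial.eval_C, Polynomial.eval_pow, Polynomial.eval_X, mul_pow]
    ring

/-- The Taylor coefficients along the curve. -/
theorem pairing_crv {ζ : Fin n → Multiset ι → Osm n} {N : ℕ}
    (hζ : ∀ l α, N < Multiset.card α → ζ l α = 0)
    (hζ0 : ∀ l, ζ l 0 = zc l) (i₁ : ι) (f : Osm n) (y : Fin n → ℂ) (a b : ℕ) :
    pairing (cf f y) (fun l => (crv ζ i₁ N y l : PowerSeries ℂ)) a b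
      = (1 / ((a.factorial : ℂ) * (b.factorial : ℂ))) *
          (evR ζ ((jA D i₁)^[a] ((jB Dbar i₁)^[b] (X (Gen.fn f))))) y := by
  rw [← sub_eq_zero]
  refine coeff_unique (fun a b => pairing (cf f y) (fun l => (crv ζ i₁ N y l : PowerSeries ℂ)) a b
    - (1 / ((a.factorial : ℂ) * (b.factorial : ℂ))) *
          (evR ζ ((jA D i₁)^[a] ((jB Dbar i₁)^[b] (X (Gen.fn f))))) y) (a + b) ?_ a b le_rfl
  intro θ hθ
  set M := a + b with hM
  obtain ⟨C₁, hC₁, h1⟩ := taylor_curve M f y (g := crv ζ i₁ N y) (crv_coeff_zero ζ i₁ N y)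
  obtain ⟨C₂, hC₂, δ, hδ, h2⟩ := Phi_taylor (Pi.single i₁ θ) hζ hζ0 (X (Gen.fn f)) M y
  refine ⟨C₁ + C₂, ?_⟩
  have htend : Tendsto (fun τ : ℝ => (τ : ℂ) * θ) (𝓝[>] (0 : ℝ)) (𝓝 0) := by
    have h3 : Continuous (fun τ : ℝ => (τ : ℂ) * θ) :=
      Complex.continuous_ofReal.mul continuous_const
    have h4 := h3.tendsto 0
    simp only [Complex.ofReal_zero, zero_mul] at h4
    exact h4.mono_left nhdsWithin_le_nhds
  have hsmall : ∀ᶠ τ : ℝ in 𝓝[>] (0 : ℝ), τ < δ :=
    nhdsWithin_le_nhds (gt_mem_nhds hδ)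
  filter_upwards [htend.eventually h1, hsmall, self_mem_nhdsWithin] with τ h3 h4 h5
  have hτ : (0 : ℝ) < τ := h5
  have h6 := h2 y (Metric.mem_ball_self hδ) τ (by rw [abs_of_pos hτ]; exact h4.le)
  rw [Phi_fn, cw_single ζ hζ0] at h6
  rw [norm_mul, hθ, mul_one, Complex.norm_real, Real.norm_of_nonneg hτ.le] at h3
  rw [abs_of_pos hτ] at h6
  have h7 : ∑ j ∈ Finset.range (M + 1), (τ : ℂ) ^ j / (j.factorial : ℂ) *
      (evR ζ ((jXi D Dbar (Pi.single i₁ θ))^[j] (X (Gen.fn f)))) y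
      = ∑ j ∈ Finset.range (M + 1), ∑ p ∈ Finset.HasAntidiagonal.antidiagonal j,
        ((1 / ((p.1.factorial : ℂ) * (p.2.factorial : ℂ))) *
          (evR ζ ((jA D i₁)^[p.1] ((jB Dbar i₁)^[p.2] (X (Gen.fn f))))) y) *
          (((τ : ℂ) * θ) ^ p.1 * (starRingEnd ℂ) ((τ : ℂ) * θ) ^ p.2) := by
    refine Finset.sum_congr rfl fun j _ => ?_
    rw [jXi_single_iter, map_sum, coe_sum, Finset.mul_sum]
    refine Finset.sum_congr rfl fun p hp => ?_
    rw [Finset.HasAntidiagonal.mem_antidiagonal] at hp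
    rw [map_smul, coe_smul, map_mul, Complex.conj_ofReal, ← hp,
      Nat.cast_add_choose ℂ (a := p.1) (b := p.2)]
    have e1 : ((p.1.factorial : ℕ) : ℂ) ≠ 0 := by exact_mod_cast Nat.factorial_ne_zero _
    have e2 : ((p.2.factorial : ℕ) : ℂ) ≠ 0 := by exact_mod_cast Nat.factorial_ne_zero _
    have e3 : (((p.1 + p.2).factorial : ℕ) : ℂ) ≠ 0 := by exact_mod_cast Nat.factorial_ne_zero _
    field_simp
    ring
  rw [h7] at h6
  have h8 : ∑ j ∈ Finset.range (M + 1), ∑ p ∈ Finset.HasAntidiagonal.antidiagonal j,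
      (pairing (cf f y) (fun l => (crv ζ i₁ N y l : PowerSeries ℂ)) p.1 p.2
        - (1 / ((p.1.factorial : ℂ) * (p.2.factorial : ℂ))) *
          (evR ζ ((jA D i₁)^[p.1] ((jB Dbar i₁)^[p.2] (X (Gen.fn f))))) y) *
        (((τ : ℂ) * θ) ^ p.1 * (starRingEnd ℂ) ((τ : ℂ) * θ) ^ p.2)
      = (f (y + fun l => (crv ζ i₁ N y l).eval ((τ : ℂ) * θ)) -
        ∑ j ∈ Finset.range (M + 1), ∑ p ∈ Finset.HasAntidiagonal.antidiagonal j,
        ((1 / ((p.1.factorial : ℂ) * (p.2.factorial : ℂ))) *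
          (evR ζ ((jA D i₁)^[p.1] ((jB Dbar i₁)^[p.2] (X (Gen.fn f))))) y) *
          (((τ : ℂ) * θ) ^ p.1 * (starRingEnd ℂ) ((τ : ℂ) * θ) ^ p.2))
        - (f (y + fun l => (crv ζ i₁ N y l).eval ((τ : ℂ) * θ)) -
        ∑ j ∈ Finset.range (M + 1), ∑ p ∈ Finset.HasAntidiagonal.antidiagonal j,
        pairing (cf f y) (fun l => (crv ζ i₁ N y l : PowerSeries ℂ)) p.1 p.2 *
          (((τ : ℂ) * θ) ^ p.1 * (starRingEnd ℂ) ((τ : ℂ) * θ) ^ p.2)) := by
    simp only [sub_mul, Finset.sum_sub_distrib]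
    ring
  rw [h8]
  refine (norm_sub_le _ _).trans ?_
  rw [add_comm C₁ C₂, add_mul]
  exact add_le_add h6 h3

end jets

/-- Rescaling a curve rescales its pairings. -/
lemma pairing_rescale (c : (Fin n →₀ ℕ) → (Fin n →₀ ℕ) → ℂ) (G : Fin n → PowerSeries ℂ) (t : ℂ)
    (a b : ℕ) : pairing c (fun i => PowerSeries.rescale t (G i)) a b
      = t ^ a * (starRingEnd ℂ) t ^ b * pairing c G a b := by
  unfold pairing
  rw [Finset.mul_sum]
  refine Finset.sum_congr rfl fun α _ => ?_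
  rw [Finset.mul_sum]
  refine Finset.sum_congr rfl fun β _ => ?_
  have h : ∀ α : Fin n →₀ ℕ, ∏ i, PowerSeries.rescale t (G i) ^ α i
      = PowerSeries.rescale t (∏ i, G i ^ α i) := by
    intro α
    rw [map_prod]
    exact Finset.prod_congr rfl fun i _ => by rw [map_pow]
  rw [h, h, PowerSeries.coeff_rescale, PowerSeries.coeff_rescale, map_mul, map_pow]
  ring

section words

variable {ι : Type}

lemma jB_iter_hom (i₁ : ι) (f : Osm n) (k : ℕ) : IsWeightedHomogeneous gw ((jB Dbar i₁)^[k]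
    (X (Gen.fn f) : MvPolynomial (Gen n (Osm n) ι) ℂ)) k := by
  induction k with
  | zero => exact hom_X _ rfl
  | succ k ih =>
    rw [Function.iterate_succ_apply']
    exact jB_hom Dbar i₁ ih

lemma jA_iter_hom (i₁ : ι) (u : MvPolynomial (Gen n (Osm n) ι) ℂ) (d : ℕ)
    (hu : IsWeightedHomogeneous gw u d) (k : ℕ) :
    IsWeightedHomogeneous gw ((jA D i₁)^[k] u) (d + k) := by
  induction k with
  | zero => exact hu
  | succ k ih =>
    rw [Function.iterate_succ_apply']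
    exact jA_hom D i₁ ih

lemma jw_replicate_inr (i₁ : ι) (k : ℕ) (u : MvPolynomial (Gen n (Osm n) ι) ℂ) :
    jw D Dbar (List.replicate k (Sum.inr i₁)) u = (jB Dbar i₁)^[k] u := by
  induction k generalizing u with
  | zero => rfl
  | succ k ih => rw [List.replicate_succ, jw_cons, ih, Function.iterate_succ_apply, jD_inr]

lemma jw_replicate_inl (i₁ : ι) (k : ℕ) (u : MvPolynomial (Gen n (Osm n) ι) ℂ) :
    jw D Dbar (List.replicate k (Sum.inl i₁)) u = (jA D i₁)^[k] u := by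
  induction k generalizing u with
  | zero => rfl
  | succ k ih => rw [List.replicate_succ, jw_cons, ih, Function.iterate_succ_apply, jD_inl]

end words

section mem

variable {K : Type*} [Field K] [Algebra ℂ K] {S : KSet n (Osm n) K} {P : Ideal (Osm n)}
  {r : (Fin n → ℂ) → ℝ} {hr : ContDiff ℝ ∞ r}

/-- The Taylor coefficients of `r` along the lifted leaf lie in `P`. -/
lemma Compat.coef_mem (hc : Compat S P r hr) {ι : Type} {N : ℕ}
    {Z : Fin n → Multiset ι → K} {s : Osm n} (hs : conj s = s)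
    {ζ : Fin n → Multiset ι → Osm n}
    (hζ : ∀ l α, Multiset.card α ≤ N → S.π (ζ l α) = S.π s ^ Multiset.card α * Z l α)
    (i₁ : ι) {a b : ℕ} (hab : a + b ≤ N)
    (hvan : ∀ w, S.ev Z (jw S.D S.Db w (X (Gen.fn S.r))) = 0) :
    evR ζ ((jA D i₁)^[a] ((jB Dbar i₁)^[b] (X (Gen.fn (rC r hr))))) ∈ P := by
  rw [← hc.ker, hc.evR_scale hs hζ (d := b + a) (by omega)
    (jA_iter_hom i₁ _ b (jB_iter_hom i₁ _ b) a)]
  have h := hvan (List.replicate b (Sum.inr i₁) ++ List.replicate a (Sum.inl i₁))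
  rw [hc.eD, hc.eDb, hc.er, jw_append, jw_replicate_inr, jw_replicate_inl] at h
  rw [h, mul_zero]

end mem

/-- Curves through points near `x₀` along which `r` is small to high order. -/
theorem exists_curves (r : (Fin n → ℂ) → ℝ) (hr : ContDiff ℝ ∞ r)
    {i₀ : Fin n} (hi₀ : (D i₀ (rC r hr)) x₀ ≠ 0) (hlow : LeviLow r hr x₀)
    (h1 : (1 : Osm n) ∉ JK r x₀) :
    ∃ l₀ : Fin n, ∀ (N : ℕ) (ε : ℝ), 0 < ε → ∃ y, dist y x₀ < ε ∧
      ∃ g : Fin n → PowerSeries ℂ, (∀ i, PowerSeries.constantCoeff (g i) = 0) ∧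
        g l₀ = PowerSeries.X ∧ ∀ a b, a + b ≤ N → ‖pairing (cf (rC r hr) y) g a b‖ ≤ ε := by
  obtain ⟨P, hPp, hP, K, hK, hKA, S, hc, ι, hι, hι', e, Z, ⟨i₁⟩, hZ0, hZ1, hZ2, hvan⟩ :=
    exists_vanishing_leaf r hr hi₀ hlow h1
  refine ⟨e i₁, fun N ε hε => ?_⟩
  obtain ⟨s, hs, hπs, ζ, v', hζ0, hζN, hζπ, hζ00, hζ1, -⟩ :=
    hc.exists_lifts Z hZ0 (N + 1) (fun _ => 0)
  set T := (Finset.range (N + 1) ×ˢ Finset.range (N + 1)).filter (fun p => p.1 + p.2 ≤ N) with hT
  set p : ℕ × ℕ → Osm n := fun q =>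
    evR ζ ((jA D i₁)^[q.1] ((jB Dbar i₁)^[q.2] (X (Gen.fn (rC r hr))))) with hp
  have hpP : ∀ q ∈ T, p q ∈ P := fun q hq =>
    hc.coef_mem hs hζπ i₁ (by have := (Finset.mem_filter.1 hq).2; omega) hvan
  obtain ⟨B₀, hB₀, hB₀b⟩ := eventually_bound s x₀
  set B := B₀ + 1 with hB
  have hB1 : 1 ≤ B := by rw [hB]; linarith
  set ε' := ε / B ^ (N + 1) with hε'
  have hε'0 : 0 < ε' := by positivity
  have hfreq : ∃ᶠ y in 𝓝 x₀, ∑ q ∈ T, ‖(p q) y‖ < ε' * ‖s y‖ ^ (N + 1) := by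
    intro hcon
    apply hπs
    rw [hc.ker]
    refine hP.family T p hpP s (m := N + 1) (by omega) (C := 1 / ε') ?_
    filter_upwards [hcon] with y hy
    rw [not_lt] at hy
    rw [one_div, ← div_eq_inv_mul, le_div_iff₀ hε'0]
    linarith
  obtain ⟨y, hy1, hy2, hy3⟩ := (hfreq.and_eventually ((hB₀b.and
    (Metric.ball_mem_nhds x₀ hε)))).exists
  have hsy : s y ≠ 0 := by
    intro h0
    rw [h0, norm_zero, zero_pow (by omega), mul_zero] at hy1
    exact absurd hy1 (not_lt.2 (Finset.sum_nonneg fun _ _ => norm_nonneg _))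
  refine ⟨y, hy3, fun l => PowerSeries.rescale (1 / s y) (crv ζ i₁ (N + 1) y l : PowerSeries ℂ),
    ?_, ?_, ?_⟩
  · intro l
    rw [← PowerSeries.coeff_zero_eq_constantCoeff_apply, PowerSeries.coeff_rescale,
      Polynomial.coeff_coe, crv_coeff_zero, mul_zero]
  · ext k
    rw [PowerSeries.coeff_rescale, Polynomial.coeff_coe, PowerSeries.coeff_X]
    have h2 : crv ζ i₁ (N + 1) y (e i₁) = Polynomial.C (s y) * Polynomial.X := by
      rw [crv, Finset.sum_range_succ', Finset.sum_eq_zero, zero_add]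
      · have h3 : ζ (e i₁) {i₁} = s := by
          have := hζ1 (e i₁) {i₁} (Multiset.singleton_ne_zero _) (by simp) (by rw [hZ1, if_pos rfl])
          simpa using this
        rw [zero_add, Multiset.replicate_one, h3, Nat.factorial_one, Nat.cast_one, div_one, pow_one]
      · intro j _
        have h3 : ζ (e i₁) (Multiset.replicate (j + 1 + 1) i₁) = 0 := by
          refine hζ00 _ _ ?_ (hZ2 _ _ ?_)
          · rw [Multiset.replicate_succ]
            exact Multiset.cons_ne_zero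
          · rw [Multiset.card_replicate]
            omega
        rw [h3, coe_zero, zero_div, map_zero, zero_mul]
    rw [h2, Polynomial.coeff_C_mul, Polynomial.coeff_X]
    by_cases hk : k = 1
    · subst hk
      rw [if_pos rfl]
      field_simp
    · rw [if_neg (Ne.symm hk), if_neg hk, mul_zero, mul_zero]
  · intro a b hab
    rw [pairing_rescale, pairing_crv hζN hζ0, norm_mul, norm_mul, norm_mul, norm_pow, norm_pow,
      RCLike.norm_conj, ← pow_add]
    have hmem : (a, b) ∈ T := by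
      rw [hT, Finset.mem_filter, Finset.mem_product, Finset.mem_range, Finset.mem_range]
      simp only
      omega
    have h3 : ‖(p (a, b)) y‖ ≤ ε' * ‖s y‖ ^ (N + 1) :=
      (Finset.single_le_sum (f := fun q => ‖(p q) y‖) (fun _ _ => norm_nonneg _) hmem).trans hy1.le
    have h4 : ‖(1 / ((a.factorial : ℂ) * (b.factorial : ℂ)))‖ ≤ 1 := by
      rw [norm_div, norm_one, norm_mul, Complex.norm_natCast, Complex.norm_natCast,
        div_le_one (by positivity)]
      have e1 : (1 : ℝ) ≤ a.factorial := by exact_mod_cast Nat.one_le_iff_ne_zero.2 (Nat.factorial_ne_zero a)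
      have e2 : (1 : ℝ) ≤ b.factorial := by exact_mod_cast Nat.one_le_iff_ne_zero.2 (Nat.factorial_ne_zero b)
      nlinarith
    have hsn : 0 < ‖s y‖ := norm_pos_iff.2 hsy
    have h5 : ‖s y‖ ≤ B := by rw [hB]; linarith
    rw [norm_div, norm_one]
    calc (1 / ‖s y‖) ^ (a + b) * (‖(1 / ((a.factorial : ℂ) * (b.factorial : ℂ)))‖ *
          ‖(evR ζ ((jA D i₁)^[a] ((jB Dbar i₁)^[b] (X (Gen.fn (rC r hr)))))) y‖)
        ≤ (1 / ‖s y‖) ^ (a + b) * (1 * (ε' * ‖s y‖ ^ (N + 1))) := by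
          gcongr
      _ = ε' * ‖s y‖ ^ (N + 1 - (a + b)) := by
          have h6 : ‖s y‖ ^ (N + 1) = ‖s y‖ ^ (a + b) * ‖s y‖ ^ (N + 1 - (a + b)) := by
            rw [← pow_add]
            congr 1
            omega
          rw [h6, one_div, inv_pow]
          field_simp
      _ ≤ ε' * B ^ (N + 1 - (a + b)) := by gcongr
      _ ≤ ε' * B ^ (N + 1) := by
          gcongr
          omega
      _ = ε := by rw [hε']; field_simp

end Pool.Agent.Work.MP_80f671_an
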