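import Pool.Agent.Work.MP_80f671_an.PosAnalytic

/-!
Lifts of formal leaves to smooth functions, and the positivity property.
-/

namespace Pool.Agent.Work.MP_80f671_an

open Filter Topology ContDiff Osm MvPolynomial

variable {n : ℕ} {x₀ : Fin n → ℂ}

/-- Domination by a finite family. -/
lemma LClosed.family {P : Ideal (Osm n)} (hP : LClosed x₀ P) {κ : Type*} (s : Finset κ)
    (p : κ → Osm n) (hp : ∀ i ∈ s, p i ∈ P) (g : Osm n) {m : ℕ} (hm : 1 ≤ m) {C : ℝ}
    (h : ∀ᶠ y in 𝓝 x₀, ‖g y‖ ^ m ≤ C * ∑ i ∈ s, ‖(p i) y‖) : g ∈ P := by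
  set f : Osm n := ∑ i ∈ s, p i * conj (p i) with hf
  have hfP : f ∈ P := P.sum_mem fun i hi => P.mul_mem_right _ (hp i hi)
  refine hP f hfP g ⟨2 * m, by omega, C ^ 2 * s.card, by positivity, ?_⟩
  filter_upwards [h] with y hy
  have h1 : ‖f y‖ = ∑ i ∈ s, ‖(p i) y‖ ^ 2 := by
    have : f y = ((∑ i ∈ s, ‖(p i) y‖ ^ 2 : ℝ) : ℂ) := by
      rw [hf, coe_sum, Complex.ofReal_sum]
      exact Finset.sum_congr rfl fun i _ => norm_mul_conj _ _
    rw [this, Complex.norm_real, Real.norm_of_nonneg (by positivity)]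
  rw [h1, mul_comm 2 m, pow_mul]
  calc (‖g y‖ ^ m) ^ 2 ≤ (C * ∑ i ∈ s, ‖(p i) y‖) ^ 2 := by gcongr
    _ = C ^ 2 * (∑ i ∈ s, ‖(p i) y‖) ^ 2 := by ring
    _ ≤ C ^ 2 * (s.card * ∑ i ∈ s, ‖(p i) y‖ ^ 2) := by
        gcongr
        exact sq_sum_le_card_mul_sum_sq
    _ = _ := by ring

section lifts

variable {K : Type*} [Field K] [Algebra ℂ K] {S : KSet n (Osm n) K} {P : Ideal (Osm n)}
  {r : (Fin n → ℂ) → ℝ} {hr : ContDiff ℝ ∞ r}

/-- Lifts of the Taylor coefficients of a formal leaf, up to a common real denominator. -/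
theorem Compat.exists_lifts (hc : Compat S P r hr) {ι : Type} [Fintype ι] [DecidableEq ι]
    (Z : Fin n → Multiset ι → K) (hZ0 : ∀ l, Z l 0 = S.π (S.z l)) (N : ℕ) (v : ι → K) :
    ∃ s : Osm n, conj s = s ∧ S.π s ≠ 0 ∧ ∃ (ζ : Fin n → Multiset ι → Osm n) (v' : ι → Osm n),
      (∀ l, ζ l 0 = zc l) ∧ (∀ l α, N < Multiset.card α → ζ l α = 0) ∧
      (∀ l α, Multiset.card α ≤ N → S.π (ζ l α) = S.π s ^ Multiset.card α * Z l α) ∧
      (∀ l α, α ≠ 0 → Z l α = 0 → ζ l α = 0) ∧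
      (∀ l α, α ≠ 0 → Multiset.card α ≤ N → Z l α = 1 → ζ l α = s ^ Multiset.card α) ∧
      ∀ a, S.π (v' a) = S.π s * v a := by
  classical
  obtain ⟨s₀, hs₀, A, hA⟩ := common_den S
    (Sum.elim (fun p : Fin n × (Σ k : Fin (N + 1), Sym ι k) => Z p.1 (p.2.2 : Multiset ι)) v)
  have hσ := hc.eσ
  have hcs : S.π (conj s₀) ≠ 0 := by
    rw [← hσ, ← S.cπ]
    intro h
    exact hs₀ ((map_eq_zero S.c).1 h)
  have hB : ∀ (l : Fin n) (α : Multiset ι), ∃ B : Osm n, Multiset.card α ≤ N →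
      S.π B = S.π s₀ * Z l α := by
    intro l α
    by_cases h : Multiset.card α ≤ N
    · exact ⟨A (Sum.inl (l, ⟨⟨Multiset.card α, by omega⟩, ⟨α, rfl⟩⟩)), fun _ => hA _⟩
    · exact ⟨0, fun h' => absurd h' h⟩
  choose B hB using hB
  have hs : S.π (s₀ * conj s₀) = S.π s₀ * S.π (conj s₀) := map_mul _ _ _
  refine ⟨s₀ * conj s₀, by rw [map_mul, conj_conj, mul_comm], by
    rw [hs]; exact mul_ne_zero hs₀ hcs, fun l α =>
      if α = 0 then zc l else if N < Multiset.card α then 0 else if Z l α = 0 then 0 else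
      if Z l α = 1 then (s₀ * conj s₀) ^ Multiset.card α else
        (s₀ * conj s₀) ^ (Multiset.card α - 1) * conj s₀ * B l α,
    fun a => conj s₀ * A (Sum.inr a), fun l => by beta_reduce; rw [if_pos rfl], ?_, ?_, ?_, ?_, ?_⟩
  · intro l α h
    have h0 : α ≠ 0 := by
      rintro rfl
      simp at h
    beta_reduce
    rw [if_neg h0, if_pos h]
  · intro l α h
    beta_reduce
    by_cases h0 : α = 0
    · subst h0
      rw [if_pos rfl, hZ0, hc.ez]
      simp
    · rw [if_neg h0, if_neg (by omega)]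
      by_cases h1 : Z l α = 0
      · rw [if_pos h1, h1, map_zero, mul_zero]
      · rw [if_neg h1]
        by_cases h2 : Z l α = 1
        · rw [if_pos h2, h2, mul_one, map_pow]
        · rw [if_neg h2, map_mul, map_mul, map_pow, hB l α h, hs]
          obtain ⟨m, hm⟩ : ∃ m, Multiset.card α = m + 1 := by
            refine ⟨Multiset.card α - 1, ?_⟩
            have : Multiset.card α ≠ 0 := by
              rwa [Ne, Multiset.card_eq_zero]
            omega
          rw [hm, Nat.add_sub_cancel]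
          ring
  · intro l α h0 h
    beta_reduce
    rw [if_neg h0]
    by_cases h1 : N < Multiset.card α
    · rw [if_pos h1]
    · rw [if_neg h1, if_pos h]
  · intro l α h0 h1 h
    have h2 : Z l α ≠ 0 := by
      rw [h]
      exact one_ne_zero
    beta_reduce
    rw [if_neg h0, if_neg (by omega), if_neg h2, if_pos h]
  · intro a
    rw [map_mul, hA, hs]
    simp only [Sum.elim_inr]
    ring

/-- Evaluation of homogeneous jets in `K`. -/
theorem Compat.evR_scale (hc : Compat S P r hr) {ι : Type} {N : ℕ}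
    {Z : Fin n → Multiset ι → K} {s : Osm n} (hs : conj s = s)
    {ζ : Fin n → Multiset ι → Osm n}
    (hζ : ∀ l α, Multiset.card α ≤ N → S.π (ζ l α) = S.π s ^ Multiset.card α * Z l α)
    {u : MvPolynomial (Gen n (Osm n) ι) ℂ} {d : ℕ} (hd : d ≤ N)
    (hu : IsWeightedHomogeneous gw u d) : S.π (evR ζ u) = S.π s ^ d * S.ev Z u := by
  have hσ := hc.eσ
  refine scale_eval gw (S.π.comp (evR ζ)) (S.ev Z) (S.π s) N ?_ hd hu
  intro g hg
  cases g with
  | fn f =>
    rw [AlgHom.comp_apply, evR_fn, KSet.ev, jev_fn]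
    simp [gw]
  | z l α =>
    rw [AlgHom.comp_apply, evR_z, KSet.ev, jev_z]
    exact hζ l α hg
  | w l α =>
    rw [AlgHom.comp_apply, evR_w, KSet.ev, jev_w]
    have h1 : S.π (conj (ζ l α)) = S.c (S.π (ζ l α)) := by rw [S.cπ, hσ]
    have h2 : S.c (S.π s) = S.π s := by rw [S.cπ, hσ, hs]
    rw [h1, hζ l α hg, map_mul, map_pow, h2]
    rfl

/-- The positivity property for smooth functions modulo `P`. -/
theorem Compat.pos (hc : Compat S P r hr) (hP : LClosed x₀ P) (hlow : LeviLow r hr x₀) :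
    S.Pos := by
  intro ι _ _ Z hZ0 v ξ J hJ hH hG hR
  obtain ⟨s, hs, hπs, ζ, v', hζ0, hζ1, hζ2, -, -, hv⟩ := hc.exists_lifts Z hZ0 (J + 2) v
  have hD := hc.eD
  have hDb := hc.eDb
  have hσ := hc.eσ
  have hr' := hc.er
  have h2 : S.c (S.π s) = S.π s := by rw [S.cπ, hσ, hs]
  rw [hD, hDb, hr'] at hH hG
  rw [hD, hDb, hr'] at hR
  rw [hD, hDb, hr']
  have huR : IsWeightedHomogeneous gw (X (Gen.fn (rC r hr)) : MvPolynomial (Gen n (Osm n) ι) ℂ) 0 :=
    hom_X _ rfl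
  have hRc : ∀ j ≤ J, Rc ζ ξ r hr j ∈ P := by
    intro j hj
    rw [← hc.ker, Rc, tc, uR]
    have h3 := jXi_iter_hom D Dbar ξ j huR
    rw [hc.evR_scale hs hζ2 (by omega) h3, hR j hj, mul_zero]
  have hGc : ∀ j ≤ J, Gc ζ ξ r hr v' j ∈ P := by
    intro j hj
    rw [← hc.ker, Gc, map_sum]
    have h3 : ∀ a : ι, S.π (v' a * tc ζ ξ j (uA r hr a)) = S.π s ^ (j + 2) *
        (v a * S.ev Z ((jXi D Dbar ξ)^[j] (jA D a (X (Gen.fn (rC r hr)))))) := by
      intro a
      have h3 := jXi_iter_hom D Dbar ξ j (jA_hom D a huR)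
      rw [map_mul, hv, tc, uA, uR, hc.evR_scale hs hζ2 (by omega) h3]
      ring
    rw [Finset.sum_congr rfl fun a _ => h3 a, ← Finset.mul_sum, hG j hj, mul_zero]
  have hHval : ∀ j ≤ J, S.π (Hc ζ ξ r hr v' j) = S.π s ^ (j + 4) *
      ∑ a, ∑ b, v a * S.c (v b) *
        S.ev Z ((jXi D Dbar ξ)^[j] (jA D a (jB Dbar b (X (Gen.fn (rC r hr)))))) := by
    intro j hj
    rw [Hc, map_sum, Fintype.sum_prod_type, Finset.mul_sum]
    refine Finset.sum_congr rfl fun a _ => ?_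
    rw [Finset.mul_sum]
    refine Finset.sum_congr rfl fun b _ => ?_
    have h3 := jXi_iter_hom D Dbar ξ j (jA_hom D a (jB_hom Dbar b huR))
    have h4 : S.π (conj (v' b)) = S.c (S.π (v' b)) := by rw [S.cπ, hσ]
    rw [map_mul, map_mul, h4, hv, hv, map_mul, h2, tc, uAB, uR,
      hc.evR_scale hs hζ2 (by omega) h3]
    ring
  have hHc : ∀ j < J, Hc ζ ξ r hr v' j ∈ P := by
    intro j hj
    rw [← hc.ker, hHval j hj.le, hH j hj, mul_zero]
  obtain ⟨C, hC, hb⟩ := pos_analytic ξ r hr hlow hζ1 hζ0 v' hJ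
  have hfin : Hc ζ ξ r hr v' J ∈ P := by
    refine hP.family ((Finset.range J).disjSum ((Finset.range (J + 1)).disjSum
      (Finset.range (J + 1)))) (Sum.elim (Hc ζ ξ r hr v') (Sum.elim (Gc ζ ξ r hr v')
        (Rc ζ ξ r hr))) ?_ _ (m := J + 1) (by omega) (C := C) ?_
    · intro i hi
      rw [Finset.mem_disjSum] at hi
      rcases hi with ⟨j, hj, rfl⟩ | ⟨i, hi, rfl⟩
      · exact hHc j (Finset.mem_range.1 hj)
      · rw [Finset.mem_disjSum] at hi
        rcases hi with ⟨j, hj, rfl⟩ | ⟨j, hj, rfl⟩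
        · exact hGc j (by have := Finset.mem_range.1 hj; omega)
        · exact hRc j (by have := Finset.mem_range.1 hj; omega)
    · filter_upwards [hb] with y hy
      rw [Finset.sum_disjSum, Finset.sum_disjSum]
      simp only [Sum.elim_inl, Sum.elim_inr]
      rw [← Finset.sum_add_distrib]
      exact hy
  have h5 := (hc.ker _).2 hfin
  rw [hHval J le_rfl] at h5
  exact (mul_eq_zero.1 h5).resolve_left (pow_ne_zero _ hπs)

end lifts

end Pool.Agent.Work.MP_80f671_an
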