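import Pool.Agent.Work.MP_80f671_an.Curve

/-!
The analytic estimate behind the positivity property.
-/

namespace Pool.Agent.Work.MP_80f671_an

open Filter Topology ContDiff Osm MvPolynomial

variable {n : ℕ} {x₀ : Fin n → ℂ}

/-- Elementary estimate for odd order. -/
lemma odd_bound {A C δ B₀ b : ℝ} {J : ℕ} (hJ : Odd J) (hC : 0 ≤ C) (hδ : 0 < δ)
    (hB : |b| ≤ B₀) (h : ∀ τ : ℝ, |τ| ≤ δ → 0 ≤ τ ^ J * b + A + C * |τ| ^ (J + 1)) :
    |b| ^ (J + 1) ≤ 2 / (min (δ / (B₀ + 1)) (1 / (2 * (C + 1)))) ^ J * A := by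
  have hB₀ : 0 ≤ B₀ := (abs_nonneg _).trans hB
  set κ := min (δ / (B₀ + 1)) (1 / (2 * (C + 1))) with hκ
  have hκ0 : 0 < κ := lt_min (by positivity) (by positivity)
  have hκ1 : κ ≤ δ / (B₀ + 1) := min_le_left _ _
  have hκ2 : κ ≤ 1 / (2 * (C + 1)) := min_le_right _ _
  set τ := κ * |b| with hτ
  have hτ0 : 0 ≤ τ := by positivity
  have hτδ : τ ≤ δ := by
    calc κ * |b| ≤ δ / (B₀ + 1) * (B₀ + 1) := by gcongr; linarith
      _ = δ := by field_simp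
  -- choose the sign
  have h1 : τ ^ J * |b| ≤ A + C * τ ^ (J + 1) := by
    rcases le_total 0 b with hb | hb
    · have := h (-τ) (by rw [abs_neg, abs_of_nonneg hτ0]; exact hτδ)
      rw [abs_neg, abs_of_nonneg hτ0, hJ.neg_pow] at this
      rw [abs_of_nonneg hb]
      linarith
    · have := h τ (by rw [abs_of_nonneg hτ0]; exact hτδ)
      rw [abs_of_nonneg hτ0] at this
      rw [abs_of_nonpos hb]
      linarith
  have h2 : C * κ ≤ 1 / 2 := by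
    calc C * κ ≤ (C + 1) * (1 / (2 * (C + 1))) := by gcongr; linarith
      _ = 1 / 2 := by field_simp
  have h3 : C * τ ^ (J + 1) ≤ 1 / 2 * (κ ^ J * |b| ^ (J + 1)) := by
    calc C * τ ^ (J + 1) = (C * κ) * (κ ^ J * |b| ^ (J + 1)) := by rw [hτ]; ring
      _ ≤ 1 / 2 * (κ ^ J * |b| ^ (J + 1)) := by gcongr
  have h4 : τ ^ J * |b| = κ ^ J * |b| ^ (J + 1) := by rw [hτ]; ring
  rw [h4] at h1
  rw [div_mul_eq_mul_div, le_div_iff₀ (by positivity)]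
  linarith

/-- Simultaneous choice of constants. -/
lemma choose_consts {κ : Type*} [Fintype κ] (Q : κ → ℝ → ℝ → Prop)
    (hQ : ∀ k, ∃ C : ℝ, 0 ≤ C ∧ ∃ δ > 0, Q k C δ)
    (hmono : ∀ k C C' δ δ', C ≤ C' → δ' ≤ δ → 0 ≤ C → 0 < δ' → Q k C δ → Q k C' δ') :
    ∃ C : ℝ, 0 ≤ C ∧ ∃ δ > 0, ∀ k, Q k C δ := by
  choose C hC δ hδ h using hQ
  rcases isEmpty_or_nonempty κ with hκ | hκ
  · exact ⟨0, le_rfl, 1, one_pos, fun k => (hκ.false k).elim⟩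
  · refine ⟨∑ k, C k, Finset.sum_nonneg fun k _ => hC k,
      Finset.univ.inf' Finset.univ_nonempty δ, ?_, fun k => ?_⟩
    · rw [gt_iff_lt, Finset.lt_inf'_iff]
      exact fun k _ => hδ k
    · refine hmono k (C k) _ (δ k) _ (Finset.single_le_sum (fun k _ => hC k) (Finset.mem_univ k))
        (Finset.inf'_le _ (Finset.mem_univ k)) (hC k) ?_ (h k)
      rw [Finset.lt_inf'_iff]
      exact fun k _ => hδ k

section curve

variable {ι : Type} [Fintype ι] (ζ : Fin n → Multiset ι → Osm n) (ξ : ι → ℂ) (N : ℕ)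

/-- Evaluation along curves as a plain function. -/
noncomputable def pf (u : MvPolynomial (Gen n (Osm n) ι) ℂ) (y : Fin n → ℂ) (τ : ℝ) : ℂ :=
  Phi ζ ξ N u (y, τ)

/-- Taylor coefficients as smooth functions. -/
noncomputable def tc (j : ℕ) (u : MvPolynomial (Gen n (Osm n) ι) ℂ) : Osm n :=
  evR ζ ((jXi D Dbar ξ)^[j] u)

/-- The jet of `r`. -/
noncomputable def uR (ι : Type) (r : (Fin n → ℂ) → ℝ) (hr : ContDiff ℝ ∞ r) :
    MvPolynomial (Gen n (Osm n) ι) ℂ := X (Gen.fn (rC r hr))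

/-- The jet of `r` differentiated once. -/
noncomputable def uA (r : (Fin n → ℂ) → ℝ) (hr : ContDiff ℝ ∞ r) (a : ι) :
    MvPolynomial (Gen n (Osm n) ι) ℂ := jA D a (uR ι r hr)

/-- The jet of `r` differentiated twice. -/
noncomputable def uAB (r : (Fin n → ℂ) → ℝ) (hr : ContDiff ℝ ∞ r) (a b : ι) :
    MvPolynomial (Gen n (Osm n) ι) ℂ := jA D a (jB Dbar b (uR ι r hr))

variable {ζ N}

lemma pf_taylor (hζ : ∀ l α, N < Multiset.card α → ζ l α = 0) (hζ0 : ∀ l, ζ l 0 = zc l)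
    (u : MvPolynomial (Gen n (Osm n) ι) ℂ) (m : ℕ) (x₀ : Fin n → ℂ) :
    ∃ C : ℝ, 0 ≤ C ∧ ∃ δ > 0, ∀ y ∈ Metric.ball x₀ δ, ∀ τ : ℝ, |τ| ≤ δ →
      ‖pf ζ ξ N u y τ - ∑ j ∈ Finset.range (m + 1), ((τ : ℂ) ^ j / (j.factorial : ℂ)) *
        (tc ζ ξ j u) y‖ ≤ C * |τ| ^ (m + 1) :=
  Phi_taylor ξ hζ hζ0 u m x₀

lemma comb_taylor {κ : Type*} [Fintype κ] (hζ : ∀ l α, N < Multiset.card α → ζ l α = 0)
    (hζ0 : ∀ l, ζ l 0 = zc l) (p : κ → Osm n) (u : κ → MvPolynomial (Gen n (Osm n) ι) ℂ)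
    (m : ℕ) (x₀ : Fin n → ℂ) :
    ∃ C : ℝ, 0 ≤ C ∧ ∃ δ > 0, ∀ y ∈ Metric.ball x₀ δ, ∀ τ : ℝ, |τ| ≤ δ →
      ‖∑ k, (p k) y * pf ζ ξ N (u k) y τ - ∑ j ∈ Finset.range (m + 1),
        ((τ : ℂ) ^ j / (j.factorial : ℂ)) * (∑ k, p k * tc ζ ξ j (u k) : Osm n) y‖
        ≤ C * |τ| ^ (m + 1) := by
  obtain ⟨C, hC, δ, hδ, h⟩ := choose_consts (κ := κ) (fun k C δ =>
    ∀ y ∈ Metric.ball x₀ δ, ∀ τ : ℝ, |τ| ≤ δ →
      ‖pf ζ ξ N (u k) y τ - ∑ j ∈ Finset.range (m + 1), ((τ : ℂ) ^ j / (j.factorial : ℂ)) *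
        (tc ζ ξ j (u k)) y‖ ≤ C * |τ| ^ (m + 1))
    (fun k => pf_taylor ξ hζ hζ0 (u k) m x₀)
    (fun k C C' δ δ' hCC hδδ hC hδ' h y hy τ hτ =>
      (h y (Metric.ball_subset_ball hδδ hy) τ (hτ.trans hδδ)).trans (by gcongr))
  obtain ⟨B, hB, δ₂, hδ₂, hb⟩ := local_lip_family p x₀
  refine ⟨∑ _k : κ, B * C, by positivity, min δ δ₂, lt_min hδ hδ₂, fun y hy τ hτ => ?_⟩
  have hy1 := Metric.ball_subset_ball (min_le_left _ _) hy
  have hy2 := Metric.ball_subset_ball (min_le_right _ _) hy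
  have e1 : ∑ k, (p k) y * pf ζ ξ N (u k) y τ - ∑ j ∈ Finset.range (m + 1),
        ((τ : ℂ) ^ j / (j.factorial : ℂ)) * (∑ k, p k * tc ζ ξ j (u k) : Osm n) y
      = ∑ k, (p k) y * (pf ζ ξ N (u k) y τ - ∑ j ∈ Finset.range (m + 1),
        ((τ : ℂ) ^ j / (j.factorial : ℂ)) * (tc ζ ξ j (u k)) y) := by
    have e2 : ∑ j ∈ Finset.range (m + 1),
        ((τ : ℂ) ^ j / (j.factorial : ℂ)) * (∑ k, p k * tc ζ ξ j (u k) : Osm n) y
        = ∑ k, (p k) y * ∑ j ∈ Finset.range (m + 1),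
          ((τ : ℂ) ^ j / (j.factorial : ℂ)) * (tc ζ ξ j (u k)) y := by
      simp only [coe_sum, coe_mul, Finset.mul_sum]
      rw [Finset.sum_comm]
      exact Finset.sum_congr rfl fun k _ => Finset.sum_congr rfl fun j _ => by ring
    rw [e2, ← Finset.sum_sub_distrib]
    exact Finset.sum_congr rfl fun k _ => by ring
  rw [e1, Finset.sum_mul]
  refine (norm_sum_le _ _).trans (Finset.sum_le_sum fun k _ => ?_)
  rw [norm_mul, mul_assoc]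
  have h1 := (hb k y hy2 y hy2).2
  have h2 := h k y hy1 τ (hτ.trans (min_le_left _ _))
  gcongr

lemma pf_uR (r : (Fin n → ℂ) → ℝ) (hr : ContDiff ℝ ∞ r) (y : Fin n → ℂ) (τ : ℝ) :
    pf ζ ξ N (uR ι r hr) y τ = (r (cw ζ ξ N (y, τ)) : ℂ) := by
  unfold pf uR
  rw [Phi_fn, rC_apply]

lemma pf_uA (r : (Fin n → ℂ) → ℝ) (hr : ContDiff ℝ ∞ r) (a : ι) (y : Fin n → ℂ) (τ : ℝ) :
    pf ζ ξ N (uA r hr a) y τ
      = ∑ l, (D l (rC r hr)) (cw ζ ξ N (y, τ)) * zt ζ ξ N l {a} (y, τ) := by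
  unfold pf uA uR
  rw [jA_fn, map_sum, Finset.sum_apply]
  refine Finset.sum_congr rfl fun l _ => ?_
  rw [map_mul, Pi.mul_apply, Phi_fn, Phi_z]

lemma pf_uAB (r : (Fin n → ℂ) → ℝ) (hr : ContDiff ℝ ∞ r) (a b : ι) (y : Fin n → ℂ) (τ : ℝ) :
    pf ζ ξ N (uAB r hr a b) y τ
      = ∑ l, ∑ k, (D l (Dbar k (rC r hr))) (cw ζ ξ N (y, τ)) * zt ζ ξ N l {a} (y, τ) *
        (starRingEnd ℂ) (zt ζ ξ N k {b} (y, τ)) := by
  unfold pf uAB uR
  rw [jB_fn, map_sum, map_sum, Finset.sum_apply, Finset.sum_comm]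
  refine Finset.sum_congr rfl fun k _ => ?_
  rw [Derivation.leibniz, jA_w, smul_zero, zero_add, smul_eq_mul, jA_fn, map_mul, map_sum,
    Pi.mul_apply, Phi_w, Finset.sum_apply, Finset.mul_sum]
  refine Finset.sum_congr rfl fun l _ => ?_
  rw [map_mul, Pi.mul_apply, Phi_fn, Phi_z]
  ring

/-- The velocity vector along the curve. -/
noncomputable def vel (ζ : Fin n → Multiset ι → Osm n) (ξ : ι → ℂ) (N : ℕ) (v : ι → Osm n)
    (p : (Fin n → ℂ) × ℝ) : Fin n → ℂ :=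
  fun l => ∑ a, (v a) p.1 * zt ζ ξ N l {a} p

lemma levi_along (r : (Fin n → ℂ) → ℝ) (hr : ContDiff ℝ ∞ r) (v : ι → Osm n)
    (y : Fin n → ℂ) (τ : ℝ) :
    ∑ k : ι × ι, (v k.1 * conj (v k.2)) y *
        pf ζ ξ N (uAB r hr k.1 k.2) y τ
      = qf (fun a b => (leviM r hr a b) (cw ζ ξ N (y, τ))) (vel ζ ξ N v (y, τ))
          (vel ζ ξ N v (y, τ)) := by
  rw [Fintype.sum_prod_type]
  simp only [pf_uAB, coe_mul, conj_apply]
  unfold qf vel leviM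
  simp only [map_sum, map_mul, Finset.mul_sum, Finset.sum_mul]
  -- reorder the four sums
  have e1 : ∀ (F : Fin n → Fin n → ι → ι → ℂ), ∑ a, ∑ b, ∑ l, ∑ k, F l k a b
      = ∑ l, ∑ k, ∑ b, ∑ a, F l k a b := by
    intro F
    calc ∑ a, ∑ b, ∑ l, ∑ k, F l k a b = ∑ a, ∑ l, ∑ b, ∑ k, F l k a b :=
          Finset.sum_congr rfl fun a _ => Finset.sum_comm
      _ = ∑ l, ∑ a, ∑ b, ∑ k, F l k a b := Finset.sum_comm
      _ = ∑ l, ∑ a, ∑ k, ∑ b, F l k a b :=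
          Finset.sum_congr rfl fun l _ => Finset.sum_congr rfl fun a _ => Finset.sum_comm
      _ = ∑ l, ∑ k, ∑ a, ∑ b, F l k a b :=
          Finset.sum_congr rfl fun l _ => Finset.sum_comm
      _ = _ := Finset.sum_congr rfl fun l _ => Finset.sum_congr rfl fun k _ => Finset.sum_comm
  rw [e1 (fun l k a b => (v a) y * (starRingEnd ℂ) ((v b) y) *
    ((D l (Dbar k (rC r hr))) (cw ζ ξ N (y, τ)) * zt ζ ξ N l {a} (y, τ) *
      (starRingEnd ℂ) (zt ζ ξ N k {b} (y, τ))))]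
  refine Finset.sum_congr rfl fun l _ => Finset.sum_congr rfl fun k _ =>
    Finset.sum_congr rfl fun b _ => Finset.sum_congr rfl fun a _ => ?_
  ring

lemma dr_along (r : (Fin n → ℂ) → ℝ) (hr : ContDiff ℝ ∞ r) (v : ι → Osm n)
    (y : Fin n → ℂ) (τ : ℝ) :
    ∑ a : ι, (v a) y * pf ζ ξ N (uA r hr a) y τ
      = dr r hr (cw ζ ξ N (y, τ)) (vel ζ ξ N v (y, τ)) := by
  simp only [pf_uA]
  unfold dr vel
  simp only [Finset.mul_sum]
  rw [Finset.sum_comm]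
  exact Finset.sum_congr rfl fun l _ => Finset.sum_congr rfl fun a _ => by ring

/-- The coefficients of the Levi form along the leaf. -/
noncomputable def Hc (ζ : Fin n → Multiset ι → Osm n) (ξ : ι → ℂ) (r : (Fin n → ℂ) → ℝ)
    (hr : ContDiff ℝ ∞ r) (v : ι → Osm n) (j : ℕ) : Osm n :=
  ∑ k : ι × ι, (v k.1 * conj (v k.2)) *
    tc ζ ξ j (uAB r hr k.1 k.2)

/-- The coefficients of `∂r(V)` along the leaf. -/
noncomputable def Gc (ζ : Fin n → Multiset ι → Osm n) (ξ : ι → ℂ) (r : (Fin n → ℂ) → ℝ)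
    (hr : ContDiff ℝ ∞ r) (v : ι → Osm n) (j : ℕ) : Osm n :=
  ∑ a : ι, v a * tc ζ ξ j (uA r hr a)

/-- The coefficients of `r` along the leaf. -/
noncomputable def Rc (ζ : Fin n → Multiset ι → Osm n) (ξ : ι → ℂ) (r : (Fin n → ℂ) → ℝ)
    (hr : ContDiff ℝ ∞ r) (j : ℕ) : Osm n :=
  tc ζ ξ j (uR ι r hr)

lemma tc_conj (j : ℕ) (u : MvPolynomial (Gen n (Osm n) ι) ℂ) :
    conj (tc ζ ξ j u) = tc ζ ξ j (jconj conj u) := by
  unfold tc
  have h1 := conj_evR ζ ((jXi D Dbar ξ)^[j] u)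
  have h2 := jconj_jXi_iter D Dbar (conj (n := n)) conj_D conj_Dbar ξ j u
  exact h1.trans (congrArg (evR ζ) h2)

omit [Fintype ι] in
lemma jconj_uAB (r : (Fin n → ℂ) → ℝ) (hr : ContDiff ℝ ∞ r) (a b : ι) :
    jconj conj (uAB r hr a b) = uAB r hr b a := by
  have h3 : jconj (n := n) (ι := ι) conj (uR ι r hr) = uR ι r hr := by
    unfold uR
    rw [jconj_fn, conj_rC]
  have h1 := jconj_jA conj D Dbar conj_D a (jB Dbar b (uR ι r hr))
  have h2 := jconj_jB conj D Dbar conj_Dbar b (uR ι r hr)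
  rw [h3] at h2
  rw [h2] at h1
  exact h1.trans (jAB_comm D Dbar D_Dbar b a _).symm

lemma Hc_conj (r : (Fin n → ℂ) → ℝ) (hr : ContDiff ℝ ∞ r) (v : ι → Osm n) (j : ℕ) :
    conj (Hc ζ ξ r hr v j) = Hc ζ ξ r hr v j := by
  unfold Hc
  have h1 : ∀ k : ι × ι, conj ((v k.1 * conj (v k.2)) *
      tc ζ ξ j (uAB r hr k.1 k.2))
      = (v k.2 * conj (v k.1)) * tc ζ ξ j (uAB r hr k.2 k.1) := by
    intro k
    have e1 := tc_conj (ζ := ζ) ξ j (uAB r hr k.1 k.2)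
    rw [jconj_uAB] at e1
    rw [RingHom.map_mul, RingHom.map_mul, conj_conj, e1, mul_comm (conj (v k.1))]
  rw [map_sum, Finset.sum_congr rfl fun k _ => h1 k]
  exact (Equiv.prodComm ι ι).sum_comp (fun k : ι × ι => (v k.1 * conj (v k.2)) *
    tc ζ ξ j (uAB r hr k.1 k.2))

/-- The analytic positivity estimate. -/
theorem pos_analytic (r : (Fin n → ℂ) → ℝ) (hr : ContDiff ℝ ∞ r) (hlow : LeviLow r hr x₀)
    (hζ : ∀ l α, N < Multiset.card α → ζ l α = 0) (hζ0 : ∀ l, ζ l 0 = zc l)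
    (v : ι → Osm n) {J : ℕ} (hJ : Odd J) :
    ∃ C : ℝ, 0 ≤ C ∧ ∀ᶠ y in 𝓝 x₀, ‖(Hc ζ ξ r hr v J) y‖ ^ (J + 1)
      ≤ C * ((∑ j ∈ Finset.range J, ‖(Hc ζ ξ r hr v j) y‖)
        + ∑ j ∈ Finset.range (J + 1), (‖(Gc ζ ξ r hr v j) y‖ + ‖(Rc ζ ξ r hr j) y‖)) := by
  obtain ⟨C₀, hC₀, hlow⟩ := hlow
  obtain ⟨C₁, hC₁, δ₁, hδ₁, hT₁⟩ := comb_taylor (κ := ι × ι) ξ hζ hζ0
    (fun k => v k.1 * conj (v k.2))
    (fun k => uAB r hr k.1 k.2) J x₀
  obtain ⟨C₂, hC₂, δ₂, hδ₂, hT₂⟩ := comb_taylor (κ := ι) ξ hζ hζ0 v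
    (fun a => uA r hr a) J x₀
  obtain ⟨C₃, hC₃, δ₃, hδ₃, hT₃⟩ := pf_taylor ξ hζ hζ0 (uR ι r hr) J x₀
  -- bound for the velocity
  obtain ⟨B, hB, δ₄, hδ₄, hV⟩ : ∃ C : ℝ, 0 ≤ C ∧ ∃ δ > 0, ∀ l : Fin n,
      ∀ y ∈ Metric.ball x₀ δ, ∀ τ : ℝ, |τ| ≤ δ → ‖vel ζ ξ N v (y, τ) l‖ ≤ C := by
    refine choose_consts (fun l C δ => ∀ y ∈ Metric.ball x₀ δ, ∀ τ : ℝ, |τ| ≤ δ →
      ‖vel ζ ξ N v (y, τ) l‖ ≤ C) (fun l => ?_)
      (fun k C C' δ δ' hCC hδδ hC hδ' h y hy τ hτ =>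
      (h y (Metric.ball_subset_ball hδδ hy) τ (hτ.trans hδδ)).trans hCC)
    refine prod_bound (F := fun p => vel ζ ξ N v p l) ?_ x₀
    unfold vel
    exact continuous_finsetSum _ fun a _ =>
      ((Osm.continuous (v a)).comp continuous_fst).mul (zt_cont ξ l {a})
  -- the Levi inequality along the curve
  obtain ⟨δ₅, hδ₅, hlow'⟩ : ∃ δ > 0, ∀ y ∈ Metric.ball x₀ δ, ∀ τ : ℝ, |τ| ≤ δ →
      ∀ w : Fin n → ℂ, -(C₀ * (|r (cw ζ ξ N (y, τ))| * ‖w‖ ^ 2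
        + ‖dr r hr (cw ζ ξ N (y, τ)) w‖ * ‖w‖))
        ≤ (qf (fun a b => (leviM r hr a b) (cw ζ ξ N (y, τ))) w w).re := by
    have h1 : Tendsto (cw ζ ξ N) (𝓝 (x₀, (0 : ℝ))) (𝓝 x₀) := by
      have := (cw_cont (ζ := ζ) (N := N) ξ).continuousAt (x := (x₀, (0 : ℝ)))
      rw [ContinuousAt, cw_zero ξ hζ0] at this
      exact this
    obtain ⟨δ, hδ, hball⟩ := Metric.mem_nhds_iff.1 (h1.eventually hlow)
    refine ⟨δ / 2, by positivity, fun y hy τ hτ => ?_⟩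
    have hmem : (y, τ) ∈ Metric.ball (x₀, (0 : ℝ)) δ := by
      rw [Metric.mem_ball, Prod.dist_eq, max_lt_iff]
      rw [Metric.mem_ball] at hy
      refine ⟨by linarith, ?_⟩
      rw [Real.dist_eq, sub_zero]
      linarith
    exact hball hmem
  obtain ⟨B₀, hB₀, hBd⟩ := eventually_bound (Hc ζ ξ r hr v J) x₀
  set δ := min (min (min δ₁ δ₂) (min δ₃ δ₄)) (min δ₅ 1) with hδdef
  have hδ : 0 < δ := lt_min (lt_min (lt_min hδ₁ hδ₂) (lt_min hδ₃ hδ₄)) (lt_min hδ₅ one_pos)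
  have m1 : δ ≤ δ₁ := (min_le_left _ _).trans ((min_le_left _ _).trans (min_le_left _ _))
  have m2 : δ ≤ δ₂ := (min_le_left _ _).trans ((min_le_left _ _).trans (min_le_right _ _))
  have m3 : δ ≤ δ₃ := (min_le_left _ _).trans ((min_le_right _ _).trans (min_le_left _ _))
  have m4 : δ ≤ δ₄ := (min_le_left _ _).trans ((min_le_right _ _).trans (min_le_right _ _))
  have m5 : δ ≤ δ₅ := (min_le_right _ _).trans (min_le_left _ _)
  have m6 : δ ≤ 1 := (min_le_right _ _).trans (min_le_right _ _)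
  set C₄ : ℝ := C₀ * (B ^ 2 + B) with hC₄
  have hC₄0 : 0 ≤ C₄ := by positivity
  set C₅ : ℝ := C₁ + C₄ * (C₂ + C₃) with hC₅
  have hC₅0 : 0 ≤ C₅ := by positivity
  set κ := min (δ / (B₀ / (J.factorial : ℝ) + 1)) (1 / (2 * (C₅ + 1))) with hκ
  have hJf : (0 : ℝ) < (J.factorial : ℝ) := by exact_mod_cast Nat.factorial_pos J
  have hκ0 : 0 < κ := lt_min (by positivity) (by positivity)
  refine ⟨(J.factorial : ℝ) ^ (J + 1) * (2 / κ ^ J * (1 + C₄)), by positivity, ?_⟩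
  filter_upwards [hBd, Metric.ball_mem_nhds x₀ hδ] with y hyB hyb
  set QH : ℝ := ∑ j ∈ Finset.range J, ‖(Hc ζ ξ r hr v j) y‖ with hQH
  set QG : ℝ := ∑ j ∈ Finset.range (J + 1), ‖(Gc ζ ξ r hr v j) y‖ with hQG
  set QR : ℝ := ∑ j ∈ Finset.range (J + 1), ‖(Rc ζ ξ r hr j) y‖ with hQR
  have hQH0 : 0 ≤ QH := Finset.sum_nonneg fun _ _ => norm_nonneg _
  have hQG0 : 0 ≤ QG := Finset.sum_nonneg fun _ _ => norm_nonneg _
  have hQR0 : 0 ≤ QR := Finset.sum_nonneg fun _ _ => norm_nonneg _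
  set b : ℝ := ((Hc ζ ξ r hr v J) y).re / (J.factorial : ℝ) with hb
  have hbB : |b| ≤ B₀ / (J.factorial : ℝ) := by
    rw [hb, abs_div, abs_of_pos hJf]
    gcongr
    exact (Complex.abs_re_le_norm _).trans hyB
  have hfac : ∀ (j : ℕ) (τ : ℝ), |τ| ≤ 1 → ‖((τ : ℂ) ^ j / (j.factorial : ℂ))‖ ≤ 1 := by
    intro j τ hτ
    rw [norm_div, norm_pow, Complex.norm_real, Real.norm_eq_abs, Complex.norm_natCast]
    have h1 : (1 : ℝ) ≤ (j.factorial : ℝ) := by exact_mod_cast Nat.factorial_pos j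
    rw [div_le_one (by linarith)]
    exact (pow_le_one₀ (abs_nonneg _) hτ).trans h1
  have hineq : ∀ τ : ℝ, |τ| ≤ δ →
      0 ≤ τ ^ J * b + (QH + C₄ * (QG + QR)) + C₅ * |τ| ^ (J + 1) := by
    intro τ hτ
    have hτ1 : |τ| ≤ 1 := hτ.trans m6
    have hL := hlow' y (Metric.ball_subset_ball m5 hyb) τ (hτ.trans m5) (vel ζ ξ N v (y, τ))
    rw [← levi_along, ← dr_along] at hL
    have t1 := hT₁ y (Metric.ball_subset_ball m1 hyb) τ (hτ.trans m1)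
    have t2 := hT₂ y (Metric.ball_subset_ball m2 hyb) τ (hτ.trans m2)
    have t3 := hT₃ y (Metric.ball_subset_ball m3 hyb) τ (hτ.trans m3)
    rw [pf_uR] at t3
    have hVn : ‖vel ζ ξ N v (y, τ)‖ ≤ B := by
      rw [pi_norm_le_iff_of_nonneg hB]
      exact fun l => hV l y (Metric.ball_subset_ball m4 hyb) τ (hτ.trans m4)
    set Λ : ℂ := ∑ k : ι × ι, (v k.1 * conj (v k.2)) y *
        pf ζ ξ N (uAB r hr k.1 k.2) y τ with hΛ
    set Gv : ℂ := ∑ a : ι, (v a) y * pf ζ ξ N (uA r hr a) y τ with hGv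
    -- bounds
    have u2 : ‖Gv‖ ≤ QG + C₂ * |τ| ^ (J + 1) := by
      have e : Gv = (Gv - ∑ j ∈ Finset.range (J + 1), ((τ : ℂ) ^ j / (j.factorial : ℂ)) *
          (∑ k, v k * tc ζ ξ j (uA r hr k) : Osm n) y)
          + ∑ j ∈ Finset.range (J + 1), ((τ : ℂ) ^ j / (j.factorial : ℂ)) *
          (Gc ζ ξ r hr v j) y := by
        unfold Gc
        ring
      rw [e]
      refine (norm_add_le _ _).trans ?_
      rw [add_comm]
      refine add_le_add ?_ t2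
      refine (norm_sum_le _ _).trans (Finset.sum_le_sum fun j _ => ?_)
      rw [norm_mul]
      calc _ ≤ 1 * ‖(Gc ζ ξ r hr v j) y‖ := by gcongr; exact hfac j τ hτ1
        _ = _ := one_mul _
    have u3 : |r (cw ζ ξ N (y, τ))| ≤ QR + C₃ * |τ| ^ (J + 1) := by
      rw [← Real.norm_eq_abs, ← Complex.norm_real]
      have e : ((r (cw ζ ξ N (y, τ)) : ℝ) : ℂ) = (((r (cw ζ ξ N (y, τ)) : ℝ) : ℂ)
          - ∑ j ∈ Finset.range (J + 1), ((τ : ℂ) ^ j / (j.factorial : ℂ)) *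
          (tc ζ ξ j (uR ι r hr)) y)
          + ∑ j ∈ Finset.range (J + 1), ((τ : ℂ) ^ j / (j.factorial : ℂ)) *
          (Rc ζ ξ r hr j) y := by
        unfold Rc
        ring
      rw [e]
      refine (norm_add_le _ _).trans ?_
      rw [add_comm]
      refine add_le_add ?_ t3
      refine (norm_sum_le _ _).trans (Finset.sum_le_sum fun j _ => ?_)
      rw [norm_mul]
      calc _ ≤ 1 * ‖(Rc ζ ξ r hr j) y‖ := by gcongr; exact hfac j τ hτ1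
        _ = _ := one_mul _
    have u1 : Λ.re ≤ τ ^ J * b + QH + C₁ * |τ| ^ (J + 1) := by
      have e : Λ = (Λ - ∑ j ∈ Finset.range (J + 1), ((τ : ℂ) ^ j / (j.factorial : ℂ)) *
          (∑ k : ι × ι, (v k.1 * conj (v k.2)) *
            tc ζ ξ j (uAB r hr k.1 k.2) : Osm n) y)
          + ((∑ j ∈ Finset.range J, ((τ : ℂ) ^ j / (j.factorial : ℂ)) *
          (Hc ζ ξ r hr v j) y) + ((τ : ℂ) ^ J / (J.factorial : ℂ)) * (Hc ζ ξ r hr v J) y) := by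
        rw [← Finset.sum_range_succ]
        unfold Hc
        ring
      have e2 : (((τ : ℂ) ^ J / (J.factorial : ℂ)) * (Hc ζ ξ r hr v J) y).re = τ ^ J * b := by
        have : ((τ : ℂ) ^ J / (J.factorial : ℂ)) = ((τ ^ J / (J.factorial : ℝ) : ℝ) : ℂ) := by
          push_cast
          rfl
        rw [this, Complex.re_ofReal_mul, hb]
        ring
      rw [e, Complex.add_re, Complex.add_re, e2]
      have w1 : (Λ - ∑ j ∈ Finset.range (J + 1), ((τ : ℂ) ^ j / (j.factorial : ℂ)) *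
          (∑ k : ι × ι, (v k.1 * conj (v k.2)) *
            tc ζ ξ j (uAB r hr k.1 k.2) : Osm n) y).re
          ≤ C₁ * |τ| ^ (J + 1) := (Complex.re_le_norm _).trans t1
      have w2 : (∑ j ∈ Finset.range J, ((τ : ℂ) ^ j / (j.factorial : ℂ)) *
          (Hc ζ ξ r hr v j) y).re ≤ QH := by
        refine (Complex.re_le_norm _).trans ((norm_sum_le _ _).trans
          (Finset.sum_le_sum fun j _ => ?_))
        rw [norm_mul]
        calc _ ≤ 1 * ‖(Hc ζ ξ r hr v j) y‖ := by gcongr; exact hfac j τ hτ1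
          _ = _ := one_mul _
      linarith
    have u4 : C₀ * (|r (cw ζ ξ N (y, τ))| * ‖vel ζ ξ N v (y, τ)‖ ^ 2
        + ‖Gv‖ * ‖vel ζ ξ N v (y, τ)‖)
        ≤ C₄ * ((QG + C₂ * |τ| ^ (J + 1)) + (QR + C₃ * |τ| ^ (J + 1))) := by
      set VV := ‖vel ζ ξ N v (y, τ)‖ with hVV
      have hVV0 : 0 ≤ VV := norm_nonneg _
      set gg := QG + C₂ * |τ| ^ (J + 1) with hgg
      set rr := QR + C₃ * |τ| ^ (J + 1) with hrr
      have hgg0 : 0 ≤ gg := by positivity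
      have hrr0 : 0 ≤ rr := by positivity
      calc _ ≤ C₀ * (rr * B ^ 2 + gg * B) := by gcongr
        _ ≤ C₀ * ((gg + rr) * (B ^ 2 + B)) := by
            gcongr
            nlinarith [mul_nonneg hgg0 (sq_nonneg B), mul_nonneg hrr0 hB]
        _ = C₄ * (gg + rr) := by rw [hC₄]; ring
    have u5 : C₅ * |τ| ^ (J + 1) = C₁ * |τ| ^ (J + 1)
        + C₄ * (C₂ * |τ| ^ (J + 1) + C₃ * |τ| ^ (J + 1)) := by rw [hC₅]; ring
    rw [u5]
    linarith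
  have hres := odd_bound hJ hC₅0 hδ hbB hineq
  rw [← hκ] at hres
  have hn : ‖(Hc ζ ξ r hr v J) y‖ = (J.factorial : ℝ) * |b| := by
    have h1 : (starRingEnd ℂ) ((Hc ζ ξ r hr v J) y) = (Hc ζ ξ r hr v J) y := by
      have := congrArg (fun G : Osm n => G y) (Hc_conj (ζ := ζ) ξ r hr v J)
      exact this
    have h2 := Complex.conj_eq_iff_re.1 h1
    rw [← h2, Complex.norm_real, Real.norm_eq_abs, hb, abs_div, abs_of_pos hJf]
    field_simp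
  rw [hn, mul_pow, mul_assoc]
  refine mul_le_mul_of_nonneg_left (hres.trans ?_) (by positivity)
  rw [mul_assoc (2 / κ ^ J)]
  refine mul_le_mul_of_nonneg_left ?_ (by positivity)
  rw [Finset.sum_add_distrib]
  change QH + C₄ * (QG + QR) ≤ (1 + C₄) * (QH + (QG + QR))
  nlinarith [mul_nonneg hC₄0 hQH0]

end curve

end Pool.Agent.Work.MP_80f671_an
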