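import Pool.Agent.Work.MP_80f671_an.Defs
import Pool.Agent.Work.MP_80f671_an.Kohn

/-!
The ring of smooth complex valued functions on `ℂ^n` and its Wirtinger derivations.
-/

namespace Pool.Agent.Work.MP_80f671_an

open Filter Topology ContDiff

/-- The subalgebra of smooth functions on `ℂ^n`. -/
def OsmSub (n : ℕ) : Subalgebra ℂ ((Fin n → ℂ) → ℂ) where
  carrier := {f | ContDiff ℝ ∞ f}
  mul_mem' := fun {_ _} hf hg => by
    simp only [Set.mem_ofPred_eq] at hf hg ⊢
    exact hf.mul hg
  add_mem' := fun {_ _} hf hg => by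
    simp only [Set.mem_ofPred_eq] at hf hg ⊢
    exact hf.add hg
  algebraMap_mem' := fun c => by
    simp only [Set.mem_ofPred_eq]
    exact contDiff_const (c := c)

/-- The ring of smooth functions on `ℂ^n`. -/
def Osm (n : ℕ) : Type := ↥(OsmSub n)

noncomputable instance (n : ℕ) : CommRing (Osm n) := inferInstanceAs (CommRing ↥(OsmSub n))

noncomputable instance (n : ℕ) : Algebra ℂ (Osm n) := inferInstanceAs (Algebra ℂ ↥(OsmSub n))

namespace Osm

variable {n : ℕ}

/-- The underlying function. -/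
def toFn (f : Osm n) : (Fin n → ℂ) → ℂ := Subtype.val (p := fun g => g ∈ OsmSub n) f

/-- Constructor. -/
def mk (f : (Fin n → ℂ) → ℂ) (hf : ContDiff ℝ ∞ f) : Osm n :=
  Subtype.mk (p := fun g => g ∈ OsmSub n) f hf

instance : CoeFun (Osm n) (fun _ => (Fin n → ℂ) → ℂ) := ⟨toFn⟩

lemma smooth (f : Osm n) : ContDiff ℝ ∞ (f : (Fin n → ℂ) → ℂ) :=
  Subtype.property (p := fun g => g ∈ OsmSub n) f

@[simp] lemma mk_coe (f : (Fin n → ℂ) → ℂ) (hf : ContDiff ℝ ∞ f) :
    (mk f hf : (Fin n → ℂ) → ℂ) = f := rfl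

lemma ext' {f g : Osm n} (h : ∀ x, f x = g x) : f = g :=
  Subtype.ext (p := fun g => g ∈ OsmSub n) (funext h)

@[simp] lemma coe_add (f g : Osm n) (x : Fin n → ℂ) : (f + g) x = f x + g x := rfl
@[simp] lemma coe_sub (f g : Osm n) (x : Fin n → ℂ) : (f - g) x = f x - g x := rfl
@[simp] lemma coe_mul (f g : Osm n) (x : Fin n → ℂ) : (f * g) x = f x * g x := rfl
@[simp] lemma coe_neg (f : Osm n) (x : Fin n → ℂ) : (-f) x = - f x := rfl
@[simp] lemma coe_zero (x : Fin n → ℂ) : (0 : Osm n) x = 0 := rfl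
@[simp] lemma coe_one (x : Fin n → ℂ) : (1 : Osm n) x = 1 := rfl
@[simp] lemma coe_smul (c : ℂ) (f : Osm n) (x : Fin n → ℂ) : (c • f) x = c * f x := rfl
@[simp] lemma coe_pow (f : Osm n) (k : ℕ) (x : Fin n → ℂ) : (f ^ k) x = f x ^ k := rfl

/-- Evaluation at a point. -/
def evalAt (x : Fin n → ℂ) : Osm n →ₐ[ℂ] ℂ where
  toFun := fun f => f x
  map_one' := rfl
  map_mul' := fun _ _ => rfl
  map_zero' := rfl
  map_add' := fun _ _ => rfl
  commutes' := fun _ => rfl

@[simp] lemma evalAt_apply (x : Fin n → ℂ) (f : Osm n) : evalAt x f = f x := rfl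

@[simp] lemma coe_sum {ι : Type*} (s : Finset ι) (f : ι → Osm n) (x : Fin n → ℂ) :
    (∑ i ∈ s, f i : Osm n) x = ∑ i ∈ s, (f i) x := by
  exact map_sum (evalAt x) f s

@[simp] lemma coe_prod {ι : Type*} (s : Finset ι) (f : ι → Osm n) (x : Fin n → ℂ) :
    (∏ i ∈ s, f i : Osm n) x = ∏ i ∈ s, (f i) x := by
  exact map_prod (evalAt x) f s

lemma differentiable (f : Osm n) : Differentiable ℝ (f : (Fin n → ℂ) → ℂ) :=
  (smooth f).differentiable (by simp)

lemma continuous (f : Osm n) : Continuous (f : (Fin n → ℂ) → ℂ) := (smooth f).continuous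

/-- Directional derivative along a constant vector. -/
noncomputable def dir (h : Fin n → ℂ) : Derivation ℂ (Osm n) (Osm n) :=
  Derivation.mk' 
    { toFun := fun f => mk (fun x => fderiv ℝ (f : (Fin n → ℂ) → ℂ) x h) (by
        have h1 : ContDiff ℝ ∞ (fun x => fderiv ℝ (f : (Fin n → ℂ) → ℂ) x) :=
          (smooth f).fderiv_right (by simp)
        exact h1.clm_apply contDiff_const)
      map_add' := fun f g => ext' fun x => by
        change fderiv ℝ ((f : (Fin n → ℂ) → ℂ) + (g : (Fin n → ℂ) → ℂ)) x h = _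
        rw [fderiv_add (differentiable f x) (differentiable g x)]
        rfl
      map_smul' := fun c f => ext' fun x => by
        change fderiv ℝ (c • (f : (Fin n → ℂ) → ℂ)) x h = _
        rw [fderiv_const_smul (differentiable f x)]
        rfl } (fun f g => ext' fun x => by
        change fderiv ℝ ((f : (Fin n → ℂ) → ℂ) * (g : (Fin n → ℂ) → ℂ)) x h = _
        rw [fderiv_mul (differentiable f x) (differentiable g x)]
        rfl)

lemma dir_apply (h : Fin n → ℂ) (f : Osm n) (x : Fin n → ℂ) :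
    (dir h f) x = fderiv ℝ (f : (Fin n → ℂ) → ℂ) x h := rfl

lemma dir_comm (h k : Fin n → ℂ) (f : Osm n) : dir h (dir k f) = dir k (dir h f) := by
  apply ext'
  intro x
  have h2 : ContDiffAt ℝ ∞ (f : (Fin n → ℂ) → ℂ) x := (smooth f).contDiffAt
  have hs := h2.isSymmSndFDerivAt (by simpa using ENat.LEInfty.out)
  have hd : DifferentiableAt ℝ (fun y => fderiv ℝ (f : (Fin n → ℂ) → ℂ) y) x := by
    have h1 : ContDiff ℝ ∞ (fun x => fderiv ℝ (f : (Fin n → ℂ) → ℂ) x) :=
      (smooth f).fderiv_right (by simp)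
    exact (h1.differentiable (by simp)) x
  have key : ∀ u v : Fin n → ℂ, (dir u (dir v f)) x
      = fderiv ℝ (fderiv ℝ (f : (Fin n → ℂ) → ℂ)) x u v := by
    intro u v
    rw [dir_apply]
    have : (fun y => (dir v f) y) = fun y => fderiv ℝ (f : (Fin n → ℂ) → ℂ) y v := rfl
    change fderiv ℝ (fun y => fderiv ℝ (f : (Fin n → ℂ) → ℂ) y v) x u = _
    rw [fderiv_clm_apply hd (differentiableAt_const v)]
    simp
  rw [key, key]
  exact hs.eq h k

/-- The derivation `∂/∂z_a`. -/
noncomputable def D (a : Fin n) : Derivation ℂ (Osm n) (Osm n) :=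
  (1 / 2 : ℂ) • (dir (Pi.single a 1) - Complex.I • dir (Pi.single a Complex.I))

/-- The derivation `∂/∂z̄_a`. -/
noncomputable def Dbar (a : Fin n) : Derivation ℂ (Osm n) (Osm n) :=
  (1 / 2 : ℂ) • (dir (Pi.single a 1) + Complex.I • dir (Pi.single a Complex.I))

lemma D_coe (a : Fin n) (f : Osm n) : (D a f : (Fin n → ℂ) → ℂ) = dz a f := by
  funext x
  simp only [D, dz, Derivation.smul_apply, Derivation.sub_apply, coe_smul, coe_sub, dir_apply]
  ring

lemma Dbar_coe (a : Fin n) (f : Osm n) : (Dbar a f : (Fin n → ℂ) → ℂ) = dzbar a f := by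
  funext x
  simp only [Dbar, dzbar, Derivation.smul_apply, Derivation.add_apply, coe_smul, coe_add,
    dir_apply]
  ring

lemma D_apply (a : Fin n) (f : Osm n) (x : Fin n → ℂ) : (D a f) x = dz a f x := by
  rw [D_coe]

lemma Dbar_apply (a : Fin n) (f : Osm n) (x : Fin n → ℂ) : (Dbar a f) x = dzbar a f x := by
  rw [Dbar_coe]

lemma D_D (a b : Fin n) (f : Osm n) : D a (D b f) = D b (D a f) := by
  simp only [D, Derivation.smul_apply, Derivation.sub_apply, Derivation.map_smul, map_sub]
  rw [dir_comm (Pi.single a 1) (Pi.single b 1), dir_comm (Pi.single a 1) (Pi.single b Complex.I),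
    dir_comm (Pi.single a Complex.I) (Pi.single b 1),
    dir_comm (Pi.single a Complex.I) (Pi.single b Complex.I)]
  module

lemma Dbar_Dbar (a b : Fin n) (f : Osm n) : Dbar a (Dbar b f) = Dbar b (Dbar a f) := by
  simp only [Dbar, Derivation.smul_apply, Derivation.add_apply, Derivation.map_smul, map_add]
  rw [dir_comm (Pi.single a 1) (Pi.single b 1), dir_comm (Pi.single a 1) (Pi.single b Complex.I),
    dir_comm (Pi.single a Complex.I) (Pi.single b 1),
    dir_comm (Pi.single a Complex.I) (Pi.single b Complex.I)]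
  module

lemma D_Dbar (a b : Fin n) (f : Osm n) : D a (Dbar b f) = Dbar b (D a f) := by
  simp only [D, Dbar, Derivation.smul_apply, Derivation.add_apply, Derivation.sub_apply,
    Derivation.map_smul, map_add, map_sub]
  rw [dir_comm (Pi.single a 1) (Pi.single b 1), dir_comm (Pi.single a 1) (Pi.single b Complex.I),
    dir_comm (Pi.single a Complex.I) (Pi.single b 1),
    dir_comm (Pi.single a Complex.I) (Pi.single b Complex.I)]
  module

/-- Complex conjugation of functions. -/
noncomputable def conj : Osm n →+* Osm n where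
  toFun := fun f => mk (fun x => (starRingEnd ℂ) (f x))
    ((Complex.conjCLE.contDiff).comp (smooth f))
  map_one' := ext' fun x => by simp
  map_mul' := fun f g => ext' fun x => by simp
  map_zero' := ext' fun x => by simp
  map_add' := fun f g => ext' fun x => by simp

@[simp] lemma conj_apply (f : Osm n) (x : Fin n → ℂ) : (conj f) x = (starRingEnd ℂ) (f x) := rfl

@[simp] lemma conj_conj (f : Osm n) : conj (conj f) = f := ext' fun x => by simp

lemma conj_smul (c : ℂ) (f : Osm n) : conj (c • f) = (starRingEnd ℂ) c • conj f :=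
  ext' fun x => by simp

lemma dir_conj (h : Fin n → ℂ) (f : Osm n) : dir h (conj f) = conj (dir h f) := by
  apply ext'
  intro x
  rw [dir_apply, conj_apply, dir_apply]
  have h1 : (conj f : (Fin n → ℂ) → ℂ) = fun y => Complex.conjCLE (f y) := rfl
  rw [h1]
  have h2 := (Complex.conjCLE.toContinuousLinearMap.hasFDerivAt).comp x
    (differentiable f x).hasFDerivAt
  have h3 : fderiv ℝ (fun y => Complex.conjCLE (f y)) x = _ := h2.fderiv
  rw [h3]
  rfl

lemma conj_D (a : Fin n) (f : Osm n) : conj (D a f) = Dbar a (conj f) := by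
  simp only [D, Dbar, Derivation.smul_apply, Derivation.add_apply, Derivation.sub_apply,
    conj_smul, map_sub, dir_conj]
  simp [map_ofNat]

lemma conj_Dbar (a : Fin n) (f : Osm n) : conj (Dbar a f) = D a (conj f) := by
  have := conj_D a (conj f)
  rw [conj_conj] at this
  rw [← this, conj_conj]

/-- The coordinate functions. -/
def zc (a : Fin n) : Osm n := mk (fun x => x a) (contDiff_apply ℝ ℂ a)

@[simp] lemma zc_apply (a : Fin n) (x : Fin n → ℂ) : (zc a) x = x a := rfl

lemma dir_zc (h : Fin n → ℂ) (a : Fin n) (x : Fin n → ℂ) : (dir h (zc a)) x = h a := by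
  rw [dir_apply]
  have : HasFDerivAt (zc a : (Fin n → ℂ) → ℂ)
      (ContinuousLinearMap.proj (R := ℝ) (φ := fun _ : Fin n => ℂ) a) x :=
    (ContinuousLinearMap.proj (R := ℝ) (φ := fun _ : Fin n => ℂ) a).hasFDerivAt
  rw [this.fderiv]
  rfl

lemma D_zc (a b : Fin n) : D a (zc b) = if a = b then 1 else 0 := by
  apply ext'
  intro x
  simp only [D, Derivation.smul_apply, Derivation.sub_apply, coe_smul, coe_sub, dir_zc]
  by_cases h : a = b
  · subst h
    simp
    ring
  · rw [Pi.single_eq_of_ne (Ne.symm h), Pi.single_eq_of_ne (Ne.symm h)]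
    simp [h]

lemma Dbar_zc (a b : Fin n) : Dbar a (zc b) = 0 := by
  apply ext'
  intro x
  simp only [Dbar, Derivation.smul_apply, Derivation.add_apply, coe_smul, coe_add, dir_zc]
  by_cases h : a = b
  · subst h
    simp
  · rw [Pi.single_eq_of_ne (Ne.symm h), Pi.single_eq_of_ne (Ne.symm h)]
    simp

/-- Decomposition of a real direction. -/
lemma fderiv_eq (f : (Fin n → ℂ) → ℂ) (x h : Fin n → ℂ) :
    fderiv ℝ f x h = ∑ a, (h a * dz a f x + (starRingEnd ℂ) (h a) * dzbar a f x) := by
  have h1 : h = ∑ a, ((h a).re • (Pi.single a (1 : ℂ) : Fin n → ℂ)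
      + (h a).im • (Pi.single a Complex.I : Fin n → ℂ)) := by
    funext b
    rw [Finset.sum_apply, Finset.sum_eq_single b]
    · simp
    · intro c _ hcb
      simp [Pi.single_eq_of_ne (Ne.symm hcb)]
    · simp
  conv_lhs => rw [h1]
  rw [map_sum]
  apply Finset.sum_congr rfl
  intro a _
  rw [map_add, map_smul, map_smul]
  simp only [dz, dzbar]
  have h2 : (h a) = ((h a).re : ℂ) + (h a).im * Complex.I := (Complex.re_add_im _).symm
  have h3 : (starRingEnd ℂ) (h a) = ((h a).re : ℂ) - (h a).im * Complex.I := by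
    apply Complex.ext <;> simp
  rw [h3]
  conv_rhs => rw [h2]
  simp only [Complex.real_smul]
  simp only [Complex.add_re, Complex.ofReal_re, Complex.mul_re, Complex.I_re, mul_zero,
    Complex.ofReal_im, Complex.I_im, mul_one, sub_self, add_zero, Complex.add_im, Complex.mul_im,
    zero_add]
  have hI : Complex.I * Complex.I = -1 := Complex.I_mul_I
  linear_combination ((h a).im : ℂ) * fderiv ℝ f x (Pi.single a Complex.I) * hI

lemma dir_eq (h : Fin n → ℂ) (f : Osm n) (x : Fin n → ℂ) :
    (dir h f) x = ∑ a, (h a * (D a f) x + (starRingEnd ℂ) (h a) * (Dbar a f) x) := by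
  rw [dir_apply, fderiv_eq]
  simp only [D_apply, Dbar_apply]

end Osm

end Pool.Agent.Work.MP_80f671_an
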