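import Pool.Agent.Work.MP_80f671_an.Levi

/-!
Tangential derivatives of almost nonnegative functions are dominated.
-/

namespace Pool.Agent.Work.MP_80f671_an

open Filter Topology ContDiff Osm

variable {n : ℕ} {x₀ : Fin n → ℂ}

/-- Second order Taylor estimate, uniform near a point. -/
lemma taylor2 (f : Osm n) (x₀ : Fin n → ℂ) :
    ∃ C : ℝ, 0 ≤ C ∧ ∃ δ > 0, ∀ y ∈ Metric.ball x₀ δ, ∀ k : Fin n → ℂ, ‖k‖ < δ →
      ‖f (y + k) - f y - fderiv ℝ (f : (Fin n → ℂ) → ℂ) y k‖ ≤ C * ‖k‖ ^ 2 := by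
  have h1 : ContDiff ℝ 1 (fun x => fderiv ℝ (f : (Fin n → ℂ) → ℂ) x) :=
    ((Osm.smooth f).fderiv_right (m := ∞) (by simp)).of_le (by
      exact_mod_cast (le_top : (1 : ℕ∞) ≤ ⊤))
  obtain ⟨K, t, ht, hK⟩ := (h1.contDiffAt (x := x₀)).exists_lipschitzOnWith
  obtain ⟨δ, hδ, hball⟩ := Metric.mem_nhds_iff.1 ht
  refine ⟨K, K.2, δ / 2, by positivity, fun y hy k hk => ?_⟩
  rw [Metric.mem_ball, dist_eq_norm] at hy
  have hsub : ∀ z ∈ Metric.closedBall y ‖k‖, z ∈ Metric.ball x₀ δ := by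
    intro z hz
    rw [Metric.mem_closedBall, dist_eq_norm] at hz
    rw [Metric.mem_ball, dist_eq_norm]
    calc ‖z - x₀‖ = ‖(z - y) + (y - x₀)‖ := by congr 1; abel
      _ ≤ ‖z - y‖ + ‖y - x₀‖ := norm_add_le _ _
      _ < δ := by linarith
  have hmem : y ∈ Metric.closedBall y ‖k‖ := Metric.mem_closedBall_self (norm_nonneg _)
  have hmem' : y + k ∈ Metric.closedBall y ‖k‖ := by
    rw [Metric.mem_closedBall, dist_eq_norm, add_sub_cancel_left]
  have key := (convex_closedBall y ‖k‖).norm_image_sub_le_of_norm_hasFDerivWithin_le'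
    (f := (f : (Fin n → ℂ) → ℂ)) (f' := fun z => fderiv ℝ (f : (Fin n → ℂ) → ℂ) z)
    (φ := fderiv ℝ (f : (Fin n → ℂ) → ℂ) y) (C := K * ‖k‖)
    (fun z _ => (Osm.differentiable f z).hasFDerivAt.hasFDerivWithinAt)
    (fun z hz => by
      have h2 := hK.dist_le_mul z (hball (hsub z hz)) y (hball (hsub y hmem))
      rw [dist_eq_norm, dist_eq_norm] at h2
      rw [Metric.mem_closedBall, dist_eq_norm] at hz
      exact h2.trans (by gcongr)) hmem hmem'
  rw [add_sub_cancel_left] at key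
  calc _ ≤ K * ‖k‖ * ‖k‖ := key
    _ = K * ‖k‖ ^ 2 := by ring

/-- Elementary quadratic estimate. -/
lemma quad_bound {A M τ D B : ℝ} (hM : 0 < M) (hτ : 0 < τ) (hD : 0 ≤ D) (hB : |B| ≤ D)
    (h : ∀ t : ℝ, |t| ≤ τ → 0 ≤ A + t * B + M * t ^ 2) :
    B ^ 2 ≤ 2 / (min (τ / (D + 1)) (1 / (2 * M))) * A := by
  set κ := min (τ / (D + 1)) (1 / (2 * M)) with hκ
  have hκ0 : 0 < κ := lt_min (by positivity) (by positivity)
  have hκ1 : κ ≤ τ / (D + 1) := min_le_left _ _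
  have hκ2 : κ ≤ 1 / (2 * M) := min_le_right _ _
  have h1 := h (-(κ * B)) (by
    rw [abs_neg, abs_mul, abs_of_pos hκ0]
    calc κ * |B| ≤ τ / (D + 1) * (D + 1) := by
          gcongr
          linarith
      _ = τ := by field_simp)
  have h2 : M * κ ≤ 1 / 2 := by
    calc M * κ ≤ M * (1 / (2 * M)) := by gcongr
      _ = 1 / 2 := by field_simp
  have h3 : κ * B ^ 2 ≤ 2 * A := by
    have h4 : M * (-(κ * B)) ^ 2 = (M * κ) * (κ * B ^ 2) := by ring
    have h5 : (M * κ) * (κ * B ^ 2) ≤ 1 / 2 * (κ * B ^ 2) := by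
      have : 0 ≤ κ * B ^ 2 := by positivity
      gcongr
    nlinarith
  rw [div_mul_eq_mul_div, le_div_iff₀ hκ0]
  linarith

/-- The derivative of `F` along the real vector field with complex components `h`. -/
noncomputable def rdir (h : Fin n → Osm n) (F : Osm n) : Osm n :=
  ∑ a, (h a * D a F + conj (h a) * Dbar a F)

lemma rdir_apply (h : Fin n → Osm n) (F : Osm n) (y : Fin n → ℂ) :
    (rdir h F) y = fderiv ℝ (F : (Fin n → ℂ) → ℂ) y (fun a => (h a) y) := by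
  rw [fderiv_eq, rdir, coe_sum]
  refine Finset.sum_congr rfl fun a _ => ?_
  simp only [coe_add, coe_mul, conj_apply, D_apply, Dbar_apply]

lemma conj_rdir (h : Fin n → Osm n) (F : Osm n) (hF : conj F = F) :
    conj (rdir h F) = rdir h F := by
  unfold rdir
  rw [map_sum]
  refine Finset.sum_congr rfl fun a _ => ?_
  rw [map_add, map_mul, map_mul, conj_D, conj_Dbar, hF, conj_conj]
  ring

theorem tangential_bound (r : (Fin n → ℂ) → ℝ) (hr : ContDiff ℝ ∞ r) (F : Osm n)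
    (hFc : conj F = F) (C : ℝ) (hC : 0 ≤ C) (hlow : ∀ᶠ y in 𝓝 x₀, -(C * |r y|) ≤ (F y).re)
    (h : Fin n → Osm n) (hh : rdir h (rC r hr) = 0) :
    ∃ C' : ℝ, 0 ≤ C' ∧ ∀ᶠ y in 𝓝 x₀, ‖(rdir h F) y‖ ^ 2 ≤ C' * (‖F y‖ + |r y|) := by
  obtain ⟨C₁, hC₁, δ₁, hδ₁, hT₁⟩ := taylor2 F x₀
  obtain ⟨C₂, hC₂, δ₂, hδ₂, hT₂⟩ := taylor2 (rC r hr) x₀
  obtain ⟨δ₃, hδ₃, hT₃⟩ := Metric.mem_nhds_iff.1 hlow
  obtain ⟨D₀, hD₀, hDb⟩ := eventually_bound (rdir h F) x₀
  obtain ⟨H, hH, δ₄, hδ₄, hHb⟩ := local_lip_family h x₀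
  set δ := min (min δ₁ δ₂) (min δ₃ δ₄) with hδdef
  have hδ : 0 < δ := lt_min (lt_min hδ₁ hδ₂) (lt_min hδ₃ hδ₄)
  have m1 : δ ≤ δ₁ := (min_le_left _ _).trans (min_le_left _ _)
  have m2 : δ ≤ δ₂ := (min_le_left _ _).trans (min_le_right _ _)
  have m3 : δ ≤ δ₃ := (min_le_right _ _).trans (min_le_left _ _)
  have m4 : δ ≤ δ₄ := (min_le_right _ _).trans (min_le_right _ _)
  set M : ℝ := C₁ * H ^ 2 + C * (C₂ * H ^ 2) + 1 with hM
  have hM0 : 0 < M := by positivity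
  set τ : ℝ := δ / (2 * (H + 1)) with hτ
  have hτ0 : 0 < τ := by positivity
  set κ := min (τ / (D₀ + 1)) (1 / (2 * M)) with hκ
  have hκ0 : 0 < κ := lt_min (by positivity) (by positivity)
  refine ⟨2 / κ * (1 + C), by positivity, ?_⟩
  filter_upwards [hDb, Metric.ball_mem_nhds x₀ (half_pos hδ)] with y hy1 hy2
  have hy3 : ‖y - x₀‖ < δ / 2 := by rwa [Metric.mem_ball, dist_eq_norm] at hy2
  have hymem : y ∈ Metric.ball x₀ δ := by
    rw [Metric.mem_ball, dist_eq_norm]; linarith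
  set hv : Fin n → ℂ := fun a => (h a) y with hhv
  have hvn : ‖hv‖ ≤ H := by
    rw [pi_norm_le_iff_of_nonneg hH]
    intro a
    exact (hHb a y (Metric.ball_subset_ball m4 hymem) y (Metric.ball_subset_ball m4 hymem)).2
  set d : ℂ := (rdir h F) y with hd
  have hdr : d = (d.re : ℂ) := by
    have h1 : (starRingEnd ℂ) d = d := by
      have := congrArg (fun G : Osm n => G y) (conj_rdir h F hFc)
      exact this
    exact (Complex.conj_eq_iff_re.1 h1).symm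
  have hquad : ∀ t : ℝ, |t| ≤ τ → 0 ≤ (‖F y‖ + C * |r y|) + t * d.re + M * t ^ 2 := by
    intro t ht
    have hk : ‖(t : ℝ) • hv‖ ≤ |t| * H := by
      rw [norm_smul, Real.norm_eq_abs]
      gcongr
    have hk2 : |t| * H < δ / 2 := by
      calc |t| * H ≤ τ * H := by gcongr
        _ < τ * (H + 1) := by gcongr; linarith
        _ = δ / 2 := by rw [hτ]; field_simp
    have hk3 : ‖(t : ℝ) • hv‖ < δ := by linarith
    have h1 := hT₁ y (Metric.ball_subset_ball m1 hymem) (t • hv) (hk3.trans_le m1)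
    have h2 := hT₂ y (Metric.ball_subset_ball m2 hymem) (t • hv) (hk3.trans_le m2)
    have h3 : y + t • hv ∈ Metric.ball x₀ δ₃ := by
      rw [Metric.mem_ball, dist_eq_norm]
      calc ‖y + t • hv - x₀‖ = ‖(y - x₀) + t • hv‖ := by congr 1; abel
        _ ≤ ‖y - x₀‖ + ‖t • hv‖ := norm_add_le _ _
        _ < δ := by linarith
        _ ≤ δ₃ := m3
    have h4 := hT₃ h3
    simp only [Set.mem_ofPred_eq] at h4
    have h4' : -(C * |r (y + t • hv)|) ≤ (F (y + t • hv)).re := h4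
    rw [map_smul, ← rdir_apply] at h1 h2
    rw [hh, coe_zero, smul_zero, sub_zero] at h2
    have hsq : ‖(t : ℝ) • hv‖ ^ 2 ≤ H ^ 2 * t ^ 2 := by
      calc ‖(t : ℝ) • hv‖ ^ 2 ≤ (|t| * H) ^ 2 := by gcongr
        _ = H ^ 2 * t ^ 2 := by rw [mul_pow, sq_abs]; ring
    have h5 : |(F (y + t • hv)).re - (F y).re - t * d.re| ≤ C₁ * (H ^ 2 * t ^ 2) := by
      have e : (F (y + t • hv)).re - (F y).re - t * d.re
          = (F (y + t • hv) - F y - t • (rdir h F) y).re := by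
        rw [Complex.sub_re, Complex.sub_re, Complex.real_smul, Complex.re_ofReal_mul]
      rw [e]
      exact (Complex.abs_re_le_norm _).trans (h1.trans (by gcongr))
    have h6 : |r (y + t • hv)| ≤ |r y| + C₂ * (H ^ 2 * t ^ 2) := by
      have e : |r (y + t • hv) - r y| ≤ C₂ * (H ^ 2 * t ^ 2) := by
        have : ‖((r (y + t • hv) : ℂ)) - (r y : ℂ)‖ ≤ C₂ * (H ^ 2 * t ^ 2) :=
          h2.trans (by gcongr)
        rwa [← Complex.ofReal_sub, Complex.norm_real, Real.norm_eq_abs] at this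
      calc |r (y + t • hv)| = |r y + (r (y + t • hv) - r y)| := by congr 1; ring
        _ ≤ |r y| + |r (y + t • hv) - r y| := abs_add_le _ _
        _ ≤ _ := by gcongr
    have h7 : (F y).re ≤ ‖F y‖ := Complex.re_le_norm _
    have h8 := (abs_le.1 h5).2
    have h9 : C * |r (y + t • hv)| ≤ C * (|r y| + C₂ * (H ^ 2 * t ^ 2)) := by gcongr
    have h10 : M * t ^ 2 = C₁ * (H ^ 2 * t ^ 2) + C * (C₂ * (H ^ 2 * t ^ 2)) + t ^ 2 := by
      rw [hM]; ring
    nlinarith [sq_nonneg t]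
  have hB : |d.re| ≤ D₀ := (Complex.abs_re_le_norm _).trans hy1
  have hres := quad_bound hM0 hτ0 hD₀ hB hquad
  have hn : ‖d‖ = |d.re| := by
    conv_lhs => rw [hdr]
    rw [Complex.norm_real, Real.norm_eq_abs]
  rw [hn, sq_abs]
  refine hres.trans ?_
  rw [← hκ, mul_assoc]
  have h11 : 0 ≤ ‖F y‖ := norm_nonneg _
  have h12 : 0 ≤ |r y| := abs_nonneg _
  refine mul_le_mul_of_nonneg_left ?_ (by positivity)
  nlinarith [mul_nonneg hC h11]

/-- Tangential derivatives stay in a dominated-closed ideal. -/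
theorem rdir_mem {P : Ideal (Osm n)} (hP : LClosed x₀ P) (r : (Fin n → ℂ) → ℝ)
    (hr : ContDiff ℝ ∞ r) (hrP : rC r hr ∈ P) (F : Osm n) (hFP : F ∈ P)
    (hFc : conj F = F) (C : ℝ) (hC : 0 ≤ C) (hlow : ∀ᶠ y in 𝓝 x₀, -(C * |r y|) ≤ (F y).re)
    (h : Fin n → Osm n) (hh : rdir h (rC r hr) = 0) : rdir h F ∈ P := by
  obtain ⟨C', hC', hb⟩ := tangential_bound r hr F hFc C hC hlow h hh
  refine hP (F * conj F + rC r hr * conj (rC r hr))
    (P.add_mem (P.mul_mem_right _ hFP) (P.mul_mem_right _ hrP)) _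
    ⟨4, by norm_num, 2 * C' ^ 2, by positivity, ?_⟩
  filter_upwards [hb] with y hy
  have e1 : (F * conj F + rC r hr * conj (rC r hr)) y = ((‖F y‖ ^ 2 + |r y| ^ 2 : ℝ) : ℂ) := by
    rw [coe_add, norm_mul_conj, norm_mul_conj, rC_apply, Complex.norm_real, Real.norm_eq_abs]
    push_cast
    ring
  rw [e1, Complex.norm_real, Real.norm_of_nonneg (by positivity)]
  calc ‖(rdir h F) y‖ ^ 4 = (‖(rdir h F) y‖ ^ 2) ^ 2 := by ring
    _ ≤ (C' * (‖F y‖ + |r y|)) ^ 2 := by gcongr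
    _ ≤ 2 * C' ^ 2 * (‖F y‖ ^ 2 + |r y| ^ 2) := by
      nlinarith [mul_nonneg (sq_nonneg C') (sq_nonneg (‖F y‖ - |r y|))]

end Pool.Agent.Work.MP_80f671_an
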