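import Pool.Agent.Work.MP_80f671_an.Curve

/-!
Taylor polynomials of smooth functions and their composition with polynomial curves.
-/

namespace Pool.Agent.Work.MP_80f671_an

open Filter Topology ContDiff Osm

variable {n : ℕ} {x₀ : Fin n → ℂ}

/-- The derivations `∂/∂z_a`, `∂/∂z̄_a` as one family. -/
noncomputable def dd (d : Fin n ⊕ Fin n) : Derivation ℂ (Osm n) (Osm n) := Sum.elim D Dbar d

/-- The constant coefficient derivation with coefficients `k`. -/
noncomputable def kD (k : Fin n ⊕ Fin n → ℂ) (f : Osm n) : Osm n := ∑ d, k d • dd d f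

/-- The homogeneous Taylor forms (without factorials). -/
noncomputable def tp : ℕ → Osm n → (Fin n → ℂ) → MvPolynomial (Fin n ⊕ Fin n) ℂ
  | 0, f, y => MvPolynomial.C (f y)
  | j + 1, f, y => ∑ d, MvPolynomial.X d * tp j (dd d f) y

lemma kD_iter_add (k : Fin n ⊕ Fin n → ℂ) (j : ℕ) (f g : Osm n) :
    (kD k)^[j] (f + g) = (kD k)^[j] f + (kD k)^[j] g := by
  induction j generalizing f g with
  | zero => rfl
  | succ j ih =>
    rw [Function.iterate_succ_apply, Function.iterate_succ_apply, Function.iterate_succ_apply, ← ih]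
    congr 1
    unfold kD
    rw [← Finset.sum_add_distrib]
    exact Finset.sum_congr rfl fun d _ => by rw [map_add, smul_add]

lemma kD_iter_smul (k : Fin n ⊕ Fin n → ℂ) (j : ℕ) (c : ℂ) (f : Osm n) :
    (kD k)^[j] (c • f) = c • (kD k)^[j] f := by
  induction j generalizing f with
  | zero => rfl
  | succ j ih =>
    rw [Function.iterate_succ_apply, Function.iterate_succ_apply, ← ih]
    congr 1
    unfold kD
    rw [Finset.smul_sum]
    exact Finset.sum_congr rfl fun d _ => by rw [Derivation.map_smul, smul_comm]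

lemma kD_iter_zero (k : Fin n ⊕ Fin n → ℂ) (j : ℕ) : (kD k)^[j] (0 : Osm n) = 0 := by
  have := kD_iter_smul k j 0 (0 : Osm n)
  rwa [zero_smul, zero_smul] at this

lemma kD_iter_sum (k : Fin n ⊕ Fin n → ℂ) (j : ℕ) {κ : Type*} (s : Finset κ) (f : κ → Osm n) :
    (kD k)^[j] (∑ i ∈ s, f i) = ∑ i ∈ s, (kD k)^[j] (f i) := by
  classical
  induction s using Finset.induction_on with
  | empty => rw [Finset.sum_empty, Finset.sum_empty, kD_iter_zero]
  | insert a s ha ih => rw [Finset.sum_insert ha, Finset.sum_insert ha, kD_iter_add, ih]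

lemma eval_tp (k : Fin n ⊕ Fin n → ℂ) (j : ℕ) (f : Osm n) (y : Fin n → ℂ) :
    MvPolynomial.eval k (tp j f y) = ((kD k)^[j] f) y := by
  induction j generalizing f with
  | zero => simp [tp]
  | succ j ih =>
    rw [tp, map_sum, Function.iterate_succ_apply]
    unfold kD
    change _ = ((kD k)^[j] (∑ d, k d • dd d f)) y
    rw [kD_iter_sum, coe_sum]
    refine Finset.sum_congr rfl fun d _ => ?_
    rw [map_mul, MvPolynomial.eval_X, ih, kD_iter_smul, coe_smul]

lemma tp_hom (j : ℕ) (f : Osm n) (y : Fin n → ℂ) : (tp j f y).IsHomogeneous j := by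
  induction j generalizing f with
  | zero => exact MvPolynomial.isHomogeneous_C _ _
  | succ j ih =>
    rw [tp]
    refine MvPolynomial.IsHomogeneous.sum _ _ _ fun d _ => ?_
    rw [add_comm j 1]
    exact (MvPolynomial.isHomogeneous_X _ _).mul (ih _)

lemma coeff_tp_continuous (j : ℕ) (f : Osm n) (m : Fin n ⊕ Fin n →₀ ℕ) :
    Continuous (fun y => MvPolynomial.coeff m (tp j f y)) := by
  classical
  induction j generalizing f m with
  | zero =>
    simp only [tp, MvPolynomial.coeff_C]
    by_cases h : (0 : Fin n ⊕ Fin n →₀ ℕ) = m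
    · simp only [if_pos h]
      exact Osm.continuous f
    · simp only [if_neg h]
      exact continuous_const
  | succ j ih =>
    simp only [tp, MvPolynomial.coeff_sum]
    refine continuous_finsetSum _ fun d _ => ?_
    by_cases h : d ∈ m.support
    · have : (fun y => MvPolynomial.coeff m (MvPolynomial.X d * tp j (dd d f) y))
          = fun y => MvPolynomial.coeff (m - Finsupp.single d 1) (tp j (dd d f) y) := by
        funext y
        rw [MvPolynomial.coeff_X_mul', if_pos h]
      rw [this]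
      exact ih _ _
    · have : (fun y => MvPolynomial.coeff m (MvPolynomial.X d * tp j (dd d f) y))
          = fun y => 0 := by
        funext y
        rw [MvPolynomial.coeff_X_mul', if_neg h]
      rw [this]
      exact continuous_const

/-- Bounds for the Taylor forms. -/
lemma tp_bound (j : ℕ) (f : Osm n) (x₀ : Fin n → ℂ) :
    ∃ C : ℝ, 0 ≤ C ∧ ∀ᶠ z in 𝓝 x₀, ∀ (k : Fin n ⊕ Fin n → ℂ) (H : ℝ), 0 ≤ H →
      (∀ d, ‖k d‖ ≤ H) → ‖((kD k)^[j] f) z‖ ≤ C * H ^ j := by
  induction j generalizing f with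
  | zero =>
    obtain ⟨C, hC, hb⟩ := eventually_bound f x₀
    refine ⟨C, hC, ?_⟩
    filter_upwards [hb] with z hz k H _ _
    simpa using hz
  | succ j ih =>
    choose C hC hb using fun d => ih (dd d f)
    refine ⟨∑ d, C d, Finset.sum_nonneg fun d _ => hC d, ?_⟩
    filter_upwards [Filter.eventually_all.2 hb] with z hz k H hH hk
    rw [← eval_tp, tp, map_sum, Finset.sum_mul]
    refine (norm_sum_le _ _).trans (Finset.sum_le_sum fun d _ => ?_)
    rw [map_mul, MvPolynomial.eval_X, eval_tp, norm_mul]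
    calc ‖k d‖ * ‖((kD k)^[j] (dd d f)) z‖ ≤ H * (C d * H ^ j) := by
          have := hz d k H hH hk
          have := hk d
          gcongr
      _ = C d * H ^ (j + 1) := by ring

/-- The vector of a point and its conjugate. -/
noncomputable def hk (h : Fin n → ℂ) : Fin n ⊕ Fin n → ℂ :=
  Sum.elim h (fun a => (starRingEnd ℂ) (h a))

lemma kD_hk (h : Fin n → ℂ) (f : Osm n) (x : Fin n → ℂ) :
    (kD (hk h) f) x = fderiv ℝ (f : (Fin n → ℂ) → ℂ) x h := by
  unfold kD
  rw [fderiv_eq, coe_sum, Fintype.sum_sum_type, Finset.sum_add_distrib]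
  congr 1
  · refine Finset.sum_congr rfl fun a _ => ?_
    rw [coe_smul]
    change h a * (D a f) x = _
    rw [D_apply]
  · refine Finset.sum_congr rfl fun a _ => ?_
    rw [coe_smul]
    change (starRingEnd ℂ) (h a) * (Dbar a f) x = _
    rw [Dbar_apply]

/-- The truncated Taylor polynomial. -/
noncomputable def tq (M : ℕ) (f : Osm n) (y : Fin n → ℂ) : MvPolynomial (Fin n ⊕ Fin n) ℂ :=
  ∑ j ∈ Finset.range (M + 1), MvPolynomial.C (1 / (j.factorial : ℂ)) * tp j f y

/-- Taylor's theorem. -/
theorem taylor_tq (M : ℕ) (f : Osm n) (y : Fin n → ℂ) :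
    ∃ C : ℝ, 0 ≤ C ∧ ∀ᶠ h in 𝓝 (0 : Fin n → ℂ),
      ‖f (y + h) - MvPolynomial.eval (hk h) (tq M f y)‖ ≤ C * ‖h‖ ^ (M + 1) := by
  obtain ⟨C, hC, hb⟩ := tp_bound (M + 1) f y
  obtain ⟨δ, hδ, hball⟩ := Metric.mem_nhds_iff.1 hb
  refine ⟨C, hC, ?_⟩
  filter_upwards [Metric.ball_mem_nhds (0 : Fin n → ℂ) hδ] with h hh
  rw [Metric.mem_ball, dist_zero_right] at hh
  have hkb : ∀ d, ‖hk h d‖ ≤ ‖h‖ := by
    intro d
    rcases d with a | a
    · exact norm_le_pi_norm h a
    · change ‖(starRingEnd ℂ) (h a)‖ ≤ _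
      rw [RCLike.norm_conj]
      exact norm_le_pi_norm h a
  have key := taylor_chain (fun j τ => ((kD (hk h))^[j] f) (y + (τ : ℝ) • h))
    (fun j τ => by
      rw [Function.iterate_succ_apply']
      set F : Osm n := (kD (hk h))^[j] f with hF
      have h1 : HasDerivAt (fun τ : ℝ => y + τ • h) h τ := by
        have := (hasDerivAt_id τ).smul_const h
        simpa using this.const_add y
      have h2 := (differentiable F (y + τ • h)).hasFDerivAt.comp_hasDerivAt τ h1
      rw [kD_hk]
      exact h2) (T := 1) (C := C * ‖h‖ ^ (M + 1)) M 0 (fun τ hτ => by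
        rw [zero_add]
        refine hball ?_ (hk h) ‖h‖ (norm_nonneg _) hkb
        rw [Metric.mem_ball, dist_eq_norm, add_sub_cancel_left, norm_smul, Real.norm_eq_abs]
        calc |τ| * ‖h‖ ≤ 1 * ‖h‖ := by gcongr
          _ < δ := by rwa [one_mul]) 1 (by simp)
  simp only [Function.iterate_zero, id_eq, one_smul, zero_add, zero_smul, add_zero,
    Complex.ofReal_one, one_pow, abs_one, mul_one] at key
  refine le_trans (le_of_eq ?_) key
  congr 2
  rw [tq, map_sum]
  refine Finset.sum_congr rfl fun j _ => ?_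
  rw [map_mul, MvPolynomial.eval_C, eval_tp]

/-- The full Taylor coefficients. -/
noncomputable def tcoef (f : Osm n) (y : Fin n → ℂ) (d : Fin n ⊕ Fin n →₀ ℕ) : ℂ :=
  (1 / (d.degree.factorial : ℂ)) * MvPolynomial.coeff d (tp d.degree f y)

lemma tcoef_continuous (f : Osm n) (d : Fin n ⊕ Fin n →₀ ℕ) :
    Continuous (fun y => tcoef f y d) :=
  continuous_const.mul (coeff_tp_continuous _ _ _)

lemma coeff_tq (M : ℕ) (f : Osm n) (y : Fin n → ℂ) (d : Fin n ⊕ Fin n →₀ ℕ) :
    MvPolynomial.coeff d (tq M f y) = if d.degree ≤ M then tcoef f y d else 0 := by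
  rw [tq, MvPolynomial.coeff_sum]
  simp only [MvPolynomial.coeff_C_mul]
  split_ifs with h
  · rw [Finset.sum_eq_single d.degree]
    · rfl
    · intro j _ hj
      rw [(tp_hom j f y).coeff_eq_zero (fun h => hj h.symm), mul_zero]
    · intro h'
      exact absurd (Finset.mem_range.2 (by omega)) h'
  · refine Finset.sum_eq_zero fun j hj => ?_
    rw [(tp_hom j f y).coeff_eq_zero (fun h' => ?_), mul_zero]
    rw [Finset.mem_range] at hj
    omega

/-- Taylor coefficients indexed by pairs of multi-indices. -/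
noncomputable def cf (f : Osm n) (y : Fin n → ℂ) (α β : Fin n →₀ ℕ) : ℂ :=
  tcoef f y (Finsupp.sumFinsuppEquivProdFinsupp.symm (α, β))

lemma cf_continuous (f : Osm n) (α β : Fin n →₀ ℕ) : Continuous (fun y => cf f y α β) :=
  tcoef_continuous f _

end Pool.Agent.Work.MP_80f671_an
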