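import Pool.Agent.Work.MP_80f671_an.Points
import Pool.Agent.Work.MP_80f671_an.CurveLemma
import Pool.Agent.Work.MP_80f671_an.LimitCurve

/-!
If Kohn's ideals do not reach `1`, the D'Angelo type is infinite.
-/

namespace Pool.Agent.Work.MP_80f671_an

open Filter Topology ContDiff Osm

variable {n : ℕ} {x₀ : Fin n → ℂ}

lemma pairing_trunc (c : (Fin n →₀ ℕ) → (Fin n →₀ ℕ) → ℂ) (ψ : Fin n → PowerSeries ℂ)
    {M a b : ℕ} (ha : a ≤ M) (hb : b ≤ M) :
    pairing c (fun i => ((PowerSeries.trunc (M + 1) (ψ i) : Polynomial ℂ) : PowerSeries ℂ)) a b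
      = pairing c ψ a b := by
  have hdvd : ∀ i, PowerSeries.X ^ (M + 1) ∣
      (((PowerSeries.trunc (M + 1) (ψ i) : Polynomial ℂ) : PowerSeries ℂ) - ψ i) := by
    intro i
    rw [PowerSeries.X_pow_dvd_iff]
    intro m hm
    rw [map_sub, Polynomial.coeff_coe, PowerSeries.coeff_trunc, if_pos hm, sub_self]
  have key : ∀ (α : Fin n →₀ ℕ) (k : ℕ), k ≤ M → PowerSeries.coeff k
      (∏ i, ((PowerSeries.trunc (M + 1) (ψ i) : Polynomial ℂ) : PowerSeries ℂ) ^ α i)
      = PowerSeries.coeff k (∏ i, ψ i ^ α i) := by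
    intro α k hk
    have h1 : PowerSeries.X ^ (M + 1) ∣
        ((∏ i, ((PowerSeries.trunc (M + 1) (ψ i) : Polynomial ℂ) : PowerSeries ℂ) ^ α i)
          - ∏ i, ψ i ^ α i) := by
      rw [← Ideal.mem_span_singleton, ← Ideal.Quotient.eq, map_prod, map_prod]
      refine Finset.prod_congr rfl fun i _ => ?_
      rw [map_pow, map_pow]
      congr 1
      rw [Ideal.Quotient.eq, Ideal.mem_span_singleton]
      exact hdvd i
    have h2 := PowerSeries.X_pow_dvd_iff.1 h1 k (by omega)
    rw [map_sub, sub_eq_zero] at h2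
    exact h2
  unfold pairing
  refine Finset.sum_congr rfl fun α _ => Finset.sum_congr rfl fun β _ => ?_
  rw [key α a ha, key β b hb]

/-- The infinite type conclusion for a formal curve of infinite contact. -/
theorem type_top_of_formal (r : (Fin n → ℂ) → ℝ) (hr : ContDiff ℝ ∞ r) (x₀ : Fin n → ℂ)
    (ψ : Fin n → PowerSeries ℂ) (hψ0 : ∀ i, PowerSeries.constantCoeff (ψ i) = 0)
    (i : Fin n) (hi : ψ i ≠ 0) (hψ : ∀ a b, pairing (cf (rC r hr) x₀) ψ a b = 0) :
    dAngeloType r x₀ = ⊤ := by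
  classical
  have hex : ∃ m, PowerSeries.coeff m (ψ i) ≠ 0 := by
    by_contra hcon
    push Not at hcon
    exact hi (PowerSeries.ext fun m => by rw [hcon, map_zero])
  set m := Nat.find hex with hm
  have hm1 : PowerSeries.coeff m (ψ i) ≠ 0 := Nat.find_spec hex
  have hm2 : ∀ j < m, PowerSeries.coeff j (ψ i) = 0 := fun j hj => by
    by_contra h
    exact Nat.find_min hex hj h
  have main : ∀ M : ℕ, m ≤ M → ((M + 1 : ℕ) : ENNReal) / (m : ENNReal) ≤ dAngeloType r x₀ := by
    intro M hM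
    set g : Fin n → Polynomial ℂ := fun l => PowerSeries.trunc (M + 1) (ψ l) with hg
    have hg0 : ∀ l, (g l).coeff 0 = 0 := by
      intro l
      rw [hg]
      simp only
      rw [PowerSeries.coeff_trunc, if_pos (by omega), PowerSeries.coeff_zero_eq_constantCoeff_apply,
        hψ0]
    set γ : ℂ → Fin n → ℂ := fun t => x₀ + fun l => (g l).eval t with hγ
    -- the polynomial `g i`
    obtain ⟨q, hq⟩ : Polynomial.X ^ m ∣ g i := by
      rw [Polynomial.X_pow_dvd_iff]
      intro j hj
      rw [hg]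
      simp only
      rw [PowerSeries.coeff_trunc, if_pos (by omega), hm2 j hj]
    have hq0 : q.eval 0 ≠ 0 := by
      rw [← Polynomial.coeff_zero_eq_eval_zero]
      have h1 : (g i).coeff m = q.coeff 0 := by
        rw [hq, Polynomial.coeff_X_pow_mul', if_pos le_rfl, Nat.sub_self]
      rw [← h1, hg]
      simp only
      rw [PowerSeries.coeff_trunc, if_pos (by omega)]
      exact hm1
    have han : AnalyticAt ℂ γ 0 := by
      rw [hγ]
      refine analyticAt_const.add ?_
      rw [analyticAt_pi_iff]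
      intro l
      exact AnalyticAt.aeval_polynomial analyticAt_id (g l)
    have hγ0 : γ 0 = x₀ := by
      rw [hγ]
      funext l
      simp only [Pi.add_apply]
      rw [← Polynomial.coeff_zero_eq_eval_zero, hg0, add_zero]
    have hqne : ∀ᶠ t in 𝓝 (0 : ℂ), q.eval t ≠ 0 := q.continuous.continuousAt.eventually_ne hq0
    have hfreq : ∃ᶠ t in 𝓝 (0 : ℂ), γ t ≠ x₀ := by
      have h1 : ∃ᶠ t in 𝓝 (0 : ℂ), t ≠ 0 := by
        have : (𝓝[≠] (0 : ℂ)).NeBot := inferInstance
        exact (eventually_mem_nhdsWithin (a := (0 : ℂ)) (s := {0}ᶜ)).frequently.filter_mono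
          nhdsWithin_le_nhds
      refine (h1.and_eventually hqne).mono ?_
      rintro t ⟨ht, hqt⟩ h
      have h2 := congrFun h i
      rw [hγ] at h2
      simp only [Pi.add_apply] at h2
      rw [add_eq_left, hq, Polynomial.eval_mul, Polynomial.eval_pow, Polynomial.eval_X] at h2
      exact mul_ne_zero (pow_ne_zero _ ht) hqt h2
    have hnum : ((M + 1 : ℕ) : ENNReal) ≤ vanishingOrder (fun t => r (γ t)) := by
      unfold vanishingOrder
      refine le_iSup₂_of_le (M + 1) ?_ le_rfl
      obtain ⟨C, hC, hb⟩ := taylor_curve M (rC r hr) x₀ hg0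
      refine Asymptotics.IsBigO.of_bound C ?_
      filter_upwards [hb] with t ht
      have h1 : ∑ j ∈ Finset.range (M + 1), ∑ p ∈ Finset.HasAntidiagonal.antidiagonal j,
          pairing (cf (rC r hr) x₀) (fun i => (g i : PowerSeries ℂ)) p.1 p.2 *
            (t ^ p.1 * (starRingEnd ℂ) t ^ p.2) = 0 := by
        refine Finset.sum_eq_zero fun j hj => Finset.sum_eq_zero fun p hp => ?_
        rw [Finset.mem_range] at hj
        rw [Finset.HasAntidiagonal.mem_antidiagonal] at hp
        rw [hg, pairing_trunc _ _ (by omega) (by omega), hψ, zero_mul]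
      rw [h1, sub_zero, rC_apply, Complex.norm_real] at ht
      rw [norm_pow, norm_norm]
      exact ht
    have hden : vanishingOrder (fun t => γ t - x₀) ≤ (m : ENNReal) := by
      unfold vanishingOrder
      refine iSup₂_le fun k hk => ?_
      by_contra hcon
      rw [not_le, Nat.cast_lt] at hcon
      obtain ⟨C, hC⟩ := hk.bound
      have h1 : ∀ᶠ t in 𝓝[≠] (0 : ℂ), ‖q.eval t‖ ≤ C * ‖t‖ ^ (k - m) := by
        filter_upwards [nhdsWithin_le_nhds hC, self_mem_nhdsWithin] with t ht ht0
        have h2 : ‖(g i).eval t‖ ≤ ‖γ t - x₀‖ := by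
          have h3 : (g i).eval t = (γ t - x₀) i := by
            rw [hγ]
            simp
          rw [h3]
          exact norm_le_pi_norm _ i
        rw [norm_pow, norm_norm] at ht
        rw [hq, Polynomial.eval_mul, Polynomial.eval_pow, Polynomial.eval_X, norm_mul, norm_pow] at h2
        have ht0' : 0 < ‖t‖ := norm_pos_iff.2 ht0
        have h4 : ‖t‖ ^ k = ‖t‖ ^ m * ‖t‖ ^ (k - m) := by
          rw [← pow_add]
          congr 1
          omega
        rw [h4] at ht
        have h5 : ‖t‖ ^ m * ‖q.eval t‖ ≤ ‖t‖ ^ m * (C * ‖t‖ ^ (k - m)) := by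
          calc _ ≤ _ := h2
            _ ≤ _ := ht
            _ = _ := by ring
        exact le_of_mul_le_mul_left h5 (by positivity)
      have hlim1 : Tendsto (fun t => ‖q.eval t‖) (𝓝[≠] (0 : ℂ)) (𝓝 ‖q.eval 0‖) :=
        (q.continuous.norm.tendsto 0).mono_left nhdsWithin_le_nhds
      have hlim2 : Tendsto (fun t : ℂ => C * ‖t‖ ^ (k - m)) (𝓝[≠] (0 : ℂ)) (𝓝 0) := by
        have h5 : Continuous (fun t : ℂ => C * ‖t‖ ^ (k - m)) := by fun_prop
        have h6 := h5.tendsto 0
        have h7 : k - m ≠ 0 := by omega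
        simp only [norm_zero, zero_pow h7, mul_zero] at h6
        exact h6.mono_left nhdsWithin_le_nhds
      have h8 := le_of_tendsto_of_tendsto hlim1 hlim2 h1
      exact hq0 (norm_eq_zero.1 (le_antisymm h8 (norm_nonneg _)))
    calc ((M + 1 : ℕ) : ENNReal) / (m : ENNReal)
        ≤ vanishingOrder (fun t => r (γ t)) / vanishingOrder (fun t => γ t - x₀) :=
          ENNReal.div_le_div hnum hden
      _ ≤ dAngeloType r x₀ := by
          unfold dAngeloType
          exact le_iSup_of_le γ (le_iSup_of_le han (le_iSup_of_le hγ0 (le_iSup_of_le hfreq le_rfl)))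
  refine ENNReal.eq_top_of_forall_nnreal_le fun R => ?_
  obtain ⟨k, hk⟩ := exists_nat_ge (R * m)
  refine le_trans ?_ (main (max k m) (le_max_right _ _))
  rw [ENNReal.le_div_iff_mul_le (Or.inr (by simp)) (Or.inr (ENNReal.natCast_ne_top _))]
  have h1 : R * (m : NNReal) ≤ ((max k m + 1 : ℕ) : NNReal) := by
    refine hk.trans ?_
    exact_mod_cast (le_max_left k m).trans (Nat.le_succ _)
  exact_mod_cast h1

/-- If Kohn's ideals do not reach `1`, the type is infinite. -/
theorem type_top (r : (Fin n → ℂ) → ℝ) (hr : ContDiff ℝ ∞ r)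
    {i₀ : Fin n} (hi₀ : (D i₀ (rC r hr)) x₀ ≠ 0) (hlow : LeviLow r hr x₀)
    (h1 : (1 : Osm n) ∉ JK r x₀) : dAngeloType r x₀ = ⊤ := by
  obtain ⟨l₀, H⟩ := exists_curves r hr hi₀ hlow h1
  choose y hy g hg0 hgi hg using fun ν : ℕ => H ν (1 / ((ν : ℝ) + 1)) (by positivity)
  have hylim : Tendsto y atTop (𝓝 x₀) := by
    rw [tendsto_iff_dist_tendsto_zero]
    exact squeeze_zero (fun _ => dist_nonneg) (fun ν => (hy ν).le)
      tendsto_one_div_add_atTop_nhds_zero_nat
  obtain ⟨ψ, hψ0, ⟨i, hi⟩, hψ⟩ := limit_curve curve_lemma l₀ g hg0 hgi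
    (fun ν => cf (rC r hr) (y ν)) (cf (rC r hr) x₀)
    (fun α β => ((cf_continuous (rC r hr) α β).tendsto x₀).comp hylim)
    (fun a b => by
      rw [tendsto_zero_iff_norm_tendsto_zero]
      refine squeeze_zero' (Eventually.of_forall fun _ => norm_nonneg _) ?_
        tendsto_one_div_add_atTop_nhds_zero_nat
      filter_upwards [eventually_ge_atTop (a + b)] with ν hν
      exact hg ν a b hν)
  exact type_top_of_formal r hr x₀ ψ hψ0 i hi hψ

end Pool.Agent.Work.MP_80f671_an
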