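import Pool.Agent.Work.MP_80f671_an.Vanish

/-!
Weights on the jet algebra and scaling of evaluations.
-/

namespace Pool.Agent.Work.MP_80f671_an

open Finset MvPolynomial

section general

variable {σ : Type*} (wt : σ → ℕ)

lemma mkDer_hom (f : σ → MvPolynomial σ ℂ)
    (hf : ∀ g, IsWeightedHomogeneous wt (f g) (wt g + 1)) {u : MvPolynomial σ ℂ} {d : ℕ}
    (hu : IsWeightedHomogeneous wt u d) :
    IsWeightedHomogeneous wt (mkDerivation ℂ f u) (d + 1) := by
  induction hu using IsWeightedHomogeneous.induction_on with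
  | zero =>
    rw [map_zero]
    exact isWeightedHomogeneous_zero _ _ _
  | add p q hp hq h1 h2 =>
    rw [map_add]
    exact h1.add h2
  | monomial s r hs =>
    rw [mkDerivation_monomial]
    rw [smul_eq_C_mul]
    refine IsWeightedHomogeneous.C_mul ?_ r
    rw [Finsupp.sum]
    refine IsWeightedHomogeneous.sum _ _ _ fun i hi => ?_
    rw [smul_eq_mul]
    have h1 : Finsupp.weight wt (s - Finsupp.single i 1) + wt i = d := by
      have h2 : s = (s - Finsupp.single i 1) + Finsupp.single i 1 := by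
        have hle : Finsupp.single i 1 ≤ s := by
          rw [Finsupp.single_le_iff]
          exact Nat.one_le_iff_ne_zero.2 (Finsupp.mem_support_iff.1 hi)
        exact (tsub_add_cancel_of_le hle).symm
      rw [← hs]
      conv_rhs => rw [h2]
      rw [map_add, Finsupp.weight_single, smul_eq_mul, one_mul]
    have h3 := (isWeightedHomogeneous_monomial wt (s - Finsupp.single i 1)
      ((s i : ℕ) : ℂ) rfl).mul (hf i)
    have h4 : Finsupp.weight wt (s - Finsupp.single i 1) + (wt i + 1) = d + 1 := by omega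
    rw [h4] at h3
    exact h3

lemma scale_eval {K : Type*} [Field K] [Algebra ℂ K] (φ ψ : MvPolynomial σ ℂ →ₐ[ℂ] K) (s : K)
    (N : ℕ) (h : ∀ g, wt g ≤ N → φ (X g) = s ^ wt g * ψ (X g)) {u : MvPolynomial σ ℂ} {d : ℕ}
    (hd : d ≤ N) (hu : IsWeightedHomogeneous wt u d) : φ u = s ^ d * ψ u := by
  induction hu using IsWeightedHomogeneous.induction_on with
  | zero => simp
  | add p q hp hq h1 h2 => rw [map_add, map_add, h1, h2, mul_add]
  | monomial m r hs =>
    rw [monomial_eq, map_mul, map_mul, Finsupp.prod, map_prod, map_prod]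
    have h1 : ∀ i ∈ m.support, φ (X i ^ m i) = s ^ (m i * wt i) * ψ (X i ^ m i) := by
      intro i hi
      have h2 : wt i ≤ N := by
        have := Finsupp.le_weight_of_ne_zero' wt (Finsupp.mem_support_iff.1 hi)
        omega
      rw [map_pow, map_pow, h i h2, mul_pow, ← pow_mul, mul_comm (wt i)]
    rw [prod_congr rfl h1, prod_mul_distrib, prod_pow_eq_pow_sum]
    have h3 : ∑ i ∈ m.support, m i * wt i = d := by
      rw [← hs, Finsupp.weight_apply, Finsupp.sum]
      rfl
    rw [h3]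
    have h4 : φ (C r) = ψ (C r) := by
      rw [← algebraMap_eq, AlgHom.commutes, AlgHom.commutes]
    rw [h4]
    ring

end general

section jets

variable {n : ℕ} {R ι : Type*} [CommRing R] [Algebra ℂ R]

/-- Weights of the generators. -/
def gw : Gen n R ι → ℕ
  | Gen.fn _ => 0
  | Gen.z _ α => α.card
  | Gen.w _ α => α.card

variable (D Db : Fin n → Derivation ℂ R R)

lemma hom_X (g : Gen n R ι) {d : ℕ} (h : gw g = d) :
    IsWeightedHomogeneous gw (X g : MvPolynomial (Gen n R ι) ℂ) d := by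
  subst h
  exact isWeightedHomogeneous_X _ _ _

lemma jA_hom (i : ι) {u : MvPolynomial (Gen n R ι) ℂ} {d : ℕ}
    (hu : IsWeightedHomogeneous gw u d) : IsWeightedHomogeneous gw (jA D i u) (d + 1) := by
  refine mkDer_hom gw _ ?_ hu
  intro g
  cases g with
  | fn f =>
    refine IsWeightedHomogeneous.sum _ _ _ fun a _ => ?_
    exact (hom_X (Gen.fn (D a f)) rfl).mul (hom_X (Gen.z a {i}) (by simp [gw]))
  | z l α => exact hom_X _ (by simp [gw])
  | w l α => exact isWeightedHomogeneous_zero _ _ _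

lemma jB_hom (i : ι) {u : MvPolynomial (Gen n R ι) ℂ} {d : ℕ}
    (hu : IsWeightedHomogeneous gw u d) : IsWeightedHomogeneous gw (jB Db i u) (d + 1) := by
  refine mkDer_hom gw _ ?_ hu
  intro g
  cases g with
  | fn f =>
    refine IsWeightedHomogeneous.sum _ _ _ fun a _ => ?_
    exact (hom_X (Gen.fn (Db a f)) rfl).mul (hom_X (Gen.w a {i}) (by simp [gw]))
  | z l α => exact isWeightedHomogeneous_zero _ _ _
  | w l α => exact hom_X _ (by simp [gw])

lemma jXi_hom [Fintype ι] (ξ : ι → ℂ) {u : MvPolynomial (Gen n R ι) ℂ} {d : ℕ}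
    (hu : IsWeightedHomogeneous gw u d) :
    IsWeightedHomogeneous gw (jXi D Db ξ u) (d + 1) := by
  rw [jXi_apply]
  refine IsWeightedHomogeneous.sum _ _ _ fun i _ => ?_
  rw [smul_eq_C_mul, smul_eq_C_mul]
  exact ((jA_hom D i hu).C_mul _).add ((jB_hom Db i hu).C_mul _)

lemma jXi_iter_hom [Fintype ι] (ξ : ι → ℂ) (j : ℕ) {u : MvPolynomial (Gen n R ι) ℂ} {d : ℕ}
    (hu : IsWeightedHomogeneous gw u d) :
    IsWeightedHomogeneous gw ((jXi D Db ξ)^[j] u) (d + j) := by
  induction j with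
  | zero => exact hu
  | succ j ih =>
    rw [Function.iterate_succ_apply']
    exact jXi_hom D Db ξ ih

lemma jXi_iter_sum [Fintype ι] {κ : Type*} (s : Finset κ) (ξ : ι → ℂ) (j : ℕ)
    (f : κ → MvPolynomial (Gen n R ι) ℂ) :
    (jXi D Db ξ)^[j] (∑ k ∈ s, f k) = ∑ k ∈ s, (jXi D Db ξ)^[j] (f k) := by
  have h : ∀ x, (jXi D Db ξ)^[j] x = (((jXi D Db ξ).toLinearMap : Module.End ℂ _) ^ j) x := by
    intro x
    rw [Module.End.pow_apply]
    rfl
  simp only [h, map_sum]

lemma jXi_iter_smul [Fintype ι] (ξ : ι → ℂ) (j : ℕ) (c : ℂ)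
    (x : MvPolynomial (Gen n R ι) ℂ) :
    (jXi D Db ξ)^[j] (c • x) = c • (jXi D Db ξ)^[j] x := by
  have h : ∀ x, (jXi D Db ξ)^[j] x = (((jXi D Db ξ).toLinearMap : Module.End ℂ _) ^ j) x := by
    intro x
    rw [Module.End.pow_apply]
    rfl
  simp only [h, map_smul]

lemma jconj_jXi [Fintype ι] (σ : R →+* R) (h : ∀ a f, σ (D a f) = Db a (σ f))
    (h' : ∀ a f, σ (Db a f) = D a (σ f)) (ξ : ι → ℂ) (u : MvPolynomial (Gen n R ι) ℂ) :
    jconj σ (jXi D Db ξ u) = jXi D Db ξ (jconj σ u) := by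
  rw [jXi_apply, jXi_apply, map_sum]
  refine sum_congr rfl fun i _ => ?_
  rw [map_add, smul_eq_C_mul, smul_eq_C_mul, map_mul, map_mul, jconj_C, jconj_C, jconj_jA σ D Db h,
    jconj_jB σ D Db h', Complex.conj_conj, smul_eq_C_mul, smul_eq_C_mul]
  ring

lemma jconj_jXi_iter [Fintype ι] (σ : R →+* R) (h : ∀ a f, σ (D a f) = Db a (σ f))
    (h' : ∀ a f, σ (Db a f) = D a (σ f)) (ξ : ι → ℂ) (j : ℕ)
    (u : MvPolynomial (Gen n R ι) ℂ) :
    jconj σ ((jXi D Db ξ)^[j] u) = (jXi D Db ξ)^[j] (jconj σ u) := by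
  induction j with
  | zero => rfl
  | succ j ih => rw [Function.iterate_succ_apply', Function.iterate_succ_apply',
      jconj_jXi D Db σ h h', ih]

lemma jconj_jconj (σ : R →+* R) (hσ : ∀ f, σ (σ f) = f) (u : MvPolynomial (Gen n R ι) ℂ) :
    jconj σ (jconj σ u) = u := by
  have h : (jconj (n := n) (ι := ι) σ).comp (jconj σ) = RingHom.id _ := by
    apply MvPolynomial.ringHom_ext
    · intro t
      simp
    · intro g
      cases g with
      | fn f => simp [hσ]
      | z l α => simp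
      | w l α => simp
  exact congrArg (fun φ : MvPolynomial (Gen n R ι) ℂ →+* _ => φ u) h

end jets

end Pool.Agent.Work.MP_80f671_an
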